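import Pool.Agent.Lib.MP_8f11b1_co_DU.RatQ

set_option autoImplicit false

namespace Pool.Agent.MP8f11b1

namespace Hr

variable {L κ β : Type} [Field L] [Algebra (ZMod 2) L] {g s : ℕ}

theorem span_cst_span (W : Set (κ → ZMod 2)) :
    Submodule.span L (cst '' ((Submodule.span (ZMod 2) W : Submodule (ZMod 2) (κ → ZMod 2)) :
      Set (κ → ZMod 2))) = Submodule.span L ((cst : (κ → ZMod 2) → κ → L) '' W) := by
  apply le_antisymm
  · rw [Submodule.span_le]
    rintro _ ⟨u, hu, rfl⟩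
    exact (desc_span (L := L) u W).2 hu
  · exact Submodule.span_mono (Set.image_mono Submodule.subset_span)

theorem cst_zero : (cst (0 : κ → ZMod 2) : κ → L) = 0 := by
  funext i
  simp [cst]

theorem cst_ne {u : κ → ZMod 2} (h : u ≠ 0) : (cst u : κ → L) ≠ 0 := by
  intro h1
  apply h
  apply cst_inj (L := L)
  rw [h1, cst_zero]

/-- description of `LL` -/
theorem mem_LL {X P : κ → ZMod 2} {x : (κ → L) × (Fin s → L)} :
    x ∈ LL s X P ↔ ∃ α β' : L, x = (α • cst X + β' • cst P, 0) := by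
  rw [LL, Submodule.mem_span_pair]
  constructor
  · rintro ⟨α, β', rfl⟩
    exact ⟨α, β', by ext <;> simp⟩
  · rintro ⟨α, β', rfl⟩
    exact ⟨α, β', by ext <;> simp⟩

theorem cst_mem_LL {X P u : κ → ZMod 2} (hu : u = X ∨ u = P ∨ u = X + P) :
    ((cst u, 0) : (κ → L) × (Fin s → L)) ∈ LL s X P := by
  rw [mem_LL]
  rcases hu with rfl | rfl | rfl
  · exact ⟨1, 0, by simp⟩
  · exact ⟨0, 1, by simp⟩
  · exact ⟨1, 1, by simp [cst_add]⟩

theorem char_add (x : κ → ZMod 2) : x + x = 0 := by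
  funext i
  have h : ∀ y : ZMod 2, y + y = 0 := by decide
  exact h (x i)

theorem xp_ne {X P : κ → ZMod 2} (h : X ≠ P) : X + P ≠ 0 := by
  intro h1
  apply h
  have h2 : X + P + P = P := by rw [h1, zero_add]
  rw [add_assoc, char_add, add_zero] at h2
  exact h2

/-- independence of `X` and `P` -/
theorem xp_indep {X P : κ → ZMod 2} (hX : X ≠ 0) (hP : P ≠ 0) (hXP : X ≠ P)
    {α β' : L} (h : α • (cst X : κ → L) + β' • cst P = 0) : α = 0 ∧ β' = 0 := by
  have h1 : LinearIndepOn (ZMod 2) (fun i : Bool => if i then X else P) Set.univ := by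
    rw [linearIndepOn_univ_iff, Fintype.linearIndependent_iff]
    intro c hc
    simp only [Fintype.sum_bool, if_true, Bool.false_eq_true, if_false] at hc
    have hz : ∀ x : ZMod 2, x = 0 ∨ x = 1 := by decide
    rcases hz (c true) with h1 | h1 <;> rcases hz (c false) with h2 | h2 <;>
      rw [h1, h2] at hc <;> simp at hc
    · intro i; cases i <;> simp [h1, h2]
    · exact absurd hc hP
    · exact absurd hc hX
    · exact absurd hc (xp_ne hXP)
  have h2 := (desc_indep (L := L) _ _).2 h1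
  rw [linearIndepOn_univ_iff, Fintype.linearIndependent_iff] at h2
  have h3 := h2 (fun i => if i then α else β') (by
    simp only [Fintype.sum_bool, if_true, Bool.false_eq_true, if_false]
    exact h)
  exact ⟨by simpa using h3 true, by simpa using h3 false⟩

theorem finrank_LL {X P : κ → ZMod 2} (hX : X ≠ 0) (hP : P ≠ 0) (hXP : X ≠ P) :
    Module.finrank L ↥(LL (L := L) s X P) = 2 := by
  have h3 : LinearIndependent L
      ![((cst X, 0) : (κ → L) × (Fin s → L)), ((cst P, 0) : (κ → L) × (Fin s → L))] := by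
    rw [LinearIndependent.pair_iff]
    intro α β' h
    apply xp_indep hX hP hXP
    have := congrArg Prod.fst h
    simpa using this
  have h4 := finrank_span_eq_card h3
  rw [LL]
  have h5 : Set.range ![((cst X, 0) : (κ → L) × (Fin s → L)),
      ((cst P, 0) : (κ → L) × (Fin s → L))] = {(cst X, 0), (cst P, 0)} := by
    simp only [Matrix.range_cons, Matrix.range_empty, Set.union_empty]
    rfl
  rw [h5] at h4
  rw [h4]
  simp

theorem inl_mem {v : β → κ → ZMod 2} {X P : κ → ZMod 2} {gam : Fin g → ZZ L s}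
    {C : Set (β ⊕ Fin g)} {z : β} (hz : Sum.inl z ∈ C) :
    ((cst (v z), 0) : (κ → L) × (Fin s → L)) ∈ SC v X P gam C :=
  Submodule.subset_span ⟨Sum.inl z, hz, rfl⟩

/-- the general form of the description of the contracted span -/
theorem rat_of (v : β → κ → ZMod 2) (X P : κ → ZMod 2) (gam : Fin g → ZZ L s)
    (C : Set (β ⊕ Fin g)) [Fintype κ] [Finite β] (W : Set (κ → ZMod 2))
    (h1 : ∀ u ∈ W, ((cst u, 0) : (κ → L) × (Fin s → L)) ∈ SC v X P gam C)
    (h2 : v '' {z | Sum.inl z ∈ C} ⊆ W)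
    (h3 : ∀ α β' : L, ((α • cst X + β' • cst P, 0) : (κ → L) × (Fin s → L)) ∈ SC v X P gam C →
      α • cst X + β' • cst P ∈ Submodule.span L ((cst : (κ → ZMod 2) → κ → L) '' W))
    (p : κ → L) : ((p, 0) : (κ → L) × (Fin s → L)) ∈ SC v X P gam C ↔
      p ∈ Submodule.span L (cst '' ((Submodule.span (ZMod 2) W : Submodule (ZMod 2) (κ → ZMod 2)) :
        Set (κ → ZMod 2))) := by
  rw [span_cst_span]
  constructor
  · intro h
    obtain ⟨α, β', h4, h5⟩ := (sc_bb v X P gam C p).1 h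
    have h6 := h3 α β' h4
    have h7 : p - (α • cst X + β' • cst P) ∈
        Submodule.span L ((cst : (κ → ZMod 2) → κ → L) '' W) :=
      Submodule.span_mono (Set.image_mono h2) h5
    have h8 := Submodule.add_mem _ h7 h6
    rwa [sub_add_cancel] at h8
  · intro h
    have h4 : Submodule.span L ((cst : (κ → ZMod 2) → κ → L) '' W) ≤
        (SC v X P gam C).comap (LinearMap.inl L (κ → L) (Fin s → L)) := by
      rw [Submodule.span_le]
      rintro _ ⟨u, hu, rfl⟩
      exact h1 u hu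
    exact h4 h

/-- case of trivial intersection -/
theorem rat0 [Fintype κ] [Finite β] {v : β → κ → ZMod 2} {X P : κ → ZMod 2}
    {gam : Fin g → ZZ L s} {C : Set (β ⊕ Fin g)} (h0 : LL s X P ⊓ SC v X P gam C = ⊥)
    (p : κ → L) : ((p, 0) : (κ → L) × (Fin s → L)) ∈ SC v X P gam C ↔
      p ∈ Submodule.span L (cst '' ((Submodule.span (ZMod 2) (v '' {z | Sum.inl z ∈ C}) :
        Submodule (ZMod 2) (κ → ZMod 2)) : Set (κ → ZMod 2))) := by
  apply rat_of
  · rintro _ ⟨z, hz, rfl⟩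
    exact inl_mem hz
  · exact le_rfl
  · intro α β' h
    have h1 : ((α • cst X + β' • cst P, 0) : (κ → L) × (Fin s → L)) ∈
        LL s X P ⊓ SC v X P gam C := ⟨mem_LL.2 ⟨α, β', rfl⟩, h⟩
    rw [h0, Submodule.mem_bot, Prod.mk_eq_zero] at h1
    rw [h1.1]
    exact Submodule.zero_mem _

/-- case of a rational line -/
theorem rat1 [Fintype κ] [Finite β] {v : β → κ → ZMod 2} {X P : κ → ZMod 2}
    {gam : Fin g → ZZ L s} {C : Set (β ⊕ Fin g)} (hX : X ≠ 0) (hP : P ≠ 0) (hXP : X ≠ P)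
    (h1 : Module.finrank L ↥(LL s X P ⊓ SC v X P gam C) = 1)
    (u : κ → ZMod 2) (hu : u = X ∨ u = P ∨ u = X + P)
    (huS : ((cst u, 0) : (κ → L) × (Fin s → L)) ∈ SC v X P gam C)
    (p : κ → L) : ((p, 0) : (κ → L) × (Fin s → L)) ∈ SC v X P gam C ↔
      p ∈ Submodule.span L (cst '' ((Submodule.span (ZMod 2) (insert u (v '' {z | Sum.inl z ∈ C})) :
        Submodule (ZMod 2) (κ → ZMod 2)) : Set (κ → ZMod 2))) := by
  have hu0 : u ≠ 0 := by
    rcases hu with rfl | rfl | rfl
    · exact hX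
    · exact hP
    · exact xp_ne hXP
  apply rat_of
  · rintro w (rfl | ⟨z, hz, rfl⟩)
    · exact huS
    · exact inl_mem hz
  · exact Set.subset_insert _ _
  · intro α β' h
    have h2 : ((cst u, 0) : (κ → L) × (Fin s → L)) ∈ LL s X P ⊓ SC v X P gam C :=
      ⟨cst_mem_LL hu, huS⟩
    have h3 : ((α • cst X + β' • cst P, 0) : (κ → L) × (Fin s → L)) ∈
        LL s X P ⊓ SC v X P gam C := ⟨mem_LL.2 ⟨α, β', rfl⟩, h⟩
    have h4 : (⟨_, h2⟩ : ↥(LL s X P ⊓ SC v X P gam C)) ≠ 0 := by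
      intro h5
      have h6 := congrArg Subtype.val h5
      have h7 : (cst u : κ → L) = 0 := congrArg Prod.fst h6
      exact cst_ne hu0 h7
    obtain ⟨c, hc⟩ := (finrank_eq_one_iff_of_nonzero' _ h4).1 h1 ⟨_, h3⟩
    have h5 : c • (cst u : κ → L) = α • cst X + β' • cst P :=
      congrArg (fun x => (x.1.1 : κ → L)) hc
    rw [← h5]
    exact Submodule.smul_mem _ _ (Submodule.subset_span ⟨u, Set.mem_insert _ _, rfl⟩)

/-- case of the whole plane -/
theorem rat2' [Fintype κ] [Finite β] {v : β → κ → ZMod 2} {X P : κ → ZMod 2}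
    {gam : Fin g → ZZ L s} {C : Set (β ⊕ Fin g)} (hX : X ≠ 0) (hP : P ≠ 0) (hXP : X ≠ P)
    (h2 : Module.finrank L ↥(LL s X P ⊓ SC v X P gam C) = 2) :
    LL s X P ≤ SC v X P gam C ∧
    ∀ p : κ → L, ((p, 0) : (κ → L) × (Fin s → L)) ∈ SC v X P gam C ↔
      p ∈ Submodule.span L (cst '' ((Submodule.span (ZMod 2)
        (insert X (insert P (v '' {z | Sum.inl z ∈ C}))) :
        Submodule (ZMod 2) (κ → ZMod 2)) : Set (κ → ZMod 2))) := by
  have hle : LL s X P ≤ SC v X P gam C := by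
    have h3 : LL s X P ⊓ SC v X P gam C = LL s X P := by
      apply Submodule.eq_of_le_of_finrank_le inf_le_left
      rw [h2, finrank_LL hX hP hXP]
    rw [← h3]
    exact inf_le_right
  refine ⟨hle, fun p => ?_⟩
  apply rat_of
  · rintro w (rfl | rfl | ⟨z, hz, rfl⟩)
    · exact hle (cst_mem_LL (Or.inl rfl))
    · exact hle (cst_mem_LL (Or.inr (Or.inl rfl)))
    · exact inl_mem hz
  · exact (Set.subset_insert _ _).trans (Set.subset_insert _ _)
  · intro α β' _
    exact Submodule.add_mem _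
      (Submodule.smul_mem _ _ (Submodule.subset_span ⟨X, Set.mem_insert _ _, rfl⟩))
      (Submodule.smul_mem _ _ (Submodule.subset_span
        ⟨P, Set.mem_insert_of_mem _ (Set.mem_insert _ _), rfl⟩))

theorem eb_card (E : Set (β ⊕ Fin g)) (hE : E.Finite) :
    {z | Sum.inl z ∈ E}.ncard + (E ∩ Set.range Sum.inr).ncard = E.ncard := by
  have h1 : {z | Sum.inl z ∈ E}.ncard = (Sum.inl '' {z | Sum.inl z ∈ E} :
      Set (β ⊕ Fin g)).ncard := (Set.ncard_image_of_injective _ Sum.inl_injective).symm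
  have h2 : (Sum.inl '' {z | Sum.inl z ∈ E} ∪ (E ∩ Set.range Sum.inr) : Set (β ⊕ Fin g)) = E := by
    ext z
    rcases z with z | c <;> simp
  have h3 : Disjoint (Sum.inl '' {z | Sum.inl z ∈ E} : Set (β ⊕ Fin g))
      (E ∩ Set.range Sum.inr) := by
    rw [Set.disjoint_left]
    rintro _ ⟨z, -, rfl⟩ ⟨-, c, h⟩
    exact absurd h (by simp)
  have h4 : (Sum.inl '' {z | Sum.inl z ∈ E} : Set (β ⊕ Fin g)).Finite := by
    apply hE.subset
    rintro _ ⟨z, hz, rfl⟩
    exact hz
  rw [h1, ← Set.ncard_union_eq h3 h4 (hE.inter_of_left _), h2]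

/-- the elements of `E` without small coordinates, as a finite set -/
noncomputable def EB [Finite β] (E : Set (β ⊕ Fin g)) : Finset β :=
  (Set.toFinite {z | Sum.inl z ∈ E}).toFinset

theorem mem_EB [Finite β] {E : Set (β ⊕ Fin g)} {z : β} : z ∈ EB E ↔ Sum.inl z ∈ E := by
  simp [EB]

theorem card_EB [Finite β] (E : Set (β ⊕ Fin g)) (hE : E.Finite) :
    (EB E).card + (E ∩ Set.range Sum.inr).ncard = E.ncard := by
  rw [← eb_card E hE, EB, ← Set.ncard_eq_toFinset_card]

/-- `cst` as a homomorphism -/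
def cstH (L : Type) [Field L] [Algebra (ZMod 2) L] (κ : Type) :
    (κ → ZMod 2) →+ (κ → L) := AddMonoidHom.mk' cst cst_add

theorem cstH_apply (u : κ → ZMod 2) : cstH L κ u = cst u := rfl

/-- a relation modulo the rational part -/
theorem sum_mem {v : β → κ → ZMod 2} {X P : κ → ZMod 2} {gam : Fin g → ZZ L s}
    {C : Set (β ⊕ Fin g)} {R : Submodule (ZMod 2) (κ → ZMod 2)}
    (hR : ∀ w ∈ R, ((cst w, 0) : (κ → L) × (Fin s → L)) ∈ SC v X P gam C)
    (u : κ → ZMod 2) (I : Finset β) (h : R.mkQ u = ∑ z ∈ I, R.mkQ (v z)) :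
    (((cst u, 0) : (κ → L) × (Fin s → L)) - ∑ z ∈ I, fB v X P gam (Sum.inl z)) ∈
      SC v X P gam C := by
  have h1 : u - ∑ z ∈ I, v z ∈ R := by
    rw [← map_sum, ← sub_eq_zero, ← map_sub, Submodule.mkQ_apply,
      Submodule.Quotient.mk_eq_zero] at h
    exact h
  have h2 := hR _ h1
  have h3 : (((cst (u - ∑ z ∈ I, v z), 0) : (κ → L) × (Fin s → L))) =
      ((cst u, 0) : (κ → L) × (Fin s → L)) - ∑ z ∈ I, fB v X P gam (Sum.inl z) := by
    rw [← cstH_apply, map_sub, map_sum, cstH_apply]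
    have h4 : ∑ z ∈ I, fB v X P gam (Sum.inl z) =
        (LinearMap.inl L (κ → L) (Fin s → L)) (∑ z ∈ I, cstH L κ (v z)) := by
      rw [map_sum]
      rfl
    rw [h4]
    exact Prod.ext rfl (sub_zero (0 : Fin s → L)).symm
  rw [← h3]
  exact h2

/-- an element of an independent set is not in the span of the others -/
theorem free_notMem [Fintype κ] {v : β → κ → ZMod 2} {X P : κ → ZMod 2} {gam : Fin g → ZZ L s}
    {a : ℕ} {C E : Set (β ⊕ Fin g)} (H : FreeHyp v X P gam a C E) {B : Set (β ⊕ Fin g)}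
    (hB : B ⊆ E) (hc : B.ncard ≤ a) {z : β ⊕ Fin g} (hz : z ∈ B) :
    fB v X P gam z ∉ Submodule.span L (fB v X P gam '' (B \ {z})) ⊔ SC v X P gam C := by
  have h1 := (H.unif B hB).2 hc
  have hzC : z ∉ C := fun h => Set.disjoint_left.1 H.disj h (hB hz)
  have h2 : B ∪ C = insert z (B \ {z} ∪ C) := by
    ext x
    simp only [Set.mem_union, Set.mem_insert_iff, Set.mem_sdiff, Set.mem_singleton_iff]
    constructor
    · rintro (h | h)
      · by_cases hx : x = z
        · exact Or.inl hx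
        · exact Or.inr (Or.inl ⟨h, hx⟩)
      · exact Or.inr (Or.inr h)
    · rintro (h | h | h)
      · rw [h]; exact Or.inl hz
      · exact Or.inl h.1
      · exact Or.inr h
  have h3 : z ∉ B \ {z} ∪ C := by
    rintro (h | h)
    · exact h.2 rfl
    · exact hzC h
  rw [h2, linearIndepOn_insert h3, Set.image_union, Submodule.span_union] at h1
  exact h1.2

/-- vectors of the small part lie in `LL + SC` -/
theorem small_mem {v : β → κ → ZMod 2} {X P : κ → ZMod 2} {gam : Fin g → ZZ L s}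
    {C : Set (β ⊕ Fin g)} (hB : BB L κ s ⊔ SC v X P gam C = ⊤) (c : Fin g) :
    fB v X P gam (Sum.inr c) ∈ LL s X P ⊔ SC v X P gam C := by
  have h1 : fB v X P gam (Sum.inr c) ∈ BB L κ s ⊔ SC v X P gam C := by rw [hB]; trivial
  obtain ⟨y, hy, σ, hσ, h2⟩ := Submodule.mem_sup.1 h1
  have hC : C = (C ∩ Set.range Sum.inl) ∪ (C ∩ Set.range Sum.inr) := by
    ext z
    rcases z with z | c <;> simp
  have hσ' : σ ∈ Submodule.span L (fB v X P gam '' (C ∩ Set.range Sum.inl)) ⊔
      Submodule.span L (fB v X P gam '' (C ∩ Set.range Sum.inr)) := by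
    rw [← Submodule.span_union, ← Set.image_union, ← hC]
    exact hσ
  obtain ⟨σ₁, h3, σ₂, h4, h5⟩ := Submodule.mem_sup.1 hσ'
  have h6 : σ₁ ∈ BB L κ s := by
    have hle : Submodule.span L (fB v X P gam '' (C ∩ Set.range Sum.inl)) ≤ BB L κ s := by
      rw [Submodule.span_le]
      rintro _ ⟨_, ⟨-, z, rfl⟩, rfl⟩
      simp [fB, BB]
    exact hle h3
  have h7 : ∀ x ∈ Submodule.span L (Set.range fun c => fB v X P gam (Sum.inr c)),
      ∃ α β' : L, x.1 = α • cst X + β' • cst P := by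
    intro x hx
    induction hx using Submodule.span_induction with
    | mem x hx =>
      obtain ⟨c, rfl⟩ := hx
      exact ⟨_, _, rfl⟩
    | zero => exact ⟨0, 0, by simp⟩
    | add x y _ _ hx hy =>
      obtain ⟨α, β', h⟩ := hx
      obtain ⟨α', β'', h'⟩ := hy
      refine ⟨α + α', β' + β'', ?_⟩
      rw [Prod.fst_add, h, h', add_smul, add_smul]
      abel
    | smul t x _ hx =>
      obtain ⟨α, β', h⟩ := hx
      refine ⟨t * α, t * β', ?_⟩
      rw [Prod.smul_fst, h, smul_add, smul_smul, smul_smul]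
  have h8 : fB v X P gam (Sum.inr c) - σ₂ ∈
      Submodule.span L (Set.range fun c => fB v X P gam (Sum.inr c)) := by
    refine Submodule.sub_mem _ (Submodule.subset_span ⟨c, rfl⟩) ?_
    refine Submodule.span_mono ?_ h4
    rintro _ ⟨_, ⟨-, c', rfl⟩, rfl⟩
    exact ⟨c', rfl⟩
  obtain ⟨α, β', h9⟩ := h7 _ h8
  have h10 : fB v X P gam (Sum.inr c) - σ₂ = y + σ₁ := by
    rw [← h2, ← h5]
    abel
  have h11 : (fB v X P gam (Sum.inr c) - σ₂).2 = 0 := by
    rw [h10]
    have h12 : y + σ₁ ∈ BB L κ s := Submodule.add_mem _ hy h6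
    simpa [BB] using h12
  have h12 : fB v X P gam (Sum.inr c) - σ₂ ∈ LL s X P := by
    rw [mem_LL]
    exact ⟨α, β', Prod.ext h9 h11⟩
  have h13 : σ₂ ∈ SC v X P gam C := by
    refine Submodule.span_mono ?_ h4
    exact Set.image_mono Set.inter_subset_left
  have h14 := Submodule.add_mem_sup h12 h13
  rwa [sub_add_cancel] at h14

end Hr

end Pool.Agent.MP8f11b1
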