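import Pool.Agent.Lib.MP_8f11b1_co_DU.Defs
import Pool.Agent.Lib.MP_8f11b1_co_RX.Lin

set_option autoImplicit false

namespace Pool.Agent.MP8f11b1

variable {A ε : Type} [AddCommGroup A] [Module (ZMod 2) A] [FiniteDimensional (ZMod 2) A]

omit [FiniteDimensional (ZMod 2) A] in
private theorem binA_dep (f : ε → A) {S T : Finset ε} (hT : T ⊆ S)
    (hS : LinearIndepOn (ZMod 2) f (S : Set ε)) (h0 : ∑ i ∈ T, f i = 0) : T = ∅ := by
  classical
  rw [linearIndepOn_finset_iff] at hS
  by_contra hne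
  obtain ⟨t, ht⟩ := Finset.nonempty_iff_ne_empty.2 hne
  have h1 := hS (fun i => if i ∈ T then 1 else 0) (by
    simp only [ite_smul, one_smul, zero_smul]
    rw [← Finset.sum_filter, Finset.filter_mem_eq_inter, Finset.inter_eq_right.2 hT, h0]) t (hT ht)
  simp [ht] at h1

private theorem binA_span (f : ε → A) {S : Finset ε}
    (hS : LinearIndepOn (ZMod 2) f (S : Set ε)) (hc : S.card = Module.finrank (ZMod 2) A)
    (u : A) : ∃ I ⊆ S, u = ∑ i ∈ I, f i := by
  classical
  have h1 : Submodule.span (ZMod 2) (f '' (S : Set ε)) = ⊤ :=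
    lin_span_top f hS (by rw [Set.ncard_coe_finset, hc])
  have hu : u ∈ Submodule.span (ZMod 2) (f '' (S : Set ε)) := h1 ▸ Submodule.mem_top
  rw [Submodule.mem_span_image_finset_iff_exists_fun'] at hu
  obtain ⟨c, hc⟩ := hu
  refine ⟨S.filter (fun i => c i = 1), Finset.filter_subset _ _, ?_⟩
  rw [Finset.sum_filter, ← hc]
  refine Finset.sum_congr rfl fun i _ => ?_
  rcases (by decide +revert : ∀ x : ZMod 2, x = 0 ∨ x = 1) (c i) with h | h
  · rw [h]; simp
  · rw [h]; simp

/-- `a + 1` vectors in a space of dimension `a`, any `a` of them independent: every vector is a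
sum of at most half of them. -/
theorem binC {a : ℕ} (ha : 1 ≤ a) (hA : Module.finrank (ZMod 2) A = a) (f : ε → A)
    (E : Finset ε) (hE : E.card = a + 1)
    (h : ∀ I ⊆ E, I.card ≤ a → LinearIndepOn (ZMod 2) f (I : Set ε)) (u : A) :
    ∃ I ⊆ E, 2 * I.card ≤ a + 1 ∧ u = ∑ i ∈ I, f i := by
  classical
  obtain ⟨z0, hz0⟩ : E.Nonempty := Finset.card_pos.1 (by omega)
  have hc' : (E.erase z0).card = a := by rw [Finset.card_erase_of_mem hz0]; omega
  have hl' := h (E.erase z0) (Finset.erase_subset _ _) hc'.le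
  have hE0 : ∑ i ∈ E, f i = 0 := by
    obtain ⟨J, hJ, hJs⟩ := binA_span f hl' (hc'.trans hA.symm) (f z0)
    have hz0J : z0 ∉ J := fun h0 => Finset.notMem_erase z0 E (hJ h0)
    have hsum : ∑ i ∈ insert z0 J, f i = 0 := by
      rw [Finset.sum_insert hz0J, ← hJs]
      exact ZModModule.add_self _
    have hJE : J = E.erase z0 := by
      refine Finset.Subset.antisymm hJ fun z1 hz1 => ?_
      by_contra hz1J
      have hz1E := Finset.mem_of_mem_erase hz1
      have h2 := h (E.erase z1) (Finset.erase_subset _ _)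
        (by rw [Finset.card_erase_of_mem hz1E]; omega)
      have h3 := binA_dep f (S := E.erase z1) (T := insert z0 J) (by
        refine Finset.insert_subset (Finset.mem_erase.2 ⟨?_, hz0⟩) fun x hx =>
          Finset.mem_erase.2 ⟨fun hxz => hz1J (hxz ▸ hx), Finset.mem_of_mem_erase (hJ hx)⟩
        exact (Finset.ne_of_mem_erase hz1).symm) h2 hsum
      exact Finset.insert_ne_empty _ _ h3
    rw [hJE, Finset.insert_erase hz0] at hsum
    exact hsum
  obtain ⟨I, hI, hIs⟩ := binA_span f hl' (hc'.trans hA.symm) u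
  have hIE : I ⊆ E := hI.trans (Finset.erase_subset _ _)
  by_cases h2 : 2 * I.card ≤ a + 1
  · exact ⟨I, hIE, h2, hIs⟩
  · refine ⟨E \ I, Finset.sdiff_subset, ?_, ?_⟩
    · have := Finset.card_sdiff_add_card_eq_card hIE
      omega
    · have h3 := Finset.sum_sdiff (f := f) hIE
      rw [hE0, ← hIs] at h3
      have h4 : ∑ i ∈ E \ I, f i = -u := eq_neg_of_add_eq_zero_left h3
      rw [h4, ZModModule.neg_eq_self]

/-- there are no `a + 2` vectors in a space of dimension `a ≥ 3`, any `a` independent -/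
theorem binU {a : ℕ} (ha : 3 ≤ a) (hA : Module.finrank (ZMod 2) A = a) (f : ε → A)
    (E : Finset ε) (hE : a + 2 ≤ E.card)
    (h : ∀ I ⊆ E, I.card ≤ a → LinearIndepOn (ZMod 2) f (I : Set ε)) : False := by
  classical
  obtain ⟨E0, hE0, hc0⟩ := Finset.exists_subset_card_eq (by omega : a + 1 ≤ E.card)
  obtain ⟨g, hg, hgE0⟩ := Finset.exists_mem_notMem_of_card_lt_card (by omega : E0.card < E.card)
  obtain ⟨I, hI, hIc, hIs⟩ := binC (by omega) hA f E0 hc0
    (fun I hI hIc => h I (hI.trans hE0) hIc) (f g)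
  have hgI : g ∉ I := fun h0 => hgE0 (hI h0)
  have hc : (insert g I).card ≤ a := by
    rw [Finset.card_insert_of_notMem hgI]
    omega
  have h1 := h (insert g I) (Finset.insert_subset hg (hI.trans hE0)) hc
  have h2 := binA_dep f Finset.Subset.rfl h1 (by
    rw [Finset.sum_insert hgI, ← hIs]
    exact ZModModule.add_self _)
  exact Finset.insert_ne_empty _ _ h2

end Pool.Agent.MP8f11b1
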