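import Pool.Agent.Lib.MP_8f11b1_co_DU.RatQ
import Pool.Agent.Lib.MP_8f11b1_co_DU.BinA
import Pool.Agent.Lib.MP_8f11b1_co_DU.Hr
import Pool.Agent.Lib.MP_8f11b1_co_RX.Lin

set_option autoImplicit false

namespace Pool.Agent.MP8f11b1

variable {L κ β : Type} [Field L] [Algebra (ZMod 2) L] [Fintype κ] [Finite β] {g s : ℕ}

theorem free_B0 {v : β → κ → ZMod 2} {X P : κ → ZMod 2} {gam : Fin g → ZZ L s} {a b : ℕ}
    {C E : Set (β ⊕ Fin g)} (H : FreeHyp v X P gam a C E) (ha : 3 ≤ a) (hab : a + 3 ≤ b)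
    (hne : ¬ (a = 3 ∧ b = 6)) (hE : E.ncard = b)
    (hB : BB L κ s ⊔ SC v X P gam C = ⊤) (h0 : LL s X P ⊓ SC v X P gam C = ⊥)
    (hZ : (E ∩ Set.range Sum.inr).ncard ≤ 2) : False := by
  classical
  have hEf : E.Finite := Set.finite_of_ncard_pos (by omega)
  have hCf : C.Finite := (lin_ncard_le _ H.ind).1
  have hR := Hr.rat0 (v := v) (X := X) (P := P) (gam := gam) (C := C) h0
  obtain ⟨h1, h2⟩ := ratQ H _ hR
  set R : Submodule (ZMod 2) (κ → ZMod 2) :=
    Submodule.span (ZMod 2) (v '' {z | Sum.inl z ∈ C}) with hRdef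
  have h3 := Hr.card_EB E hEf
  have hind : ∀ I ⊆ Hr.EB E, I.card ≤ a →
      LinearIndepOn (ZMod 2) (fun z => R.mkQ (v z)) (I : Set β) :=
    fun I hI hIc => h2 I (fun z hz => Hr.mem_EB.1 (hI hz)) hIc
  have h4 : (Hr.EB E).card ≤ a + 1 := by
    by_contra hlt
    exact binU ha (h1 hB) (fun z => R.mkQ (v z)) (Hr.EB E) (by omega) hind
  have h5 : (Hr.EB E).card = a + 1 := by omega
  have h6 : (E ∩ Set.range Sum.inr).ncard = 2 := by omega
  have h7 : 4 ≤ a := by
    by_contra hlt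
    apply hne
    omega
  obtain ⟨I, hI, hIc, hIX⟩ := binC (by omega) (h1 hB) (fun z => R.mkQ (v z)) (Hr.EB E) h5 hind
    (R.mkQ X)
  obtain ⟨x₁, x₂, hx12, hx⟩ := Set.ncard_eq_two.1 h6
  have hx1 : x₁ ∈ E ∩ Set.range Sum.inr := by rw [hx]; simp
  have hx2 : x₂ ∈ E ∩ Set.range Sum.inr := by rw [hx]; simp
  obtain ⟨hx1E, c₁, rfl⟩ := hx1
  obtain ⟨hx2E, c₂, rfl⟩ := hx2
  set D : Set (β ⊕ Fin g) := {Sum.inr c₁, Sum.inr c₂} with hD
  have hDE : D ⊆ E := by
    rintro x (rfl | rfl)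
    · exact hx1E
    · exact hx2E
  have hDc : D.ncard = 2 := Set.ncard_pair hx12
  have hDI := (H.unif D hDE).2 (by omega)
  have hDd : Disjoint D C := (H.disj.mono_right hDE).symm
  have hDr := lin_finrank_span _ hDI ((hEf.subset hDE).union hCf)
  rw [Set.ncard_union_eq hDd (hEf.subset hDE) hCf, hDc] at hDr
  have hSr : Module.finrank L ↥(SC v X P gam C) = C.ncard := lin_finrank_span _ H.ind hCf
  have hLr := Submodule.finrank_sup_add_finrank_inf_eq (LL s X P) (SC v X P gam C)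
  rw [h0, finrank_bot, Hr.finrank_LL H.xne H.pne H.xp, hSr] at hLr
  have hle : Submodule.span L (fB v X P gam '' (D ∪ C)) ≤ LL s X P ⊔ SC v X P gam C := by
    rw [Submodule.span_le]
    rintro _ ⟨z, hz | hz, rfl⟩
    · rcases hz with rfl | rfl
      · exact Hr.small_mem hB c₁
      · exact Hr.small_mem hB c₂
    · exact Submodule.mem_sup_right (Submodule.subset_span ⟨z, hz, rfl⟩)
  have heq := Submodule.eq_of_le_of_finrank_le hle (by omega)
  have hX : ((cst X, 0) : (κ → L) × (Fin s → L)) ∈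
      Submodule.span L (fB v X P gam '' (D ∪ C)) := by
    rw [heq]
    exact Submodule.mem_sup_left (Hr.cst_mem_LL (Or.inl rfl))
  have hRm : ∀ w ∈ R, ((cst w, 0) : (κ → L) × (Fin s → L)) ∈ SC v X P gam C :=
    fun w hw => (hR _).2 (Submodule.subset_span ⟨w, hw, rfl⟩)
  have hsum := Hr.sum_mem hRm X I hIX
  have hIne : I.Nonempty := by
    rw [Finset.nonempty_iff_ne_empty]
    rintro rfl
    rw [Finset.sum_empty, sub_zero] at hsum
    have h8 : ((cst X, 0) : (κ → L) × (Fin s → L)) ∈ LL s X P ⊓ SC v X P gam C :=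
      ⟨Hr.cst_mem_LL (Or.inl rfl), hsum⟩
    rw [h0, Submodule.mem_bot, Prod.mk_eq_zero] at h8
    exact Hr.cst_ne H.xne h8.1
  obtain ⟨z₀, hz₀⟩ := hIne
  have hBE : (D ∪ Sum.inl '' (I : Set β)) ⊆ E := by
    apply Set.union_subset hDE
    rintro _ ⟨z, hz, rfl⟩
    exact Hr.mem_EB.1 (hI hz)
  have hBc : (D ∪ Sum.inl '' (I : Set β)).ncard ≤ a := by
    refine (Set.ncard_union_le _ _).trans ?_
    rw [hDc, Set.ncard_image_of_injective _ Sum.inl_injective, Set.ncard_coe_finset]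
    omega
  apply Hr.free_notMem H hBE hBc (z := Sum.inl z₀) (Or.inr ⟨z₀, hz₀, rfl⟩)
  set T := Submodule.span L
    (fB v X P gam '' ((D ∪ Sum.inl '' (I : Set β)) \ {Sum.inl z₀})) ⊔ SC v X P gam C with hT
  have hST : SC v X P gam C ≤ T := le_sup_right
  have hDT : ∀ z ∈ D, fB v X P gam z ∈ T := by
    intro z hz
    apply Submodule.mem_sup_left
    apply Submodule.subset_span
    refine ⟨z, ⟨Or.inl hz, ?_⟩, rfl⟩
    rintro rfl
    rcases hz with h | h
    · exact absurd h (by simp)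
    · exact absurd h (by simp)
  have hXT : ((cst X, 0) : (κ → L) × (Fin s → L)) ∈ T := by
    have hle2 : Submodule.span L (fB v X P gam '' (D ∪ C)) ≤ T := by
      rw [Submodule.span_le]
      rintro _ ⟨z, hz | hz, rfl⟩
      · exact hDT z hz
      · exact hST (Submodule.subset_span ⟨z, hz, rfl⟩)
    exact hle2 hX
  have hsT : ∑ z ∈ I, fB v X P gam (Sum.inl z) ∈ T := by
    have h8 := Submodule.sub_mem _ hXT (hST hsum)
    rwa [sub_sub_cancel] at h8
  rw [← Finset.add_sum_erase I _ hz₀] at hsT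
  have hsT2 : ∑ z ∈ I.erase z₀, fB v X P gam (Sum.inl z) ∈ T := by
    apply Submodule.sum_mem
    intro z hz
    apply Submodule.mem_sup_left
    apply Submodule.subset_span
    refine ⟨Sum.inl z, ⟨Or.inr ⟨z, Finset.mem_of_mem_erase hz, rfl⟩, ?_⟩, rfl⟩
    intro h
    exact Finset.ne_of_mem_erase hz (Sum.inl_injective h)
  have h9 := Submodule.sub_mem _ hsT hsT2
  rwa [add_sub_cancel_right] at h9

end Pool.Agent.MP8f11b1
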