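import Pool.Agent.Lib.MP_8f11b1_co_DU.RatQ
import Pool.Agent.Lib.MP_8f11b1_co_DU.BinA
import Pool.Agent.Lib.MP_8f11b1_co_DU.Hr

set_option autoImplicit false

namespace Pool.Agent.MP8f11b1

variable {L κ β : Type} [Field L] [Algebra (ZMod 2) L] [Fintype κ] [Finite β] {g s : ℕ}

theorem free_B1a {v : β → κ → ZMod 2} {X P : κ → ZMod 2} {gam : Fin g → ZZ L s} {a b : ℕ}
    {C E : Set (β ⊕ Fin g)} (H : FreeHyp v X P gam a C E) (ha : 3 ≤ a) (hab : a + 3 ≤ b)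
    (hE : E.ncard = b)
    (hB : BB L κ s ⊔ SC v X P gam C = ⊤)
    (h1 : Module.finrank L ↥(LL s X P ⊓ SC v X P gam C) = 1)
    (u : κ → ZMod 2) (hu : u = X ∨ u = P ∨ u = X + P)
    (huS : ((cst u, 0) : (κ → L) × (Fin s → L)) ∈ SC v X P gam C)
    (hZ : (E ∩ Set.range Sum.inr).ncard ≤ 1) : False := by
  have hEf : E.Finite := Set.finite_of_ncard_pos (by omega)
  obtain ⟨h2, h3⟩ := ratQ H _ (Hr.rat1 H.xne H.pne H.xp h1 u hu huS)
  have h4 := Hr.card_EB E hEf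
  refine binU ha (h2 hB) (fun z => Submodule.mkQ _ (v z)) (Hr.EB E) (by omega) ?_
  intro I hI hIc
  exact h3 I (fun z hz => Hr.mem_EB.1 (hI hz)) hIc

theorem free_B2 {v : β → κ → ZMod 2} {X P : κ → ZMod 2} {gam : Fin g → ZZ L s} {a b : ℕ}
    {C E : Set (β ⊕ Fin g)} (H : FreeHyp v X P gam a C E) (ha : 3 ≤ a) (hab : a + 3 ≤ b)
    (hE : E.ncard = b)
    (hB : BB L κ s ⊔ SC v X P gam C = ⊤)
    (h2 : Module.finrank L ↥(LL s X P ⊓ SC v X P gam C) = 2)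
    (hZ : (E ∩ Set.range Sum.inr).ncard = 0) : False := by
  have hEf : E.Finite := Set.finite_of_ncard_pos (by omega)
  obtain ⟨h1, h3⟩ := ratQ H _ (Hr.rat2' H.xne H.pne H.xp h2).2
  have h4 := Hr.card_EB E hEf
  refine binU ha (h1 hB) (fun z => Submodule.mkQ _ (v z)) (Hr.EB E) (by omega) ?_
  intro I hI hIc
  exact h3 I (fun z hz => Hr.mem_EB.1 (hI hz)) hIc

end Pool.Agent.MP8f11b1
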