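import Pool.Agent.Lib.MP_8f11b1_co_DU.Nonrat

set_option autoImplicit false

namespace Pool.Agent.MP8f11b1

variable {L κ β : Type} [Field L] [Algebra (ZMod 2) L] [Fintype κ] [Finite β] {g s : ℕ}

private theorem freeB1b_mem {v : β → κ → ZMod 2} {X P : κ → ZMod 2} {gam : Fin g → ZZ L s}
    {C : Set (β ⊕ Fin g)} (hB : BB L κ s ⊔ SC v X P gam C = ⊤) (c : Fin g) :
    fB v X P gam (Sum.inr c) ∈ LL s X P ⊔ SC v X P gam C := by
  have h1 : fB v X P gam (Sum.inr c) ∈ BB L κ s ⊔ SC v X P gam C := hB ▸ Submodule.mem_top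
  obtain ⟨p, hp, σ, hσ, hps⟩ := Submodule.mem_sup.1 h1
  have hp2 : p.2 = 0 := hp
  have hle : SC v X P gam C ≤ SC v X P gam (insert (Sum.inr c) C) :=
    Submodule.span_mono (Set.image_mono (Set.subset_insert _ _))
  have h2 : ((p.1, 0) : (κ → L) × (Fin s → L)) ∈ SC v X P gam (insert (Sum.inr c) C) := by
    have h3 : ((p.1, 0) : (κ → L) × (Fin s → L)) = fB v X P gam (Sum.inr c) - σ := by
      rw [← hps, add_sub_cancel_right]
      exact Prod.ext rfl hp2.symm
    rw [h3]
    exact Submodule.sub_mem _ (Submodule.subset_span ⟨_, Set.mem_insert _ _, rfl⟩) (hle hσ)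
  obtain ⟨α, β', -, h4⟩ := (sc_bb v X P gam _ p.1).1 h2
  have hC1 : {z | Sum.inl z ∈ insert (Sum.inr c) C} = {z : β | (Sum.inl z : β ⊕ Fin g) ∈ C} := by
    ext z
    constructor
    · rintro (h | h)
      · exact absurd h Sum.inl_ne_inr
      · exact h
    · exact fun h => Or.inr h
  rw [hC1] at h4
  have hle2 : Submodule.map (LinearMap.inl L (κ → L) (Fin s → L))
      (Submodule.span L (cst '' (v '' {z | Sum.inl z ∈ C}))) ≤ SC v X P gam C := by
    rw [Submodule.map_span, Submodule.span_le]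
    rintro _ ⟨_, ⟨_, ⟨z, hz, rfl⟩, rfl⟩, rfl⟩
    exact Submodule.subset_span ⟨Sum.inl z, hz, rfl⟩
  have h5 : ((α • cst X + β' • cst P, 0) : (κ → L) × (Fin s → L)) ∈ LL s X P := by
    have h6 : ((α • cst X + β' • cst P, 0) : (κ → L) × (Fin s → L)) =
        α • ((cst X, 0) : (κ → L) × (Fin s → L)) + β' • ((cst P, 0) : (κ → L) × (Fin s → L)) := by
      refine Prod.ext rfl ?_
      show (0 : Fin s → L) = α • (0 : Fin s → L) + β' • (0 : Fin s → L)
      rw [smul_zero, smul_zero, add_zero]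
    rw [h6]
    exact Submodule.add_mem _ (Submodule.smul_mem _ _ (Submodule.subset_span (Or.inl rfl)))
      (Submodule.smul_mem _ _ (Submodule.subset_span (Or.inr rfl)))
  have h7 : fB v X P gam (Sum.inr c) = ((α • cst X + β' • cst P, 0) : (κ → L) × (Fin s → L)) +
      (LinearMap.inl L (κ → L) (Fin s → L) (p.1 - (α • cst X + β' • cst P)) + σ) := by
    rw [← hps, ← add_assoc]
    congr 1
    refine Prod.ext ?_ ?_
    · show p.1 = α • cst X + β' • cst P + (p.1 - (α • cst X + β' • cst P))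
      abel
    · show p.2 = (0 : Fin s → L) + 0
      rw [add_zero, hp2]
  rw [h7]
  exact Submodule.add_mem_sup h5 (Submodule.add_mem _ (hle2 ⟨_, h4, rfl⟩) hσ)

private theorem freeB1b_line {v : β → κ → ZMod 2} {X P : κ → ZMod 2} {gam : Fin g → ZZ L s}
    {a : ℕ} {C E : Set (β ⊕ Fin g)} (H : FreeHyp v X P gam a C E) (ha : 3 ≤ a)
    (hB : BB L κ s ⊔ SC v X P gam C = ⊤)
    (h1 : Module.finrank L ↥(LL s X P ⊓ SC v X P gam C) = 1) (c : Fin g)
    (hc : Sum.inr c ∈ E) : LL s X P ⊔ SC v X P gam C =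
      Submodule.span L {fB v X P gam (Sum.inr c)} ⊔ SC v X P gam C := by
  classical
  symm
  apply Submodule.eq_of_le_of_finrank_le
  · refine sup_le ?_ le_sup_right
    rw [Submodule.span_singleton_le_iff_mem]
    exact freeB1b_mem hB c
  · have h2 := Submodule.finrank_sup_add_finrank_inf_eq (LL s X P : Submodule L _)
      (SC v X P gam C)
    have h3 : Module.finrank L (LL s X P : Submodule L ((κ → L) × (Fin s → L))) ≤ 2 := by
      have h4 := finrank_span_finset_le_card (R := L)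
        ({(cst X, 0), (cst P, 0)} : Finset ((κ → L) × (Fin s → L)))
      rw [Finset.coe_insert, Finset.coe_singleton] at h4
      exact h4.trans Finset.card_le_two
    have hnot : fB v X P gam (Sum.inr c) ∉ SC v X P gam C := by
      have h5 := (H.unif {Sum.inr c} (Set.singleton_subset_iff.2 hc)).2
        (by rw [Set.ncard_singleton]; omega)
      have h6 : (Sum.inr c : β ⊕ Fin g) ∉ C := fun h => Set.disjoint_left.1 H.disj h hc
      rw [Set.singleton_union, linearIndepOn_insert h6] at h5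
      exact h5.2
    have h7 : SC v X P gam C < Submodule.span L {fB v X P gam (Sum.inr c)} ⊔ SC v X P gam C := by
      refine lt_of_le_of_ne le_sup_right fun h => hnot ?_
      rw [h]
      exact Submodule.mem_sup_left (Submodule.mem_span_singleton_self _)
    have h8 := Submodule.finrank_lt_finrank_of_lt h7
    omega

theorem free_B1b {v : β → κ → ZMod 2} {X P : κ → ZMod 2} {gam : Fin g → ZZ L s} {a b : ℕ}
    {C E : Set (β ⊕ Fin g)} (H : FreeHyp v X P gam a C E) (ha : 3 ≤ a) (hab : a + 3 ≤ b)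
    (hne : ¬ (a = 3 ∧ b = 6)) (hE : E.ncard = b) (hs : s + 2 = a)
    (hB : BB L κ s ⊔ SC v X P gam C = ⊤)
    (h1 : Module.finrank L ↥(LL s X P ⊓ SC v X P gam C) = 1)
    (hu : ∀ u : κ → ZMod 2, (u = X ∨ u = P ∨ u = X + P) →
      ((cst u, 0) : (κ → L) × (Fin s → L)) ∉ SC v X P gam C)
    (hZ : (E ∩ Set.range Sum.inr).ncard ≤ 1) : False := by
  classical
  have := Fintype.ofFinite β
  obtain ⟨n1, n2, n3⟩ := nonrat H h1 hu _ rfl
  have hA := n1 hB
  obtain ⟨R, hR⟩ : ∃ R, R = Submodule.span (ZMod 2) (v '' {z | Sum.inl z ∈ C}) := ⟨_, rfl⟩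
  rw [← hR] at hA n2 n3
  obtain ⟨EB, hEB⟩ : ∃ EB : Finset β, EB = Finset.univ.filter (fun z => Sum.inl z ∈ E) := ⟨_, rfl⟩
  have hmem : ∀ z, z ∈ EB ↔ Sum.inl z ∈ E := fun z => by rw [hEB]; simp
  have hcard : E.ncard = EB.card + (E ∩ Set.range Sum.inr).ncard := by
    have h2 : E = (Sum.inl '' (EB : Set β)) ∪ (E ∩ Set.range Sum.inr) := by
      ext z
      rcases z with z | c
      · constructor
        · exact fun h => Or.inl ⟨z, (hmem z).2 h, rfl⟩
        · rintro (⟨z', hz', h⟩ | h)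
          · rw [← h]; exact (hmem z').1 hz'
          · exact h.1
      · constructor
        · exact fun h => Or.inr ⟨h, c, rfl⟩
        · rintro (⟨z', hz', h⟩ | h)
          · exact absurd h Sum.inl_ne_inr
          · exact h.1
    conv_lhs => rw [h2]
    rw [Set.ncard_union_eq, Set.ncard_image_of_injective _ Sum.inl_injective,
      Set.ncard_coe_finset]
    · rw [Set.disjoint_left]
      rintro _ ⟨z, _, rfl⟩ ⟨_, c, hc⟩
      exact Sum.inr_ne_inl hc
  have hind : ∀ I ⊆ EB, I.card ≤ a →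
      LinearIndepOn (ZMod 2) (fun z => R.mkQ (v z)) (I : Set β) :=
    fun I hI hc => (n2 I (fun z hz => (hmem z).1 (hI hz)) hc).1
  by_cases hc : ∃ c : Fin g, Sum.inr c ∈ E
  · obtain ⟨c, hc⟩ := hc
    obtain ⟨u', hu', I, hI, hIc, hsum⟩ := bin1 ha hA (fun z => R.mkQ (v z)) EB (by omega) hind
      (R.mkQ X) (R.mkQ P)
    have h3 : ∃ u : κ → ZMod 2, (u = X ∨ u = P ∨ u = X + P) ∧ R.mkQ u = u' := by
      rcases hu' with h | h | h
      · exact ⟨X, Or.inl rfl, h.symm⟩
      · exact ⟨P, Or.inr (Or.inl rfl), h.symm⟩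
      · exact ⟨X + P, Or.inr (Or.inr rfl), by rw [map_add, h]⟩
    obtain ⟨u, hux, huu⟩ := h3
    exact n3 c hc (freeB1b_line H ha hB h1 c hc) u hux I (fun z hz => (hmem z).1 (hI hz))
      (by omega) (huu.trans hsum)
  · have h4 : E ∩ Set.range Sum.inr = ∅ := by
      ext z
      constructor
      · rintro ⟨h, c, rfl⟩
        exact absurd ⟨c, h⟩ hc
      · exact fun h => h.elim
    rw [h4, Set.ncard_empty, add_zero] at hcard
    by_cases h5 : 4 ≤ a
    · exact bin2 h5 hA (fun z => R.mkQ (v z)) EB (by omega) hind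
    · have h6 : a = 3 := by omega
      subst h6
      have h7 : b ≠ 6 := fun h => hne ⟨rfl, h⟩
      obtain ⟨I, hI, hIc, hX, hP⟩ := bin3 hA (fun z => R.mkQ (v z)) EB (by omega) hind
        (R.mkQ X) (R.mkQ P)
      exact (n2 I (fun z hz => (hmem z).1 (hI hz)) (by omega)).2 ⟨hX, hP⟩

end Pool.Agent.MP8f11b1
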