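import Pool.Agent.Lib.MP_8f11b1_co_DU.Defs
import Pool.Agent.Lib.MP_8f11b1_co_RX.IsoM

set_option autoImplicit false

namespace Pool.Agent.MP8f11b1

variable {α β ε : Type}

theorem isU_of_iso {M : Matroid α} {N : Matroid β} {a b : ℕ} (h : Iso M N) (hN : IsU a b N) :
    IsU a b M := by
  obtain ⟨e, he⟩ := h
  refine ⟨?_, ?_, fun I hI => ?_⟩
  · have h1 : Finite ↥N.E := hN.1
    have h2 : Finite ↥M.E := Finite.of_equiv _ e.symm
    exact Set.toFinite _
  · rw [← hN.2.1, ← Nat.card_coe_set_eq, ← Nat.card_coe_set_eq]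
    exact Nat.card_congr e
  · rw [IsoM.indep_tr e he hI, hN.2.2 _ (IsoM.tr_subset e I)]
    unfold IsoM.tr
    rw [Set.ncard_image_of_injective _ Subtype.val_injective,
      Set.ncard_image_of_injective _ e.injective]
    have h1 : I.ncard = (Subtype.val ⁻¹' I : Set ↥M.E).ncard := by
      conv_lhs => rw [← IsoM.val_pre hI]
      rw [Set.ncard_image_of_injective _ Subtype.val_injective]
    rw [h1]

theorem iso_of_isU {M : Matroid α} {N : Matroid β} {a b : ℕ} (hM : IsU a b M)
    (hN : IsU a b N) : Iso M N := by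
  have h1 : Finite ↥M.E := hM.1
  have h2 : Finite ↥N.E := hN.1
  have h3 : Nat.card ↥M.E = Nat.card ↥N.E := by
    rw [Nat.card_coe_set_eq, Nat.card_coe_set_eq, hM.2.1, hN.2.1]
  obtain ⟨e⟩ := (Finite.card_eq).1 h3
  refine ⟨e, fun I => ?_⟩
  rw [hM.2.2 _ (by rintro _ ⟨x, _, rfl⟩; exact x.2),
    hN.2.2 _ (by rintro _ ⟨x, _, rfl⟩; exact x.2),
    Set.ncard_image_of_injective _ Subtype.val_injective,
    Set.ncard_image_of_injective _ Subtype.val_injective,
    Set.ncard_image_of_injective _ e.injective]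

/-- a uniform minor from a contraction set and an injection -/
theorem minor_isU (M : Matroid α) {a : ℕ} [Fintype ε] (X : Set α) (hX : M.Indep X) (j : ε → α)
    (hj : Function.Injective j) (hE : ∀ b, j b ∈ M.E ∧ j b ∉ X)
    (hN : ∀ B : Set ε, M.Indep (j '' B ∪ X) ↔ B.ncard ≤ a)
    (U : Matroid β) (hU : IsU a (Fintype.card ε) U) :
    ∃ M' : Matroid α, M'.IsMinor M ∧ Iso M' U := by
  have hR : Set.range j ⊆ (M.contract X).E := by
    rintro _ ⟨b, rfl⟩
    rw [Matroid.contract_ground]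
    exact hE b
  refine ⟨(M.contract X).restrict (Set.range j), ?_, ?_⟩
  · rw [← Matroid.delete_compl hR]
    exact Matroid.contract_delete_isMinor M X _
  · refine iso_of_isU ?_ hU
    refine ⟨Set.finite_range j, ?_, fun I hI => ?_⟩
    · rw [Matroid.restrict_ground_eq, ← Set.image_univ, Set.ncard_image_of_injective _ hj,
        Set.ncard_univ, Nat.card_eq_fintype_card]
    · rw [Matroid.restrict_ground_eq] at hI
      have h1 : I = j '' (j ⁻¹' I) := (Set.image_preimage_eq_of_subset hI).symm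
      have h2 : I.ncard = (j ⁻¹' I).ncard := by
        conv_lhs => rw [h1]
        rw [Set.ncard_image_of_injective _ hj]
      rw [Matroid.restrict_indep_iff, hX.contract_indep_iff, h2, ← hN, ← h1]
      refine ⟨fun h => h.1.2, fun h => ⟨⟨?_, h⟩, hI⟩⟩
      rw [Set.disjoint_left]
      intro x hx hxX
      obtain ⟨b, rfl⟩ := hI hx
      exact (hE b).2 hxX

/-- a minor of an isomorphic matroid -/
theorem ex_minorClosed (N : Matroid β) : IsMinorClosed (Ex N) := by
  refine ⟨?_, ?_⟩
  · intro α α' M M₂ hi hM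
    refine ⟨hi.finite hM.1, ?_⟩
    intro hn
    exact hM.2 (hi.exists_minor hM.1 hn)
  · intro α M M' hm hM
    refine ⟨⟨hM.1.ground_finite.subset hm.subset⟩, ?_⟩
    rintro ⟨N', hN', hi⟩
    exact hM.2 ⟨N', hN'.trans hm, hi⟩

end Pool.Agent.MP8f11b1
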