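import Pool.Agent.Lib.MP_8f11b1_co_DU.Defs
import Pool.Agent.Lib.MP_8f11b1_co_RX.IsoM

set_option autoImplicit false

namespace Pool.Agent.MP8f11b1

variable {α β : Type}

open Matroid

private theorem base_tr {M : Matroid α} {N : Matroid β} (e : ↥M.E ≃ ↥N.E)
    (h : ∀ I : Set ↥M.E, M.Indep (Subtype.val '' I) ↔ N.Indep (Subtype.val '' (e '' I)))
    {B : Set α} (hB : M.IsBase B) : N.IsBase (IsoM.tr e B) := by
  rw [Matroid.isBase_iff_maximal_indep]
  refine ⟨(IsoM.indep_tr e h hB.subset_ground).1 hB.indep, ?_⟩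
  intro J hJ hBJ
  have hJE := hJ.subset_ground
  have h1 : M.Indep (IsoM.tr e.symm J) :=
    (IsoM.indep_tr e.symm (IsoM.symm_aux e h) hJE).1 hJ
  have h2 : B ⊆ IsoM.tr e.symm J := by
    intro x hx
    rw [IsoM.mem_tr]
    exact ⟨e ⟨x, hB.subset_ground hx⟩,
      hBJ ((IsoM.mem_tr _ _ _).2 ⟨⟨x, hB.subset_ground hx⟩, hx, rfl⟩), by simp⟩
  have h3 : B = IsoM.tr e.symm J := hB.eq_of_subset_indep h1 h2
  intro y hy
  rw [IsoM.mem_tr]
  refine ⟨e.symm ⟨y, hJE hy⟩, ?_, by simp⟩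
  rw [h3, IsoM.mem_tr]
  exact ⟨⟨y, hJE hy⟩, hy, rfl⟩

private theorem dual_tr {M : Matroid α} {N : Matroid β} (e : ↥M.E ≃ ↥N.E)
    (h : ∀ I : Set ↥M.E, M.Indep (Subtype.val '' I) ↔ N.Indep (Subtype.val '' (e '' I)))
    {S : Set α} (hS : M✶.Indep S) : N✶.Indep (IsoM.tr e S) := by
  rw [Matroid.dual_indep_iff_exists'] at hS ⊢
  obtain ⟨hSE, B, hB, hd⟩ := hS
  refine ⟨IsoM.tr_subset e S, IsoM.tr e B, base_tr e h hB, ?_⟩
  rw [Set.disjoint_left]
  intro y hy hy2
  obtain ⟨x, hx, rfl⟩ := (IsoM.mem_tr _ _ _).1 hy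
  obtain ⟨x', hx', hxx⟩ := (IsoM.mem_tr _ _ _).1 hy2
  have h1 : x' = x := e.injective (Subtype.ext hxx)
  rw [h1] at hx'
  exact Set.disjoint_left.1 hd hx hx'

theorem Iso.dual {M : Matroid α} {N : Matroid β} (h : Iso M N) : Iso M✶ N✶ := by
  obtain ⟨e, he⟩ := h
  have key : ∀ I : Set ↥M.E, M✶.Indep (Subtype.val '' I) ↔
      N✶.Indep (Subtype.val '' (e '' I)) := by
    intro I
    refine ⟨fun hI => ?_, fun hI => ?_⟩
    · have h1 := dual_tr e he hI
      have h2 : IsoM.tr e (Subtype.val '' I) = Subtype.val '' (e '' I) := by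
        unfold IsoM.tr
        rw [Set.preimage_image_eq _ Subtype.val_injective]
      rwa [h2] at h1
    · have h1 := dual_tr e.symm (IsoM.symm_aux e he) hI
      have h2 : IsoM.tr e.symm (Subtype.val '' (e '' I)) = Subtype.val '' I := by
        unfold IsoM.tr
        rw [Set.preimage_image_eq _ Subtype.val_injective, Equiv.symm_image_image]
      rwa [h2] at h1
  exact ⟨e, key⟩

theorem IsU.dual {M : Matroid α} {a b : ℕ} (hab : a ≤ b) (h : IsU a b M) :
    IsU (b - a) b M✶ := by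
  obtain ⟨hf, hb, hi⟩ := h
  refine ⟨hf, hb, fun I hI => ?_⟩
  rw [Matroid.dual_ground] at hI
  rw [Matroid.dual_indep_iff_exists']
  constructor
  · rintro ⟨-, B, hB, hd⟩
    have hBE := hB.subset_ground
    have hBa : a ≤ B.ncard := by
      by_contra hlt
      rw [not_le] at hlt
      obtain ⟨B', hBB', hB'E, hB'a⟩ :=
        Set.exists_subsuperset_card_eq hBE hlt.le (by rw [hb]; exact hab)
      have h1 : M.Indep B' := (hi B' hB'E).2 hB'a.le
      have h2 := hB.eq_of_subset_indep h1 hBB'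
      rw [h2] at hlt
      omega
    have h1 : (I ∪ B).ncard = I.ncard + B.ncard :=
      Set.ncard_union_eq hd (hf.subset hI) (hf.subset hBE)
    have h2 : (I ∪ B).ncard ≤ M.E.ncard := Set.ncard_le_ncard (Set.union_subset hI hBE) hf
    omega
  · intro hIc
    refine ⟨hI, ?_⟩
    have h1 : (M.E \ I).ncard = b - I.ncard := by
      rw [Set.ncard_sdiff hI (hf.subset hI), hb]
    obtain ⟨B, hBs, hBa⟩ := Set.exists_subset_card_eq (s := M.E \ I) (n := a) (by omega)
    have hBE : B ⊆ M.E := hBs.trans Set.sdiff_subset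
    refine ⟨B, ?_, ?_⟩
    · rw [Matroid.isBase_iff_maximal_indep]
      refine ⟨(hi B hBE).2 hBa.le, ?_⟩
      intro J hJ hBJ
      have hJE := hJ.subset_ground
      have h2 := (hi J hJE).1 hJ
      have h3 := Set.eq_of_subset_of_ncard_le hBJ (by omega) (hf.subset hJE)
      exact h3.symm.subset
    · rw [Set.disjoint_left]
      exact fun x hx hxB => (hBs hxB).2 hx

private theorem minor_dual {M M' : Matroid α} (h : M'.IsMinor M) : (M'✶).IsMinor M✶ := by
  obtain ⟨C, D, -, -, hd, rfl⟩ := h.exists_eq_contract_delete_disjoint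
  rw [Matroid.dual_contract_delete, ← Matroid.contract_delete_comm _ hd.symm]
  exact Matroid.contract_delete_isMinor _ _ _

private theorem ex_dual_aux (N : Matroid β) (M : Matroid α) (h : Ex N α M) : Ex N✶ α M✶ := by
  refine ⟨⟨h.1.ground_finite⟩, ?_⟩
  rintro ⟨M', hM', hi⟩
  apply h.2
  refine ⟨M'✶, ?_, ?_⟩
  · have := minor_dual hM'
    rwa [Matroid.dual_dual] at this
  · have := hi.dual
    rwa [Matroid.dual_dual] at this

theorem ex_dual (N : Matroid β) (M : Matroid α) : Ex N α M ↔ Ex N✶ α M✶ := by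
  refine ⟨ex_dual_aux N M, fun h => ?_⟩
  have := ex_dual_aux N✶ M✶ h
  rwa [Matroid.dual_dual, Matroid.dual_dual] at this

theorem excluded_dual (U : Matroid β) {γ : Type} (N' : Matroid γ) (M : Matroid α)
    (h : IsExcludedMinor (Union (Ex U) (Ex N')) M) :
    IsExcludedMinor (Union (Ex U✶) (Ex N'✶)) M✶ := by
  obtain ⟨hf, hn, hp⟩ := h
  refine ⟨⟨hf.ground_finite⟩, ?_, ?_⟩
  · rintro (h | h)
    · exact hn (Or.inl ((ex_dual U M).2 h))
    · exact hn (Or.inr ((ex_dual N' M).2 h))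
  · intro M' hM' hne
    have h1 : (M'✶).IsMinor M := by
      have := minor_dual hM'
      rwa [Matroid.dual_dual] at this
    have h2 : M'✶ ≠ M := by
      intro h
      apply hne
      rw [← h, Matroid.dual_dual]
    rcases hp _ h1 h2 with h | h
    · refine Or.inl ?_
      have := (ex_dual U _).1 h
      rwa [Matroid.dual_dual] at this
    · refine Or.inr ?_
      have := (ex_dual N' _).1 h
      rwa [Matroid.dual_dual] at this

end Pool.Agent.MP8f11b1
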