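import Pool.Agent.Lib.MP_8f11b1_co_DU.Defs
import Pool.Agent.Lib.MP_8f11b1_co_RX.Lin

set_option autoImplicit false

namespace Pool.Agent.MP8f11b1

variable {A ε : Type} [AddCommGroup A] [Module (ZMod 2) A] [FiniteDimensional (ZMod 2) A]

namespace BinB

omit [FiniteDimensional (ZMod 2) A] in
theorem add_self (u : A) : u + u = 0 := by
  have h : (2 : ZMod 2) • u = 0 := by
    have : (2 : ZMod 2) = 0 := by decide
    rw [this, zero_smul]
  rw [two_smul] at h
  exact h

omit [FiniteDimensional (ZMod 2) A] in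
theorem eq_of_add {u v : A} (h : u + v = 0) : u = v := by
  have h1 := add_self v
  exact add_right_cancel (h.trans h1.symm)

theorem zt (c : ZMod 2) : c = 0 ∨ c = 1 := by
  revert c
  decide

omit [FiniteDimensional (ZMod 2) A] in
/-- a linear combination is the sum over a subset -/
theorem comb (f : ε → A) (I : Finset ε) (g : ε → ZMod 2) :
    ∃ J ⊆ I, (∀ i, i ∈ J ↔ i ∈ I ∧ g i ≠ 0) ∧ ∑ i ∈ I, g i • f i = ∑ i ∈ J, f i := by
  classical
  refine ⟨I.filter fun i => g i ≠ 0, Finset.filter_subset _ _, fun i => Finset.mem_filter, ?_⟩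
  rw [Finset.sum_filter]
  refine Finset.sum_congr rfl fun i _ => ?_
  rcases zt (g i) with h | h
  · rw [h, zero_smul]; simp
  · rw [h, one_smul]; simp

omit [FiniteDimensional (ZMod 2) A] in
theorem indep_of (f : ε → A) (I : Finset ε)
    (h : ∀ J ⊆ I, ∑ i ∈ J, f i = 0 → J = ∅) : LinearIndepOn (ZMod 2) f (I : Set ε) := by
  rw [linearIndepOn_finset_iff]
  intro g hg i hi
  obtain ⟨J, hJ, hm, hs⟩ := comb f I g
  rw [hs] at hg
  have h1 := h J hJ hg
  by_contra h2
  have h3 := (hm i).2 ⟨hi, h2⟩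
  rw [h1] at h3
  simp at h3

omit [FiniteDimensional (ZMod 2) A] in
theorem of_indep (f : ε → A) (I : Finset ε) (h : LinearIndepOn (ZMod 2) f (I : Set ε))
    (hs : ∑ i ∈ I, f i = 0) : I = ∅ := by
  rw [linearIndepOn_finset_iff] at h
  have h1 := h (fun _ => 1) (by simpa using hs)
  rw [Finset.eq_empty_iff_forall_notMem]
  intro i hi
  exact one_ne_zero (h1 i hi)

theorem exists_rel (f : ε → A) (I : Finset ε) (h : Module.finrank (ZMod 2) A < I.card) :
    ∃ J ⊆ I, J.Nonempty ∧ ∑ i ∈ J, f i = 0 := by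
  by_contra h1
  push Not at h1
  have h2 : LinearIndepOn (ZMod 2) f (I : Set ε) := by
    refine indep_of f I fun J hJ hs => ?_
    by_contra h3
    exact h1 J hJ (Finset.nonempty_iff_ne_empty.2 h3) hs
  have h3 : LinearIndependent (ZMod 2) (fun i : I => f i) := h2
  have h4 := h3.fintype_card_le_finrank
  rw [Fintype.card_coe] at h4
  omega

omit [FiniteDimensional (ZMod 2) A] in
theorem span_sum (f : ε → A) (I : Finset ε) {u : A}
    (hu : u ∈ Submodule.span (ZMod 2) (f '' (I : Set ε))) : ∃ J ⊆ I, u = ∑ i ∈ J, f i := by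
  classical
  have h := (Submodule.mem_span_image_finset_iff_exists_fun (ZMod 2)).1 hu
  obtain ⟨g, hg⟩ := h
  obtain ⟨J, hJ, -, hs⟩ := comb f I (fun i => if h : i ∈ I then g ⟨i, h⟩ else 0)
  refine ⟨J, hJ, ?_⟩
  rw [← hg, ← hs, ← Finset.sum_coe_sort I]
  refine Finset.sum_congr rfl fun i _ => ?_
  rw [dif_pos i.2]

omit [FiniteDimensional (ZMod 2) A] in
/-- The sums of a subset and its complement in a relation. -/
theorem rel_compl [DecidableEq ε] (f : ε → A) {C J : Finset ε} (hC : ∑ i ∈ C, f i = 0)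
    (hJ : J ⊆ C) : ∑ i ∈ J, f i = ∑ i ∈ C \ J, f i := by
  have h := Finset.sum_sdiff (f := f) hJ
  rw [hC] at h
  exact (eq_of_add h).symm

omit [FiniteDimensional (ZMod 2) A] in
/-- A vector in the span of a relation of small cardinality. -/
theorem small (f : ε → A) {C : Finset ε} {a : ℕ} (hC : ∑ i ∈ C, f i = 0) {u : A}
    (ha : C.card + 1 ≤ 2 * a) (hu : u ∈ Submodule.span (ZMod 2) (f '' (C : Set ε))) :
    ∃ I ⊆ C, I.card ≤ a - 1 ∧ u = ∑ i ∈ I, f i := by
  classical
  obtain ⟨J, hJ, hs⟩ := span_sum f C hu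
  have h1 := Finset.card_sdiff_add_card_eq_card hJ
  by_cases h2 : J.card ≤ a - 1
  · exact ⟨J, hJ, h2, hs⟩
  · refine ⟨C \ J, Finset.sdiff_subset, by omega, ?_⟩
    rw [hs, rel_compl f hC hJ]

omit [FiniteDimensional (ZMod 2) A] in
theorem finrank_span_of_indep (f : ε → A) (I : Finset ε)
    (h : LinearIndepOn (ZMod 2) f (I : Set ε)) :
    Module.finrank (ZMod 2) (Submodule.span (ZMod 2) (f '' (I : Set ε))) = I.card := by
  have h3 : LinearIndependent (ZMod 2) (fun i : I => f i) := h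
  have h4 := finrank_span_eq_card h3
  rw [Fintype.card_coe] at h4
  have h5 : Set.range (fun i : I => f i) = f '' (I : Set ε) := by
    ext x
    constructor
    · rintro ⟨⟨i, hi⟩, rfl⟩
      exact ⟨i, hi, rfl⟩
    · rintro ⟨i, hi, rfl⟩
      exact ⟨⟨i, hi⟩, rfl⟩
  rw [h5] at h4
  exact h4

/-- One of three vectors lies in a subspace of codimension at most one. -/
theorem codim_one {W : Submodule (ZMod 2) A} {a : ℕ} (hA : Module.finrank (ZMod 2) A = a + 1)
    (hW : Module.finrank (ZMod 2) W = a) (X P : A) : X ∈ W ∨ P ∈ W ∨ X + P ∈ W := by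
  by_contra h
  push Not at h
  obtain ⟨h1, h2, h3⟩ := h
  have hq : Module.finrank (ZMod 2) (A ⧸ W) = 1 := by
    have := Submodule.finrank_quotient_add_finrank W
    omega
  have hX : W.mkQ X ≠ 0 := by
    intro h
    exact h1 ((Submodule.Quotient.mk_eq_zero W).1 h)
  have hP : W.mkQ P ≠ 0 := by
    intro h
    exact h2 ((Submodule.Quotient.mk_eq_zero W).1 h)
  obtain ⟨c, hc⟩ := (finrank_eq_one_iff_of_nonzero' (W.mkQ X) hX).1 hq (W.mkQ P)
  rcases zt c with rfl | rfl
  · rw [zero_smul] at hc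
    exact hP hc.symm
  · rw [one_smul] at hc
    refine h3 ((Submodule.Quotient.mk_eq_zero W).1 ?_)
    show W.mkQ (X + P) = 0
    rw [map_add, hc]
    exact add_self _

end BinB

open BinB

theorem bin1 {a : ℕ} (ha : 3 ≤ a) (hA : Module.finrank (ZMod 2) A = a + 1) (f : ε → A)
    (E : Finset ε) (hE : a + 2 ≤ E.card)
    (h : ∀ I ⊆ E, I.card ≤ a → LinearIndepOn (ZMod 2) f (I : Set ε)) (X P : A) :
    ∃ u : A, (u = X ∨ u = P ∨ u = X + P) ∧ ∃ I ⊆ E, I.card ≤ a - 1 ∧ u = ∑ i ∈ I, f i := by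
  classical
  have hrel : ∀ C ⊆ E, C.Nonempty → ∑ i ∈ C, f i = 0 → a + 1 ≤ C.card := by
    intro C hC hne hs
    by_contra h1
    have h2 := of_indep f C (h C hC (by omega)) hs
    rw [h2] at hne
    exact Finset.not_nonempty_empty hne
  obtain ⟨E0, hE0, hc0⟩ := Finset.exists_subset_card_eq hE
  by_cases hC : ∃ C ⊆ E0, C.card = a + 1 ∧ ∑ i ∈ C, f i = 0
  · obtain ⟨C, hCE, hCc, hCs⟩ := hC
    obtain ⟨e, he⟩ := Finset.card_pos.1 (show 0 < C.card by omega)
    have hec : (C.erase e).card = a := by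
      rw [Finset.card_erase_of_mem he]
      omega
    have hind := h (C.erase e) ((Finset.erase_subset _ _).trans (hCE.trans hE0)) hec.le
    have hW := finrank_span_of_indep f (C.erase e) hind
    rw [hec] at hW
    have hsub : Submodule.span (ZMod 2) (f '' ((C.erase e : Finset ε) : Set ε)) ≤
        Submodule.span (ZMod 2) (f '' (C : Set ε)) :=
      Submodule.span_mono (Set.image_mono (by
        intro x hx
        exact Finset.mem_of_mem_erase hx))
    have key : ∀ u ∈ Submodule.span (ZMod 2) (f '' ((C.erase e : Finset ε) : Set ε)),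
        ∃ I ⊆ E, I.card ≤ a - 1 ∧ u = ∑ i ∈ I, f i := by
      intro u hu
      obtain ⟨I, hI, h1, h2⟩ := small f (a := a) hCs (by omega) (hsub hu)
      exact ⟨I, hI.trans (hCE.trans hE0), h1, h2⟩
    rcases codim_one hA hW X P with h1 | h1 | h1
    · exact ⟨X, Or.inl rfl, key X h1⟩
    · exact ⟨P, Or.inr (Or.inl rfl), key P h1⟩
    · exact ⟨X + P, Or.inr (Or.inr rfl), key _ h1⟩
  · push Not at hC
    obtain ⟨C, hCE, hCne, hCs⟩ := exists_rel f E0 (by omega)
    have h1 := hrel C (hCE.trans hE0) hCne hCs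
    have h2 : C.card ≤ a + 2 := hc0 ▸ Finset.card_le_card hCE
    have h3 : C.card ≠ a + 1 := fun h4 => hC C hCE h4 hCs
    have h4 : C.card = a + 2 := by omega
    obtain ⟨e, he⟩ := hCne
    have hec : (C.erase e).card = a + 1 := by
      rw [Finset.card_erase_of_mem he]
      omega
    have hind : LinearIndepOn (ZMod 2) f ((C.erase e : Finset ε) : Set ε) := by
      refine indep_of f _ fun J hJ hs => ?_
      by_contra hne
      have hJE : J ⊆ E0 := hJ.trans ((Finset.erase_subset _ _).trans hCE)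
      have h5 := hrel J (hJE.trans hE0) (Finset.nonempty_iff_ne_empty.2 hne) hs
      have h6 := Finset.card_le_card hJ
      exact hC J hJE (by omega) hs
    have hW := finrank_span_of_indep f (C.erase e) hind
    rw [hec, ← hA] at hW
    have htop := Submodule.eq_top_of_finrank_eq hW
    have hsub : Submodule.span (ZMod 2) (f '' ((C.erase e : Finset ε) : Set ε)) ≤
        Submodule.span (ZMod 2) (f '' (C : Set ε)) :=
      Submodule.span_mono (Set.image_mono (by
        intro x hx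
        exact Finset.mem_of_mem_erase hx))
    rw [htop] at hsub
    obtain ⟨I, hI, h5, h6⟩ := small f (a := a) hCs (by omega) (hsub (Submodule.mem_top (x := X)))
    exact ⟨X, Or.inl rfl, I, hI.trans (hCE.trans hE0), h5, h6⟩

theorem bin2 {a : ℕ} (ha : 4 ≤ a) (hA : Module.finrank (ZMod 2) A = a + 1) (f : ε → A)
    (E : Finset ε) (hE : a + 3 ≤ E.card)
    (h : ∀ I ⊆ E, I.card ≤ a → LinearIndepOn (ZMod 2) f (I : Set ε)) : False := by
  classical
  have hrel : ∀ C ⊆ E, C ≠ ∅ → ∑ i ∈ C, f i = 0 → a + 1 ≤ C.card := by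
    intro C hC hne hs
    by_contra h1
    exact hne (of_indep f C (h C hC (by omega)) hs)
  obtain ⟨E0, hE0, hc0⟩ := Finset.exists_subset_card_eq hE
  obtain ⟨z, hz⟩ := Finset.card_pos.1 (show 0 < E0.card by omega)
  obtain ⟨R1, hR1, hne1, hs1⟩ := exists_rel f (E0.erase z) (by
    rw [Finset.card_erase_of_mem hz]; omega)
  have hR1E : R1 ⊆ E0 := hR1.trans (Finset.erase_subset _ _)
  obtain ⟨e, he⟩ := hne1
  obtain ⟨R2, hR2, hne2, hs2⟩ := exists_rel f (E0.erase e) (by
    rw [Finset.card_erase_of_mem (hR1E he)]; omega)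
  have hR2E : R2 ⊆ E0 := hR2.trans (Finset.erase_subset _ _)
  have he2 : e ∉ R2 := fun h1 => Finset.notMem_erase e E0 (hR2 h1)
  have hD : (R1 \ R2) ∪ (R2 \ R1) ≠ ∅ := by
    refine Finset.nonempty_iff_ne_empty.1 ⟨e, ?_⟩
    exact Finset.mem_union_left _ (Finset.mem_sdiff.2 ⟨he, he2⟩)
  have hdis : Disjoint (R1 \ R2) (R2 \ R1) := by
    rw [Finset.disjoint_left]
    intro x hx hx2
    exact (Finset.mem_sdiff.1 hx).2 (Finset.mem_sdiff.1 hx2).1
  have i1 : ∑ i ∈ R1 \ R2, f i + ∑ i ∈ R1 ∩ R2, f i = ∑ i ∈ R1, f i := by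
    have := Finset.sum_sdiff (f := f) (Finset.inter_subset_left (s₁ := R1) (s₂ := R2))
    rw [Finset.sdiff_inter_self_left] at this
    exact this
  have i2 : ∑ i ∈ R2 \ R1, f i + ∑ i ∈ R1 ∩ R2, f i = ∑ i ∈ R2, f i := by
    have := Finset.sum_sdiff (f := f) (Finset.inter_subset_right (s₁ := R1) (s₂ := R2))
    rw [Finset.sdiff_inter_self_right] at this
    exact this
  have hsD : ∑ i ∈ (R1 \ R2) ∪ (R2 \ R1), f i = 0 := by
    rw [Finset.sum_union hdis]
    rw [hs1] at i1
    rw [hs2] at i2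
    rw [eq_of_add i1, eq_of_add i2]
    exact add_self _
  have c1 := hrel R1 (hR1E.trans hE0) (Finset.nonempty_iff_ne_empty.1 ⟨e, he⟩) hs1
  have c2 := hrel R2 (hR2E.trans hE0) (Finset.nonempty_iff_ne_empty.1 hne2) hs2
  have c3 := hrel _ (Finset.union_subset
    (Finset.sdiff_subset.trans (hR1E.trans hE0)) (Finset.sdiff_subset.trans (hR2E.trans hE0)))
    hD hsD
  rw [Finset.card_union_of_disjoint hdis] at c3
  have d1 := Finset.card_sdiff_add_card_inter R1 R2
  have d2 := Finset.card_sdiff_add_card_inter R2 R1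
  have d3 := Finset.card_union_add_card_inter R1 R2
  have d4 : (R1 ∪ R2).card ≤ E0.card := Finset.card_le_card (Finset.union_subset hR1E hR2E)
  rw [Finset.inter_comm R2 R1] at d2
  omega

theorem bin3 (hA : Module.finrank (ZMod 2) A = 4) (f : ε → A)
    (E : Finset ε) (hE : 7 ≤ E.card)
    (h : ∀ I ⊆ E, I.card ≤ 3 → LinearIndepOn (ZMod 2) f (I : Set ε)) (X P : A) :
    ∃ I ⊆ E, I.card = 3 ∧ X ∈ Submodule.span (ZMod 2) (f '' (I : Set ε)) ∧
      P ∈ Submodule.span (ZMod 2) (f '' (I : Set ε)) := by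
  classical
  set W : Submodule (ZMod 2) A := Submodule.span (ZMod 2) {X, P} with hW
  have hWr : Module.finrank (ZMod 2) W ≤ 2 := by
    have h1 := finrank_span_finset_le_card (R := ZMod 2) ({X, P} : Finset A)
    have h2 : ({X, P} : Finset A).card ≤ 2 := Finset.card_le_two
    have h3 : ((({X, P} : Finset A) : Set A)) = {X, P} := by simp
    rw [Set.finrank, h3] at h1
    exact h1.trans h2
  have hann := Subspace.finrank_add_finrank_dualAnnihilator_eq W
  rw [hA] at hann
  have hann2 : 2 ≤ Module.finrank (ZMod 2) W.dualAnnihilator := by omega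
  -- two independent functionals
  obtain ⟨b⟩ : Nonempty (Module.Basis (Fin (Module.finrank (ZMod 2) W.dualAnnihilator)) (ZMod 2)
    W.dualAnnihilator) := ⟨Module.finBasis (ZMod 2) W.dualAnnihilator⟩
  set i0 : Fin (Module.finrank (ZMod 2) W.dualAnnihilator) := ⟨0, by omega⟩
  set i1 : Fin (Module.finrank (ZMod 2) W.dualAnnihilator) := ⟨1, by omega⟩
  have hi01 : i0 ≠ i1 := by
    intro h1
    have := congrArg Fin.val h1
    simp [i0, i1] at this
  have hb0 : b i0 ≠ 0 := b.ne_zero i0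
  have hb1 : b i1 ≠ 0 := b.ne_zero i1
  have hb2 : b i0 + b i1 ≠ 0 := by
    intro h1
    exact hi01 (b.injective (eq_of_add h1))
  -- the pigeonhole step
  have key : ∀ φ : W.dualAnnihilator, φ ≠ 0 →
      3 ≤ (E.filter fun i => (φ : Module.Dual (ZMod 2) A) (f i) = 0).card →
      ∃ I ⊆ E, I.card = 3 ∧ X ∈ Submodule.span (ZMod 2) (f '' (I : Set ε)) ∧
        P ∈ Submodule.span (ZMod 2) (f '' (I : Set ε)) := by
    intro φ hφ hc
    obtain ⟨I, hI, hIc⟩ := Finset.exists_subset_card_eq hc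
    have hIE : I ⊆ E := hI.trans (Finset.filter_subset _ _)
    have hind := finrank_span_of_indep f I (h I hIE hIc.le)
    rw [hIc] at hind
    have hφ' : (φ : Module.Dual (ZMod 2) A) ≠ 0 := fun h1 => hφ (Subtype.ext h1)
    have hker : Module.finrank (ZMod 2) (LinearMap.ker (φ : Module.Dual (ZMod 2) A)) = 3 := by
      have h1 := Module.Dual.finrank_ker_add_one_of_ne_zero hφ'
      omega
    have hle : Submodule.span (ZMod 2) (f '' (I : Set ε)) ≤
        LinearMap.ker (φ : Module.Dual (ZMod 2) A) := by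
      rw [Submodule.span_le]
      rintro _ ⟨i, hi, rfl⟩
      exact LinearMap.mem_ker.2 (Finset.mem_filter.1 (hI hi)).2
    have heq := Submodule.eq_of_le_of_finrank_eq hle (by rw [hind, hker])
    have hmem : ∀ v ∈ W, v ∈ Submodule.span (ZMod 2) (f '' (I : Set ε)) := by
      intro v hv
      rw [heq]
      exact LinearMap.mem_ker.2 ((Submodule.mem_dualAnnihilator _).1 φ.2 v hv)
    exact ⟨I, hIE, hIc, hmem X (Submodule.subset_span (by simp)),
      hmem P (Submodule.subset_span (by simp))⟩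
  by_contra hno
  have k0 : ¬ 3 ≤ (E.filter fun i => ((b i0 : W.dualAnnihilator) : Module.Dual (ZMod 2) A)
    (f i) = 0).card := fun h1 => hno (key _ hb0 h1)
  have k1 : ¬ 3 ≤ (E.filter fun i => ((b i1 : W.dualAnnihilator) : Module.Dual (ZMod 2) A)
    (f i) = 0).card := fun h1 => hno (key _ hb1 h1)
  have k2 : ¬ 3 ≤ (E.filter fun i => ((b i0 + b i1 : W.dualAnnihilator) :
    Module.Dual (ZMod 2) A) (f i) = 0).card := fun h1 => hno (key _ hb2 h1)
  have hcov : E ⊆ (E.filter fun i => ((b i0 : W.dualAnnihilator) : Module.Dual (ZMod 2) A)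
      (f i) = 0) ∪ ((E.filter fun i => ((b i1 : W.dualAnnihilator) : Module.Dual (ZMod 2) A)
      (f i) = 0) ∪ (E.filter fun i => ((b i0 + b i1 : W.dualAnnihilator) :
      Module.Dual (ZMod 2) A) (f i) = 0)) := by
    intro i hi
    rw [Finset.mem_union, Finset.mem_union, Finset.mem_filter, Finset.mem_filter,
      Finset.mem_filter]
    have hadd : ((b i0 + b i1 : W.dualAnnihilator) : Module.Dual (ZMod 2) A) (f i) =
        ((b i0 : W.dualAnnihilator) : Module.Dual (ZMod 2) A) (f i) +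
        ((b i1 : W.dualAnnihilator) : Module.Dual (ZMod 2) A) (f i) := rfl
    rw [hadd]
    rcases zt (((b i0 : W.dualAnnihilator) : Module.Dual (ZMod 2) A) (f i)) with h0 | h0
    · exact Or.inl ⟨hi, h0⟩
    · rcases zt (((b i1 : W.dualAnnihilator) : Module.Dual (ZMod 2) A) (f i)) with h1 | h1
      · exact Or.inr (Or.inl ⟨hi, h1⟩)
      · refine Or.inr (Or.inr ⟨hi, ?_⟩)
        rw [h0, h1]
        decide
  have hc := (Finset.card_le_card hcov).trans ((Finset.card_union_le _ _).trans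
    (Nat.add_le_add_left (Finset.card_union_le _ _) _))
  omega

end Pool.Agent.MP8f11b1
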