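import Pool.Agent.Lib.MP_8f11b1_co_DU.RatQ
import Pool.Agent.Lib.MP_8f11b1_co_DU.BinB

set_option autoImplicit false

namespace Pool.Agent.MP8f11b1

variable {L κ β : Type} [Field L] [Algebra (ZMod 2) L] [Fintype κ] [Finite β] {g s : ℕ}

private theorem nonrat_finrank_span (R : Submodule (ZMod 2) (κ → ZMod 2)) :
    Module.finrank L (Submodule.span L (cst '' (R : Set (κ → ZMod 2)) : Set (κ → L))) =
      Module.finrank (ZMod 2) R := by
  classical
  let b := Module.finBasis (ZMod 2) R
  have h1 : LinearIndependent (ZMod 2) (fun i => (b i : κ → ZMod 2)) :=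
    b.linearIndependent.map' R.subtype (Submodule.ker_subtype R)
  have h2 : LinearIndependent L (fun i => (cst (b i : κ → ZMod 2) : κ → L)) := by
    have h3 := (desc_indep (L := L) (fun i => (b i : κ → ZMod 2)) Set.univ).2
      (linearIndepOn_univ_iff.2 h1)
    exact linearIndepOn_univ_iff.1 h3
  have h4 : Submodule.span L (cst '' (R : Set (κ → ZMod 2)) : Set (κ → L)) =
      Submodule.span L (Set.range fun i => (cst (b i : κ → ZMod 2) : κ → L)) := by
    apply le_antisymm
    · rw [Submodule.span_le]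
      rintro _ ⟨r, hr, rfl⟩
      have h5 : r ∈ Submodule.span (ZMod 2) (Set.range fun i => (b i : κ → ZMod 2)) := by
        have h6 := congrArg (Submodule.map R.subtype) b.span_eq
        rw [Submodule.map_span, Submodule.map_top, Submodule.range_subtype, ← Set.range_comp]
          at h6
        have h7 : (R.subtype ∘ b) = fun i => (b i : κ → ZMod 2) := rfl
        rw [h7] at h6
        rw [h6]
        exact hr
      have h8 := (desc_span (L := L) r _).2 h5
      rw [← Set.range_comp] at h8
      exact h8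
    · rw [Submodule.span_le]
      rintro _ ⟨i, rfl⟩
      exact Submodule.subset_span ⟨_, (b i).2, rfl⟩
  rw [h4, finrank_span_eq_card h2, Fintype.card_fin]

private theorem nonrat_cst_sum (I : Finset β) (f : β → ZMod 2) (v : β → κ → ZMod 2) :
    (cst (∑ z ∈ I, f z • v z) : κ → L) =
      ∑ z ∈ I, algebraMap (ZMod 2) L (f z) • cst (v z) := by
  funext k
  simp only [cst, Finset.sum_apply, map_sum, Pi.smul_apply, smul_eq_mul, map_mul]

/-- at most `a` elements of `E` are independent modulo the contracted span -/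
private theorem nonrat_rel {v : β → κ → ZMod 2} {X P : κ → ZMod 2} {gam : Fin g → ZZ L s} {a : ℕ}
    {C E : Set (β ⊕ Fin g)} (H : FreeHyp v X P gam a C E) (J : Finset (β ⊕ Fin g))
    (hJE : (J : Set (β ⊕ Fin g)) ⊆ E) (hJ : J.card ≤ a) (c : β ⊕ Fin g → L)
    (hc : ∑ z ∈ J, c z • fB v X P gam z ∈ SC v X P gam C) : ∀ z ∈ J, c z = 0 := by
  have h5 := (H.unif _ hJE).2 (by rwa [Set.ncard_coe_finset])
  have hdisj : Disjoint (J : Set (β ⊕ Fin g)) C := (H.disj.symm).mono_left hJE
  rw [lin_union_iff (fB v X P gam) H.ind hdisj (SC v X P gam C).mkQ (Submodule.ker_mkQ _),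
    linearIndepOn_finset_iff] at h5
  apply h5 c
  have h6 : (SC v X P gam C).mkQ (∑ z ∈ J, c z • fB v X P gam z) = 0 := by
    rw [← LinearMap.mem_ker, Submodule.ker_mkQ]
    exact hc
  rw [map_sum] at h6
  simpa only [map_smul] using h6

/-- the same with a combination of elements without small coordinates and one more element -/
private theorem nonrat_rel_inl {v : β → κ → ZMod 2} {X P : κ → ZMod 2} {gam : Fin g → ZZ L s}
    {a : ℕ} {C E : Set (β ⊕ Fin g)} (H : FreeHyp v X P gam a C E) (I : Finset β)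
    (hI : ∀ z ∈ I, Sum.inl z ∈ E) (hcard : I.card ≤ a) (c : β → L)
    (hc : ((∑ z ∈ I, c z • cst (v z), 0) : (κ → L) × (Fin s → L)) ∈ SC v X P gam C) :
    ∀ z ∈ I, c z = 0 := by
  classical
  set J : Finset (β ⊕ Fin g) := I.map ⟨Sum.inl, Sum.inl_injective⟩ with hJ
  have hJE : (J : Set (β ⊕ Fin g)) ⊆ E := by
    intro z hz
    rw [hJ, Finset.coe_map] at hz
    obtain ⟨y, hy, rfl⟩ := hz
    exact hI y hy
  have hJc : J.card ≤ a := by
    rw [hJ, Finset.card_map]
    exact hcard
  have h1 := nonrat_rel H J hJE hJc (fun z => Sum.elim c (fun _ => 0) z) (by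
    rw [hJ, Finset.sum_map]
    have h2 : (∑ z ∈ I, (Sum.elim c (fun _ => (0 : L)) (Sum.inl z : β ⊕ Fin g)) •
        fB v X P gam (Sum.inl z)) =
        ((∑ z ∈ I, c z • cst (v z), 0) : (κ → L) × (Fin s → L)) := by
      refine Prod.ext ?_ ?_
      · rw [Prod.fst_sum]; rfl
      · rw [Prod.snd_sum]
        refine Finset.sum_eq_zero fun z _ => ?_
        show c z • (0 : Fin s → L) = 0
        rw [smul_zero]
    exact h2 ▸ hc)
  intro z hz
  have := h1 (Sum.inl z) (by
    rw [hJ, Finset.mem_map]
    exact ⟨z, hz, rfl⟩)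
  exact this

/-- rational vectors in the span of the contracted elements -/
private theorem nonrat_mem {v : β → κ → ZMod 2} {X P : κ → ZMod 2} {gam : Fin g → ZZ L s}
    {C : Set (β ⊕ Fin g)} {p : κ → L}
    (hp : p ∈ Submodule.span L (cst '' (v '' {z | Sum.inl z ∈ C}) : Set (κ → L))) :
    ((p, 0) : (κ → L) × (Fin s → L)) ∈ SC v X P gam C := by
  have hle : Submodule.map (LinearMap.inl L (κ → L) (Fin s → L))
      (Submodule.span L (cst '' (v '' {z | Sum.inl z ∈ C}))) ≤ SC v X P gam C := by
    rw [Submodule.map_span, Submodule.span_le]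
    rintro _ ⟨_, ⟨_, ⟨z, hz, rfl⟩, rfl⟩, rfl⟩
    exact Submodule.subset_span ⟨Sum.inl z, hz, rfl⟩
  exact hle ⟨p, hp, rfl⟩

private theorem nonrat_span_eq (S : Set (κ → ZMod 2)) :
    Submodule.span L (cst '' (Submodule.span (ZMod 2) S : Set (κ → ZMod 2)) : Set (κ → L)) =
      Submodule.span L (cst '' S) := by
  apply le_antisymm
  · rw [Submodule.span_le]
    rintro _ ⟨r, hr, rfl⟩
    exact (desc_span (L := L) r S).2 hr
  · exact Submodule.span_mono (Set.image_mono Submodule.subset_span)

/-- the structure over the field with two elements when the contracted span meets the plane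
`LL` in a nonrational line -/
theorem nonrat {v : β → κ → ZMod 2} {X P : κ → ZMod 2} {gam : Fin g → ZZ L s} {a : ℕ}
    {C E : Set (β ⊕ Fin g)} (H : FreeHyp v X P gam a C E)
    (h1 : Module.finrank L ↥(LL s X P ⊓ SC v X P gam C) = 1)
    (hu : ∀ u : κ → ZMod 2, (u = X ∨ u = P ∨ u = X + P) →
      ((cst u, 0) : (κ → L) × (Fin s → L)) ∉ SC v X P gam C)
    (R : Submodule (ZMod 2) (κ → ZMod 2))
    (hR : R = Submodule.span (ZMod 2) (v '' {z | Sum.inl z ∈ C})) :
    (BB L κ s ⊔ SC v X P gam C = ⊤ →
      Module.finrank (ZMod 2) ((κ → ZMod 2) ⧸ R) = a + 1) ∧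
    (∀ I : Finset β, (∀ z ∈ I, Sum.inl z ∈ E) → I.card ≤ a →
      LinearIndepOn (ZMod 2) (fun z => R.mkQ (v z)) (I : Set β) ∧
      ¬ (R.mkQ X ∈ Submodule.span (ZMod 2) ((fun z => R.mkQ (v z)) '' (I : Set β)) ∧
        R.mkQ P ∈ Submodule.span (ZMod 2) ((fun z => R.mkQ (v z)) '' (I : Set β)))) ∧
    ∀ c : Fin g, Sum.inr c ∈ E → (LL s X P ⊔ SC v X P gam C =
        Submodule.span L {fB v X P gam (Sum.inr c)} ⊔ SC v X P gam C) →
      ∀ u : κ → ZMod 2, (u = X ∨ u = P ∨ u = X + P) →
      ∀ I : Finset β, (∀ z ∈ I, Sum.inl z ∈ E) → I.card + 1 ≤ a →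
        R.mkQ u ≠ ∑ z ∈ I, R.mkQ (v z) := by
  classical
  -- the rational part
  set D : Submodule L (κ → L) := Submodule.span L (cst '' (R : Set (κ → ZMod 2))) with hD
  have hD' : D = Submodule.span L (cst '' (v '' {z | Sum.inl z ∈ C})) := by
    rw [hD, hR, nonrat_span_eq]
  have hDS : ∀ p ∈ D, ((p, 0) : (κ → L) × (Fin s → L)) ∈ SC v X P gam C := by
    intro p hp
    rw [hD'] at hp
    exact nonrat_mem hp
  have hRD : ∀ x ∈ R, (cst x : κ → L) ∈ D := fun x hx => Submodule.subset_span ⟨x, hx, rfl⟩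
  -- the nonrational vector
  obtain ⟨⟨w, hwL, hwS⟩, hw0, hwspan⟩ := finrank_eq_one_iff'.1 h1
  obtain ⟨α, β', hw⟩ : ∃ α β' : L, w = ((α • cst X + β' • cst P, 0) :
      (κ → L) × (Fin s → L)) := by
    obtain ⟨α, β', h⟩ := Submodule.mem_span_pair.1 hwL
    refine ⟨α, β', ?_⟩
    rw [← h]
    refine Prod.ext rfl ?_
    show α • (0 : Fin s → L) + β' • (0 : Fin s → L) = 0
    rw [smul_zero, smul_zero, add_zero]
  subst hw
  set ζ : κ → L := α • cst X + β' • cst P with hζ
  have hζS : ((ζ, 0) : (κ → L) × (Fin s → L)) ∈ SC v X P gam C := hwS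
  have hζ0 : ζ ≠ 0 := by
    intro h
    apply hw0
    apply Subtype.ext
    show ((ζ, 0) : (κ → L) × (Fin s → L)) = 0
    rw [h]
    rfl
  have hdiv : ∀ (c : L) (u : κ → ZMod 2), c ≠ 0 → (u = X ∨ u = P ∨ u = X + P) →
      ζ = c • cst u → False := by
    intro c u hc hu' h
    apply hu u hu'
    have h2 := Submodule.smul_mem _ c⁻¹ hζS
    have h3 : c⁻¹ • ((ζ, 0) : (κ → L) × (Fin s → L)) = (cst u, 0) := by
      refine Prod.ext ?_ ?_
      · show c⁻¹ • ζ = cst u
        rw [h, smul_smul, inv_mul_cancel₀ hc, one_smul]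
      · show c⁻¹ • (0 : Fin s → L) = 0
        rw [smul_zero]
    rwa [h3] at h2
  have hα : α ≠ 0 := by
    intro h
    have hb : β' ≠ 0 := by
      intro h'
      apply hζ0
      rw [hζ, h, h', zero_smul, zero_smul, add_zero]
    exact hdiv β' P hb (Or.inr (Or.inl rfl)) (by rw [hζ, h, zero_smul, zero_add])
  have hβ : β' ≠ 0 := by
    intro h
    exact hdiv α X hα (Or.inl rfl) (by rw [hζ, h, zero_smul, add_zero])
  have hαβ : α ≠ β' := by
    intro h
    exact hdiv α (X + P) hα (Or.inr (Or.inr rfl)) (by rw [hζ, h, cst_add, smul_add])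
  have hζD : ζ ∉ D := by
    intro h
    have h2 := (desc_pair X P (R : Set (κ → ZMod 2)) α β' hα hβ hαβ h).1
    rw [Submodule.span_eq] at h2
    exact hu X (Or.inl rfl) (hDS _ (hRD X h2))
  refine ⟨?_, ?_, ?_⟩
  · intro htop
    have hSC : Module.finrank L (SC v X P gam C) = C.ncard :=
      lin_finrank_span (fB v X P gam) H.ind (Set.toFinite C)
    have hBB : BB L κ s = LinearMap.range (LinearMap.inl L (κ → L) (Fin s → L)) :=
      LinearMap.ker_snd ..
    have hBBr : Module.finrank L (BB L κ s) = Fintype.card κ := by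
      rw [hBB, LinearMap.finrank_range_of_inj LinearMap.inl_injective,
        Module.finrank_fintype_fun_eq_card]
    have hinf : BB L κ s ⊓ SC v X P gam C =
        Submodule.map (LinearMap.inl L (κ → L) (Fin s → L)) (D ⊔ Submodule.span L {ζ}) := by
      ext x
      constructor
      · rintro ⟨h1, h2⟩
        have h3 : x = (x.1, 0) := Prod.ext rfl h1
        refine ⟨x.1, ?_, h3.symm⟩
        rw [h3] at h2
        obtain ⟨α', β'', h4, h5⟩ := (sc_bb v X P gam C x.1).1 h2
        rw [← hD'] at h5
        have h6 : ((α' • cst X + β'' • cst P, 0) : (κ → L) × (Fin s → L)) ∈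
            LL s X P ⊓ SC v X P gam C := by
          refine ⟨?_, h4⟩
          refine Submodule.mem_span_pair.2 ⟨α', β'', ?_⟩
          refine Prod.ext rfl ?_
          show α' • (0 : Fin s → L) + β'' • (0 : Fin s → L) = 0
          rw [smul_zero, smul_zero, add_zero]
        obtain ⟨c, hc⟩ := hwspan ⟨_, h6⟩
        have h7 : c • ζ = α' • cst X + β'' • cst P := by
          have := congrArg (fun y : ↥(LL s X P ⊓ SC v X P gam C) =>
            (y : (κ → L) × (Fin s → L)).1) hc
          exact this
        have h8 : x.1 = (x.1 - (α' • cst X + β'' • cst P)) + c • ζ := by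
          rw [h7, sub_add_cancel]
        rw [SetLike.mem_coe, h8]
        exact Submodule.add_mem_sup h5 (Submodule.smul_mem _ _
          (Submodule.mem_span_singleton_self ζ))
      · rintro ⟨p, hp, rfl⟩
        refine ⟨rfl, ?_⟩
        obtain ⟨d, hd, y, hy, rfl⟩ := Submodule.mem_sup.1 hp
        obtain ⟨c, rfl⟩ := Submodule.mem_span_singleton.1 hy
        rw [map_add, map_smul]
        exact Submodule.add_mem _ (hDS d hd) (Submodule.smul_mem _ _ hζS)
    have hDr : Module.finrank L (D ⊔ Submodule.span L {ζ} : Submodule L (κ → L)) =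
        Module.finrank (ZMod 2) R + 1 := by
      have h4 := Submodule.finrank_sup_add_finrank_inf_eq D (Submodule.span L {ζ})
      have h5 : D ⊓ Submodule.span L {ζ} = ⊥ := by
        rw [← disjoint_iff]
        rw [Submodule.disjoint_span_singleton]
        intro h
        exact absurd h hζD
      rw [h5, finrank_bot, add_zero, finrank_span_singleton hζ0, hD, nonrat_finrank_span] at h4
      exact h4
    have hinfr : Module.finrank L (BB L κ s ⊓ SC v X P gam C : Submodule L _) =
        Module.finrank (ZMod 2) R + 1 := by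
      rw [hinf, ← hDr]
      exact ((Submodule.equivMapOfInjective _ (LinearMap.inl_injective
        (R := L) (M := κ → L) (M₂ := Fin s → L)) _).finrank_eq).symm
    have h4 := Submodule.finrank_sup_add_finrank_inf_eq (BB L κ s) (SC v X P gam C)
    rw [htop, hinfr, hBBr, hSC, finrank_top, Module.finrank_prod,
      Module.finrank_fintype_fun_eq_card, Module.finrank_fin_fun] at h4
    have h5 := Submodule.finrank_quotient_add_finrank R
    rw [Module.finrank_fintype_fun_eq_card] at h5
    have h6 := H.rk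
    omega
  · intro I hI hcard
    constructor
    · rw [linearIndepOn_finset_iff]
      intro f hf i hi
      have h2 : ∑ z ∈ I, f z • v z ∈ R := by
        rw [← Submodule.ker_mkQ R, LinearMap.mem_ker, map_sum]
        simpa only [map_smul] using hf
      have h3 := hDS _ (hRD _ h2)
      rw [nonrat_cst_sum] at h3
      have h4 := nonrat_rel_inl H I hI hcard (fun z => algebraMap (ZMod 2) L (f z)) h3 i hi
      exact (map_eq_zero_iff _ (algebraMap (ZMod 2) L).injective).1 h4
    · rintro ⟨hX, hP⟩
      obtain ⟨f, hf⟩ := (Submodule.mem_span_image_finset_iff_exists_fun' (ZMod 2)).1 hX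
      obtain ⟨f', hf'⟩ := (Submodule.mem_span_image_finset_iff_exists_fun' (ZMod 2)).1 hP
      have h2 : ∀ (u : κ → ZMod 2) (f : β → ZMod 2), ∑ z ∈ I, f z • R.mkQ (v z) = R.mkQ u →
          (cst u : κ → L) - ∑ z ∈ I, algebraMap (ZMod 2) L (f z) • cst (v z) ∈ D := by
        intro u f hf
        have h3 : u - ∑ z ∈ I, f z • v z ∈ R := by
          rw [← Submodule.ker_mkQ R, LinearMap.mem_ker, map_sub, map_sum, ← hf]
          simp only [map_smul, sub_self]
        have h4 := hRD _ h3
        have h5 : (cst (u - ∑ z ∈ I, f z • v z) : κ → L) =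
            cst u - ∑ z ∈ I, algebraMap (ZMod 2) L (f z) • cst (v z) := by
          rw [← nonrat_cst_sum, eq_sub_iff_add_eq, ← cst_add, sub_add_cancel]
        rwa [h5] at h4
      have hX' := h2 X f hf
      have hP' := h2 P f' hf'
      have h3 : ζ - ∑ z ∈ I, (α * algebraMap (ZMod 2) L (f z) +
          β' * algebraMap (ZMod 2) L (f' z)) • cst (v z) ∈ D := by
        have h4 := D.add_mem (D.smul_mem α hX') (D.smul_mem β' hP')
        have h5 : α • ((cst X : κ → L) - ∑ z ∈ I, algebraMap (ZMod 2) L (f z) • cst (v z)) +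
            β' • ((cst P : κ → L) - ∑ z ∈ I, algebraMap (ZMod 2) L (f' z) • cst (v z)) =
            ζ - ∑ z ∈ I, (α * algebraMap (ZMod 2) L (f z) +
              β' * algebraMap (ZMod 2) L (f' z)) • cst (v z) := by
          simp only [add_smul, mul_smul, Finset.sum_add_distrib, ← Finset.smul_sum, hζ]
          rw [smul_sub, smul_sub]
          abel
        rwa [h5] at h4
      have h6 := hDS _ h3
      have h7 := Submodule.sub_mem _ hζS h6
      have h8 : ((ζ, 0) : (κ → L) × (Fin s → L)) - ((ζ - ∑ z ∈ I, (α * algebraMap (ZMod 2) L (f z) +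
          β' * algebraMap (ZMod 2) L (f' z)) • cst (v z), 0) : (κ → L) × (Fin s → L)) =
          ((∑ z ∈ I, (α * algebraMap (ZMod 2) L (f z) +
            β' * algebraMap (ZMod 2) L (f' z)) • cst (v z), 0) : (κ → L) × (Fin s → L)) := by
        refine Prod.ext ?_ ?_
        · show ζ - (ζ - _) = _
          rw [sub_sub_cancel]
        · show (0 : Fin s → L) - 0 = 0
          rw [sub_zero]
      rw [h8] at h7
      have h9 := nonrat_rel_inl H I hI hcard (fun z => α * algebraMap (ZMod 2) L (f z) +
          β' * algebraMap (ZMod 2) L (f' z)) h7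
      have h10 : ∑ z ∈ I, (α * algebraMap (ZMod 2) L (f z) +
          β' * algebraMap (ZMod 2) L (f' z)) • (cst (v z) : κ → L) = 0 := by
        refine Finset.sum_eq_zero fun z hz => ?_
        rw [h9 z hz, zero_smul]
      rw [h10, sub_zero] at h3
      exact hζD h3
  · intro c hcE hLL u hu' I hI hcard heq
    have h2 : u - ∑ z ∈ I, v z ∈ R := by
      rw [← Submodule.ker_mkQ R, LinearMap.mem_ker, map_sub, map_sum, heq, sub_self]
    have h3 := hDS _ (hRD _ h2)
    have hone : (cst (∑ z ∈ I, v z) : κ → L) = ∑ z ∈ I, cst (v z) := by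
      have h4 := nonrat_cst_sum (L := L) I (fun _ => 1) v
      simpa only [one_smul, map_one] using h4
    have h5 : (cst (u - ∑ z ∈ I, v z) : κ → L) = cst u - ∑ z ∈ I, cst (v z) := by
      rw [← hone, eq_sub_iff_add_eq, ← cst_add, sub_add_cancel]
    rw [h5] at h3
    have h6 : ((cst u, 0) : (κ → L) × (Fin s → L)) ∈
        Submodule.span L {fB v X P gam (Sum.inr c)} ⊔ SC v X P gam C := by
      rw [← hLL]
      apply Submodule.mem_sup_left
      have hXL : ((cst X, 0) : (κ → L) × (Fin s → L)) ∈ LL s X P :=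
        Submodule.subset_span (Or.inl rfl)
      have hPL : ((cst P, 0) : (κ → L) × (Fin s → L)) ∈ LL s X P :=
        Submodule.subset_span (Or.inr rfl)
      rcases hu' with rfl | rfl | rfl
      · exact hXL
      · exact hPL
      · have h7 := Submodule.add_mem _ hXL hPL
        have h8 : ((cst X, 0) : (κ → L) × (Fin s → L)) + (cst P, 0) = (cst (X + P), 0) := by
          refine Prod.ext ?_ ?_
          · rw [cst_add]; rfl
          · show (0 : Fin s → L) + 0 = 0
            rw [add_zero]
        rwa [h8] at h7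
    obtain ⟨y, hy, σ, hσ, hsum⟩ := Submodule.mem_sup.1 h6
    obtain ⟨x, rfl⟩ := Submodule.mem_span_singleton.1 hy
    -- the relation
    set J : Finset (β ⊕ Fin g) := insert (Sum.inr c) (I.map ⟨Sum.inl, Sum.inl_injective⟩) with hJ
    have hcJ : (Sum.inr c : β ⊕ Fin g) ∉ I.map ⟨Sum.inl, Sum.inl_injective⟩ := by
      intro h
      obtain ⟨y, _, h⟩ := Finset.mem_map.1 h
      exact Sum.inl_ne_inr h
    have hJE : (J : Set (β ⊕ Fin g)) ⊆ E := by
      intro z hz
      rw [hJ, Finset.coe_insert, Finset.coe_map] at hz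
      rcases hz with rfl | ⟨y, hy, rfl⟩
      · exact hcE
      · exact hI y hy
    have hJc : J.card ≤ a := by
      rw [hJ, Finset.card_insert_of_notMem hcJ, Finset.card_map]
      exact hcard
    have hrel : ∑ z ∈ J, (Sum.elim (fun _ => (1 : L)) (fun _ => -x) z) • fB v X P gam z ∈
        SC v X P gam C := by
      rw [hJ, Finset.sum_insert hcJ, Finset.sum_map]
      have h7 : (∑ z ∈ I, (Sum.elim (fun _ => (1 : L)) (fun _ => -x) (Sum.inl z : β ⊕ Fin g)) •
          fB v X P gam (Sum.inl z)) =
          ((∑ z ∈ I, cst (v z), 0) : (κ → L) × (Fin s → L)) := by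
        refine Prod.ext ?_ ?_
        · rw [Prod.fst_sum]
          refine Finset.sum_congr rfl fun z _ => ?_
          show (1 : L) • cst (v z) = cst (v z)
          rw [one_smul]
        · rw [Prod.snd_sum]
          refine Finset.sum_eq_zero fun z _ => ?_
          show (1 : L) • (0 : Fin s → L) = 0
          rw [smul_zero]
      have h8 := Submodule.sub_mem _ hσ h3
      have h9 : σ - ((cst u - ∑ z ∈ I, cst (v z), 0) : (κ → L) × (Fin s → L)) =
          (-x) • fB v X P gam (Sum.inr c) + ((∑ z ∈ I, cst (v z), 0) : (κ → L) × (Fin s → L)) := by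
        have h10 : σ = (cst u, 0) - x • fB v X P gam (Sum.inr c) := by
          rw [← hsum, add_sub_cancel_left]
        have h11 : ((cst u - ∑ z ∈ I, cst (v z), 0) : (κ → L) × (Fin s → L)) =
            (cst u, 0) - (∑ z ∈ I, cst (v z), 0) := by
          refine Prod.ext rfl ?_
          show (0 : Fin s → L) = 0 - 0
          rw [sub_zero]
        rw [h10, h11, neg_smul]
        abel
      rw [h9] at h8
      have h12 := h7.symm ▸ h8
      exact h12
    have hz := nonrat_rel H J hJE hJc _ hrel
    have hI0 : I = ∅ := by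
      by_contra hne
      obtain ⟨i, hi⟩ := Finset.nonempty_iff_ne_empty.2 hne
      have h7 := hz (Sum.inl i) (by
        rw [hJ]
        exact Finset.mem_insert_of_mem (Finset.mem_map.2 ⟨i, hi, rfl⟩))
      exact one_ne_zero (h7 : (1 : L) = 0)
    have hx0 : x = 0 := by
      have h7 := hz (Sum.inr c) (by
        rw [hJ]
        exact Finset.mem_insert_self _ _)
      exact neg_eq_zero.1 (h7 : -x = 0)
    apply hu u hu'
    rw [← hsum, hx0, zero_smul, zero_add]
    exact hσ

end Pool.Agent.MP8f11b1
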