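import Pool.Agent.Lib.MP_8f11b1_co_DU.RatQ
import Pool.Agent.Lib.MP_8f11b1_co_DU.Nonrat
import Pool.Agent.Lib.MP_8f11b1_co_DU.Hr
import Pool.Agent.Lib.MP_8f11b1_co_RX.Lin

set_option autoImplicit false

namespace Pool.Agent.MP8f11b1

variable {L κ β : Type} [Field L] [Algebra (ZMod 2) L] [Fintype κ] [Finite β] {g : ℕ}

namespace Free2

variable {A : Type} [AddCommGroup A] [Module (ZMod 2) A]

theorem dbl (x : A) : x + x = 0 := by
  rw [← two_smul (ZMod 2) x]
  have h : (2 : ZMod 2) = 0 := by decide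
  rw [h, zero_smul]

theorem pair_span {X P x y : A} (hxy : x ≠ y) (hx : x = X ∨ x = P ∨ x = X + P)
    (hy : y = X ∨ y = P ∨ y = X + P) :
    X ∈ Submodule.span (ZMod 2) {x, y} ∧ P ∈ Submodule.span (ZMod 2) {x, y} := by
  have h1 : x ∈ Submodule.span (ZMod 2) {x, y} := Submodule.subset_span (by simp)
  have h2 : y ∈ Submodule.span (ZMod 2) {x, y} := Submodule.subset_span (by simp)
  have h3 : x + y ∈ Submodule.span (ZMod 2) {x, y} := Submodule.add_mem _ h1 h2
  have e1 : X + (X + P) = P := by rw [← add_assoc, dbl, zero_add]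
  have e2 : P + (X + P) = X := by rw [add_comm X P, ← add_assoc, dbl, zero_add]
  have e3 : X + P + X = P := by rw [add_comm]; exact e1
  have e4 : X + P + P = X := by rw [add_comm]; exact e2
  rcases hx with rfl | rfl | rfl <;> rcases hy with rfl | rfl | rfl
  · exact absurd rfl hxy
  · exact ⟨h1, h2⟩
  · rw [e1] at h3
    exact ⟨h1, h3⟩
  · exact ⟨h2, h1⟩
  · exact absurd rfl hxy
  · rw [e2] at h3
    exact ⟨h3, h1⟩
  · rw [e3] at h3
    exact ⟨h2, h3⟩
  · rw [e4] at h3
    exact ⟨h3, h2⟩
  · exact absurd rfl hxy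

theorem inj_ne {β : Type} (f : β → A) (I : Finset β)
    (h : ∀ J ⊆ I, J.card ≤ 2 → LinearIndepOn (ZMod 2) f (J : Set β)) :
    Set.InjOn f I ∧ ∀ z ∈ I, f z ≠ 0 := by
  classical
  constructor
  · intro z hz z' hz' hzz
    have h1 := h {z, z'} (by
      intro x hx
      rcases Finset.mem_insert.1 hx with rfl | hx
      · exact hz
      · rw [Finset.mem_singleton.1 hx]
        exact hz') Finset.card_le_two
    exact h1.injOn (by simp) (by simp) hzz
  · intro z hz
    have h1 := h {z} (by simpa using hz) (by simp)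
    exact h1.ne_zero (by simp)

/-- the number of elements -/
theorem card_le [Fintype A] [DecidableEq A] {β : Type} (f : β → A) (I : Finset β)
    (h : Set.InjOn f I) (U : Finset A) (hU : ∀ z ∈ I, f z ∉ U) :
    I.card + U.card ≤ Fintype.card A := by
  classical
  rw [← Finset.card_image_of_injOn h, ← Finset.card_union_of_disjoint]
  · exact Finset.card_le_univ _
  · rw [Finset.disjoint_left]
    intro x hx
    obtain ⟨z, hz, rfl⟩ := Finset.mem_image.1 hx
    exact hU z hz

end Free2

open Free2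

theorem free2 {v : β → κ → ZMod 2} {X P : κ → ZMod 2} {gam : Fin g → ZZ L 0} {b : ℕ}
    {C E : Set (β ⊕ Fin g)} (H : FreeHyp v X P gam 2 C E) (hb : 6 ≤ b)
    (hE : E.ncard = b) (hg : g + 2 = b)
    (T₀ T₁ : Set (Fin g)) (hT₀ : T₀.ncard = 1) (hT₁ : T₁.ncard = 1)
    (hX : ((1, 0, 0) : ZZ L 0) ∈ Submodule.span L (gam '' T₀))
    (hXP : ((1, 1, 0) : ZZ L 0) ∈ Submodule.span L (gam '' T₁)) : False := by
  classical
  have hEf : E.Finite := Set.finite_of_ncard_pos (by omega)
  have hCf : C.Finite := (lin_ncard_le _ H.ind).1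
  have hBt : BB L κ 0 = ⊤ := by
    rw [eq_top_iff]
    rintro x -
    rw [BB, LinearMap.mem_ker]
    exact Subsingleton.elim _ _
  have hB : BB L κ 0 ⊔ SC v X P gam C = ⊤ := by rw [hBt, top_sup_eq]
  have hinr : ∀ c, fB v X P gam (Sum.inr c) ∈ LL (L := L) 0 X P := by
    intro c
    rw [Hr.mem_LL]
    exact ⟨_, _, Prod.ext rfl (Subsingleton.elim _ _)⟩
  have hSr : Module.finrank L ↥(SC v X P gam C) = C.ncard := lin_finrank_span _ H.ind hCf
  have hLr := Submodule.finrank_sup_add_finrank_inf_eq (LL 0 X P) (SC v X P gam C)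
  rw [Hr.finrank_LL H.xne H.pne H.xp, hSr] at hLr
  have hcard := Hr.card_EB E hEf
  -- the rational cases
  have hcnt : ∀ R : Submodule (ZMod 2) (κ → ZMod 2),
      (∀ p : κ → L, ((p, 0) : (κ → L) × (Fin 0 → L)) ∈ SC v X P gam C ↔
        p ∈ Submodule.span L (cst '' (R : Set (κ → ZMod 2)))) →
      Nat.card ((κ → ZMod 2) ⧸ R) = 4 ∧ Set.InjOn (fun z => R.mkQ (v z)) (Hr.EB E) ∧
        ∀ z ∈ Hr.EB E, R.mkQ (v z) ≠ 0 := by
    intro R hR
    obtain ⟨h1, h2⟩ := ratQ H R hR
    have h3 := inj_ne (fun z => R.mkQ (v z)) (Hr.EB E)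
      (fun J hJ hJc => h2 J (fun z hz => Hr.mem_EB.1 (hJ hz)) hJc)
    refine ⟨?_, h3⟩
    rw [Module.natCard_eq_pow_finrank (K := ZMod 2), h1 hB]
    simp
  have hcnt3 : ∀ R : Submodule (ZMod 2) (κ → ZMod 2),
      (∀ p : κ → L, ((p, 0) : (κ → L) × (Fin 0 → L)) ∈ SC v X P gam C ↔
        p ∈ Submodule.span L (cst '' (R : Set (κ → ZMod 2)))) → (Hr.EB E).card ≤ 3 := by
    intro R hR
    obtain ⟨h1, h2, h3⟩ := hcnt R hR
    have : Fintype ((κ → ZMod 2) ⧸ R) := Fintype.ofFinite _
    have h4 := card_le (fun z => R.mkQ (v z)) (Hr.EB E) h2 {0} (by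
      intro z hz
      rw [Finset.mem_singleton]
      exact h3 z hz)
    rw [← Nat.card_eq_fintype_card, h1, Finset.card_singleton] at h4
    omega
  -- the small part
  have hZ1 : Module.finrank L ↥(LL 0 X P ⊔ SC v X P gam C) < C.ncard + 2 →
      (E ∩ Set.range Sum.inr).ncard ≤ 1 := by
    intro hlt
    by_contra hn
    obtain ⟨D, hDs, hDc⟩ := Set.exists_subset_card_eq (s := E ∩ Set.range Sum.inr) (n := 2)
      (by omega)
    have hDE : D ⊆ E := hDs.trans Set.inter_subset_left
    have hDI := (H.unif D hDE).2 hDc.le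
    have hDd : Disjoint D C := (H.disj.mono_right hDE).symm
    have hDr := lin_finrank_span _ hDI ((hEf.subset hDE).union hCf)
    rw [Set.ncard_union_eq hDd (hEf.subset hDE) hCf, hDc] at hDr
    have hle : Submodule.span L (fB v X P gam '' (D ∪ C)) ≤ LL 0 X P ⊔ SC v X P gam C := by
      rw [Submodule.span_le]
      rintro _ ⟨z, hz | hz, rfl⟩
      · obtain ⟨-, c, rfl⟩ := hDs hz
        exact Submodule.mem_sup_left (hinr c)
      · exact Submodule.mem_sup_right (Submodule.subset_span ⟨z, hz, rfl⟩)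
    have := Submodule.finrank_mono hle
    omega
  have hu0 : ∀ u, (u = X ∨ u = P ∨ u = X + P) → u ≠ 0 := by
    rintro u (rfl | rfl | rfl)
    · exact H.xne
    · exact H.pne
    · exact Hr.xp_ne H.xp
  have hd : Module.finrank L ↥(LL 0 X P ⊓ SC v X P gam C) ≤ 2 := by
    have := Submodule.finrank_mono (inf_le_left : LL 0 X P ⊓ SC v X P gam C ≤ LL 0 X P)
    rwa [Hr.finrank_LL H.xne H.pne H.xp] at this
  have hd3 : Module.finrank L ↥(LL 0 X P ⊓ SC v X P gam C) = 0 ∨
      Module.finrank L ↥(LL 0 X P ⊓ SC v X P gam C) = 1 ∨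
      Module.finrank L ↥(LL 0 X P ⊓ SC v X P gam C) = 2 := by omega
  rcases hd3 with hd0 | hd1 | hd2
  · -- trivial intersection
    have h0 : LL 0 X P ⊓ SC v X P gam C = ⊥ := Submodule.finrank_eq_zero.1 hd0
    have hR := Hr.rat0 (v := v) (X := X) (P := P) (gam := gam) (C := C) h0
    set R : Submodule (ZMod 2) (κ → ZMod 2) :=
      Submodule.span (ZMod 2) (v '' {z | Sum.inl z ∈ C}) with hRdef
    obtain ⟨h1, h2, h3⟩ := hcnt R hR
    have : Fintype ((κ → ZMod 2) ⧸ R) := Fintype.ofFinite _
    rw [Nat.card_eq_fintype_card] at h1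
    have hRm : ∀ w ∈ R, ((cst w, 0) : (κ → L) × (Fin 0 → L)) ∈ SC v X P gam C :=
      fun w hw => (hR _).2 (Submodule.subset_span ⟨w, hw, rfl⟩)
    have hune : ∀ u, (u = X ∨ u = P ∨ u = X + P) → R.mkQ u ≠ 0 := by
      intro u hu h
      rw [Submodule.mkQ_apply, Submodule.Quotient.mk_eq_zero] at h
      have h8 : ((cst u, 0) : (κ → L) × (Fin 0 → L)) ∈ LL 0 X P ⊓ SC v X P gam C :=
        ⟨Hr.cst_mem_LL hu, hRm u h⟩
      rw [h0, Submodule.mem_bot, Prod.mk_eq_zero] at h8
      exact Hr.cst_ne (hu0 u hu) h8.1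
    obtain ⟨c₀, rfl⟩ := Set.ncard_eq_one.1 hT₀
    obtain ⟨c₁, rfl⟩ := Set.ncard_eq_one.1 hT₁
    rw [Set.image_singleton, Submodule.mem_span_singleton] at hX hXP
    obtain ⟨m₀, hm₀⟩ := hX
    obtain ⟨m₁, hm₁⟩ := hXP
    have hm₀' : m₀ • fB v X P gam (Sum.inr c₀) = (cst X, 0) := by
      have e1 : m₀ * (gam c₀).1 = 1 := congrArg Prod.fst hm₀
      have e2 : m₀ * (gam c₀).2.1 = 0 := congrArg (fun x => x.2.1) hm₀
      refine Prod.ext ?_ (Subsingleton.elim _ _)
      have e3 : m₀ • ((gam c₀).1 • cst X + (gam c₀).2.1 • cst P : κ → L) = cst X := by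
        rw [smul_add, smul_smul, smul_smul, e1, e2, one_smul, zero_smul, add_zero]
      exact e3
    have hm₁' : m₁ • fB v X P gam (Sum.inr c₁) = (cst (X + P), 0) := by
      have e1 : m₁ * (gam c₁).1 = 1 := congrArg Prod.fst hm₁
      have e2 : m₁ * (gam c₁).2.1 = 1 := congrArg (fun x => x.2.1) hm₁
      refine Prod.ext ?_ (Subsingleton.elim _ _)
      have e3 : m₁ • ((gam c₁).1 • cst X + (gam c₁).2.1 • cst P : κ → L) = cst (X + P) := by
        rw [smul_add, smul_smul, smul_smul, e1, e2, one_smul, one_smul, cst_add]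
      exact e3
    have hc01 : c₀ ≠ c₁ := by
      rintro rfl
      have e1 : m₀ * (gam c₀).1 = 1 := congrArg Prod.fst hm₀
      have e2 : m₀ * (gam c₀).2.1 = 0 := congrArg (fun x => x.2.1) hm₀
      have e3 : m₁ * (gam c₀).2.1 = 1 := congrArg (fun x => x.2.1) hm₁
      have e4 : m₀ ≠ 0 := by
        rintro rfl
        rw [zero_mul] at e1
        exact zero_ne_one e1
      have e5 : (gam c₀).2.1 = 0 := (mul_eq_zero.1 e2).resolve_left e4
      rw [e5, mul_zero] at e3
      exact zero_ne_one e3
    -- a class that is blocked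
    have hblock : ∀ (u : κ → ZMod 2) (c : Fin g) (m : L), Sum.inr c ∈ E →
        m • fB v X P gam (Sum.inr c) = (cst u, 0) → u ≠ 0 →
        ∀ z ∈ Hr.EB E, R.mkQ (v z) ≠ R.mkQ u := by
      intro u c m hc hm hu z hz hzu
      have hm0 : m ≠ 0 := by
        rintro rfl
        rw [zero_smul] at hm
        exact Hr.cst_ne hu (congrArg Prod.fst hm).symm
      have h4 := Hr.sum_mem hRm u {z} (by rw [Finset.sum_singleton]; exact hzu.symm)
      rw [Finset.sum_singleton, ← hm] at h4
      have hBE : ({Sum.inr c, Sum.inl z} : Set (β ⊕ Fin g)) ⊆ E := by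
        rintro x (rfl | rfl)
        · exact hc
        · exact Hr.mem_EB.1 hz
      apply Hr.free_notMem H hBE (by rw [Set.ncard_pair (by simp)]) (z := Sum.inl z)
        (by simp)
      have h5 : fB v X P gam (Sum.inr c) ∈ Submodule.span L
          (fB v X P gam '' (({Sum.inr c, Sum.inl z} : Set (β ⊕ Fin g)) \ {Sum.inl z})) ⊔
          SC v X P gam C := by
        apply Submodule.mem_sup_left
        apply Submodule.subset_span
        exact ⟨Sum.inr c, ⟨by simp, by simp⟩, rfl⟩
      have h6 := Submodule.sub_mem _ (Submodule.smul_mem _ m h5)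
        (Submodule.mem_sup_right h4 : _ ∈ Submodule.span L
          (fB v X P gam '' (({Sum.inr c, Sum.inl z} : Set (β ⊕ Fin g)) \ {Sum.inl z})) ⊔
          SC v X P gam C)
      rwa [sub_sub_cancel] at h6
    have hZle : ∀ F : Finset (Fin g), (∀ c ∈ F, Sum.inr c ∉ E) →
        (E ∩ Set.range Sum.inr).ncard + F.card ≤ g := by
      intro F hF
      have e1 : (E ∩ Set.range Sum.inr : Set (β ⊕ Fin g)) ⊆
          Sum.inr '' ((Finset.univ \ F : Finset (Fin g)) : Set (Fin g)) := by
        rintro _ ⟨h, c, rfl⟩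
        refine ⟨c, ?_, rfl⟩
        rw [Finset.mem_coe, Finset.mem_sdiff]
        exact ⟨Finset.mem_univ _, fun hc => hF c hc h⟩
      have e2 := Set.ncard_le_ncard e1 (Set.toFinite _)
      rw [Set.ncard_image_of_injective _ Sum.inr_injective, Set.ncard_coe_finset,
        Finset.card_sdiff_of_subset (Finset.subset_univ F), Finset.card_univ,
        Fintype.card_fin] at e2
      have e3 := Finset.card_le_univ F
      rw [Fintype.card_fin] at e3
      omega
    have hXX : R.mkQ X ≠ R.mkQ (X + P) := by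
      intro h
      apply hune P (Or.inr (Or.inl rfl))
      rw [map_add] at h
      have e1 : R.mkQ X + R.mkQ P = R.mkQ X + 0 := by rw [← h, add_zero]
      exact add_left_cancel e1
    have hX0 := hune X (Or.inl rfl)
    have hXP0 := hune (X + P) (Or.inr (Or.inr rfl))
    by_cases hc0 : (Sum.inr c₀ : β ⊕ Fin g) ∈ E <;> by_cases hc1 : (Sum.inr c₁ : β ⊕ Fin g) ∈ E
    · have h4 := card_le (fun z => R.mkQ (v z)) (Hr.EB E) h2 {0, R.mkQ X, R.mkQ (X + P)} (by
        intro z hz
        simp only [Finset.mem_insert, Finset.mem_singleton, not_or]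
        exact ⟨h3 z hz, hblock X c₀ m₀ hc0 hm₀' H.xne z hz,
          hblock (X + P) c₁ m₁ hc1 hm₁' (Hr.xp_ne H.xp) z hz⟩)
      have h5 : ({0, R.mkQ X, R.mkQ (X + P)} : Finset ((κ → ZMod 2) ⧸ R)).card = 3 := by
        rw [Finset.card_eq_three]
        exact ⟨_, _, _, hX0.symm, hXP0.symm, hXX, rfl⟩
      have h6 := hZle ∅ (by simp)
      rw [Finset.card_empty] at h6
      omega
    · have h4 := card_le (fun z => R.mkQ (v z)) (Hr.EB E) h2 {0, R.mkQ X} (by
        intro z hz
        simp only [Finset.mem_insert, Finset.mem_singleton, not_or]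
        exact ⟨h3 z hz, hblock X c₀ m₀ hc0 hm₀' H.xne z hz⟩)
      rw [Finset.card_pair hX0.symm] at h4
      have h6 := hZle {c₁} (by
        intro c hc
        rw [Finset.mem_singleton.1 hc]
        exact hc1)
      rw [Finset.card_singleton] at h6
      omega
    · have h4 := card_le (fun z => R.mkQ (v z)) (Hr.EB E) h2 {0, R.mkQ (X + P)} (by
        intro z hz
        simp only [Finset.mem_insert, Finset.mem_singleton, not_or]
        exact ⟨h3 z hz, hblock (X + P) c₁ m₁ hc1 hm₁' (Hr.xp_ne H.xp) z hz⟩)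
      rw [Finset.card_pair hXP0.symm] at h4
      have h6 := hZle {c₀} (by
        intro c hc
        rw [Finset.mem_singleton.1 hc]
        exact hc0)
      rw [Finset.card_singleton] at h6
      omega
    · have h4 := hcnt3 R hR
      have h6 := hZle {c₀, c₁} (by
        intro c hc
        rcases Finset.mem_insert.1 hc with rfl | hc
        · exact hc0
        · rw [Finset.mem_singleton.1 hc]
          exact hc1)
      rw [Finset.card_pair hc01] at h6
      omega
  · -- one-dimensional intersection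
    have h1 := hZ1 (by omega)
    by_cases hu : ∀ u : κ → ZMod 2, (u = X ∨ u = P ∨ u = X + P) →
          ((cst u, 0) : (κ → L) × (Fin 0 → L)) ∉ SC v X P gam C
    · set R : Submodule (ZMod 2) (κ → ZMod 2) :=
        Submodule.span (ZMod 2) (v '' {z | Sum.inl z ∈ C}) with hRdef
      obtain ⟨h2, h3, h4⟩ := nonrat H hd1 hu R rfl
      have hRm : ∀ w ∈ R, ((cst w, 0) : (κ → L) × (Fin 0 → L)) ∈ SC v X P gam C := by
        intro w hw
        have e1 : (cst w : κ → L) ∈ Submodule.span L (cst '' (R : Set (κ → ZMod 2))) :=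
          Submodule.subset_span ⟨w, hw, rfl⟩
        rw [hRdef, Hr.span_cst_span] at e1
        rw [sc_bb]
        refine ⟨0, 0, ?_, by simpa using e1⟩
        rw [zero_smul, zero_smul, add_zero]
        exact Submodule.zero_mem _
      have hune : ∀ u, (u = X ∨ u = P ∨ u = X + P) → R.mkQ u ≠ 0 := by
        intro u hu' h
        rw [Submodule.mkQ_apply, Submodule.Quotient.mk_eq_zero] at h
        exact hu u hu' (hRm u h)
      have : Fintype ((κ → ZMod 2) ⧸ R) := Fintype.ofFinite _
      have hc8 : Fintype.card ((κ → ZMod 2) ⧸ R) = 8 := by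
        rw [← Nat.card_eq_fintype_card, Module.natCard_eq_pow_finrank (K := ZMod 2), h2 hB]
        simp
      have h5 := inj_ne (fun z => R.mkQ (v z)) (Hr.EB E)
        (fun J hJ hJc => (h3 J (fun z hz => Hr.mem_EB.1 (hJ hz)) hJc).1)
      have hX0 := hune X (Or.inl rfl)
      have hP0 := hune P (Or.inr (Or.inl rfl))
      have hXP0 := hune (X + P) (Or.inr (Or.inr rfl))
      have hXX : R.mkQ X ≠ R.mkQ (X + P) := by
        intro h
        apply hP0
        rw [map_add] at h
        have e1 : R.mkQ X + R.mkQ P = R.mkQ X + 0 := by rw [← h, add_zero]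
        exact add_left_cancel e1
      have hPP : R.mkQ P ≠ R.mkQ (X + P) := by
        intro h
        apply hX0
        rw [map_add] at h
        have e1 : R.mkQ X + R.mkQ P = 0 + R.mkQ P := by rw [← h, zero_add]
        exact add_right_cancel e1
      have hXPne : R.mkQ X ≠ R.mkQ P := by
        intro h
        apply hXP0
        rw [map_add, h]
        exact dbl _
      set U : Finset ((κ → ZMod 2) ⧸ R) := {0, R.mkQ X, R.mkQ P, R.mkQ (X + P)} with hU
      have hUc : U.card = 4 := by
        rw [hU, Finset.card_insert_of_notMem, Finset.card_insert_of_notMem,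
          Finset.card_pair hPP]
        · simp only [Finset.mem_insert, Finset.mem_singleton, not_or]
          exact ⟨hXPne, hXX⟩
        · simp only [Finset.mem_insert, Finset.mem_singleton, not_or]
          exact ⟨hX0.symm, hP0.symm, hXP0.symm⟩
      have hmemU : ∀ z ∈ Hr.EB E, R.mkQ (v z) ∈ U →
          R.mkQ (v z) = R.mkQ X ∨ R.mkQ (v z) = R.mkQ P ∨
            R.mkQ (v z) = R.mkQ X + R.mkQ P := by
        intro z hz hzU
        rw [hU] at hzU
        simp only [Finset.mem_insert, Finset.mem_singleton] at hzU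
        rcases hzU with h | h | h | h
        · exact absurd h (h5.2 z hz)
        · exact Or.inl h
        · exact Or.inr (Or.inl h)
        · rw [map_add] at h
          exact Or.inr (Or.inr h)
      have h6 := card_le (fun z => R.mkQ (v z)) ((Hr.EB E).filter fun z => R.mkQ (v z) ∉ U)
        (h5.1.mono (by
          intro z hz
          exact (Finset.mem_filter.1 hz).1)) U (fun z hz => (Finset.mem_filter.1 hz).2)
      have h7 : ((Hr.EB E).filter fun z => ¬ R.mkQ (v z) ∉ U).card ≤ 1 := by
        rw [Finset.card_le_one]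
        intro z hz z' hz'
        by_contra hne
        rw [Finset.mem_filter, not_not] at hz hz'
        have e1 : ∀ x ∈ ({z, z'} : Finset β), Sum.inl x ∈ E := by
          intro x hx
          rcases Finset.mem_insert.1 hx with rfl | hx
          · exact Hr.mem_EB.1 hz.1
          · rw [Finset.mem_singleton.1 hx]
            exact Hr.mem_EB.1 hz'.1
        apply (h3 {z, z'} e1 Finset.card_le_two).2
        have e2 : (fun z => R.mkQ (v z)) '' (({z, z'} : Finset β) : Set β) =
            {R.mkQ (v z), R.mkQ (v z')} := by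
          rw [Finset.coe_insert, Finset.coe_singleton, Set.image_pair]
        rw [e2]
        exact pair_span (fun h => hne (h5.1 hz.1 hz'.1 h)) (hmemU z hz.1 hz.2)
          (hmemU z' hz'.1 hz'.2)
      have h8 := Finset.card_filter_add_card_filter_not (s := Hr.EB E)
        (fun z => R.mkQ (v z) ∉ U)
      have h9 : ((Hr.EB E).filter fun z => ¬ R.mkQ (v z) ∉ U).Nonempty := by
        rw [← Finset.card_pos]
        omega
      obtain ⟨z, hz⟩ := h9
      rw [Finset.mem_filter, not_not] at hz
      have h10 : (E ∩ Set.range Sum.inr).Nonempty := by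
        rw [← Set.ncard_pos (hEf.inter_of_left _)]
        omega
      obtain ⟨_, hcE, c, rfl⟩ := h10
      have hcI := (H.unif {Sum.inr c} (by
        rintro x rfl
        exact hcE)).2 (by rw [Set.ncard_singleton]; omega)
      have hcr := lin_finrank_span _ hcI ((Set.finite_singleton _).union hCf)
      have hcC : Disjoint ({Sum.inr c} : Set (β ⊕ Fin g)) C := by
        rw [Set.disjoint_singleton_left]
        exact fun h => Set.disjoint_left.1 H.disj h hcE
      rw [Set.ncard_union_eq hcC (Set.finite_singleton _) hCf, Set.ncard_singleton,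
        Set.image_union, Set.image_singleton, Submodule.span_union] at hcr
      have h11 : LL 0 X P ⊔ SC v X P gam C =
          Submodule.span L {fB v X P gam (Sum.inr c)} ⊔ SC v X P gam C := by
        symm
        apply Submodule.eq_of_le_of_finrank_le
        · apply sup_le_sup_right
          rw [Submodule.span_singleton_le_iff_mem]
          exact hinr c
        · have e1 : Submodule.span L (fB v X P gam '' C) = SC v X P gam C := rfl
          rw [e1] at hcr
          rw [hcr]
          omega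
      have h12 : ∃ u, (u = X ∨ u = P ∨ u = X + P) ∧ R.mkQ u = R.mkQ (v z) := by
        rcases hmemU z hz.1 hz.2 with h | h | h
        · exact ⟨X, Or.inl rfl, h.symm⟩
        · exact ⟨P, Or.inr (Or.inl rfl), h.symm⟩
        · exact ⟨X + P, Or.inr (Or.inr rfl), by rw [map_add, h]⟩
      obtain ⟨u, hu1, hu2⟩ := h12
      apply h4 c hcE h11 u hu1 {z} (by
        intro x hx
        rw [Finset.mem_singleton.1 hx]
        exact Hr.mem_EB.1 hz.1) (by simp)
      rw [Finset.sum_singleton]
      exact hu2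
    · push Not at hu
      obtain ⟨u, hu1, hu2⟩ := hu
      have := hcnt3 _ (Hr.rat1 H.xne H.pne H.xp hd1 u hu1 hu2)
      omega
  · have h1 := hZ1 (by omega)
    have := hcnt3 _ (Hr.rat2' H.xne H.pne H.xp hd2).2
    omega

end Pool.Agent.MP8f11b1
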