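import Pool.Agent.Lib.MP_8f11b1_co_DU.RatQ

set_option autoImplicit false

namespace Pool.Agent.MP8f11b1

variable {L κ β : Type} [Field L] [Algebra (ZMod 2) L] [Fintype κ] [Finite β] {g s : ℕ}

private theorem FreeA_span (v : β → κ → ZMod 2) (X P : κ → ZMod 2) (gam : Fin g → ZZ L s)
    (C : Set (β ⊕ Fin g)) {u : κ → ZMod 2}
    (hu : u ∈ Submodule.span (ZMod 2) (v '' {z | Sum.inl z ∈ C})) :
    ((cst u, 0) : (κ → L) × (Fin s → L)) ∈ Submodule.span L (fB v X P gam '' C) := by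
  have h1 := (desc_span (L := L) u _).2 hu
  have h2 := Submodule.mem_map_of_mem (f := LinearMap.inl L (κ → L) (Fin s → L)) h1
  rw [Submodule.map_span] at h2
  refine Submodule.span_mono ?_ h2
  rintro _ ⟨_, ⟨_, ⟨z, hz, rfl⟩, rfl⟩, rfl⟩
  exact ⟨Sum.inl z, hz, rfl⟩

private def FreeA_lin (X P : κ → ZMod 2) (s : ℕ) :
    ZZ L s →ₗ[L] (κ → L) × (Fin s → L) where
  toFun x := (x.1 • cst X + x.2.1 • cst P, x.2.2)
  map_add' x y := by
    refine Prod.ext ?_ rfl
    simp only [Prod.fst_add, Prod.snd_add, add_smul]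
    abel
  map_smul' c x := by
    refine Prod.ext ?_ rfl
    simp only [Prod.smul_fst, Prod.smul_snd, smul_eq_mul, mul_smul, smul_add, RingHom.id_apply]

private theorem FreeA_gam (v : β → κ → ZMod 2) (X P : κ → ZMod 2) (gam : Fin g → ZZ L s)
    (T : Set (Fin g)) {x : ZZ L s} (hx : x ∈ Submodule.span L (gam '' T)) :
    ((x.1 • cst X + x.2.1 • cst P, x.2.2) : (κ → L) × (Fin s → L)) ∈
      Submodule.span L (fB v X P gam '' (Sum.inr '' T)) := by
  have h2 := Submodule.mem_map_of_mem (f := FreeA_lin X P s) hx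
  rw [Submodule.map_span] at h2
  refine Submodule.span_mono ?_ h2
  rintro _ ⟨_, ⟨c, hc, rfl⟩, rfl⟩
  exact ⟨Sum.inr c, ⟨c, hc, rfl⟩, rfl⟩

private theorem FreeA_aux {v : β → κ → ZMod 2} {X P : κ → ZMod 2} {gam : Fin g → ZZ L s} {a : ℕ}
    {C E : Set (β ⊕ Fin g)} (H : FreeHyp v X P gam a C E) (h1 : ∀ c, Sum.inr c ∈ E)
    {z : β} (hz : Sum.inl z ∈ E) (T : Set (Fin g)) (hT : T.ncard + 1 = a) {x ρ : κ → ZMod 2}
    (hx : ((cst x, 0) : (κ → L) × (Fin s → L)) ∈
      Submodule.span L (fB v X P gam '' (Sum.inr '' T)))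
    (hρ : ρ ∈ Submodule.span (ZMod 2) (v '' {z | Sum.inl z ∈ C})) (hv : v z = x + ρ) :
    False := by
  have hzC : Sum.inl z ∉ C := fun h => Set.disjoint_left.1 H.disj h hz
  have hzn : (Sum.inl z : β ⊕ Fin g) ∉ Sum.inr '' T ∪ C := by
    rintro (⟨c, _, hc⟩ | h)
    · exact Sum.inr_ne_inl hc
    · exact hzC h
  have hB : insert (Sum.inl z) (Sum.inr '' T) ⊆ E := by
    rintro _ (rfl | ⟨c, _, rfl⟩)
    · exact hz
    · exact h1 c
  have hcard : (insert (Sum.inl z) (Sum.inr '' T) : Set (β ⊕ Fin g)).ncard ≤ a := by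
    refine (Set.ncard_insert_le _ _).trans ?_
    rw [Set.ncard_image_of_injective _ Sum.inr_injective]
    omega
  have h2 := (H.unif _ hB).2 hcard
  rw [Set.insert_union, linearIndepOn_insert hzn] at h2
  apply h2.2
  have h3 : fB v X P gam (Sum.inl z) = (cst x, 0) + ((cst ρ, 0) : (κ → L) × (Fin s → L)) := by
    change ((cst (v z), 0) : (κ → L) × (Fin s → L)) = _
    rw [hv, cst_add, Prod.mk_add_mk, add_zero]
  rw [h3]
  refine Submodule.add_mem _ (Submodule.span_mono (Set.image_mono Set.subset_union_left) hx)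
    (Submodule.span_mono (Set.image_mono Set.subset_union_right) ?_)
  exact FreeA_span v X P gam C hρ

theorem free_A {v : β → κ → ZMod 2} {X P : κ → ZMod 2} {gam : Fin g → ZZ L s} {a : ℕ}
    {C E : Set (β ⊕ Fin g)} (H : FreeHyp v X P gam a C E) (ha : 2 ≤ a)
    (T₀ T₁ : Set (Fin g)) (hT₀ : T₀.ncard + 1 = a) (hT₁ : T₁.ncard + 1 = a)
    (hX : ((1, 0, 0) : ZZ L s) ∈ Submodule.span L (gam '' T₀))
    (hXP : ((1, 1, 0) : ZZ L s) ∈ Submodule.span L (gam '' T₁))
    (h1 : ∀ c, Sum.inr c ∈ E) (h2 : (E ∩ Set.range Sum.inl).ncard = 2)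
    (h4 : BB L κ s ≤ LL s X P ⊔ SC v X P gam C) : False := by
  have hCr : ∀ c, Sum.inr c ∉ C := fun c h => Set.disjoint_left.1 H.disj h (h1 c)
  -- description of the elements without small coordinates
  have hdesc : ∀ z, ∃ a' b' : ZMod 2, ∃ ρ ∈ Submodule.span (ZMod 2) (v '' {z | Sum.inl z ∈ C}),
      v z = a' • X + b' • P + ρ := by
    intro z
    have e1 : ((cst (v z), 0) : (κ → L) × (Fin s → L)) ∈ BB L κ s := by
      unfold BB
      rw [LinearMap.mem_ker]
      rfl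
    have e2 := h4 e1
    have e3 : LL s X P ⊔ SC v X P gam C ≤ (Submodule.span L
        (cst '' ({X, P} ∪ v '' {z | Sum.inl z ∈ C}))).comap
          (LinearMap.fst L (κ → L) (Fin s → L)) := by
      refine sup_le ?_ ?_
      · unfold LL
        rw [Submodule.span_le]
        rintro _ (rfl | rfl)
        · exact Submodule.subset_span ⟨X, Or.inl (by simp), rfl⟩
        · exact Submodule.subset_span ⟨P, Or.inl (by simp), rfl⟩
      · unfold SC
        rw [Submodule.span_le]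
        rintro _ ⟨z' | c, hz', rfl⟩
        · exact Submodule.subset_span ⟨v z', Or.inr ⟨z', hz', rfl⟩, rfl⟩
        · exact absurd hz' (hCr c)
    have e4 : (cst (v z) : κ → L) ∈ Submodule.span L
        (cst '' ({X, P} ∪ v '' {z | Sum.inl z ∈ C})) := e3 e2
    have e5 := (desc_span (v z) _).1 e4
    rw [Submodule.span_union, Submodule.mem_sup] at e5
    obtain ⟨u, hu, ρ, hρ, huρ⟩ := e5
    obtain ⟨a', b', hab⟩ := Submodule.mem_span_pair.1 hu
    exact ⟨a', b', ρ, hρ, by rw [hab, huρ]⟩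
  have hne : ∀ z, Sum.inl z ∈ E → v z ∉ Submodule.span (ZMod 2) (v '' {z | Sum.inl z ∈ C}) := by
    intro z hz hv
    have hzC : Sum.inl z ∉ C := fun h => Set.disjoint_left.1 H.disj h hz
    have e1 := (H.unif {Sum.inl z} (Set.singleton_subset_iff.2 hz)).2 (by
      rw [Set.ncard_singleton]
      omega)
    rw [Set.singleton_union, linearIndepOn_insert hzC] at e1
    exact e1.2 (FreeA_span v X P gam C hv)
  obtain ⟨x1, x2, hx12, hx⟩ := Set.ncard_eq_two.1 h2
  have hx1 : x1 ∈ E ∩ Set.range Sum.inl := by rw [hx]; simp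
  have hx2 : x2 ∈ E ∩ Set.range Sum.inl := by rw [hx]; simp
  obtain ⟨hz1, z1, rfl⟩ := hx1
  obtain ⟨hz2, z2, rfl⟩ := hx2
  obtain ⟨a1, b1, ρ1, hρ1, hv1⟩ := hdesc z1
  obtain ⟨a2, b2, ρ2, hρ2, hv2⟩ := hdesc z2
  have hX' := FreeA_gam v X P gam T₀ hX
  have hXP' := FreeA_gam v X P gam T₁ hXP
  simp only [one_smul, zero_smul, add_zero] at hX' hXP'
  rw [← cst_add] at hXP'
  have hab : ∀ c : ZMod 2, c = 0 ∨ c = 1 := by decide
  -- no element of the first two kinds
  have hkey : ∀ z, Sum.inl z ∈ E → ∀ a' b' : ZMod 2,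
      ∀ ρ ∈ Submodule.span (ZMod 2) (v '' {z | Sum.inl z ∈ C}),
      v z = a' • X + b' • P + ρ → a' = 0 ∧ b' = 1 := by
    intro z hz a' b' ρ hρ hv
    rcases hab a' with rfl | rfl <;> rcases hab b' with rfl | rfl
    · exfalso
      apply hne z hz
      rw [hv, zero_smul, zero_smul, zero_add, zero_add]
      exact hρ
    · exact ⟨rfl, rfl⟩
    · exfalso
      refine FreeA_aux H h1 hz T₀ hT₀ hX' hρ ?_
      rw [hv, one_smul, zero_smul, add_zero]
    · exfalso
      refine FreeA_aux H h1 hz T₁ hT₁ hXP' hρ ?_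
      rw [hv, one_smul, one_smul]
  obtain ⟨rfl, rfl⟩ := hkey z1 hz1 a1 b1 ρ1 hρ1 hv1
  obtain ⟨rfl, rfl⟩ := hkey z2 hz2 a2 b2 ρ2 hρ2 hv2
  -- the two elements are dependent
  have hzC : (Sum.inl z1 : β ⊕ Fin g) ∉ insert (Sum.inl z2) C := by
    rintro (h | h)
    · exact hx12 h
    · exact Set.disjoint_left.1 H.disj h hz1
  have e1 := (H.unif {Sum.inl z1, Sum.inl z2} (by
    rintro _ (rfl | rfl)
    · exact hz1
    · exact hz2)).2 (by
      rw [Set.ncard_pair hx12]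
      exact ha)
  have e2 : ({Sum.inl z1, Sum.inl z2} : Set (β ⊕ Fin g)) ∪ C =
      insert (Sum.inl z1) (insert (Sum.inl z2) C) := by
    rw [Set.insert_union, Set.singleton_union]
  rw [e2, linearIndepOn_insert hzC] at e1
  apply e1.2
  have e3 : v z1 = v z2 + (ρ1 - ρ2) := by
    rw [hv1, hv2]
    abel
  have e4 : v z1 ∈ Submodule.span (ZMod 2) (v '' {z | Sum.inl z ∈ insert (Sum.inl z2) C}) := by
    rw [e3]
    have e5 : (v '' {z | Sum.inl z ∈ C}) ⊆ v '' {z | Sum.inl z ∈ insert (Sum.inl z2) C} :=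
      Set.image_mono fun z hz => Or.inr hz
    refine Submodule.add_mem _ (Submodule.subset_span ⟨z2, Or.inl rfl, rfl⟩)
      (Submodule.sub_mem _ (Submodule.span_mono e5 hρ1) (Submodule.span_mono e5 hρ2))
  exact FreeA_span v X P gam _ e4

end Pool.Agent.MP8f11b1
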