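import Pool.Agent.Lib.MP_8f11b1_co_DU.Split
import Pool.Agent.Lib.MP_8f11b1_co_DU.FreeA
import Pool.Agent.Lib.MP_8f11b1_co_DU.FreeB0
import Pool.Agent.Lib.MP_8f11b1_co_DU.FreeB1a
import Pool.Agent.Lib.MP_8f11b1_co_DU.FreeB1b

set_option autoImplicit false

namespace Pool.Agent.MP8f11b1

variable {L κ β : Type} [Field L] [Algebra (ZMod 2) L] [Fintype κ] [Finite β] {g s : ℕ}

theorem free3 {v : β → κ → ZMod 2} {X P : κ → ZMod 2} {gam : Fin g → ZZ L s} {a b : ℕ}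
    {C E : Set (β ⊕ Fin g)} (H : FreeHyp v X P gam a C E) (ha : 3 ≤ a) (hab : a + 3 ≤ b)
    (hne : ¬ (a = 3 ∧ b = 6)) (hE : E.ncard = b) (hg : g + 2 = b) (hs : s + 2 = a)
    (T₀ T₁ : Set (Fin g)) (hT₀ : T₀.ncard + 1 = a) (hT₁ : T₁.ncard + 1 = a)
    (hX : ((1, 0, 0) : ZZ L s) ∈ Submodule.span L (gam '' T₀))
    (hXP : ((1, 1, 0) : ZZ L s) ∈ Submodule.span L (gam '' T₁)) : False := by
  rcases free_split H ha hab hE hg hs with ⟨h1, h2, h3, h4⟩ | ⟨hB, hd⟩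
  · exact free_A H (by omega) T₀ T₁ hT₀ hT₁ hX hXP h1 h2 h4
  · have hle : Module.finrank L ↥(LL s X P ⊓ SC v X P gam C) ≤ 2 := by omega
    have h3 : Module.finrank L ↥(LL s X P ⊓ SC v X P gam C) = 0 ∨
        Module.finrank L ↥(LL s X P ⊓ SC v X P gam C) = 1 ∨
        Module.finrank L ↥(LL s X P ⊓ SC v X P gam C) = 2 := by omega
    rcases h3 with h | h | h
    · exact free_B0 H ha hab hne hE hB (Submodule.finrank_eq_zero.1 h) (by omega)
    · by_cases hu : ∀ u : κ → ZMod 2, (u = X ∨ u = P ∨ u = X + P) →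
          ((cst u, 0) : (κ → L) × (Fin s → L)) ∉ SC v X P gam C
      · exact free_B1b H ha hab hne hE hs hB h hu (by omega)
      · push Not at hu
        obtain ⟨u, hu1, hu2⟩ := hu
        exact free_B1a H ha hab hE hB h u hu1 hu2 (by omega)
    · exact free_B2 H ha hab hE hB h (by omega)

end Pool.Agent.MP8f11b1
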