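import Pool.Agent.Lib.MP_8f11b1_co_DU.GenA

set_option autoImplicit false

namespace Pool.Agent.MP8f11b1

variable {L : Type} [Field L] [Algebra (ZMod 2) L]

private def gbK (L : Type) [Field L] (s : ℕ) : (Bool ⊕ Fin s → L) ≃ₗ[L] ZZ L s where
  toFun f := (f (.inl true), f (.inl false), fun j => f (.inr j))
  invFun z := fun
    | .inl true => z.1
    | .inl false => z.2.1
    | .inr j => z.2.2 j
  left_inv f := by
    funext i
    rcases i with (_ | _) | j <;> rfl
  right_inv z := rfl
  map_add' f g := rfl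
  map_smul' c f := rfl

omit [Algebra (ZMod 2) L] in
private theorem gb_equiv {a g : ℕ} (ha : 2 ≤ a) (hg : a ≤ g) (M : Fin g → (Fin a → L))
    (x p : Fin a → L) (T₀ : Set (Fin g))
    (hB : ∀ B : Set (Bool ⊕ Fin g), B.ncard ≤ a → B ≠ insert (Sum.inl true) (Sum.inr '' T₀) →
        LinearIndepOn L (withXP x p M) B) :
    ∃ E : (Fin a → L) ≃ₗ[L] ZZ L (a - 2), E x = (1, 0, 0) ∧ E p = (0, 1, 0) := by
  classical
  set σ : Bool ⊕ Fin (a - 2) → Bool ⊕ Fin g := Sum.map id (Fin.castLE (by omega)) with hσ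
  have hinj : Function.Injective σ :=
    Sum.map_injective.2 ⟨Function.injective_id, Fin.castLE_injective _⟩
  have hcard : (Set.range σ).ncard = a := by
    rw [← Nat.card_coe_set_eq, Nat.card_range_of_injective hinj, Nat.card_eq_fintype_card]
    simp
    omega
  have h1 : LinearIndepOn L (withXP x p M) (Set.range σ) := by
    refine hB _ hcard.le ?_
    intro h
    have h2 : (Sum.inl false : Bool ⊕ Fin g) ∈ Set.range σ := ⟨.inl false, rfl⟩
    rw [h] at h2
    rcases h2 with h2 | ⟨c, -, h2⟩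
    · exact absurd h2 (by simp)
    · exact absurd h2 (by simp)
  have h2 : LinearIndependent L (withXP x p M ∘ σ) :=
    (linearIndepOn_range_iff hinj (withXP x p M)).1 h1
  have h3 : Fintype.card (Bool ⊕ Fin (a - 2)) = Module.finrank L (Fin a → L) := by
    rw [Module.finrank_fin_fun]
    simp
    omega
  set b := basisOfLinearIndependentOfCardEqFinrank h2 h3 with hb
  have hb1 : ∀ i, b i = withXP x p M (σ i) := by
    intro i
    rw [hb, coe_basisOfLinearIndependentOfCardEqFinrank]
    rfl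
  have h5 : ∀ i, b.equivFun (b i) = Pi.single i 1 := by
    intro i
    funext j
    rw [Module.Basis.equivFun_self, Pi.single_apply]
    simp only [eq_comm]
  refine ⟨b.equivFun ≪≫ₗ gbK L (a - 2), ?_, ?_⟩
  · have h4 : x = b (.inl true) := by rw [hb1]; rfl
    rw [h4, LinearEquiv.trans_apply, h5]
    refine Prod.ext ?_ (Prod.ext ?_ (funext fun j => ?_))
    · show (Pi.single (.inl true) (1 : L) : Bool ⊕ Fin (a - 2) → L) (.inl true) = 1
      simp
    · show (Pi.single (.inl true) (1 : L) : Bool ⊕ Fin (a - 2) → L) (.inl false) = 0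
      simp
    · show (Pi.single (.inl true) (1 : L) : Bool ⊕ Fin (a - 2) → L) (.inr j) = 0
      simp
  · have h4 : p = b (.inl false) := by rw [hb1]; rfl
    rw [h4, LinearEquiv.trans_apply, h5]
    refine Prod.ext ?_ (Prod.ext ?_ (funext fun j => ?_))
    · show (Pi.single (.inl false) (1 : L) : Bool ⊕ Fin (a - 2) → L) (.inl true) = 0
      simp
    · show (Pi.single (.inl false) (1 : L) : Bool ⊕ Fin (a - 2) → L) (.inl false) = 1
      simp
    · show (Pi.single (.inl false) (1 : L) : Bool ⊕ Fin (a - 2) → L) (.inr j) = 0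
      simp

theorem genB [Infinite L] {a g : ℕ} (ha : 2 ≤ a) (hg : a ≤ g) :
    ∃ (gam : Fin g → ZZ L (a - 2)) (T₀ T₁ : Set (Fin g)), GoodT gam T₀ ∧
      T₀.ncard + 1 = a ∧ T₁.ncard + 1 = a ∧
      ((1, 0, 0) : ZZ L (a - 2)) ∈ Submodule.span L (gam '' T₀) ∧
      ((1, 1, 0) : ZZ L (a - 2)) ∈ Submodule.span L (gam '' T₁) ∧
      ∀ B : Set (Bool ⊕ Fin g),
        (LinearIndepOn L (zz gam) B ∨ B ⊆ insert (Sum.inl true) (Sum.inr '' T₀)) ↔
          B.ncard ≤ a := by
  classical
  obtain ⟨M, hM⟩ := vandermonde_family (L := L) a g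
  obtain ⟨T, -, hT⟩ := Finset.exists_subset_card_eq (s := (Finset.univ : Finset (Fin g)))
    (n := a) (by simpa using hg)
  obtain ⟨u, v, hu, hv, huv⟩ := Finset.one_lt_card_iff.1 (show 1 < T.card by omega)
  obtain ⟨T₀, hT₀⟩ : ∃ T₀ : Set (Fin g), T₀ = ↑(T.erase u) := ⟨_, rfl⟩
  obtain ⟨T₁, hT₁⟩ : ∃ T₁ : Set (Fin g), T₁ = ↑(T.erase v) := ⟨_, rfl⟩
  have hc₀ : T₀.ncard + 1 = a := by
    rw [hT₀, Set.ncard_coe_finset, Finset.card_erase_of_mem hu]
    omega
  have hc₁ : T₁.ncard + 1 = a := by
    rw [hT₁, Set.ncard_coe_finset, Finset.card_erase_of_mem hv]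
    omega
  have hne : T₀ ≠ T₁ := by
    intro h
    have h1 : u ∈ T₁ := by
      rw [hT₁]
      simp [huv, hu]
    rw [← h, hT₀] at h1
    simp at h1
  obtain ⟨x, p, hx, hxp, hB⟩ := genA ha (Module.finrank_fin_fun L) M hM T₀ T₁ hc₀ hc₁ hne
  obtain ⟨E, hEx, hEp⟩ := gb_equiv ha hg M x p T₀ hB
  obtain ⟨gam, hgam⟩ : ∃ gam : Fin g → ZZ L (a - 2), gam = fun c => E (M c) := ⟨_, rfl⟩
  have hzz : zz gam = fun i => E (withXP x p M i) := by
    funext i
    rcases i with (_ | _) | c
    · exact hEp.symm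
    · exact hEx.symm
    · rw [hgam]
      rfl
  have hker : LinearMap.ker (E : (Fin a → L) →ₗ[L] ZZ L (a - 2)) = ⊥ := LinearEquiv.ker E
  have hfin : Module.finrank L (ZZ L (a - 2)) = a := by
    rw [← E.finrank_eq, Module.finrank_fin_fun]
  have hBz : ∀ B : Set (Bool ⊕ Fin g), B.ncard ≤ a →
      B ≠ insert (Sum.inl true) (Sum.inr '' T₀) → LinearIndepOn L (zz gam) B := by
    intro B h1 h2
    rw [hzz]
    exact (LinearMap.linearIndependent_iff (E : (Fin a → L) →ₗ[L] ZZ L (a - 2))
      (v := fun i : B => withXP x p M i) hker).2 (hB B h1 h2)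
  have hMg : ∀ A : Set (Fin g), A.ncard ≤ a → LinearIndepOn L gam A := by
    intro A h1
    rw [hgam]
    exact (LinearMap.linearIndependent_iff (E : (Fin a → L) →ₗ[L] ZZ L (a - 2))
      (v := fun i : A => M i) hker).2 (hM A h1)
  have himg : ∀ A : Set (Fin g), ∀ z, z ∈ Submodule.span L (M '' A) →
      E z ∈ Submodule.span L (gam '' A) := by
    intro A z hz
    have h1 : gam '' A = (E : (Fin a → L) →ₗ[L] ZZ L (a - 2)) '' (M '' A) := by
      rw [hgam, Set.image_image]
      rfl
    rw [h1, Submodule.span_image]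
    exact Submodule.mem_map_of_mem hz
  have hX : ((1, 0, 0) : ZZ L (a - 2)) ∈ Submodule.span L (gam '' T₀) := by
    rw [← hEx]
    exact himg _ _ hx
  have hP : ((1, 1, 0) : ZZ L (a - 2)) ∈ Submodule.span L (gam '' T₁) := by
    have h1 : ((1, 1, 0) : ZZ L (a - 2)) = E (x + p) := by
      rw [map_add, hEx, hEp]
      simp
    rw [h1]
    exact himg _ _ hxp
  have hsp : ∀ A : Set (Fin g), zz gam '' (Sum.inr '' A) = gam '' A := by
    intro A
    rw [Set.image_image]
    rfl
  have hcr : ∀ A : Set (Fin g), (Sum.inr '' A : Set (Bool ⊕ Fin g)).ncard = A.ncard :=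
    fun A => Set.ncard_image_of_injective A Sum.inr_injective
  have hci : ∀ (β : Bool) (A : Set (Fin g)),
      (insert (Sum.inl β) (Sum.inr '' A) : Set (Bool ⊕ Fin g)).ncard = A.ncard + 1 := by
    intro β A
    rw [Set.ncard_insert_of_notMem (by simp) (Set.toFinite _), hcr]
  have hind₀ : LinearIndepOn L gam T₀ := hMg _ (by omega)
  refine ⟨gam, T₀, T₁, ⟨by omega, ?_, hind₀, ?_⟩, hc₀, hc₁, hX, hP, ?_⟩
  · obtain ⟨l, hl, hl'⟩ := (Finsupp.mem_span_image_iff_linearCombination L).1 hX
    refine ⟨l, fun c => ⟨fun h => ?_, fun h h0 => ?_⟩, ?_⟩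
    · exact (Finsupp.mem_supported L l).1 hl (Finsupp.mem_support_iff.2 h)
    · have h1 : ((1, 0, 0) : ZZ L (a - 2)) ∈ Submodule.span L (gam '' (T₀ \ {c})) := by
        refine (Finsupp.mem_span_image_iff_linearCombination L).2 ⟨l, ?_, hl'⟩
        rw [Finsupp.mem_supported]
        intro d hd
        refine ⟨(Finsupp.mem_supported L l).1 hl hd, ?_⟩
        rintro rfl
        exact (Finsupp.mem_support_iff.1 hd) h0
      have h2 : (insert (Sum.inl true) (Sum.inr '' (T₀ \ {c})) : Set (Bool ⊕ Fin g)) ≠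
          insert (Sum.inl true) (Sum.inr '' T₀) := by
        intro h3
        have h4 : (Sum.inr c : Bool ⊕ Fin g) ∈
            (insert (Sum.inl true) (Sum.inr '' T₀) : Set (Bool ⊕ Fin g)) :=
          Or.inr ⟨c, h, rfl⟩
        rw [← h3] at h4
        rcases h4 with h4 | ⟨d, hd, h4⟩
        · exact absurd h4 (by simp)
        · have h5 : d = c := Sum.inr_injective h4
          exact hd.2 h5
      have h3 : (insert (Sum.inl true) (Sum.inr '' (T₀ \ {c})) :
          Set (Bool ⊕ Fin g)).ncard ≤ a := by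
        rw [hci]
        have := Set.ncard_le_ncard (Set.sdiff_subset : T₀ \ {c} ⊆ T₀) (Set.toFinite _)
        omega
      have h4 := hBz _ h3 h2
      rw [linearIndepOn_insert (by simp), hsp] at h4
      exact h4.2 h1
    · rw [Finsupp.linearCombination_apply, Finsupp.sum_fintype _ _ (by simp)] at hl'
      exact hl'
  · have h1 : Submodule.span L (gam '' T₀) ≠ ⊤ := by
      intro h
      have h2 := lin_finrank_span gam hind₀ (Set.toFinite _)
      rw [h, finrank_top, hfin] at h2
      omega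
    obtain ⟨φ, hφ0, hφ⟩ := lin_dual _ h1
    have hkey : ∀ z : ZZ L (a - 2), Submodule.span L (insert z (gam '' T₀)) = ⊤ → φ z ≠ 0 := by
      intro z hz h0
      refine hφ0 ?_
      have h3 : Submodule.span L (insert z (gam '' T₀)) ≤ LinearMap.ker φ := by
        rw [Submodule.span_le]
        rintro y (rfl | hy)
        · exact LinearMap.mem_ker.2 h0
        · exact LinearMap.mem_ker.2 (hφ _ (Submodule.subset_span hy))
      rw [hz] at h3
      exact LinearMap.ker_eq_top.1 (top_le_iff.1 h3)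
    have hκ : φ (0, 1, 0) ≠ 0 := by
      refine hkey _ ?_
      have h3 : LinearIndepOn L (zz gam) (insert (Sum.inl false) (Sum.inr '' T₀)) := by
        refine hBz _ (by rw [hci]; omega) ?_
        intro h4
        have h5 : (Sum.inl false : Bool ⊕ Fin g) ∈
            (insert (Sum.inl true) (Sum.inr '' T₀) : Set (Bool ⊕ Fin g)) := by
          rw [← h4]
          exact Or.inl rfl
        rcases h5 with h5 | ⟨c, -, h5⟩
        · exact absurd h5 (by simp)
        · exact absurd h5 (by simp)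
      have h4 := lin_span_top (zz gam) h3 (by rw [hci, hfin]; omega)
      rw [Set.image_insert_eq, hsp] at h4
      exact h4
    have hdec : ∀ z : ZZ L (a - 2), φ z = z.2.1 * φ (0, 1, 0) + φ (0, 0, z.2.2) := by
      intro z
      have h3 : z = z.1 • ((1, 0, 0) : ZZ L (a - 2)) + z.2.1 • ((0, 1, 0) : ZZ L (a - 2)) +
          ((0, 0, z.2.2) : ZZ L (a - 2)) := by
        ext <;> simp
      conv_lhs => rw [h3]
      rw [map_add, map_add, map_smul, map_smul, hφ _ hX, smul_zero, zero_add, smul_eq_mul]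
    refine ⟨(φ (0, 1, 0))⁻¹ • (φ ∘ₗ (LinearMap.inr L L (L × (Fin (a - 2) → L))) ∘ₗ
      (LinearMap.inr L L (Fin (a - 2) → L))), fun c => ?_⟩
    have h3 : (gam c).2.1 + ((φ (0, 1, 0))⁻¹ •
        (φ ∘ₗ (LinearMap.inr L L (L × (Fin (a - 2) → L))) ∘ₗ
        (LinearMap.inr L L (Fin (a - 2) → L)))) (gam c).2.2 =
        (φ (0, 1, 0))⁻¹ * φ (gam c) := by
      rw [hdec (gam c)]
      simp only [LinearMap.smul_apply, LinearMap.comp_apply, LinearMap.inr_apply, smul_eq_mul]
      field_simp
    rw [h3]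
    constructor
    · intro h4
      rcases mul_eq_zero.1 h4 with h5 | h5
      · exact absurd h5 (inv_ne_zero hκ)
      · by_contra hc
        refine hkey (gam c) ?_ h5
        have h6 : LinearIndepOn L gam (insert c T₀) := by
          refine hMg _ ?_
          rw [Set.ncard_insert_of_notMem hc (Set.toFinite _)]
          omega
        have h7 := lin_span_top gam h6 (by
          rw [Set.ncard_insert_of_notMem hc (Set.toFinite _), hfin]
          omega)
        rwa [Set.image_insert_eq] at h7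
    · intro h4
      rw [hφ _ (Submodule.subset_span ⟨c, h4, rfl⟩), mul_zero]
  · intro B
    constructor
    · rintro (h | h)
      · have h1 := (lin_ncard_le (zz gam) h).2
        rwa [hfin] at h1
      · have h1 := Set.ncard_le_ncard h (Set.toFinite _)
        rw [hci] at h1
        omega
    · intro h
      by_cases h1 : B = insert (Sum.inl true) (Sum.inr '' T₀)
      · exact Or.inr h1.le
      · exact Or.inl (hBz B h h1)

end Pool.Agent.MP8f11b1
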