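import Pool.Agent.Lib.MP_8f11b1_co_DU.Tr2
import Pool.Agent.Lib.MP_8f11b1_co_RX.MinX
import Pool.Agent.Lib.MP_8f11b1_co_RX.IsoM
import Pool.Agent.Lib.MP_8f11b1_co_RX.Lin

set_option autoImplicit false

namespace Pool.Agent.MP8f11b1

variable {L : Type} [Field L] [Algebra (ZMod 2) L] {r m g s : ℕ}

private theorem noU_tr_ncard {α β : Type} {A : Set α} {B : Set β} (e : ↥A ≃ ↥B) {S : Set α}
    (hS : S ⊆ A) : (IsoM.tr e S).ncard = S.ncard := by
  unfold IsoM.tr
  rw [Set.ncard_image_of_injective _ Subtype.val_injective,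
    Set.ncard_image_of_injective _ e.injective]
  conv_rhs => rw [← IsoM.val_pre hS]
  rw [Set.ncard_image_of_injective _ Subtype.val_injective]

omit [Algebra (ZMod 2) L] in
private theorem noU_base {α V : Type} [Finite α] [AddCommGroup V] [Module L V]
    [FiniteDimensional L V] (f : α → V) (M : Matroid α)
    (hM : ∀ I, M.Indep I ↔ LinearIndepOn L f I) {K : Set α}
    (hK : LinearIndepOn L f K) (hc : K.ncard = Module.finrank L V) {B : Set α}
    (hB : M.IsBase B) : B.ncard = Module.finrank L V := by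
  obtain ⟨B', hB', hKB⟩ := ((hM K).2 hK).exists_isBase_superset
  have h1 : B.ncard = B'.ncard := hB.ncard_eq_ncard_of_isBase hB'
  have h2 := Set.ncard_le_ncard hKB (Set.toFinite B')
  have h3 := (lin_ncard_le f ((hM B).1 hB.indep)).2
  omega

/-- no uniform minor in the vector matroid -/
theorem noU {a b : ℕ} (hab : a ≤ b) (hr : 1 ≤ r) (gam : Fin g → ZZ L s) (T : Set (Fin g))
    (hch : CH L (f2 gam : G2 r m g → V2 L r m s) (KT T))
    (hfree : ∀ (v : ((Fin (2 * m) ⊕ Fin (2 * m)) ⊕ NB r) →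
        (Fin (2 * m) ⊕ (Fin r ⊕ Unit)) → ZMod 2)
      (X P : (Fin (2 * m) ⊕ (Fin r ⊕ Unit)) → ZMod 2) (C E : Set (G2 r m g)),
      FreeHyp v X P gam a C E → E.ncard = b → False)
    (M₀ : Matroid (G2 r m g)) (hE : M₀.E = Set.univ)
    (hM₀ : ∀ I, M₀.Indep I ↔ LinearIndepOn L (f2 gam : G2 r m g → V2 L r m s) I)
    {α : Type} (U : Matroid α) (hU : IsU a b U) :
    ¬ ∃ M' : Matroid (G2 r m g), M'.IsMinor M₀ ∧ Iso M' U := by
  rintro ⟨M', hMin, e, he⟩
  have hfr : Module.finrank L (V2 L r m s) = 2 * m + ((r + 1) + s) := by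
    simp [Module.finrank_prod]
  have hMf : M₀.Finite := ⟨by rw [hE]; exact Set.toFinite _⟩
  obtain ⟨C, hC, hCd, hCi, hCb⟩ := exists_indep_of_isMinor hMin
  have hb : M'.E.ncard = b := by
    rw [← hU.2.1, ← Nat.card_coe_set_eq, ← Nat.card_coe_set_eq]
    exact Nat.card_congr e
  have hunif : ∀ B ⊆ M'.E, M'.Indep B ↔ B.ncard ≤ a := by
    intro B hB
    rw [IsoM.indep_tr e he hB, hU.2.2 _ (IsoM.tr_subset e B), noU_tr_ncard e hB]
  obtain ⟨B0, hB0, hB0c⟩ := Set.exists_subset_card_eq (hab.trans hb.ge)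
  obtain ⟨B1, hB1, hB01⟩ := ((hunif B0 hB0).2 hB0c.le).exists_isBase_superset
  have hB1c : B1.ncard = a := by
    have h1 := (hunif B1 hB1.subset_ground).1 hB1.indep
    have h2 := Set.ncard_le_ncard hB01 (Set.toFinite B1)
    omega
  have hbase := hCb B1 hB1
  -- a spanning set
  have hKne : (KT T : Set (G2 r m g)).Nonempty := by
    rw [← Set.ncard_pos (Set.toFinite _), hch.card, hfr]
    omega
  obtain ⟨k, hk⟩ := hKne
  have ha0 : (Sum.inl (Sum.inr (Sum.inr 0)) : G2 r m g) ∉ (KT T : Set (G2 r m g)) := fun h => h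
  have hK' : LinearIndepOn L (f2 gam : G2 r m g → V2 L r m s)
      (insert (Sum.inl (Sum.inr (Sum.inr 0))) (KT T \ {k})) := by
    refine (linearIndepOn_insert fun hg' => ha0 hg'.1).2 ⟨hch.ind k hk, fun hs => ?_⟩
    exact hch.flat _ ha0 (Submodule.span_mono (Set.image_mono Set.sdiff_subset) hs)
  have hK'c : (insert (Sum.inl (Sum.inr (Sum.inr 0))) (KT T \ {k}) : Set (G2 r m g)).ncard =
      Module.finrank L (V2 L r m s) := by
    rw [Set.ncard_insert_of_notMem (fun hg' => ha0 hg'.1) (Set.toFinite _),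
      Set.ncard_sdiff_singleton_add_one hk (Set.toFinite _), hch.card]
  have hrk := noU_base _ M₀ hM₀ hK' hK'c hbase
  obtain ⟨e', v, X, P, hX, hP, hXP, hfB⟩ := tr2 (m := m) hr gam
  have hlin : ∀ S : Set (G2 r m g), LinearIndepOn L (fB v X P gam) S ↔
      LinearIndepOn L (f2 gam : G2 r m g → V2 L r m s) S := by
    intro S
    have h1 : fB v X P gam = e'.toLinearMap ∘ (f2 gam : G2 r m g → V2 L r m s) := by
      funext z
      exact (hfB z).symm
    rw [h1]
    exact LinearMap.linearIndependent_iff e'.toLinearMap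
      (v := fun i : S => (f2 gam : G2 r m g → V2 L r m s) i) (LinearEquiv.ker e')
  refine hfree v X P C M'.E ⟨hX, hP, hXP, (hlin C).2 ((hM₀ C).1 hC), hCd, ?_, ?_⟩ hb
  · have h1 : Disjoint B1 C := (hCd.mono_right hB1.subset_ground).symm
    have h2 := Set.ncard_union_eq h1 (Set.toFinite _) (Set.toFinite _)
    have h3 : Fintype.card (Fin (2 * m) ⊕ (Fin r ⊕ Unit)) = 2 * m + (r + 1) := by simp
    rw [h3]
    omega
  · intro B hB
    rw [hlin, ← hM₀, ← hCi B hB, hunif B hB]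

end Pool.Agent.MP8f11b1
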