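import Pool.Agent.Lib.MP_8f11b1_co_DU.Defs
import Pool.Agent.Lib.MP_8f11b1_co_RX.Lin

set_option autoImplicit false

namespace Pool.Agent.MP8f11b1

/-- The six vectors for the uniform matroid of rank 3 on 6 elements. -/
def g36 : Fin 6 → ZZ (ZMod 2) 2 :=
  ![(1, 0, ![1, 0]), (1, 1, ![1, 0]), (0, 0, ![0, 1]), (0, 1, ![0, 1]), (0, 0, ![1, 1]),
    (0, 1, ![1, 1])]

/-- The four relaxed sets. -/
def t36 : Set (Set (Fin 6)) := {{0, 2, 4}, {0, 3, 5}, {1, 2, 5}, {1, 3, 4}}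

private theorem p36_key {V : Type} [AddCommGroup V] [Module (ZMod 2) V] (f : Fin 6 → V)
    (B : Finset (Fin 6)) : LinearIndepOn (ZMod 2) f (B : Set (Fin 6)) ↔
      ∀ J ∈ B.powerset, J.Nonempty → ∑ c ∈ J, f c ≠ 0 := by
  rw [linearIndepOn_finset_iff]
  constructor
  · intro h J hJ hne h0
    rw [Finset.mem_powerset] at hJ
    obtain ⟨c, hc⟩ := hne
    have := h (fun i => if i ∈ J then 1 else 0) ?_ c (hJ hc)
    · simp [hc] at this
    · simp only [ite_smul, one_smul, zero_smul, Finset.sum_ite_mem,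
        Finset.inter_eq_right.2 hJ, h0]
  · intro h g hg i hi
    by_contra hne
    refine h (B.filter fun i => g i ≠ 0) (Finset.mem_powerset.2 (Finset.filter_subset _ _))
      ⟨i, Finset.mem_filter.2 ⟨hi, hne⟩⟩ ?_
    rw [Finset.sum_filter]
    refine Eq.trans ?_ hg
    refine Finset.sum_congr rfl fun j _ => ?_
    have h2 : ∀ x : ZMod 2, x = 0 ∨ x = 1 := by decide
    rcases h2 (g j) with h3 | h3
    · simp [h3]
    · simp [h3]

private theorem p36_good (F : Finset (Fin 6)) (T : Set (Fin 6)) (hT : T = F)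
    (hF : F.card = 3) (a : Fin 6 → ZMod 2) (ha : ∀ c, a c ≠ 0 ↔ c ∈ F)
    (hs : ∑ c, a c • g36 c = (1, 0, 0))
    (hi : ∀ J ∈ F.powerset, J.Nonempty → ∑ c ∈ J, g36 c ≠ 0)
    (χ : (Fin 2 → ZMod 2) →ₗ[ZMod 2] ZMod 2) (u : Fin 2 → ZMod 2)
    (hu : ∀ y, χ y = u 0 * y 0 + u 1 * y 1)
    (hc : ∀ c, (g36 c).2.1 + (u 0 * (g36 c).2.2 0 + u 1 * (g36 c).2.2 1) = 0 ↔ c ∈ F) :
    GoodT g36 T := by
  subst hT
  refine ⟨?_, ⟨a, ?_, hs⟩, (p36_key g36 F).2 hi, ⟨χ, fun c => ?_⟩⟩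
  · rw [Set.ncard_coe_finset, hF]
  · intro c
    rw [ha, Finset.mem_coe]
  · rw [hu, hc, Finset.mem_coe]

private def p36_chi (u : Fin 2 → ZMod 2) : (Fin 2 → ZMod 2) →ₗ[ZMod 2] ZMod 2 :=
  u 0 • LinearMap.proj 0 + u 1 • LinearMap.proj 1

private theorem p36_chi_apply (u y : Fin 2 → ZMod 2) :
    p36_chi u y = u 0 * y 0 + u 1 * y 1 := by
  simp [p36_chi]

theorem good36 : ∀ T ∈ t36, GoodT g36 T := by
  intro T hT
  rcases hT with rfl | rfl | rfl | rfl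
  · exact p36_good {0, 2, 4} _ (by simp) (by decide) ![1, 0, 1, 0, 1, 0] (by decide) (by decide)
      (by decide) (p36_chi ![0, 0]) ![0, 0] (p36_chi_apply _) (by decide)
  · exact p36_good {0, 3, 5} _ (by simp) (by decide) ![1, 0, 0, 1, 0, 1] (by decide) (by decide)
      (by decide) (p36_chi ![0, 1]) ![0, 1] (p36_chi_apply _) (by decide)
  · exact p36_good {1, 2, 5} _ (by simp) (by decide) ![0, 1, 1, 0, 0, 1] (by decide) (by decide)
      (by decide) (p36_chi ![1, 0]) ![1, 0] (p36_chi_apply _) (by decide)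
  · exact p36_good {1, 3, 4} _ (by simp) (by decide) ![0, 1, 0, 1, 1, 0] (by decide) (by decide)
      (by decide) (p36_chi ![1, 1]) ![1, 1] (p36_chi_apply _) (by decide)

set_option maxRecDepth 100000 in
private theorem p36_all : ∀ B : Finset (Fin 6),
    ((∀ J ∈ B.powerset, J.Nonempty → ∑ c ∈ J, (g36 c).2 ≠ 0) ∨
      (B ⊆ {0, 2, 4} ∨ B ⊆ {0, 3, 5} ∨ B ⊆ {1, 2, 5} ∨ B ⊆ {1, 3, 4})) ↔ B.card ≤ 3 := by
  decide

theorem unif36 (B : Set (Fin 6)) :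
    (LinearIndepOn (ZMod 2) (fun c => (g36 c).2) B ∨ ∃ T ∈ t36, B ⊆ T) ↔ B.ncard ≤ 3 := by
  classical
  obtain ⟨F, rfl⟩ : ∃ F : Finset (Fin 6), (F : Set (Fin 6)) = B :=
    ⟨B.toFinset, by simp⟩
  rw [Set.ncard_coe_finset, ← p36_all F, p36_key]
  have h : (∃ T ∈ t36, (F : Set (Fin 6)) ⊆ T) ↔
      (F ⊆ {0, 2, 4} ∨ F ⊆ {0, 3, 5} ∨ F ⊆ {1, 2, 5} ∨ F ⊆ {1, 3, 4}) := by
    simp only [t36, Set.mem_insert_iff, Set.mem_singleton_iff, exists_eq_or_imp,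
      exists_eq_left, ← Finset.coe_subset, Finset.coe_insert, Finset.coe_singleton]
  rw [h]

end Pool.Agent.MP8f11b1
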