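import Pool.Agent.Lib.MP_8f11b1_co_DU.Defs
import Pool.Agent.Lib.MP_8f11b1_co_RX.Lin

set_option autoImplicit false

namespace Pool.Agent.MP8f11b1

variable {L : Type} [Field L] [Algebra (ZMod 2) L] {r m g s : ℕ}

section ZMin2Aux

set_option linter.unusedSectionVars false

/-- the projection along the path elements -/
private noncomputable def zm2P (L : Type) [Field L] (r m s : ℕ) : V2 L r m s →ₗ[L] WW L r :=
  (LinearMap.fst L (WW L r) (Fin s → L)).comp
      (LinearMap.snd L (Fin (2 * m) → L) (WW L r × (Fin s → L))) -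
    (Fintype.linearCombination L (fun j : Fin (2 * m) => (wk j.val : WW L r))).comp
      (LinearMap.fst L (Fin (2 * m) → L) (WW L r × (Fin s → L)))

private theorem zm2P_apply (v : V2 L r m s) :
    zm2P L r m s v = v.2.1 - ∑ j : Fin (2 * m), v.1 j • (wk j.val : WW L r) := by
  simp only [zm2P, LinearMap.sub_apply, LinearMap.snd_apply, LinearMap.comp_apply,
    LinearMap.fst_apply, Fintype.linearCombination_apply]

private theorem zm2_dl (j : Fin (2 * m)) :
    (dl (j.val + 1) : Fin (2 * m) → L) = Pi.single j 1 := by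
  funext i
  by_cases h : i = j
  · subst h
    simp [dl]
  · have h2 : ¬ (i.val + 1 = j.val + 1) := by
      intro h3
      apply h
      apply Fin.ext
      omega
    rw [Pi.single_eq_of_ne h, dl, if_neg h2]

private theorem zm2P_e (j : Fin (2 * m)) :
    zm2P L r m s (dl (j.val + 1), wk j.val, 0) = 0 := by
  rw [zm2P_apply, zm2_dl, Finset.sum_eq_single j]
  · simp
  · intro i _ hi
    change (Pi.single j 1 : Fin (2 * m) → L) i • (wk i.val : WW L r) = 0
    rw [Pi.single_eq_of_ne hi, zero_smul]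
  · intro h
    exact absurd (Finset.mem_univ j) h

private theorem zm2P_zero (w : WW L r) (y : Fin s → L) :
    zm2P L r m s ((0 : Fin (2 * m) → L), w, y) = w := by
  rw [zm2P_apply]
  simp

private theorem zm2_sum (m : ℕ) (x : L) :
    ∑ j : Fin (2 * m), x • (wk j.val : WW L r) =
      (m : L) • (x • ((fun _ => 0, 1) : WW L r) + x • (w0 : WW L r)) := by
  rw [Fin.sum_univ_eq_sum_range (fun j => x • (wk j : WW L r))]
  induction m with
  | zero => simp
  | succ m ih =>
    rw [show 2 * (m + 1) = 2 * m + 1 + 1 by ring, Finset.sum_range_succ, Finset.sum_range_succ, ih]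
    have h1 : (wk (2 * m) : WW L r) = (fun _ => 0, 1) := by
      rw [wk, if_pos (even_two_mul m)]
    have h2 : (wk (2 * m + 1) : WW L r) = w0 := by
      rw [wk, if_neg]
      rw [Nat.not_even_iff_odd]
      exact ⟨m, rfl⟩
    rw [h1, h2]
    push_cast
    rw [add_smul, one_smul, add_assoc]

private theorem zm2P_gam (hm : (m : L) = 0) (x : L) (w : WW L r) (y : Fin s → L) :
    zm2P L r m s ((fun _ => x), w, y) = w := by
  rw [zm2P_apply]
  have h := zm2_sum (L := L) (r := r) m x
  rw [hm, zero_smul] at h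
  change w - ∑ j : Fin (2 * m), x • (wk j.val : WW L r) = w
  rw [h, sub_zero]

/-- the contraction set -/
private def zm2X {r : ℕ} (m g : ℕ) (Q : Fin r → Prop) : Set (G2 r m g) :=
  {z | (∃ j, z = .inl (.inl (.inr j))) ∨ ∃ i : Fin r, Q i ∧ z = .inl (.inr (.inl i))}

private def zm2Idx : G2 r m g → Option (Fin (2 * m) ⊕ Fin r)
  | .inl (.inl (.inl _)) => none
  | .inl (.inl (.inr j)) => some (.inl j)
  | .inl (.inr (.inl i)) => some (.inr i)
  | .inl (.inr (.inr _)) => none
  | .inr _ => none

private noncomputable def zm2L (L : Type) [Field L] (r m s : ℕ) :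
    V2 L r m s →ₗ[L] (Fin (2 * m) ⊕ Fin r → L) where
  toFun v := Sum.elim v.1 (zm2P L r m s v).1
  map_add' v w := by
    funext i
    rcases i with i | i
    · rfl
    · simp only [map_add, Sum.elim_inr, Pi.add_apply, Prod.fst_add]
  map_smul' c v := by
    funext i
    rcases i with i | i
    · rfl
    · simp only [map_smul, Sum.elim_inr, Pi.smul_apply, Prod.smul_fst, RingHom.id_apply]

private theorem zm2X_indep (gam : Fin g → ZZ L s) (Q : Fin r → Prop) :
    LinearIndepOn L (f2 gam : G2 r m g → V2 L r m s) (zm2X m g Q) := by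
  classical
  have key : ∀ z ∈ zm2X m g Q, ∃ k, zm2Idx z = some k ∧
      zm2L L r m s (f2 gam z) = Pi.single k 1 := by
    rintro z (⟨j, rfl⟩ | ⟨i, _, rfl⟩)
    · refine ⟨.inl j, rfl, ?_⟩
      funext k
      have h1 : zm2P L r m s (f2 gam (.inl (.inl (.inr j)) : G2 r m g)) = 0 := zm2P_e j
      rcases k with k | k
      · change (dl (j.val + 1) : Fin (2 * m) → L) k = _
        rw [zm2_dl]
        by_cases h : k = j
        · subst h
          rw [Pi.single_eq_same, Pi.single_eq_same]
        · rw [Pi.single_eq_of_ne h, Pi.single_eq_of_ne]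
          intro h2
          exact h (Sum.inl.inj h2)
      · change (zm2P L r m s (f2 gam (.inl (.inl (.inr j)) : G2 r m g))).1 k = _
        rw [h1, Pi.single_eq_of_ne (by simp)]
        rfl
    · refine ⟨.inr i, rfl, ?_⟩
      funext k
      have h1 : zm2P L r m s (f2 gam (.inl (.inr (.inl i)) : G2 r m g)) = (Pi.single i 1, 0) :=
        zm2P_zero _ _
      rcases k with k | k
      · rw [Pi.single_eq_of_ne (by simp)]
        rfl
      · change (zm2P L r m s (f2 gam (.inl (.inr (.inl i)) : G2 r m g))).1 k = _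
        rw [h1]
        by_cases h : k = i
        · subst h
          simp
        · rw [Pi.single_eq_of_ne (fun h2 => h (Sum.inr.inj h2))]
          exact Pi.single_eq_of_ne h _
  choose φ hφ1 hφ2 using key
  have hinj : Function.Injective (fun z : zm2X m g Q => φ z.1 z.2) := by
    rintro ⟨z, hz⟩ ⟨z', hz'⟩ heq
    have heq' : φ z hz = φ z' hz' := heq
    have h1 := hφ1 z hz
    have h2 := hφ1 z' hz'
    rw [heq', ← h2] at h1
    apply Subtype.ext
    change z = z'
    rcases hz with ⟨j, rfl⟩ | ⟨i, _, rfl⟩ <;> rcases hz' with ⟨j', rfl⟩ | ⟨i', _, rfl⟩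
    · have h3 : some (Sum.inl j : Fin (2 * m) ⊕ Fin r) = some (Sum.inl j') := h1
      rw [Sum.inl.inj (Option.some.inj h3)]
    · have h3 : some (Sum.inl j : Fin (2 * m) ⊕ Fin r) = some (Sum.inr i') := h1
      simp at h3
    · have h3 : some (Sum.inr i : Fin (2 * m) ⊕ Fin r) = some (Sum.inl j') := h1
      simp at h3
    · have h3 : some (Sum.inr i : Fin (2 * m) ⊕ Fin r) = some (Sum.inr i') := h1
      rw [Sum.inr.inj (Option.some.inj h3)]
  have h3 : LinearIndependent L (fun z : zm2X m g Q => zm2L L r m s (f2 gam z.1)) := by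
    have h4 := (Pi.basisFun L (Fin (2 * m) ⊕ Fin r)).linearIndependent.comp _ hinj
    have h5 : (fun z : zm2X m g Q => zm2L L r m s (f2 gam z.1)) =
        (Pi.basisFun L (Fin (2 * m) ⊕ Fin r)) ∘ (fun z : zm2X m g Q => φ z.1 z.2) := by
      funext z
      rw [Function.comp_apply, Pi.basisFun_apply]
      exact hφ2 z.1 z.2
    rw [h5]
    exact h4
  exact LinearIndependent.of_comp (zm2L L r m s) h3

private theorem zm2X_ker (gam : Fin g → ZZ L s) (Q : Fin r → Prop) {V : Type} [AddCommGroup V]
    [Module L V] (Ξ : V2 L r m s →ₗ[L] V)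
    (hΞ : ∀ v, Ξ v = 0 ↔ (∀ i, ¬ Q i → (zm2P L r m s v).1 i = 0) ∧ (zm2P L r m s v).2 = 0 ∧
      v.2.2 = 0) :
    LinearMap.ker Ξ =
      Submodule.span L ((f2 gam : G2 r m g → V2 L r m s) '' zm2X m g Q) := by
  classical
  apply le_antisymm
  · intro v hv
    rw [LinearMap.mem_ker, hΞ] at hv
    obtain ⟨hw1, hw2, hy⟩ := hv
    set w := zm2P L r m s v with hw
    have e1 : v = (∑ j : Fin (2 * m), v.1 j •
          (f2 gam (.inl (.inl (.inr j)) : G2 r m g) : V2 L r m s)) +
        ∑ i : Fin r, w.1 i • (f2 gam (.inl (.inr (.inl i)) : G2 r m g) : V2 L r m s) := by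
      have a1 : ∑ j : Fin (2 * m), v.1 j •
            (f2 gam (.inl (.inl (.inr j)) : G2 r m g) : V2 L r m s) =
          (v.1, ∑ j : Fin (2 * m), v.1 j • (wk j.val : WW L r), 0) := by
        apply Prod.ext
        · rw [Prod.fst_sum]
          change ∑ j : Fin (2 * m), v.1 j • (dl (j.val + 1) : Fin (2 * m) → L) = v.1
          funext k
          rw [Finset.sum_apply, Finset.sum_eq_single k]
          · rw [zm2_dl, Pi.smul_apply, Pi.single_eq_same, smul_eq_mul, mul_one]
          · intro b _ hb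
            rw [zm2_dl, Pi.smul_apply, Pi.single_eq_of_ne hb.symm, smul_zero]
          · intro h1
            exact absurd (Finset.mem_univ k) h1
        · rw [Prod.snd_sum]
          change ∑ j : Fin (2 * m), v.1 j • ((wk j.val, 0) : WW L r × (Fin s → L)) = _
          apply Prod.ext
          · rw [Prod.fst_sum]
            rfl
          · rw [Prod.snd_sum]
            refine Finset.sum_eq_zero ?_
            intro i _
            exact smul_zero _
      have a2 : ∑ i : Fin r, w.1 i • (f2 gam (.inl (.inr (.inl i)) : G2 r m g) : V2 L r m s) =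
          ((0 : Fin (2 * m) → L), w, 0) := by
        apply Prod.ext
        · rw [Prod.fst_sum]
          refine Finset.sum_eq_zero ?_
          intro i _
          exact smul_zero _
        · rw [Prod.snd_sum]
          change ∑ i : Fin r, w.1 i • ((((Pi.single i 1, 0) : WW L r), 0) :
            WW L r × (Fin s → L)) = _
          apply Prod.ext
          · rw [Prod.fst_sum]
            change ∑ i : Fin r, w.1 i • ((Pi.single i 1, 0) : WW L r) = w
            apply Prod.ext
            · rw [Prod.fst_sum]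
              funext k
              rw [Finset.sum_apply, Finset.sum_eq_single k]
              · change w.1 k • (Pi.single k 1 : Fin r → L) k = w.1 k
                rw [Pi.single_eq_same, smul_eq_mul, mul_one]
              · intro b _ hb
                change w.1 b • (Pi.single b 1 : Fin r → L) k = 0
                rw [Pi.single_eq_of_ne hb.symm, smul_zero]
              · intro h1
                exact absurd (Finset.mem_univ k) h1
            · rw [Prod.snd_sum, hw2]
              refine Finset.sum_eq_zero ?_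
              intro i _
              exact smul_zero _
          · rw [Prod.snd_sum]
            refine Finset.sum_eq_zero ?_
            intro i _
            exact smul_zero _
      rw [a1, a2]
      apply Prod.ext
      · change v.1 = v.1 + 0
        rw [add_zero]
      · apply Prod.ext
        · change v.2.1 = (∑ j : Fin (2 * m), v.1 j • (wk j.val : WW L r)) + w
          rw [hw, zm2P_apply]
          abel
        · change v.2.2 = 0 + 0
          rw [hy, add_zero]
    rw [e1]
    refine Submodule.add_mem _ (Submodule.sum_mem _ ?_) (Submodule.sum_mem _ ?_)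
    · intro j _
      exact Submodule.smul_mem _ _ (Submodule.subset_span ⟨_, Or.inl ⟨j, rfl⟩, rfl⟩)
    · intro i _
      by_cases hi : Q i
      · exact Submodule.smul_mem _ _ (Submodule.subset_span ⟨_, Or.inr ⟨i, hi, rfl⟩, rfl⟩)
      · rw [hw1 i hi, zero_smul]
        exact Submodule.zero_mem _
  · rw [Submodule.span_le]
    rintro _ ⟨z, (⟨j, rfl⟩ | ⟨i, hi, rfl⟩), rfl⟩
    · have h1 : zm2P L r m s (f2 gam (.inl (.inl (.inr j)) : G2 r m g)) = 0 := zm2P_e j
      rw [SetLike.mem_coe, LinearMap.mem_ker, hΞ, h1]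
      exact ⟨fun _ _ => rfl, rfl, rfl⟩
    · have h1 : zm2P L r m s (f2 gam (.inl (.inr (.inl i)) : G2 r m g)) = (Pi.single i 1, 0) :=
        zm2P_zero _ _
      rw [SetLike.mem_coe, LinearMap.mem_ker, hΞ, h1]
      refine ⟨fun k hk => ?_, rfl, rfl⟩
      change (Pi.single i 1 : Fin r → L) k = 0
      apply Pi.single_eq_of_ne
      rintro rfl
      exact hk hi

private theorem zm2_iff {β V : Type} [AddCommGroup V] [Module L V] (gam : Fin g → ZZ L s)
    (Q : Fin r → Prop) (Ξ : V2 L r m s →ₗ[L] V)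
    (hΞ : ∀ v, Ξ v = 0 ↔ (∀ i, ¬ Q i → (zm2P L r m s v).1 i = 0) ∧ (zm2P L r m s v).2 = 0 ∧
      v.2.2 = 0) (j : β → G2 r m g) (hj : Function.Injective j) (hjX : ∀ b, j b ∉ zm2X m g Q)
    (f : β → V) (hf : ∀ b, Ξ (f2 gam (j b)) = f b) (B : Set β) :
    LinearIndepOn L (f2 gam : G2 r m g → V2 L r m s) (j '' B ∪ zm2X m g Q) ↔
      LinearIndepOn L f B := by
  have hd : Disjoint (j '' B) (zm2X m g Q) := by
    rw [Set.disjoint_left]
    rintro _ ⟨b, _, rfl⟩
    exact hjX b
  rw [lin_union_iff (f2 gam : G2 r m g → V2 L r m s) (zm2X_indep gam Q) hd Ξ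
    (zm2X_ker gam Q Ξ hΞ)]
  have hEq : Set.EqOn ((fun z => Ξ (f2 gam z)) ∘ j) f B := fun b _ => hf b
  constructor
  · intro h3
    exact (LinearIndepOn.comp_of_image h3 hj.injOn).congr hEq
  · intro h3
    exact LinearIndepOn.image_of_comp j _ (h3.congr hEq.symm)

end ZMin2Aux

theorem zmin2a (hm : (m : L) = 0) (hr : 1 ≤ r) (gam : Fin g → ZZ L s) :
    ∃ (X : Set (G2 r m g)) (j : Bool ⊕ Fin g → G2 r m g),
      LinearIndepOn L (f2 gam : G2 r m g → V2 L r m s) X ∧ Function.Injective j ∧
      (∀ b, j b ∉ X) ∧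
      (∀ B : Set (Bool ⊕ Fin g), LinearIndepOn L (f2 gam : G2 r m g → V2 L r m s) (j '' B ∪ X) ↔
        LinearIndepOn L (zz gam) B) ∧
      ∀ (T : Set (Fin g)) (B : Set (Bool ⊕ Fin g)),
        j '' B ∪ X ⊆ KT T ↔ B ⊆ insert (Sum.inl true) (Sum.inr '' T) := by
  set i0 : Fin r := ⟨0, hr⟩ with hi0
  set j : Bool ⊕ Fin g → G2 r m g := fun b => match b with
    | .inl true => .inl (.inr (.inl i0))
    | .inl false => .inl (.inr (.inr 0))
    | .inr c => .inr c with hj
  set Ξ : V2 L r m s →ₗ[L] ZZ L s :=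
    { toFun := fun v => ((zm2P L r m s v).1 i0, (zm2P L r m s v).2, v.2.2)
      map_add' := fun v w => by
        simp only [map_add, Prod.fst_add, Prod.snd_add, Pi.add_apply, Prod.mk_add_mk]
      map_smul' := fun c v => by
        simp only [map_smul, Prod.smul_fst, Prod.smul_snd, Pi.smul_apply, RingHom.id_apply,
          Prod.smul_mk] } with hΞdef
  have hΞ : ∀ v, Ξ v = 0 ↔ (∀ i, ¬ (i ≠ i0) → (zm2P L r m s v).1 i = 0) ∧
      (zm2P L r m s v).2 = 0 ∧ v.2.2 = 0 := by
    intro v
    constructor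
    · intro h
      have h1 : (zm2P L r m s v).1 i0 = 0 := congrArg Prod.fst h
      have h2 : (zm2P L r m s v).2 = 0 := congrArg (fun z => z.2.1) h
      have h3 : v.2.2 = 0 := congrArg (fun z => z.2.2) h
      refine ⟨fun i hi => ?_, h2, h3⟩
      rw [not_not.1 hi, h1]
    · rintro ⟨h1, h2, h3⟩
      have h4 : Ξ v = ((zm2P L r m s v).1 i0, (zm2P L r m s v).2, v.2.2) := rfl
      rw [h4, h1 i0 (by simp), h2, h3]
      rfl
  have hjinj : Function.Injective j := by
    rintro ((_ | _) | c) ((_ | _) | c') h <;> simp [hj] at h ⊢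
    exact h
  have hjX : ∀ b, j b ∉ zm2X m g (fun i : Fin r => i ≠ i0) := by
    rintro ((_ | _) | c) (⟨k, hk⟩ | ⟨i, hi, hk⟩)
    · simp [hj] at hk
    · simp [hj] at hk
    · simp [hj] at hk
    · have h1 : i0 = i := by simpa [hj] using hk
      exact hi h1.symm
    · simp [hj] at hk
    · simp [hj] at hk
  refine ⟨zm2X m g (fun i : Fin r => i ≠ i0), j, zm2X_indep gam _, hjinj, hjX, ?_, ?_⟩
  · refine zm2_iff gam _ Ξ hΞ j hjinj hjX (zz gam) ?_
    rintro ((_ | _) | c)
    · have h0 : (0 : Fin r → ZMod 2) ∉ (SS2 : Set (Fin r → ZMod 2)) := by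
        rintro ⟨i, hi⟩
        have h1 := congrFun hi i
        rw [Pi.single_eq_same] at h1
        exact zero_ne_one h1
      have h1 : (f2 gam (.inl (.inr (.inr 0)) : G2 r m g) : V2 L r m s) = (0, (cst 0, 1), 0) := by
        rw [f2, if_neg h0]
      change Ξ (f2 gam (.inl (.inr (.inr 0)) : G2 r m g)) = (0, 1, 0)
      rw [h1]
      change ((zm2P L r m s (0, (cst 0, 1), 0)).1 i0, (zm2P L r m s (0, (cst 0, 1), 0)).2,
        (0 : Fin s → L)) = (0, 1, 0)
      rw [zm2P_zero]
      simp [cst]
    · change ((zm2P L r m s (0, (Pi.single i0 1, 0), 0)).1 i0,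
        (zm2P L r m s (0, (Pi.single i0 1, 0), 0)).2, (0 : Fin s → L)) = (1, 0, 0)
      rw [zm2P_zero]
      simp
    · change ((zm2P L r m s ((fun _ => (gam c).1), (fun _ => (gam c).1, (gam c).2.1),
        (gam c).2.2)).1 i0, (zm2P L r m s ((fun _ => (gam c).1),
          (fun _ => (gam c).1, (gam c).2.1), (gam c).2.2)).2, (gam c).2.2) = gam c
      rw [zm2P_gam hm]
  · intro T B
    constructor
    · intro h b hb
      have h1 : j b ∈ KT T := h (Or.inl ⟨b, hb, rfl⟩)
      rcases b with (_ | _) | c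
      · exact absurd h1 id
      · exact Or.inl rfl
      · exact Or.inr ⟨c, h1, rfl⟩
    · rintro h z (⟨b, hb, rfl⟩ | (⟨k, rfl⟩ | ⟨i, _, rfl⟩))
      · rcases h hb with rfl | ⟨c, hc, rfl⟩
        · exact trivial
        · exact hc
      · exact trivial
      · exact trivial

theorem zmin2b (hm : (m : L) = 0) (gam : Fin g → ZZ L s) :
    ∃ X : Set (G2 r m g),
      LinearIndepOn L (f2 gam : G2 r m g → V2 L r m s) X ∧
      (∀ b : Fin g, Sum.inr b ∉ X) ∧
      (∀ B : Set (Fin g),
        LinearIndepOn L (f2 gam : G2 r m g → V2 L r m s) (Sum.inr '' B ∪ X) ↔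
        LinearIndepOn L (fun c => (gam c).2) B) ∧
      ∀ (T B : Set (Fin g)), Sum.inr '' B ∪ X ⊆ KT T ↔ B ⊆ T := by
  set Ξ : V2 L r m s →ₗ[L] L × (Fin s → L) :=
    { toFun := fun v => ((zm2P L r m s v).2, v.2.2)
      map_add' := fun v w => by
        simp only [map_add, Prod.snd_add, Prod.mk_add_mk]
      map_smul' := fun c v => by
        simp only [map_smul, Prod.smul_snd, RingHom.id_apply,
          Prod.smul_mk] } with hΞdef
  have hΞ : ∀ v, Ξ v = 0 ↔ (∀ i : Fin r, ¬ True → (zm2P L r m s v).1 i = 0) ∧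
      (zm2P L r m s v).2 = 0 ∧ v.2.2 = 0 := by
    intro v
    constructor
    · intro h
      have h2 : (zm2P L r m s v).2 = 0 := congrArg Prod.fst h
      have h3 : v.2.2 = 0 := congrArg Prod.snd h
      exact ⟨fun i hi => absurd trivial hi, h2, h3⟩
    · rintro ⟨_, h2, h3⟩
      have h4 : Ξ v = ((zm2P L r m s v).2, v.2.2) := rfl
      rw [h4, h2, h3]
      rfl
  have hjX : ∀ b : Fin g, (Sum.inr b : G2 r m g) ∉ zm2X m g (fun _ : Fin r => True) := by
    rintro b (⟨k, hk⟩ | ⟨i, _, hk⟩)
    · simp at hk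
    · simp at hk
  refine ⟨zm2X m g (fun _ : Fin r => True), zm2X_indep gam _, hjX, ?_, ?_⟩
  · refine zm2_iff gam _ Ξ hΞ Sum.inr Sum.inr_injective hjX (fun c => (gam c).2) ?_
    intro c
    change ((zm2P L r m s ((fun _ => (gam c).1), (fun _ => (gam c).1, (gam c).2.1),
      (gam c).2.2)).2, (gam c).2.2) = (gam c).2
    rw [zm2P_gam hm]
  · intro T B
    constructor
    · intro h b hb
      exact h (Or.inl ⟨b, hb, rfl⟩)
    · rintro h z (⟨b, hb, rfl⟩ | (⟨k, rfl⟩ | ⟨i, _, rfl⟩))
      · exact h hb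
      · exact trivial
      · exact trivial

end Pool.Agent.MP8f11b1
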