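import Pool.Agent.Lib.MP_8f11b1_co_DU.Eng
import Pool.Agent.Lib.MP_8f11b1_co_DU.ZMin2
import Pool.Agent.Lib.MP_8f11b1_co_DU.NoU
import Pool.Agent.Lib.MP_8f11b1_co_DU.Free3
import Pool.Agent.Lib.MP_8f11b1_co_DU.Free2
import Pool.Agent.Lib.MP_8f11b1_co_DU.GenB
import Pool.Agent.Lib.MP_8f11b1_co_DU.P36
import Pool.Agent.Lib.MP_8f11b1_co_DU.IsoU
import Pool.Agent.Lib.MP_8f11b1_co_DU.FDual
import Pool.Agent.Lib.MP_8f11b1_co_RX.Main

set_option autoImplicit false

namespace Pool.Agent.MP8f11b1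

open Matroid

/-- Some union of `Ex U` with a class `Ex N` has arbitrarily large excluded minors. -/
def Bad {α : Type} (U : Matroid α) : Prop :=
  ∃ (γ : Type) (N : Matroid γ), N.Finite ∧ ∀ k : ℕ, ∃ (δ : Type) (M : Matroid δ),
    IsExcludedMinor (Union (Ex U) (Ex N)) M ∧ k ≤ M.E.ncard

/-- the general case -/
theorem bad_gen {a b : ℕ} (ha : 2 ≤ a) (hab : a + 2 ≤ b)
    (hfree : ∀ (L : Type) [Field L] [Algebra (ZMod 2) L] (κ β : Type) [Fintype κ] [Finite β]
      (v : β → κ → ZMod 2) (X P : κ → ZMod 2) (gam : Fin (b - 2) → ZZ L (a - 2))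
      (C E : Set (β ⊕ Fin (b - 2))), FreeHyp v X P gam a C E → E.ncard = b →
      ∀ T₀ T₁ : Set (Fin (b - 2)), T₀.ncard + 1 = a → T₁.ncard + 1 = a →
      ((1, 0, 0) : ZZ L (a - 2)) ∈ Submodule.span L (gam '' T₀) →
      ((1, 1, 0) : ZZ L (a - 2)) ∈ Submodule.span L (gam '' T₁) → False)
    {α : Type} (U : Matroid α) (hU : IsU a b U) : Bad U := by
  classical
  obtain ⟨gam, T₀, T₁, hG, h0, h1, hX, hXP, hun⟩ :=
    genB (L := AlgebraicClosure (ZMod 2)) (a := a) (g := b - 2) ha (by omega)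
  refine engine gam {T₀} ⟨T₀, rfl⟩ (by rintro T rfl; exact hG) (Ex U) (ex_minorClosed U) ?_ ?_
  · intro r m hr hm M₀ hE hM₀
    refine ⟨⟨Set.toFinite _⟩, ?_⟩
    refine noU (by omega : a ≤ b) hr gam T₀ (ch2 hm gam T₀ hG) ?_ M₀ hE hM₀ U hU
    intro v X P C E hF hEb
    exact hfree _ _ _ v X P gam C E hF hEb T₀ T₁ h0 h1 hX hXP
  · intro r m hr hm M hE hM hcon
    apply hcon.2
    obtain ⟨X, j, hXi, hj, hjX, hB, hK⟩ := zmin2a (L := AlgebraicClosure (ZMod 2)) (r := r)
      (m := m) hm hr gam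
    have hcard : Fintype.card (Bool ⊕ Fin (b - 2)) = b := by
      rw [Fintype.card_sum, Fintype.card_bool, Fintype.card_fin]
      omega
    refine minor_isU M X ((hM _).2 (Or.inl hXi)) j hj (fun z => ⟨by rw [hE]; trivial, hjX z⟩)
      (a := a) ?_ U (by rw [hcard]; exact hU)
    intro B
    rw [hM, ← hun B, hB]
    constructor
    · rintro (h | ⟨T, rfl, h⟩)
      · exact Or.inl h
      · exact Or.inr ((hK _ _).1 h)
    · rintro (h | h)
      · exact Or.inl h
      · exact Or.inr ⟨T₀, rfl, (hK _ _).2 h⟩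

theorem bad_three {a b : ℕ} (ha : 3 ≤ a) (hab : a + 3 ≤ b) (hne : ¬ (a = 3 ∧ b = 6))
    {α : Type} (U : Matroid α) (hU : IsU a b U) : Bad U := by
  refine bad_gen (by omega) (by omega) ?_ U hU
  intro L _ _ κ β _ _ v X P gam C E hF hE T₀ T₁ h0 h1 hX hXP
  exact free3 hF ha hab hne hE (by omega) (by omega) T₀ T₁ h0 h1 hX hXP

theorem bad_two {b : ℕ} (hb : 6 ≤ b) {α : Type} (U : Matroid α) (hU : IsU 2 b U) : Bad U := by
  refine bad_gen (le_refl 2) (by omega) ?_ U hU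
  intro L _ _ κ β _ _ v X P gam C E hF hE T₀ T₁ h0 h1 hX hXP
  exact free2 hF hb hE (by omega) T₀ T₁ (by omega) (by omega) hX hXP

/-- uniform matroids of rank 3 on 6 elements are not binary -/
theorem not_rep_36 {α : Type} (M : Matroid α) (hU : IsU 3 6 M) : ¬ Rep (ZMod 2) M := by
  intro hR
  obtain ⟨hfin, hc, hI⟩ := hU
  have hfinM : M.Finite := ⟨hfin⟩
  obtain ⟨e, he⟩ : M.E.Nonempty := by
    rw [← Set.ncard_pos hfin, hc]; omega
  have hei : M.Indep {e} := by
    rw [hI _ (Set.singleton_subset_iff.2 he), Set.ncard_singleton]; omega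
  have hm : (M ／ ({e} : Set α)).IsMinor M := by
    have := Matroid.contract_delete_isMinor M {e} ∅
    rwa [Matroid.delete_empty] at this
  have hEc : (M ／ ({e} : Set α)).E = M.E \ {e} := Matroid.contract_ground M {e}
  have hc5 : (M.E \ {e}).ncard = 5 := by
    rw [Set.ncard_sdiff_singleton_of_mem he, hc]
  have h2 : IsU2 5 (M ／ ({e} : Set α)) := by
    refine ⟨by rw [hEc, hc5], ?_⟩
    intro I hIE
    rw [hEc] at hIE
    rw [hei.contract_indep_iff]
    have hd : Disjoint I {e} := Set.disjoint_singleton_right.2 fun h => (hIE h).2 rfl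
    have heI : e ∉ I := fun h => (hIE h).2 rfl
    have hIf : I.Finite := hfin.subset (hIE.trans Set.sdiff_subset)
    have hsub : I ∪ {e} ⊆ M.E :=
      Set.union_subset (hIE.trans Set.sdiff_subset) (Set.singleton_subset_iff.2 he)
    rw [hI _ hsub, Set.union_singleton, Set.ncard_insert_of_notMem heI hIf]
    constructor
    · rintro ⟨_, h⟩; omega
    · intro h; exact ⟨hd, by omega⟩
  have := rep_isU2 (hR.minor hm) h2
  simp at this

theorem bad_36 {α : Type} (U : Matroid α) (hU : IsU 3 6 U) : Bad U := by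
  classical
  refine engine g36 t36 ⟨{0, 2, 4}, by simp [t36]⟩ good36 (Ex U) (ex_minorClosed U) ?_ ?_
  · intro r m hr hm M₀ hE hM₀
    refine ⟨⟨Set.toFinite _⟩, ?_⟩
    rintro ⟨M', hM', hi⟩
    have hR : Rep (ZMod 2) M₀ := ⟨V2 (ZMod 2) r m 2, inferInstance, inferInstance, f2 g36,
      fun I _ => hM₀ I⟩
    exact not_rep_36 M' (isU_of_iso hi hU) (hR.minor hM')
  · intro r m hr hm M hE hM hcon
    apply hcon.2
    obtain ⟨X, hXi, hjX, hB, hK⟩ := zmin2b (L := ZMod 2) (r := r) (m := m) hm g36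
    refine minor_isU M X ((hM _).2 (Or.inl hXi)) Sum.inr Sum.inr_injective
      (fun z => ⟨by rw [hE]; trivial, hjX z⟩) (a := 3) ?_ U (by rw [Fintype.card_fin]; exact hU)
    intro B
    rw [hM, ← unif36 B, hB]
    constructor
    · rintro (h | ⟨T, hT, h⟩)
      · exact Or.inl h
      · exact Or.inr ⟨T, hT, (hK _ _).1 h⟩
    · rintro (h | ⟨T, hT, h⟩)
      · exact Or.inl h
      · exact Or.inr ⟨T, hT, (hK _ _).2 h⟩

/-- the matroids covered by the theorem on relaxations -/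
theorem bad_field (F : Type) [Field F] [Finite F] {b : ℕ} (hb : b = Nat.card F + 2)
    {α : Type} (U : Matroid α) (hU : IsU 2 b U) : Bad U := by
  have h2 : IsU2 (Nat.card F + 2) U := ⟨by rw [hU.2.1, hb], hU.2.2⟩
  obtain ⟨e1, e2, e3⟩ := ex_u2 F U h2
  obtain ⟨γ, N, n1, _, n3⟩ := main_B F
  exact ⟨γ, N, n1, n3 (Ex U) e1 e2 e3⟩

theorem bad_dual {a b : ℕ} (hab : a ≤ b)
    (h : ∀ (α : Type) (U : Matroid α), IsU (b - a) b U → Bad U)
    {α : Type} (U : Matroid α) (hU : IsU a b U) : Bad U := by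
  obtain ⟨γ, N, hN, hk⟩ := h α U✶ (hU.dual hab)
  refine ⟨γ, N✶, ?_, ?_⟩
  · exact ⟨by rw [Matroid.dual_ground]; exact hN.ground_finite⟩
  · intro k
    obtain ⟨δ, M, hM, hkM⟩ := hk k
    refine ⟨δ, M✶, ?_, by rwa [Matroid.dual_ground]⟩
    have := excluded_dual U✶ N M hM
    rwa [Matroid.dual_dual] at this

/-- every nonbinary uniform matroid is bad -/
theorem bad_uniform {a b : ℕ} (ha : 2 ≤ a) (hab : a + 2 ≤ b) {α : Type} (U : Matroid α)
    (hU : IsU a b U) : Bad U := by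
  have key2 : ∀ (b : ℕ), 4 ≤ b → ∀ (β : Type) (U : Matroid β), IsU 2 b U → Bad U := by
    intro b hb β U hU
    by_cases h6 : 6 ≤ b
    · exact bad_two h6 U hU
    · have h45 : b = 4 ∨ b = 5 := by omega
      rcases h45 with rfl | rfl
      · exact bad_field (ZMod 2) (by simp) U hU
      · haveI : Fact (Nat.Prime 3) := ⟨by norm_num⟩
        exact bad_field (ZMod 3) (by simp) U hU
  by_cases ha2 : a = 2
  · subst ha2
    exact key2 b (by omega) α U hU
  by_cases hb2 : b = a + 2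
  · refine bad_dual (by omega) ?_ U hU
    intro β V hV
    have : b - a = 2 := by omega
    rw [this] at hV
    exact key2 b (by omega) β V hV
  by_cases h36 : a = 3 ∧ b = 6
  · obtain ⟨rfl, rfl⟩ := h36
    exact bad_36 U hU
  · exact bad_three (by omega) (by omega) h36 U hU

end Pool.Agent.MP8f11b1
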