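import Pool.Agent.Lib.MP_8f11b1_co_DU.FCirc
import Pool.Agent.Lib.MP_8f11b1_co_RX.MinX

set_option autoImplicit false

namespace Pool.Agent.MP8f11b1

variable {α β : Type}

open Matroid

/-- contraction and deletion set of a minor of a finite matroid -/
theorem exists_indep_coindep {M N : Matroid α} [M.Finite] (h : N.IsMinor M) :
    ∃ X Y, M.Indep X ∧ Disjoint X Y ∧ X ∪ Y = M.E \ N.E ∧ N = M ／ X ＼ Y ∧
      (∀ B, N.IsBase B → M.IsBase (B ∪ X)) := by
  obtain ⟨X, hX, hd, hi, hb⟩ := exists_indep_of_isMinor h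
  have hXE := hX.subset_ground
  have hNE := h.subset
  have hd' := Set.disjoint_left.1 hd
  refine ⟨X, M.E \ (X ∪ N.E), hX, ?_, ?_, ?_, hb⟩
  · rw [Set.disjoint_left]
    exact fun x hx hx2 => hx2.2 (Or.inl hx)
  · ext x
    simp only [Set.mem_union, Set.mem_sdiff]
    constructor
    · rintro (hx | ⟨h1, h2⟩)
      · exact ⟨hXE hx, hd' hx⟩
      · exact ⟨h1, fun h3 => h2 (Or.inr h3)⟩
    · rintro ⟨h1, h2⟩
      by_cases hx : x ∈ X
      · exact Or.inl hx
      · exact Or.inr ⟨h1, fun h3 => h3.elim hx h2⟩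
  · refine Matroid.ext_indep ?_ ?_
    · ext x
      simp only [Matroid.delete_ground, Matroid.contract_ground, Set.mem_sdiff, Set.mem_union]
      constructor
      · intro hx
        exact ⟨⟨hNE hx, fun h2 => hd' h2 hx⟩, fun h3 => h3.2 (Or.inr hx)⟩
      · rintro ⟨⟨h1, h2⟩, h3⟩
        by_contra h4
        exact h3 ⟨h1, fun h5 => h5.elim h2 h4⟩
    · intro I hI
      rw [hi I hI, Matroid.delete_indep_iff, hX.contract_indep_iff]
      constructor
      · intro h1
        refine ⟨⟨hd.symm.mono_left hI, h1⟩, ?_⟩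
        rw [Set.disjoint_left]
        exact fun x hx hx2 => hx2.2 (Or.inr (hI hx))
      · exact fun h1 => h1.1.2

private theorem contract_minor (M : Matroid α) (X : Set α) : (M ／ X).IsMinor M := by
  have := Matroid.contract_delete_isMinor M X ∅
  rwa [Matroid.delete_empty] at this

private theorem delete_minor (M : Matroid α) (X : Set α) : (M ＼ X).IsMinor M := by
  have := Matroid.contract_delete_isMinor M ∅ X
  rwa [Matroid.contract_empty] at this

private theorem minor_del {M N : Matroid α} {X Y : Set α} (hd : Disjoint X Y)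
    (hN : N = M ／ X ＼ Y) {e : α} (he : e ∈ Y) : N.IsMinor (M ＼ {e}) := by
  have h1 : N = M ＼ {e} ＼ Y ／ X := by
    rw [hN, Matroid.delete_delete, Set.union_eq_self_of_subset_left (Set.singleton_subset_iff.2 he),
      Matroid.contract_delete_comm M hd]
  rw [h1]
  exact (contract_minor _ _).trans (delete_minor _ _)

private theorem minor_con {M N : Matroid α} {X Y : Set α}
    (hN : N = M ／ X ＼ Y) {e : α} (he : e ∈ X) : N.IsMinor (M ／ {e}) := by
  have h1 : N = M ／ {e} ／ X ＼ Y := by
    rw [hN, Matroid.contract_contract,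
      Set.union_eq_self_of_subset_left (Set.singleton_subset_iff.2 he)]
  rw [h1]
  exact Matroid.contract_delete_isMinor _ _ _

private theorem del_ne {M : Matroid α} {e : α} (he : e ∈ M.E) : M ＼ {e} ≠ M := by
  intro h
  have h1 : e ∈ (M ＼ {e}).E := by rw [h]; exact he
  rw [Matroid.delete_ground] at h1
  exact h1.2 rfl

private theorem con_ne {M : Matroid α} {e : α} (he : e ∈ M.E) : M ／ {e} ≠ M := by
  intro h
  have h1 : e ∈ (M ／ {e}).E := by rw [h]; exact he
  rw [Matroid.contract_ground] at h1
  exact h1.2 rfl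

/-- circuits of a contraction by a nonloop outside the closure -/
private theorem circ_con {M : Matroid α} {C : Set α} {e : α} (hC : M.IsCircuit C)
    (he : M.Indep {e}) (heC : e ∉ C) (hcl : e ∉ M.closure C) : (M ／ {e}).IsCircuit C := by
  rw [Matroid.isCircuit_iff_dep_forall_sdiff_singleton_indep]
  have hCE := hC.subset_ground
  constructor
  · rw [he.contract_dep_iff]
    refine ⟨Set.disjoint_singleton_right.2 heC, ?_⟩
    exact hC.dep.superset Set.subset_union_left
      (Set.union_subset hCE he.subset_ground)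
  · intro c hc
    rw [he.contract_indep_iff]
    refine ⟨Set.disjoint_singleton_right.2 fun h => heC h.1, ?_⟩
    rw [Set.union_singleton]
    have h1 := hC.sdiff_singleton_indep hc
    have h2 : e ∉ M.closure (C \ {c}) := fun h => hcl (M.closure_subset_closure Set.sdiff_subset h)
    exact (h1.notMem_closure_iff_of_notMem (fun h => heC h.1)
      (he.subset_ground rfl)).1 h2

/-- the two circuits in the last case cover `C` -/
private theorem cover_circ {M : Matroid α} {C : Set α} {e : α} (hC : M.IsCircuit C)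
    (he : M.Indep {e}) (heC : e ∉ C) {b : ℕ} (hb : b < C.ncard) (hCf : C.Finite)
    (hmin : ¬ ∃ D, (M ／ {e}).IsCircuit D ∧ b ≤ D.ncard) : C.ncard ≤ 2 * b := by
  have heE : e ∈ M.E := he.subset_ground rfl
  have hCE := hC.subset_ground
  have hdep : (M ／ {e}).Dep C := by
    rw [he.contract_dep_iff]
    exact ⟨Set.disjoint_singleton_right.2 heC, hC.dep.superset Set.subset_union_left
      (Set.union_subset hCE he.subset_ground)⟩
  obtain ⟨D₁, hD₁C, hD₁⟩ := hdep.exists_isCircuit_subset
  have hD₁b : D₁.ncard < b := by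
    by_contra h
    exact hmin ⟨D₁, hD₁, not_lt.1 h⟩
  have hD₁s : D₁ ⊂ C := by
    refine hD₁C.ssubset_of_ne ?_
    rintro rfl
    omega
  have heD₁ : e ∉ D₁ := fun h => heC (hD₁C h)
  -- circuits of the contraction that do not stay dependent
  have hcirc : ∀ D, (M ／ {e}).IsCircuit D → M.Indep D → e ∉ D → M.IsCircuit (insert e D) := by
    intro D hD hDi heD
    rw [Matroid.isCircuit_iff_dep_forall_sdiff_singleton_indep]
    constructor
    · have := hD.dep
      rw [he.contract_dep_iff, Set.union_singleton] at this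
      exact this.2
    · intro d hd
      rcases Set.mem_insert_iff.1 hd with rfl | hd
      · exact hDi.subset (by simp)
      · have h1 := hD.sdiff_singleton_indep hd
        rw [he.contract_indep_iff, Set.union_singleton] at h1
        refine h1.2.subset ?_
        rintro x ⟨hx, hxd⟩
        rcases Set.mem_insert_iff.1 hx with rfl | hx
        · exact Set.mem_insert _ _
        · exact Set.mem_insert_of_mem _ ⟨hx, hxd⟩
  have hD₁M : M.IsCircuit (insert e D₁) := hcirc D₁ hD₁ (hC.ssubset_indep hD₁s) heD₁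
  obtain ⟨c, hc⟩ := hD₁.nonempty
  have hcC : c ∈ C := hD₁C hc
  have hcI := hC.sdiff_singleton_indep hcC
  have hne : C ≠ insert e D₁ := by
    intro h
    apply heC
    rw [h]
    exact Set.mem_insert _ _
  obtain ⟨D, hDs, hD⟩ := hC.elimination hD₁M hne c
  have hDs' : D ⊆ insert e (C \ {c}) := by
    intro x hx
    have h1 := hDs hx
    rcases h1.1 with h2 | h2
    · exact Set.mem_insert_of_mem _ ⟨h2, h1.2⟩
    · rcases Set.mem_insert_iff.1 h2 with rfl | h2
      · exact Set.mem_insert _ _
      · exact Set.mem_insert_of_mem _ ⟨hD₁C h2, h1.2⟩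
  have heD : e ∈ D := by
    by_contra h
    apply hD.not_indep
    refine hcI.subset ?_
    intro x hx
    rcases Set.mem_insert_iff.1 (hDs' hx) with rfl | h2
    · exact absurd hx h
    · exact h2
  have hD2c : (M ／ {e}).IsCircuit (D \ {e}) := by
    have hnt : D.Nontrivial := by
      rw [← Set.not_subsingleton_iff]
      intro hs
      have h1 : D = {e} := hs.eq_singleton_of_mem heD
      exact hD.not_indep (h1 ▸ he)
    exact hD.contractElem_isCircuit hnt heD
  have hD2b : (D \ {e}).ncard < b := by
    by_contra h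
    exact hmin ⟨D \ {e}, hD2c, not_lt.1 h⟩
  have hcov : C ⊆ D₁ ∪ (D \ {e}) := by
    intro g hg
    by_contra hgn
    rw [Set.mem_union, not_or] at hgn
    have hgI := hC.sdiff_singleton_indep hg
    have hne2 : insert e D₁ ≠ D := by
      rintro rfl
      have h1 := hDs' (Set.mem_insert_of_mem _ hc)
      rcases Set.mem_insert_iff.1 h1 with rfl | h2
      · exact heD₁ hc
      · exact h2.2 rfl
    obtain ⟨K, hKs, hK⟩ := hD₁M.elimination hD hne2 e
    apply hK.not_indep
    refine hgI.subset ?_
    intro x hx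
    have h1 := hKs hx
    have hxe : x ≠ e := fun h => h1.2 h
    rcases h1.1 with h2 | h2
    · rcases Set.mem_insert_iff.1 h2 with h2 | h2
      · exact absurd h2 hxe
      · refine ⟨hD₁C h2, ?_⟩
        intro hxg
        rw [Set.mem_singleton_iff] at hxg
        rw [hxg] at h2
        exact hgn.1 h2
    · rcases Set.mem_insert_iff.1 (hDs' h2) with h3 | h3
      · exact absurd h3 hxe
      · refine ⟨h3.1, ?_⟩
        intro hxg
        rw [Set.mem_singleton_iff] at hxg
        rw [hxg] at h2 hxe
        exact hgn.2 ⟨h2, hxe⟩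
  have hDf : (D \ {e}).Finite := by
    refine hCf.subset ?_
    rintro x ⟨hx, hxe⟩
    rcases Set.mem_insert_iff.1 (hDs' hx) with h | h
    · exact absurd h hxe
    · exact h.1
  have hfin : (D₁ ∪ (D \ {e})).Finite := (hCf.subset hD₁C).union hDf
  calc C.ncard ≤ (D₁ ∪ (D \ {e})).ncard := Set.ncard_le_ncard hcov hfin
    _ ≤ D₁.ncard + (D \ {e}).ncard := Set.ncard_union_le _ _
    _ ≤ 2 * b := by omega

/-- the size of a minor-minimal matroid with a circuit of size at least `b` and a given minor -/
theorem circ_bound (M N : Matroid α) [M.Finite] {b : ℕ} (hb : 1 ≤ b) (hN : N.IsMinor M)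
    (hC : ∃ C, M.IsCircuit C ∧ b ≤ C.ncard)
    (hmin : ∀ M' : Matroid α, M'.IsMinor M → M' ≠ M → N.IsMinor M' →
      ¬ ∃ C, M'.IsCircuit C ∧ b ≤ C.ncard) :
    M.E.ncard ≤ 2 * N.E.ncard + 4 * b + 1 := by
  obtain ⟨X, Y, hX, hXY, hXYE, hNe, hbase⟩ := exists_indep_coindep hN
  obtain ⟨C, hC, hCb⟩ := hC
  have hEf : M.E.Finite := M.ground_finite
  have hCE := hC.subset_ground
  have hCf : C.Finite := hEf.subset hCE
  have hXE := hX.subset_ground
  have hXf : X.Finite := hEf.subset hXE
  have hYE : Y ⊆ M.E := fun y hy => by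
    have : y ∈ X ∪ Y := Or.inr hy
    rw [hXYE] at this
    exact this.1
  have hYf : Y.Finite := hEf.subset hYE
  have hcard : M.E.ncard = N.E.ncard + X.ncard + Y.ncard := by
    have h1 : N.E ∪ (X ∪ Y) = M.E := by
      rw [hXYE, Set.union_sdiff_cancel hN.subset]
    have h2 : Disjoint N.E (X ∪ Y) := by
      rw [hXYE]; exact Set.disjoint_sdiff_right
    rw [← h1, Set.ncard_union_eq h2 (hEf.subset hN.subset) (hXf.union hYf),
      Set.ncard_union_eq hXY hXf hYf]
    ring
  -- the deleted elements are in the circuit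
  have hYC : Y ⊆ C := by
    intro e he
    by_contra heC
    refine hmin (M ＼ {e}) (delete_minor _ _) (del_ne (hYE he))
      (minor_del hXY hNe he) ⟨C, ?_, hCb⟩
    rw [Matroid.delete_isCircuit_iff]
    exact ⟨hC, Set.disjoint_singleton_right.2 heC⟩
  have hXcl : X ⊆ M.closure C := by
    intro e he
    by_cases heC : e ∈ C
    · exact M.mem_closure_of_mem heC hCE
    · by_contra hcl
      refine hmin (M ／ {e}) (contract_minor _ _) (con_ne (hXE he))
        (minor_con hNe he) ⟨C, ?_, hCb⟩
      exact circ_con hC (hX.subset (Set.singleton_subset_iff.2 he)) heC hcl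
  have hYc : Y.ncard ≤ C.ncard := Set.ncard_le_ncard hYC hCf
  have hXc : X.ncard ≤ C.ncard := by
    have h1 : X.encard ≤ C.encard := by
      calc X.encard = M.eRk X := hX.eRk_eq_encard.symm
        _ ≤ M.eRk (M.closure C) := M.eRk_mono hXcl
        _ = M.eRk C := M.eRk_closure_eq C
        _ ≤ C.encard := M.eRk_le_encard C
    rw [← hXf.cast_ncard_eq, ← hCf.cast_ncard_eq] at h1
    exact_mod_cast h1
  by_cases hlt : C.ncard ≤ b
  · omega
  · rcases Set.eq_empty_or_nonempty X with hXe | ⟨e, he⟩
    · obtain ⟨B, hB⟩ := N.exists_isBase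
      have hB2 := hbase B hB
      rw [hXe, Set.union_empty] at hB2
      have hBN : B.ncard ≤ N.E.ncard :=
        Set.ncard_le_ncard hB.subset_ground (hEf.subset hN.subset)
      obtain ⟨c, hc⟩ := hC.nonempty
      have h1 := hC.sdiff_singleton_indep hc
      obtain ⟨B', hB', hsub⟩ := h1.exists_isBase_superset
      have h2 : B'.ncard = B.ncard := hB'.ncard_eq_ncard_of_isBase hB2
      have h3 : (C \ {c}).ncard ≤ B'.ncard :=
        Set.ncard_le_ncard hsub (hEf.subset hB'.subset_ground)
      have h4 : (C \ {c}).ncard = C.ncard - 1 := Set.ncard_sdiff_singleton_of_mem hc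
      have h5 : X.ncard = 0 := by rw [hXe]; simp
      omega
    · have heI : M.Indep {e} := hX.subset (Set.singleton_subset_iff.2 he)
      have hmin' := hmin (M ／ {e}) (contract_minor _ _) (con_ne (hXE he))
        (minor_con hNe he)
      have heC : e ∉ C := by
        intro heC
        apply hmin'
        refine ⟨C \ {e}, ?_, ?_⟩
        · have hnt : C.Nontrivial := by
            rw [← Set.not_subsingleton_iff]
            intro hs
            have h1 : C = {e} := hs.eq_singleton_of_mem heC
            exact hC.not_indep (h1 ▸ heI)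
          exact hC.contractElem_isCircuit hnt heC
        · rw [Set.ncard_sdiff_singleton_of_mem heC]
          omega
      have := cover_circ hC heI heC (not_le.1 hlt) hCf hmin'
      omega

theorem rank_bound (M N : Matroid α) [M.Finite] {b : ℕ} (hN : N.IsMinor M)
    (hC : ∃ I, M.Indep I ∧ b ≤ I.ncard)
    (hmin : ∀ M' : Matroid α, M'.IsMinor M → M' ≠ M → N.IsMinor M' →
      ¬ ∃ I, M'.Indep I ∧ b ≤ I.ncard) :
    M.E.ncard ≤ N.E.ncard + b := by
  obtain ⟨X, Y, hX, hXY, hXYE, hNe, hbase⟩ := exists_indep_coindep hN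
  obtain ⟨I, hI, hIb⟩ := hC
  have hEf : M.E.Finite := M.ground_finite
  have hXE := hX.subset_ground
  have hXf : X.Finite := hEf.subset hXE
  have hYE : Y ⊆ M.E := fun y hy => by
    have : y ∈ X ∪ Y := Or.inr hy
    rw [hXYE] at this
    exact this.1
  obtain ⟨B, hB⟩ := N.exists_isBase
  have hB2 := hbase B hB
  obtain ⟨B', hB', hsub⟩ := hI.exists_isBase_superset
  have h2 : B'.ncard = (B ∪ X).ncard := hB'.ncard_eq_ncard_of_isBase hB2
  have h3 : I.ncard ≤ B'.ncard := Set.ncard_le_ncard hsub (hEf.subset hB'.subset_ground)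
  have hBXf : (B ∪ X).Finite := hEf.subset hB2.subset_ground
  have hY : Y = ∅ := by
    by_contra hne
    obtain ⟨e, he⟩ := Set.nonempty_iff_ne_empty.2 hne
    refine hmin (M ＼ {e}) (delete_minor _ _) (del_ne (hYE he))
      (minor_del hXY hNe he) ⟨B ∪ X, ?_, by omega⟩
    rw [Matroid.delete_indep_iff]
    refine ⟨hB2.indep, Set.disjoint_singleton_right.2 ?_⟩
    rintro (h | h)
    · have h4 : e ∈ X ∪ Y := Or.inr he
      rw [hXYE] at h4
      exact h4.2 (hB.subset_ground h)
    · exact Set.disjoint_left.1 hXY h he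
  rw [hY, Set.union_empty] at hXYE
  have hcard : M.E.ncard = N.E.ncard + X.ncard := by
    rw [hXYE, ← Set.ncard_sdiff_add_ncard_of_subset hN.subset hEf]
    ring
  rcases Set.eq_empty_or_nonempty X with hXe | ⟨e, he⟩
  · have h5 : X.ncard = 0 := by rw [hXe]; simp
    omega
  · have heI : M.Indep {e} := hX.subset (Set.singleton_subset_iff.2 he)
    have hmin' := hmin (M ／ {e}) (contract_minor _ _) (con_ne (hXE he))
      (minor_con hNe he)
    have heBX : e ∈ B ∪ X := Or.inr he
    have h4 : (M ／ {e}).Indep ((B ∪ X) \ {e}) := by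
      rw [heI.contract_indep_iff]
      refine ⟨Set.disjoint_singleton_right.2 fun h => h.2 rfl, ?_⟩
      rw [Set.sdiff_union_self, Set.union_eq_self_of_subset_right
        (Set.singleton_subset_iff.2 heBX)]
      exact hB2.indep
    have h5 : ((B ∪ X) \ {e}).ncard < b := by
      by_contra h
      exact hmin' ⟨_, h4, not_lt.1 h⟩
    rw [Set.ncard_sdiff_singleton_of_mem heBX] at h5
    have h6 : X.ncard ≤ (B ∪ X).ncard := Set.ncard_le_ncard Set.subset_union_right hBXf
    omega

end Pool.Agent.MP8f11b1
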