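import Pool.Agent.Lib.MP_8f11b1_co_DU.FinS

set_option autoImplicit false

namespace Pool.Agent.MP8f11b1

open Matroid

/-- For every `N` the excluded minors of `Ex U ∪ Ex N` have at most `2 |N| + 4 |U| + 1`
elements. -/
def FinB {α : Type} (U : Matroid α) : Prop :=
  ∀ (γ : Type) (N : Matroid γ), N.Finite → ∀ (δ : Type) (M : Matroid δ),
    IsExcludedMinor (Union (Ex U) (Ex N)) M →
      M.E.ncard ≤ 2 * N.E.ncard + 4 * U.E.ncard + 1

theorem finB_circ {b : ℕ} (hb : 1 ≤ b) {α : Type} (U : Matroid α) (hU : IsU (b - 1) b U) :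
    FinB U := by
  intro γ N hN δ M hM
  obtain ⟨hf, h1, N', hN', hi, hmin⟩ := excluded_unfold U N M hM
  have hMf : M.Finite := hf
  rw [circ_iff M hb U hU] at h1
  rw [← iso_ncard hi, hU.2.1]
  refine circ_bound M N' hb hN' h1 ?_
  intro M' hM' hne hNM
  have hM'f : M'.Finite := ⟨hf.ground_finite.subset hM'.subset⟩
  rw [← circ_iff M' hb U hU]
  exact hmin M' hM' hne hNM

theorem finB_rank {b : ℕ} {α : Type} (U : Matroid α) (hU : IsU b b U) : FinB U := by
  intro γ N hN δ M hM
  obtain ⟨hf, h1, N', hN', hi, hmin⟩ := excluded_unfold U N M hM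
  have hMf : M.Finite := hf
  rw [rank_iff M U hU] at h1
  rw [← iso_ncard hi, hU.2.1]
  have h2 : M.E.ncard ≤ N'.E.ncard + b := by
    refine rank_bound M N' hN' h1 ?_
    intro M' hM' hne hNM
    have hM'f : M'.Finite := ⟨hf.ground_finite.subset hM'.subset⟩
    rw [← rank_iff M' U hU]
    exact hmin M' hM' hne hNM
  omega

theorem finB_dual {α : Type} (U : Matroid α) (h : FinB U✶) : FinB U := by
  intro γ N hN δ M hM
  have := h γ N✶ ⟨by rw [Matroid.dual_ground]; exact hN.ground_finite⟩ δ M✶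
    (excluded_dual U N M hM)
  rwa [Matroid.dual_ground, Matroid.dual_ground, Matroid.dual_ground] at this

theorem finB_uniform {a b : ℕ} (hab : a ≤ b) (h : a ≤ 1 ∨ b ≤ a + 1) {α : Type}
    (U : Matroid α) (hU : IsU a b U) : FinB U := by
  have key : ∀ (a b : ℕ), a ≤ b → b ≤ a + 1 → ∀ (β : Type) (U : Matroid β), IsU a b U →
      FinB U := by
    intro a b h1 h2 β U hU
    by_cases h3 : b = a
    · subst h3
      exact finB_rank U hU
    · have h4 : a = b - 1 := by omega
      rw [h4] at hU
      exact finB_circ (by omega) U hU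
  rcases h with h | h
  · exact finB_dual U (key (b - a) b (by omega) (by omega) α U✶ (hU.dual hab))
  · exact key a b hab h α U hU

end Pool.Agent.MP8f11b1
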