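import Pool.Agent.Lib.MP_8f11b1_co_DU.FBound
import Pool.Agent.Lib.MP_8f11b1_co_DU.FDual

set_option autoImplicit false

namespace Pool.Agent.MP8f11b1

open Matroid

/-- For every `N` the excluded minors of `Ex U ∪ Ex N` have bounded size. -/
def FinSide {α : Type} (U : Matroid α) : Prop :=
  ∀ (γ : Type) (N : Matroid γ), N.Finite → ∃ k : ℕ, ∀ (δ : Type) (M : Matroid δ),
    IsExcludedMinor (Union (Ex U) (Ex N)) M → M.E.ncard ≤ k

theorem iso_ncard {α β : Type} {M : Matroid α} {N : Matroid β} (h : Iso M N) :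
    M.E.ncard = N.E.ncard := by
  obtain ⟨e, _⟩ := h
  exact Nat.card_congr e

/-- unfolding of the definitions -/
theorem excluded_unfold {α γ δ : Type} (U : Matroid α) (N : Matroid γ) (M : Matroid δ)
    (h : IsExcludedMinor (Union (Ex U) (Ex N)) M) :
    M.Finite ∧ (∃ M' : Matroid δ, M'.IsMinor M ∧ Iso M' U) ∧
      ∃ N' : Matroid δ, N'.IsMinor M ∧ Iso N' N ∧
        ∀ M' : Matroid δ, M'.IsMinor M → M' ≠ M → N'.IsMinor M' →
          ¬ ∃ M'' : Matroid δ, M''.IsMinor M' ∧ Iso M'' U := by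
  obtain ⟨hf, hn, hp⟩ := h
  have h1 : ∃ M' : Matroid δ, M'.IsMinor M ∧ Iso M' U := by
    by_contra hc
    exact hn (Or.inl ⟨hf, hc⟩)
  have h2 : ∃ M' : Matroid δ, M'.IsMinor M ∧ Iso M' N := by
    by_contra hc
    exact hn (Or.inr ⟨hf, hc⟩)
  obtain ⟨N', hN', hi⟩ := h2
  refine ⟨hf, h1, N', hN', hi, ?_⟩
  intro M' hM' hne hNM hc
  rcases hp M' hM' hne with h | h
  · exact h.2 hc
  · exact h.2 ⟨N', hNM, hi⟩

theorem fin_circ {b : ℕ} (hb : 1 ≤ b) {α : Type} (U : Matroid α) (hU : IsU (b - 1) b U) :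
    FinSide U := by
  intro γ N hN
  refine ⟨2 * N.E.ncard + 4 * b + 1, ?_⟩
  intro δ M hM
  obtain ⟨hf, h1, N', hN', hi, hmin⟩ := excluded_unfold U N M hM
  have hMf : M.Finite := hf
  rw [circ_iff M hb U hU] at h1
  rw [← iso_ncard hi]
  refine circ_bound M N' hb hN' h1 ?_
  intro M' hM' hne hNM
  have hM'f : M'.Finite := ⟨hf.ground_finite.subset hM'.subset⟩
  rw [← circ_iff M' hb U hU]
  exact hmin M' hM' hne hNM

theorem fin_rank {b : ℕ} {α : Type} (U : Matroid α) (hU : IsU b b U) : FinSide U := by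
  intro γ N hN
  refine ⟨N.E.ncard + b, ?_⟩
  intro δ M hM
  obtain ⟨hf, h1, N', hN', hi, hmin⟩ := excluded_unfold U N M hM
  have hMf : M.Finite := hf
  rw [rank_iff M U hU] at h1
  rw [← iso_ncard hi]
  refine rank_bound M N' hN' h1 ?_
  intro M' hM' hne hNM
  have hM'f : M'.Finite := ⟨hf.ground_finite.subset hM'.subset⟩
  rw [← rank_iff M' U hU]
  exact hmin M' hM' hne hNM

theorem fin_dual {α : Type} (U : Matroid α) (h : FinSide U✶) : FinSide U := by
  intro γ N hN
  obtain ⟨k, hk⟩ := h γ N✶ ⟨by rw [Matroid.dual_ground]; exact hN.ground_finite⟩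
  refine ⟨k, ?_⟩
  intro δ M hM
  have := hk δ M✶ (excluded_dual U N M hM)
  rwa [Matroid.dual_ground] at this

theorem fin_uniform {a b : ℕ} (hab : a ≤ b) (h : a ≤ 1 ∨ b ≤ a + 1) {α : Type}
    (U : Matroid α) (hU : IsU a b U) : FinSide U := by
  have key : ∀ (a b : ℕ), a ≤ b → b ≤ a + 1 → ∀ (β : Type) (U : Matroid β), IsU a b U →
      FinSide U := by
    intro a b h1 h2 β U hU
    by_cases h3 : b = a
    · subst h3
      exact fin_rank U hU
    · have h4 : a = b - 1 := by omega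
      rw [h4] at hU
      exact fin_circ (by omega) U hU
  rcases h with h | h
  · exact fin_dual U (key (b - a) b (by omega) (by omega) α U✶ (hU.dual hab))
  · exact key a b hab h α U hU

end Pool.Agent.MP8f11b1
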