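import Pool.Agent.Lib.MP_8f11b1_co_DU.Bad
import Pool.Agent.Lib.MP_8f11b1_co_DU.FinS

set_option autoImplicit false

namespace Pool.Agent.MP8f11b1

theorem dichotomy {a b : ℕ} (hab : a ≤ b) {α : Type} (U : Matroid α) (hU : IsU a b U) :
    (∀ (γ : Type) (N : Matroid γ), N.Finite → ∃ k : ℕ, ∀ (δ : Type) (M : Matroid δ),
      IsExcludedMinor (Union (Ex U) (Ex N)) M → M.E.ncard ≤ k) ↔ (a ≤ 1 ∨ b ≤ a + 1) := by
  constructor
  · intro h
    by_contra hc
    push Not at hc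
    obtain ⟨γ, N, hN, hk⟩ := bad_uniform (by omega) (by omega) U hU
    obtain ⟨k, hk'⟩ := h γ N hN
    obtain ⟨δ, M, hM, hkM⟩ := hk (k + 1)
    have := hk' δ M hM
    omega
  · intro h
    exact fin_uniform hab h U hU

end Pool.Agent.MP8f11b1
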