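import Pool.Agent.Lib.MP_8f11b1_co_DU.Defs
import Pool.Agent.Lib.MP_8f11b1_co_RX.Lin

set_option autoImplicit false

namespace Pool.Agent.MP8f11b1

variable {L : Type} [Field L] [Algebra (ZMod 2) L] {r m g s : ℕ}

namespace Cfg2

private theorem two_zero : (2 : L) = 0 := by
  rw [show (2 : L) = algebraMap (ZMod 2) L 2 from (map_ofNat _ 2).symm,
    show (2 : ZMod 2) = 0 from rfl, map_zero]

omit [Algebra (ZMod 2) L] in
private theorem par_sum (a b : L) (m : ℕ) :
    ∑ j ∈ Finset.range (2 * m), (if Even j then a else b) = m * (a + b) := by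
  induction m with
  | zero => simp
  | succ m ih =>
    have h2 : 2 * (m + 1) = 2 * m + 1 + 1 := by ring
    rw [h2, Finset.sum_range_succ, Finset.sum_range_succ, ih]
    have h3 : Even (2 * m) := even_two_mul m
    have h4 : ¬ Even (2 * m + 1) := by
      rw [Nat.not_even_iff_odd]
      exact ⟨m, rfl⟩
    rw [if_pos h3, if_neg h4]
    push_cast
    ring

omit [Algebra (ZMod 2) L] in
private theorem par_sum_fin (a b : L) (m : ℕ) :
    ∑ j : Fin (2 * m), (if Even j.val then a else b) = m * (a + b) := by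
  rw [← par_sum a b m]
  exact Fin.sum_univ_eq_sum_range (fun j => (if Even j then a else b)) (2 * m)

/-- the parametrization -/
private def kk : Fin (2 * m) ⊕ (Fin r ⊕ Fin g) → G2 r m g
  | .inl j => .inl (.inl (.inr j))
  | .inr (.inl i) => .inl (.inr (.inl i))
  | .inr (.inr c) => .inr c

private theorem kk_inj : Function.Injective (kk : Fin (2 * m) ⊕ (Fin r ⊕ Fin g) → G2 r m g) := by
  rintro (a | a | a) (b | b | b) h <;> simp [kk] at h ⊢ <;> exact h

/-- the index set of the circuit-hyperplane -/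
private def ST (r m : ℕ) (T : Set (Fin g)) : Set (Fin (2 * m) ⊕ (Fin r ⊕ Fin g)) := fun z =>
  match z with
  | .inl _ => True
  | .inr (.inl _) => True
  | .inr (.inr c) => c ∈ T

private theorem image_kk (T : Set (Fin g)) : kk '' (ST r m T) = (KT T : Set (G2 r m g)) := by
  ext z
  constructor
  · rintro ⟨(a | a | a), ha, rfl⟩
    · exact trivial
    · exact trivial
    · exact ha
  · intro hz
    rcases z with ((i | j) | (i | h)) | c
    · exact (hz : False).elim
    · exact ⟨.inl j, trivial, rfl⟩
    · exact ⟨.inr (.inl i), trivial, rfl⟩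
    · exact (hz : False).elim
    · exact ⟨.inr (.inr c), hz, rfl⟩

private def k3 (T : Set (Fin g)) : Fin (2 * m) ⊕ (Fin r ⊕ T) → G2 r m g
  | .inl j => .inl (.inl (.inr j))
  | .inr (.inl i) => .inl (.inr (.inl i))
  | .inr (.inr c) => .inr c.1

private theorem k3_inj (T : Set (Fin g)) :
    Function.Injective (k3 T : Fin (2 * m) ⊕ (Fin r ⊕ T) → G2 r m g) := by
  rintro (a | a | a) (b | b | b) h
  all_goals first
    | (simp [k3] at h; done)
    | (simp only [k3, Sum.inl.injEq, Sum.inr.injEq] at h
       first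
         | rw [h]
         | rw [Subtype.ext h])

private theorem range_k3 (T : Set (Fin g)) :
    Set.range (k3 T : Fin (2 * m) ⊕ (Fin r ⊕ T) → G2 r m g) = KT T := by
  ext z
  constructor
  · rintro ⟨(a | a | a), rfl⟩
    · exact trivial
    · exact trivial
    · exact a.2
  · intro hz
    rcases z with ((i | j) | (i | h)) | c
    · exact (hz : False).elim
    · exact ⟨.inl j, rfl⟩
    · exact ⟨.inr (.inl i), rfl⟩
    · exact (hz : False).elim
    · exact ⟨.inr (.inr ⟨c, hz⟩), rfl⟩

omit [Algebra (ZMod 2) L] in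
private theorem card_KT (T : Set (Fin g)) (hT : T.ncard = s + 1) :
    (KT T : Set (G2 r m g)).ncard = Module.finrank L (V2 L r m s) := by
  rw [← range_k3, ← Set.image_univ, Set.ncard_image_of_injective _ (k3_inj T), Set.ncard_univ,
    Nat.card_sum, Nat.card_sum, Nat.card_coe_set_eq, hT, Nat.card_eq_fintype_card,
    Nat.card_eq_fintype_card, Fintype.card_fin,
    Fintype.card_fin, Module.finrank_prod, Module.finrank_prod, Module.finrank_prod,
    Module.finrank_fin_fun, Module.finrank_fin_fun, Module.finrank_fin_fun, Module.finrank_self]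
  omega

private theorem f_e (gam : Fin g → ZZ L s) (j : Fin (2 * m)) :
    (f2 gam (kk (.inl j)) : V2 L r m s) = (dl (j.val + 1), wk j.val, 0) := rfl

private theorem f_b (gam : Fin g → ZZ L s) (i : Fin r) :
    (f2 gam (kk (.inr (.inl i))) : V2 L r m s) = (0, (Pi.single i 1, 0), 0) := rfl

private theorem f_c (gam : Fin g → ZZ L s) (c : Fin g) :
    (f2 gam (kk (.inr (.inr c))) : V2 L r m s) =
      (fun _ => (gam c).1, (fun _ => (gam c).1, (gam c).2.1), (gam c).2.2) := rfl

private theorem core (hm : (m : L) = 0) (gam : Fin g → ZZ L s) (T : Set (Fin g))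
    (hT : GoodT gam T) (G : Fin (2 * m) ⊕ (Fin r ⊕ Fin g) → L)
    (hG : ∑ i, G i • (f2 gam (kk i) : V2 L r m s) = 0)
    (hsup : ∀ c, c ∉ T → G (.inr (.inr c)) = 0)
    (k : Fin (2 * m) ⊕ (Fin r ⊕ Fin g)) (hkT : k ∈ ST r m T)
    (hk : G k = 0) : ∀ i, G i = 0 := by
  classical
  rw [Fintype.sum_sum_type, Fintype.sum_sum_type] at hG
  simp only [f_e, f_b, f_c] at hG
  have h1 := congrArg Prod.fst hG
  have h2 := congrArg (fun v : V2 L r m s => v.2.1.1) hG
  have h3 := congrArg (fun v : V2 L r m s => v.2.1.2) hG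
  have h4 := congrArg (fun v : V2 L r m s => v.2.2) hG
  set Lam : L := ∑ c : Fin g, G (.inr (.inr c)) * (gam c).1 with hLam
  have hl : ∀ j : Fin (2 * m), G (.inl j) = - Lam := by
    intro j
    have h5 := congrFun h1 j
    simp only [Prod.fst_add, Prod.fst_sum, Prod.smul_fst, Pi.add_apply, Finset.sum_apply,
      Pi.smul_apply, smul_eq_mul, Prod.fst_zero, Pi.zero_apply, mul_zero,
      Finset.sum_const_zero, zero_add, dl] at h5
    rw [Finset.sum_eq_single j (by
      intro b _ hb
      rw [if_neg (by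
        intro h
        exact hb (Fin.ext (by omega))), mul_zero]) (by simp)] at h5
    rw [if_pos rfl, mul_one] at h5
    linear_combination h5
  have hmu : ∀ i : Fin r, G (.inr (.inl i)) = - Lam := by
    intro i
    have h5 := congrFun h2 i
    simp only [Prod.snd_add, Prod.snd_sum, Prod.smul_snd, Prod.fst_add, Prod.fst_sum,
      Prod.smul_fst, Pi.add_apply, Finset.sum_apply,
      Pi.smul_apply, smul_eq_mul, Prod.fst_zero, Prod.snd_zero, Pi.zero_apply] at h5
    have h6 : ∑ j : Fin (2 * m), G (.inl j) * (wk j.val : WW L r).1 i = 0 := by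
      have h7 : ∀ j : Fin (2 * m), G (.inl j) * (wk j.val : WW L r).1 i =
          (if Even j.val then 0 else -Lam * (w0 : WW L r).1 i) := by
        intro j
        rw [hl j]
        unfold wk
        split_ifs
        · exact mul_zero _
        · rfl
      rw [Finset.sum_congr rfl fun j _ => h7 j, par_sum_fin, hm, zero_mul]
    rw [h6, Finset.sum_eq_single i (by
      intro b _ hb
      rw [Pi.single_eq_of_ne hb.symm, mul_zero]) (by simp), Pi.single_eq_same, mul_one] at h5
    linear_combination h5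
  have ht : ∑ c : Fin g, G (.inr (.inr c)) * (gam c).2.1 = 0 := by
    simp only [Prod.snd_add, Prod.snd_sum, Prod.smul_snd, Prod.fst_add, Prod.fst_sum,
      Prod.smul_fst, smul_eq_mul, Prod.fst_zero, Prod.snd_zero, mul_zero,
      Finset.sum_const_zero, zero_add] at h3
    have h6 : ∑ j : Fin (2 * m), G (.inl j) * (wk j.val : WW L r).2 = 0 := by
      have h7 : ∀ j : Fin (2 * m), G (.inl j) * (wk j.val : WW L r).2 =
          (if Even j.val then -Lam else 0) := by
        intro j
        rw [hl j]
        unfold wk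
        split_ifs
        · exact mul_one _
        · exact mul_zero _
      rw [Finset.sum_congr rfl fun j _ => h7 j, par_sum_fin, hm, zero_mul]
    rw [h6, zero_add] at h3
    exact h3
  have hy : ∑ c : Fin g, G (.inr (.inr c)) • (gam c).2.2 = 0 := by
    simp only [Prod.snd_add, Prod.snd_sum, Prod.smul_snd, Prod.snd_zero, smul_zero,
      Finset.sum_const_zero, zero_add] at h4
    exact h4
  obtain ⟨α, hα, hαs⟩ := hT.circ
  have hall : ∀ c, G (.inr (.inr c)) = Lam * α c := by
    have h5 : ∑ c : Fin g, (G (.inr (.inr c)) - Lam * α c) • gam c = 0 := by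
      have h6 : ∑ c : Fin g, (G (.inr (.inr c)) - Lam * α c) • gam c =
          (∑ c : Fin g, G (.inr (.inr c)) • gam c) - Lam • ∑ c : Fin g, α c • gam c := by
        rw [Finset.smul_sum, ← Finset.sum_sub_distrib]
        refine Finset.sum_congr rfl fun c _ => ?_
        rw [sub_smul, mul_smul]
      rw [h6, hαs]
      refine Prod.ext ?_ (Prod.ext ?_ ?_)
      · simp only [Prod.fst_sub, Prod.fst_sum, Prod.smul_fst, smul_eq_mul, mul_one,
          Prod.fst_zero]
        rw [hLam, sub_self]
      · simp only [Prod.snd_sub, Prod.snd_sum, Prod.smul_snd, Prod.fst_sub, Prod.fst_sum,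
          Prod.smul_fst, smul_eq_mul, mul_zero, Prod.fst_zero, Prod.snd_zero, sub_zero]
        exact ht
      · simp only [Prod.snd_sub, Prod.snd_sum, Prod.smul_snd, smul_zero, Prod.snd_zero,
          sub_zero]
        exact hy
    intro c
    have h7 := linearIndepOn_iff'.1 hT.ind (Finset.univ.filter fun c => c ∈ T)
      (fun c => G (.inr (.inr c)) - Lam * α c) (by
        intro c hc
        simpa using hc) (by
        rw [Finset.sum_filter]
        refine Eq.trans ?_ h5
        refine Finset.sum_congr rfl fun c _ => ?_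
        split_ifs with hc
        · rfl
        · have h8 : α c = 0 := by
            by_contra h9
            exact hc ((hα c).1 h9)
          rw [hsup c hc, h8, mul_zero, sub_zero, zero_smul])
    by_cases hc : c ∈ T
    · exact sub_eq_zero.1 (h7 c (by simpa using hc))
    · have h8 : α c = 0 := by
        by_contra h9
        exact hc ((hα c).1 h9)
      rw [hsup c hc, h8, mul_zero]
  have hL0 : Lam = 0 := by
    rcases k with j | i | c
    · rw [hl j] at hk
      exact neg_eq_zero.1 hk
    · rw [hmu i] at hk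
      exact neg_eq_zero.1 hk
    · rw [hall c] at hk
      rcases mul_eq_zero.1 hk with h | h
      · exact h
      · exact absurd h ((hα c).2 hkT)
  rintro (j | i | c)
  · rw [hl j, hL0, neg_zero]
  · rw [hmu i, hL0, neg_zero]
  · rw [hall c, hL0, zero_mul]

private theorem ind_KT (hm : (m : L) = 0) (gam : Fin g → ZZ L s) (T : Set (Fin g))
    (hT : GoodT gam T) (e : G2 r m g) (he : e ∈ (KT T : Set (G2 r m g))) :
    LinearIndepOn L (f2 gam : G2 r m g → V2 L r m s) (KT T \ {e}) := by
  classical
  rw [← image_kk] at he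
  obtain ⟨k, hk, rfl⟩ := he
  have h1 : (KT T \ {kk k} : Set (G2 r m g)) = kk '' (ST r m T \ {k}) := by
    rw [← image_kk]
    ext z
    constructor
    · rintro ⟨⟨a, haT, rfl⟩, ha⟩
      exact ⟨a, ⟨haT, fun h => ha (by rw [Set.mem_singleton_iff.1 h]; rfl)⟩, rfl⟩
    · rintro ⟨a, ⟨haT, ha⟩, rfl⟩
      exact ⟨⟨a, haT, rfl⟩, fun h => ha (kk_inj h)⟩
  rw [h1]
  refine LinearIndepOn.image_of_comp kk _ ?_
  rw [linearIndepOn_iff']
  intro t G ht hsum i hi
  have h2 := core hm gam T hT (fun i => if i ∈ t then G i else 0) (by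
    rw [← hsum, ← Finset.sum_filter_add_sum_filter_not Finset.univ (fun i => i ∈ t)]
    have h3 : ∑ x ∈ Finset.univ.filter (fun i => ¬ i ∈ t),
        (if x ∈ t then G x else 0) • (f2 gam (kk x) : V2 L r m s) = 0 := by
      refine Finset.sum_eq_zero fun x hx => ?_
      rw [if_neg (Finset.mem_filter.1 hx).2, zero_smul]
    rw [h3, add_zero]
    have h4 : Finset.univ.filter (fun i => i ∈ t) = t := by
      ext x
      simp
    rw [h4]
    refine Finset.sum_congr rfl fun x hx => ?_
    rw [if_pos hx]
    rfl) (fun c hc => if_neg fun hct => hc ((ht hct).1 : c ∈ T)) k hk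
      (if_neg fun hk' => (ht hk').2 rfl) i
  simpa [hi] using h2

/-- the functional -/
private noncomputable def phi (χ : (Fin s → L) →ₗ[L] L) : V2 L r m s →ₗ[L] L where
  toFun v := ∑ j : Fin (2 * m), (if Even j.val then v.1 j else 0) + v.2.1.2 + χ v.2.2
  map_add' v w := by
    have h : ∀ j : Fin (2 * m), (if Even j.val then (v + w).1 j else 0) =
        (if Even j.val then v.1 j else 0) + (if Even j.val then w.1 j else 0) := by
      intro j
      split_ifs
      · rfl
      · rw [add_zero]
    rw [Finset.sum_congr rfl fun j _ => h j, Finset.sum_add_distrib]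
    show _ + (v.2.1.2 + w.2.1.2) + χ (v.2.2 + w.2.2) = _
    rw [map_add]
    ring
  map_smul' c v := by
    have h : ∀ j : Fin (2 * m), (if Even j.val then (c • v).1 j else 0) =
        c * (if Even j.val then v.1 j else 0) := by
      intro j
      split_ifs
      · rfl
      · rw [mul_zero]
    rw [Finset.sum_congr rfl fun j _ => h j, ← Finset.mul_sum]
    show _ + c * v.2.1.2 + χ (c • v.2.2) = c * (_ + v.2.1.2 + χ v.2.2)
    rw [map_smul, smul_eq_mul]
    ring

omit [Algebra (ZMod 2) L] in
private theorem phi_apply (χ : (Fin s → L) →ₗ[L] L) (v : V2 L r m s) :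
    phi χ v = ∑ j : Fin (2 * m), (if Even j.val then v.1 j else 0) + v.2.1.2 + χ v.2.2 := rfl

omit [Algebra (ZMod 2) L] in
private theorem sum_dl (i : ℕ) (hi : i < 2 * m) :
    ∑ j : Fin (2 * m), (if Even j.val then (dl (i + 1) : Fin (2 * m) → L) j else 0) =
      if Even i then 1 else 0 := by
  rw [Finset.sum_eq_single (⟨i, hi⟩ : Fin (2 * m)) (by
    intro b _ hb
    have h1 : (dl (i + 1) : Fin (2 * m) → L) b = 0 := by
      unfold dl
      rw [if_neg]
      intro h
      exact hb (Fin.ext (by simpa using h))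
    rw [h1]
    split_ifs <;> rfl) (by simp)]
  have h1 : (dl (i + 1) : Fin (2 * m) → L) ⟨i, hi⟩ = 1 := by
    unfold dl
    rw [if_pos rfl]
  rw [h1]

omit [Algebra (ZMod 2) L] in
private theorem sum_dl_zero :
    ∑ j : Fin (2 * m), (if Even j.val then (dl 0 : Fin (2 * m) → L) j else 0) = 0 := by
  refine Finset.sum_eq_zero fun j _ => ?_
  have h1 : (dl 0 : Fin (2 * m) → L) j = 0 := by
    unfold dl
    rw [if_neg (by omega)]
  rw [h1]
  split_ifs <;> rfl

private theorem phi_c (hm : (m : L) = 0) (gam : Fin g → ZZ L s) (χ : (Fin s → L) →ₗ[L] L)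
    (c : Fin g) :
    phi χ (f2 gam (Sum.inr c : G2 r m g) : V2 L r m s) = (gam c).2.1 + χ (gam c).2.2 := by
  rw [phi_apply]
  show ∑ j : Fin (2 * m), (if Even j.val then (gam c).1 else 0) + (gam c).2.1 +
    χ (gam c).2.2 = _
  rw [par_sum_fin, hm, zero_mul, zero_add]

private theorem phi_KT (hm : (m : L) = 0) (gam : Fin g → ZZ L s) (T : Set (Fin g))
    (χ : (Fin s → L) →ₗ[L] L) (hχ : ∀ c, (gam c).2.1 + χ (gam c).2.2 = 0 ↔ c ∈ T)
    (k : Fin (2 * m) ⊕ (Fin r ⊕ Fin g)) (hk : k ∈ ST r m T) :
    phi χ (f2 gam (kk k) : V2 L r m s) = 0 := by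
  rcases k with j | i | c
  · rw [f_e, phi_apply]
    show ∑ i : Fin (2 * m), (if Even i.val then (dl (j.val + 1) : Fin (2 * m) → L) i else 0) +
      (wk j.val : WW L r).2 + χ 0 = 0
    rw [sum_dl j.val j.isLt, map_zero, add_zero]
    unfold wk
    split_ifs
    · show (1 : L) + 1 = 0
      rw [one_add_one_eq_two, two_zero]
    · show (0 : L) + 0 = 0
      ring
  · rw [f_b, phi_apply]
    show ∑ j : Fin (2 * m), (if Even j.val then (0 : L) else 0) + 0 + χ 0 = 0
    simp
  · have h1 := phi_c (r := r) hm gam χ c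
    show phi χ (f2 gam (Sum.inr c : G2 r m g) : V2 L r m s) = 0
    rw [h1]
    exact (hχ c).2 hk

end Cfg2

theorem ch2 (hm : (m : L) = 0) (gam : Fin g → ZZ L s) (T : Set (Fin g)) (hT : GoodT gam T) :
    CH L (f2 gam : G2 r m g → V2 L r m s) (KT T) := by
  classical
  obtain ⟨χ, hχ⟩ := hT.hyp
  refine ⟨Cfg2.card_KT T hT.card, fun e he => Cfg2.ind_KT hm gam T hT e he, fun z hz hs => ?_⟩
  have h0 : Cfg2.phi χ (f2 gam z : V2 L r m s) = 0 := by
    have h1 : Submodule.span L ((f2 gam : G2 r m g → V2 L r m s) '' KT T) ≤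
        LinearMap.ker (Cfg2.phi χ) := by
      rw [Submodule.span_le]
      rintro _ ⟨k, hk, rfl⟩
      rw [← Cfg2.image_kk] at hk
      obtain ⟨k, hk, rfl⟩ := hk
      exact LinearMap.mem_ker.2 (Cfg2.phi_KT hm gam T χ hχ k hk)
    exact LinearMap.mem_ker.1 (h1 hs)
  rcases z with ((i | j) | (i | h)) | c
  · rw [Cfg2.phi_apply] at h0
    have h1 : ∀ j : Fin (2 * m), (if Even j.val then
        (f2 gam (Sum.inl (Sum.inl (Sum.inl i)) : G2 r m g) : V2 L r m s).1 j else 0) =
        (if Even j.val then (dl (i.val + 1) : Fin (2 * m) → L) j else 0) +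
        (if Even j.val then (dl i.val : Fin (2 * m) → L) j else 0) := by
      intro j
      split_ifs
      · rfl
      · rw [add_zero]
    rw [Finset.sum_congr rfl fun j _ => h1 j, Finset.sum_add_distrib,
      Cfg2.sum_dl _ i.isLt] at h0
    have h2 : (f2 gam (Sum.inl (Sum.inl (Sum.inl i)) : G2 r m g) : V2 L r m s).2.1.2 = 0 := rfl
    have h2' : (f2 gam (Sum.inl (Sum.inl (Sum.inl i)) : G2 r m g) : V2 L r m s).2.2 = 0 := rfl
    rw [h2, h2', map_zero, add_zero, add_zero] at h0
    rcases Nat.eq_zero_or_pos i.val with h3 | h3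
    · rw [h3, Cfg2.sum_dl_zero, if_pos (by simp), add_zero] at h0
      exact one_ne_zero h0
    · obtain ⟨k, hk⟩ : ∃ k, i.val = k + 1 := ⟨i.val - 1, by omega⟩
      rw [hk, Cfg2.sum_dl k (by omega)] at h0
      by_cases h4 : Even k
      · rw [if_neg (by rw [Nat.even_add_one]; exact not_not.2 h4), if_pos h4, zero_add] at h0
        exact one_ne_zero h0
      · rw [if_pos (by rw [Nat.even_add_one]; exact h4), if_neg h4, add_zero] at h0
        exact one_ne_zero h0
  · exact hz trivial
  · exact hz trivial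
  · rw [Cfg2.phi_apply] at h0
    have h1 : ∑ j : Fin (2 * m), (if Even j.val then
        (f2 gam (Sum.inl (Sum.inr (Sum.inr h)) : G2 r m g) : V2 L r m s).1 j else 0) = 0 := by
      show ∑ j : Fin (2 * m), (if Even j.val then
        (if h ∈ SS2 then dl (2 * m) else 0 : Fin (2 * m) → L) j else 0) = 0
      by_cases hS : h ∈ (SS2 : Set (Fin r → ZMod 2))
      · rw [if_pos hS]
        rcases Nat.eq_zero_or_pos m with h3 | h3
        · subst h3
          simp
        · obtain ⟨k, hk⟩ : ∃ k, 2 * m = k + 1 := ⟨2 * m - 1, by omega⟩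
          have h4 : ¬ Even k := by
            intro h5
            have h6 : Even (2 * m) := even_two_mul m
            rw [hk, Nat.even_add_one] at h6
            exact h6 h5
          have h5 := Cfg2.sum_dl (L := L) (m := m) k (by omega)
          rw [if_neg h4, ← hk] at h5
          exact h5
      · rw [if_neg hS]
        simp
    have h2 : (f2 gam (Sum.inl (Sum.inr (Sum.inr h)) : G2 r m g) : V2 L r m s).2.1.2 = 1 := rfl
    have h2' : (f2 gam (Sum.inl (Sum.inr (Sum.inr h)) : G2 r m g) : V2 L r m s).2.2 = 0 := rfl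
    rw [h1, h2, h2', map_zero, zero_add, add_zero] at h0
    exact one_ne_zero h0
  · rw [Cfg2.phi_c hm] at h0
    exact hz ((hχ c).1 h0)

theorem base2 (gam : Fin g → ZZ L s) (T : Set (Fin g)) (hT : GoodT gam T) :
    ∃ B : Set (NB r ⊕ Fin g),
      LinearIndepOn L (vecN2 gam : NB r ⊕ Fin g → (WW L r) × (Fin s → L)) B ∧
      B.ncard = r + 1 + s := by
  obtain ⟨B, -, -, hB, hspan⟩ := lin_extend (F := L)
    (vecN2 gam : NB r ⊕ Fin g → (WW L r) × (Fin s → L)) (Set.empty_subset Set.univ)
    (linearIndepOn_empty L _)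
  obtain ⟨hBf, -⟩ := lin_ncard_le (vecN2 gam : NB r ⊕ Fin g → (WW L r) × (Fin s → L)) hB
  refine ⟨B, hB, ?_⟩
  rw [← lin_finrank_span _ hB hBf]
  have htop : Submodule.span L
      ((vecN2 gam : NB r ⊕ Fin g → (WW L r) × (Fin s → L)) '' B) = ⊤ := by
    by_contra hne
    obtain ⟨θ, hθ0, hθ⟩ := lin_dual _ hne
    have hθv : ∀ z, θ (vecN2 gam z) = 0 := fun z => hθ _ (hspan ⟨z, trivial, rfl⟩)
    obtain ⟨χ, hχ⟩ := hT.hyp
    have hb : ∀ i : Fin r, θ (((Pi.single i 1 : Fin r → L), (0 : L)), (0 : Fin s → L)) = 0 :=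
      fun i => hθv (.inl (.inl i))
    have ha : θ (((0 : Fin r → L), (1 : L)), (0 : Fin s → L)) = 0 := by
      have h1 := hθv (.inl (.inr 0))
      have h2 : (vecN2 gam (.inl (.inr 0)) : (WW L r) × (Fin s → L)) =
          (((0 : Fin r → L), (1 : L)), (0 : Fin s → L)) := by
        show ((cst 0, 1), 0) = _
        have h3 : (cst (0 : Fin r → ZMod 2) : Fin r → L) = 0 := by
          funext i
          exact map_zero _
        rw [h3]
      rwa [h2] at h1
    have hw : ∀ w : WW L r, θ (w, (0 : Fin s → L)) = 0 := by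
      rintro ⟨x, t⟩
      have h1 : (((x, t) : WW L r), (0 : Fin s → L)) =
          (∑ i : Fin r, x i • (((Pi.single i 1 : Fin r → L), (0 : L)), (0 : Fin s → L))) +
          t • (((0 : Fin r → L), (1 : L)), (0 : Fin s → L)) := by
        refine Prod.ext (Prod.ext ?_ ?_) ?_
        · funext j
          simp [Prod.fst_sum, Finset.sum_apply, Pi.single_apply]
        · simp [Prod.snd_sum, Prod.fst_sum]
        · simp [Prod.snd_sum]
      rw [h1, map_add, map_sum, map_smul, ha, smul_zero, add_zero]
      refine Finset.sum_eq_zero fun i _ => ?_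
      rw [map_smul, hb, smul_zero]
    have hsplit : ∀ (w : WW L r) (y : Fin s → L), θ (w, y) = θ (0, y) := by
      intro w y
      have h1 : (w, y) = (w, (0 : Fin s → L)) + ((0 : WW L r), y) := by simp
      rw [h1, map_add, hw, zero_add]
    have hyc : ∀ c, θ (0, (gam c).2.2) = 0 := by
      intro c
      rw [← hsplit (fun _ => (gam c).1, (gam c).2.1) (gam c).2.2]
      exact hθv (.inr c)
    obtain ⟨y₀, hy₀⟩ : ∃ y, θ (0, y) ≠ 0 := by
      by_contra hcon
      push Not at hcon
      apply hθ0
      refine LinearMap.ext ?_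
      rintro ⟨w, y⟩
      rw [hsplit, hcon]
      rfl
    let Φ : ZZ L s →ₗ[L] L × L :=
      { toFun := fun v => (v.2.1 + χ v.2.2, θ (0, v.2.2))
        map_add' := fun v w => by
          refine Prod.ext ?_ ?_
          · show v.2.1 + w.2.1 + χ (v.2.2 + w.2.2) = v.2.1 + χ v.2.2 + (w.2.1 + χ w.2.2)
            rw [map_add]
            ring
          · show θ (0, v.2.2 + w.2.2) = θ (0, v.2.2) + θ (0, w.2.2)
            rw [← map_add]
            congr 1
            simp
        map_smul' := fun c v => by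
          refine Prod.ext ?_ ?_
          · show c * v.2.1 + χ (c • v.2.2) = c * (v.2.1 + χ v.2.2)
            rw [map_smul, smul_eq_mul]
            ring
          · show θ (0, c • v.2.2) = c * θ (0, v.2.2)
            rw [← smul_eq_mul, ← map_smul]
            congr 1
            simp }
    have hΦs : Function.Surjective Φ := by
      rintro ⟨a, b⟩
      refine ⟨(0, a - χ ((b / θ (0, y₀)) • y₀), (b / θ (0, y₀)) • y₀), ?_⟩
      refine Prod.ext ?_ ?_
      · show a - χ ((b / θ (0, y₀)) • y₀) + χ ((b / θ (0, y₀)) • y₀) = a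
        ring
      · show θ (0, (b / θ (0, y₀)) • y₀) = b
        have h1 : ((0 : WW L r), (b / θ (0, y₀)) • y₀) = (b / θ (0, y₀)) • ((0 : WW L r), y₀) := by
          simp
        rw [h1, map_smul, smul_eq_mul, div_mul_cancel₀ _ hy₀]
    have hdim := LinearMap.finrank_range_add_finrank_ker Φ
    rw [LinearMap.range_eq_top.2 hΦs, finrank_top, Module.finrank_prod, Module.finrank_prod,
      Module.finrank_prod, Module.finrank_self, Module.finrank_fin_fun] at hdim
    have hTf : T.Finite := Set.toFinite T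
    have h1 := lin_finrank_span gam hT.ind hTf
    have h2 : Submodule.span L (gam '' T) ≤ LinearMap.ker Φ := by
      rw [Submodule.span_le]
      rintro _ ⟨c, hc, rfl⟩
      rw [SetLike.mem_coe, LinearMap.mem_ker]
      refine Prod.ext ?_ ?_
      · exact (hχ c).2 hc
      · exact hyc c
    have h3 := Submodule.finrank_mono h2
    rw [h1, hT.card] at h3
    omega
  rw [htop, finrank_top, Module.finrank_prod, Module.finrank_prod, Module.finrank_fin_fun,
    Module.finrank_fin_fun, Module.finrank_self]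

end Pool.Agent.MP8f11b1
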