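import Pool.Agent.Lib.MP_8f11b1_co_DU.Defs
import Pool.Agent.Lib.MP_8f11b1_co_RX.Lin

set_option autoImplicit false

namespace Pool.Agent.MP8f11b1

variable {L Q : Type} [Field L] [Algebra (ZMod 2) L] [AddCommGroup Q] [Module L Q] {r : ℕ}

private theorem c2_two (x : L) : x + x = 0 := by
  have : CharP L 2 := charP_of_injective_algebraMap (algebraMap (ZMod 2) L).injective 2
  exact CharTwo.add_self_eq_zero x

private theorem c2_add (h h' : Fin r → ZMod 2) : (cst (h + h') : Fin r → L) = cst h + cst h' := by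
  funext i
  exact map_add _ _ _

private theorem c2_single (i : Fin r) :
    (cst (Pi.single i 1 : Fin r → ZMod 2) : Fin r → L) = Pi.single i 1 := by
  funext j
  unfold cst
  by_cases h : j = i
  · subst h
    rw [Pi.single_eq_same, Pi.single_eq_same, map_one]
  · rw [Pi.single_eq_of_ne h, Pi.single_eq_of_ne h, map_zero]

private theorem c2_inj {h h' : Fin r → ZMod 2} (e : (cst h : Fin r → L) = cst h') : h = h' := by
  funext i
  exact (algebraMap (ZMod 2) L).injective (congrFun e i)

omit [Algebra (ZMod 2) L] in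
private theorem c2_dep {α V : Type} [AddCommGroup V] [Module L V] {f : α → V} {S T : Set α} {z : α}
    (hz : z ∉ S) (hs : f z ∈ Submodule.span L (f '' S)) (hT : insert z S ⊆ T) :
    ¬ LinearIndepOn L f T :=
  fun h => ((linearIndepOn_insert hz).1 (h.mono hT)).2 hs

private theorem c2_span : Submodule.span L (Set.range (vecB : NB r → WW L r)) = ⊤ := by
  rw [eq_top_iff]
  rintro ⟨h, t⟩ -
  have h0 : ((0 : Fin r → L), (1 : L)) ∈ Submodule.span L (Set.range (vecB : NB r → WW L r)) := by
    refine Submodule.subset_span ⟨.inr 0, ?_⟩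
    change ((cst (0 : Fin r → ZMod 2) : Fin r → L), (1 : L)) = (0, 1)
    congr 1
    funext i
    exact map_zero _
  have h1 : ∀ i, ((Pi.single i 1 : Fin r → L), (0 : L)) ∈
      Submodule.span L (Set.range (vecB : NB r → WW L r)) := fun i =>
    Submodule.subset_span ⟨.inl i, rfl⟩
  have h2 : ((h, t) : WW L r) = (∑ i, h i • ((Pi.single i 1 : Fin r → L), (0 : L))) +
      t • ((0 : Fin r → L), (1 : L)) := by
    refine Prod.ext ?_ ?_
    · rw [Prod.fst_add, Prod.fst_sum]
      funext j
      simp [Pi.single_apply, Finset.sum_apply]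
    · rw [Prod.snd_add, Prod.snd_sum]
      simp
  rw [h2]
  exact Submodule.add_mem _ (Submodule.sum_mem _ fun i _ => Submodule.smul_mem _ _ (h1 i))
    (Submodule.smul_mem _ _ h0)

omit [Algebra (ZMod 2) L] in
private theorem c2_rank : Module.finrank L (WW L r) = r + 1 := by
  rw [Module.finrank_prod, Module.finrank_fin_fun, Module.finrank_self]

private theorem c2_inr_le (S : Set (Fin r → ZMod 2)) (T : Set (NB r))
    (h : ∀ x ∈ S, (Sum.inr x : NB r) ∈ T) : S.ncard ≤ T.ncard := by
  rw [← Set.ncard_image_of_injective S (Sum.inr_injective : Function.Injective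
    (Sum.inr : (Fin r → ZMod 2) → NB r))]
  apply Set.ncard_le_ncard _ (Set.toFinite T)
  rintro _ ⟨x, hx, rfl⟩
  exact h x hx

private theorem c2_count (θ : WW L r →ₗ[L] L) (hθ : θ ≠ 0) :
    2 ^ (r - 1) ≤ {z : NB r | θ (vecB z) ≠ 0}.ncard := by
  have hcard : (Set.univ : Set (Fin r → ZMod 2)).ncard = 2 ^ r := by
    rw [Set.ncard_univ, Nat.card_eq_fintype_card, Fintype.card_fun, Fintype.card_fin]
    simp [ZMod.card]
  by_cases h0 : ∀ i, θ (vecB (.inl i : NB r)) = 0
  · have h1 : ∀ h : Fin r → L, θ (h, 0) = 0 := by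
      intro h
      have h2 : ((h, 0) : WW L r) = ∑ i, h i • ((Pi.single i 1 : Fin r → L), (0 : L)) := by
        refine Prod.ext ?_ ?_
        · rw [Prod.fst_sum]
          funext j
          simp [Pi.single_apply, Finset.sum_apply]
        · rw [Prod.snd_sum]
          simp
      rw [h2, map_sum]
      refine Finset.sum_eq_zero fun i _ => ?_
      rw [map_smul, show θ ((Pi.single i 1 : Fin r → L), (0 : L)) = 0 from h0 i, smul_zero]
    have h2 : ∀ h : Fin r → L, θ (h, 1) = θ (0, 1) := by
      intro h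
      have h3 : ((h, 1) : WW L r) = (h, 0) + (0, 1) := by
        rw [Prod.mk_add_mk, add_zero, zero_add]
      rw [h3, map_add, h1, zero_add]
    have h3 : θ (0, 1) ≠ 0 := by
      intro hc
      apply hθ
      refine LinearMap.ext fun p => ?_
      obtain ⟨h, t⟩ := p
      have h4 : ((h, t) : WW L r) = (h, 0) + t • ((0 : Fin r → L), (1 : L)) := by
        refine Prod.ext ?_ ?_ <;> simp
      rw [h4, map_add, map_smul, h1, hc, smul_zero, add_zero]
      rfl
    calc 2 ^ (r - 1) ≤ 2 ^ r := Nat.pow_le_pow_right (by norm_num) (by omega)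
      _ = (Set.univ : Set (Fin r → ZMod 2)).ncard := hcard.symm
      _ ≤ _ := c2_inr_le _ _ fun x _ => by
        change θ (cst x, 1) ≠ 0
        rw [h2]
        exact h3
  · push Not at h0
    obtain ⟨i, hi⟩ := h0
    have hr : 1 ≤ r := by
      have := i.2
      omega
    set A0 : Set (Fin r → ZMod 2) := {h | θ (cst h, 1) = 0} with hA0
    set A1 : Set (Fin r → ZMod 2) := {h | θ (cst h, 1) ≠ 0} with hA1
    have hle : A0.ncard ≤ A1.ncard := by
      rw [← Set.ncard_image_of_injective A0
        (add_left_injective (Pi.single i 1 : Fin r → ZMod 2))]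
      apply Set.ncard_le_ncard _ (Set.toFinite _)
      rintro _ ⟨x, hx, rfl⟩
      change θ (cst (x + Pi.single i 1), 1) ≠ 0
      have h3 : (((cst (x + Pi.single i 1) : Fin r → L), (1 : L)) : WW L r) =
          ((cst x : Fin r → L), (1 : L)) + ((Pi.single i 1 : Fin r → L), (0 : L)) := by
        rw [c2_add, c2_single, Prod.mk_add_mk, add_zero]
      rw [h3, map_add, show θ ((cst x : Fin r → L), (1 : L)) = 0 from hx, zero_add]
      exact hi
    have hun : A0 ∪ A1 = Set.univ := by
      ext x
      exact ⟨fun _ => trivial, fun _ => em _⟩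
    have hle2 := Set.ncard_union_le A0 A1
    rw [hun, hcard] at hle2
    have h4 : 2 ^ r = 2 * 2 ^ (r - 1) := by
      rw [← pow_succ']
      congr 1
      omega
    have h5 : 2 ^ (r - 1) ≤ A1.ncard := by omega
    exact h5.trans (c2_inr_le _ _ fun x hx => hx)

theorem cnt2 (hr : 1 ≤ r) (g : NB r → Q)
    (hg : ∀ B : Set (NB r), LinearIndepOn L (vecB : NB r → WW L r) B ↔ LinearIndepOn L g B)
    (θ : Q →ₗ[L] L) (z₀ : NB r) (hz : θ (g z₀) ≠ 0) :
    2 ^ (r - 1) ≤ {z : NB r | θ (g z) ≠ 0}.ncard := by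
  have _ := hr
  set H : Set (NB r) := {z | θ (g z) = 0} with hH
  by_cases hs : Submodule.span L ((vecB : NB r → WW L r) '' H) = ⊤
  · exfalso
    obtain ⟨B, -, hBH, hB, hsp⟩ := lin_extend (F := L) (vecB : NB r → WW L r)
      (Set.empty_subset H) (linearIndepOn_empty L _)
    have htop : Submodule.span L ((vecB : NB r → WW L r) '' B) = ⊤ := by
      rw [eq_top_iff, ← hs, Submodule.span_le]
      exact hsp
    have hz0 : z₀ ∉ B := fun h => hz (hBH h)
    have h1 : ¬ LinearIndepOn L (vecB : NB r → WW L r) (insert z₀ B) := fun h =>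
      ((linearIndepOn_insert hz0).1 h).2 (htop ▸ Submodule.mem_top)
    rw [hg] at h1
    have h2 : g z₀ ∈ Submodule.span L (g '' B) := by
      by_contra h3
      exact h1 ((linearIndepOn_insert hz0).2 ⟨(hg B).1 hB, h3⟩)
    have h3 : Submodule.span L (g '' B) ≤ LinearMap.ker θ := by
      rw [Submodule.span_le]
      rintro _ ⟨b, hb, rfl⟩
      exact hBH hb
    exact hz (h3 h2)
  · obtain ⟨θ', hθ', hv⟩ := lin_dual _ hs
    refine (c2_count θ' hθ').trans (Set.ncard_le_ncard ?_ (Set.toFinite _))
    intro z hz1 hz2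
    exact hz1 (hv _ (Submodule.subset_span ⟨z, hz2, rfl⟩))

theorem exch2 (hr : 3 ≤ r) (B : Set (NB r)) (hB : LinearIndepOn L (vecB : NB r → WW L r) B)
    (hc : B.ncard = r + 1) :
    ∃ b ∈ B, ∃ z ∉ B, ¬ LinearIndepOn L (vecB : NB r → WW L r) (insert z (B \ {b})) := by
  classical
  obtain ⟨h, hh⟩ : ∃ h : Fin r → ZMod 2, (Sum.inr h : NB r) ∈ B := by
    by_contra hcon
    push Not at hcon
    have h1 : B ⊆ Set.range (Sum.inl : Fin r → NB r) := by
      rintro (i | h) hx
      · exact ⟨i, rfl⟩
      · exact absurd hx (hcon h)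
    have h2 := Set.ncard_le_ncard h1 (Set.toFinite _)
    rw [← Set.image_univ, Set.ncard_image_of_injective _ Sum.inl_injective, Set.ncard_univ,
      Nat.card_eq_fintype_card, Fintype.card_fin] at h2
    omega
  have hv : ∀ (S : Set (NB r)) (x : NB r), x ∈ S →
      (vecB x : WW L r) ∈ Submodule.span L ((vecB : NB r → WW L r) '' S) := fun S x hx =>
    Submodule.subset_span ⟨x, hx, rfl⟩
  by_cases hb : ∃ i : Fin r, (Sum.inl i : NB r) ∈ B
  · obtain ⟨i, hi⟩ := hb
    set z : NB r := Sum.inr (h + Pi.single i 1) with hz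
    set S : Set (NB r) := {Sum.inr h, Sum.inl i} with hS
    have hzS : z ∉ S := by
      rintro (h1 | h1)
      · have h2 : h + Pi.single i 1 = h := Sum.inr_injective h1
        have h3 := congrFun h2 i
        rw [Pi.add_apply, Pi.single_eq_same] at h3
        exact one_ne_zero (add_eq_left.1 h3)
      · exact Sum.inr_ne_inl h1
    have hzs : (vecB z : WW L r) ∈ Submodule.span L ((vecB : NB r → WW L r) '' S) := by
      have h1 : (vecB z : WW L r) = vecB (Sum.inr h : NB r) + vecB (Sum.inl i : NB r) := by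
        change (((cst (h + Pi.single i 1) : Fin r → L), (1 : L)) : WW L r) =
          ((cst h : Fin r → L), (1 : L)) + ((Pi.single i 1 : Fin r → L), (0 : L))
        rw [c2_add, c2_single, Prod.mk_add_mk, add_zero]
      rw [h1]
      exact Submodule.add_mem _ (hv S _ (Or.inl rfl)) (hv S _ (Or.inr rfl))
    have hSB : S ⊆ B := by
      rintro x (rfl | rfl)
      · exact hh
      · exact hi
    have hScard : S.ncard ≤ 2 := by
      refine (Set.ncard_insert_le _ _).trans ?_
      rw [Set.ncard_singleton]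
    obtain ⟨b, hbB, hbS⟩ := Set.exists_mem_notMem_of_ncard_lt_ncard
      (show S.ncard < B.ncard by omega) (Set.toFinite _)
    refine ⟨b, hbB, z, fun hzB => c2_dep hzS hzs (Set.insert_subset hzB hSB) hB,
      c2_dep hzS hzs (Set.insert_subset_insert fun x hx => ⟨hSB hx, fun hxb => hbS ?_⟩)⟩
    rw [← Set.mem_singleton_iff.1 hxb]
    exact hx
  · push Not at hb
    have hall : ∀ x ∈ B, ∃ h : Fin r → ZMod 2, x = Sum.inr h := by
      rintro (i | h) hx
      · exact absurd hx (hb i)
      · exact ⟨h, rfl⟩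
    have hc1 : ({Sum.inr h} : Set (NB r)).ncard < B.ncard := by
      rw [Set.ncard_singleton]
      omega
    obtain ⟨x2, hx2, hn2⟩ := Set.exists_mem_notMem_of_ncard_lt_ncard hc1 (Set.toFinite _)
    obtain ⟨h2, rfl⟩ := hall x2 hx2
    have hc2 : ({Sum.inr h2, Sum.inr h} : Set (NB r)).ncard < B.ncard := by
      have := Set.ncard_insert_le (Sum.inr h2 : NB r) {Sum.inr h}
      rw [Set.ncard_singleton] at this
      omega
    obtain ⟨x3, hx3, hn3⟩ := Set.exists_mem_notMem_of_ncard_lt_ncard hc2 (Set.toFinite _)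
    obtain ⟨h3, rfl⟩ := hall x3 hx3
    set S : Set (NB r) := {Sum.inr h3, Sum.inr h2, Sum.inr h} with hS
    have hScard : S.ncard ≤ 3 := by
      have e1 := Set.ncard_insert_le (Sum.inr h2 : NB r) {Sum.inr h}
      have e2 : S.ncard ≤ _ := Set.ncard_insert_le (Sum.inr h3 : NB r) {Sum.inr h2, Sum.inr h}
      rw [Set.ncard_singleton] at e1
      omega
    obtain ⟨b, hbB, hbS⟩ := Set.exists_mem_notMem_of_ncard_lt_ncard
      (show S.ncard < B.ncard by omega) (Set.toFinite _)
    have hSB : S ⊆ B := by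
      rintro x (rfl | rfl | rfl)
      · exact hx3
      · exact hx2
      · exact hh
    have n21 : h2 ≠ h := fun e => hn2 (by rw [e]; rfl)
    have n31 : h3 ≠ h := fun e => hn3 (Or.inr (by rw [e]; rfl))
    have n32 : h3 ≠ h2 := fun e => hn3 (Or.inl (by rw [e]))
    have hself : ∀ x : Fin r → ZMod 2, x + x = 0 := fun x => by
      funext j
      exact CharTwo.add_self_eq_zero _
    have hcan : ∀ x y : Fin r → ZMod 2, x + y = 0 → x = y := fun x y e => by
      have : x + y + y = y := by rw [e, zero_add]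
      rw [add_assoc, hself, add_zero] at this
      exact this
    set z : NB r := Sum.inr (h + h2 + h3) with hz
    have hzS : z ∉ S := by
      rintro (e | e | e)
      · have e1 : h + h2 + h3 = h3 := Sum.inr_injective e
        exact n21 (hcan _ _ (add_eq_right.1 e1)).symm
      · have e1 : h + h2 + h3 = h2 := Sum.inr_injective e
        have e2 : h + h3 + h2 = h2 := (add_right_comm h h3 h2).trans e1
        exact n31 (hcan _ _ (add_eq_right.1 e2)).symm
      · have e1 : h + h2 + h3 = h := Sum.inr_injective e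
        rw [add_assoc] at e1
        exact n32 (hcan _ _ (add_eq_left.1 e1)).symm
    have hzs : (vecB z : WW L r) ∈ Submodule.span L ((vecB : NB r → WW L r) '' S) := by
      have h1 : (vecB z : WW L r) = vecB (Sum.inr h : NB r) + vecB (Sum.inr h2 : NB r) +
          vecB (Sum.inr h3 : NB r) := by
        change (((cst (h + h2 + h3) : Fin r → L), (1 : L)) : WW L r) =
          ((cst h : Fin r → L), (1 : L)) + ((cst h2 : Fin r → L), (1 : L)) +
            ((cst h3 : Fin r → L), (1 : L))
        rw [c2_add, c2_add, Prod.mk_add_mk, Prod.mk_add_mk, c2_two, zero_add]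
      rw [h1]
      exact Submodule.add_mem _ (Submodule.add_mem _ (hv S _ (Or.inr (Or.inr rfl)))
        (hv S _ (Or.inr (Or.inl rfl)))) (hv S _ (Or.inl rfl))
    refine ⟨b, hbB, z, fun hzB => c2_dep hzS hzs (Set.insert_subset hzB hSB) hB,
      c2_dep hzS hzs (Set.insert_subset_insert fun x hx => ⟨hSB hx, fun hxb => hbS ?_⟩)⟩
    rw [← Set.mem_singleton_iff.1 hxb]
    exact hx

theorem vecB_simple (hr : 2 ≤ r) {z z' : NB r} (h : z ≠ z') :
    LinearIndepOn L (vecB : NB r → WW L r) {z, z'} := by
  have _ := hr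
  have hne : ∀ z : NB r, (vecB z : WW L r) ≠ 0 := by
    rintro (i | x) h0
    · have h1 := congrFun (congrArg Prod.fst h0) i
      change (Pi.single i 1 : Fin r → L) i = 0 at h1
      rw [Pi.single_eq_same] at h1
      exact one_ne_zero h1
    · exact one_ne_zero (congrArg Prod.snd h0 : (1 : L) = 0)
  rw [linearIndepOn_insert (show z ∉ ({z'} : Set (NB r)) from h)]
  refine ⟨(linearIndepOn_singleton_iff L).2 (hne z'), ?_⟩
  rw [Set.image_singleton, Submodule.mem_span_singleton]
  rintro ⟨c, hc⟩
  rcases z with i | x <;> rcases z' with j | y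
  · have h1 := congrFun (congrArg Prod.fst hc) i
    change c * (Pi.single j 1 : Fin r → L) i = (Pi.single i 1 : Fin r → L) i at h1
    have hij : i ≠ j := fun e => h (by rw [e])
    rw [Pi.single_eq_same, Pi.single_eq_of_ne hij, mul_zero] at h1
    exact zero_ne_one h1
  · have h0 : c * 1 = (0 : L) := congrArg Prod.snd hc
    have h1 := congrFun (congrArg Prod.fst hc) i
    change c * (cst y : Fin r → L) i = (Pi.single i 1 : Fin r → L) i at h1
    rw [mul_one] at h0
    rw [h0, zero_mul, Pi.single_eq_same] at h1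
    exact zero_ne_one h1
  · have h0 : c * 0 = (1 : L) := congrArg Prod.snd hc
    rw [mul_zero] at h0
    exact zero_ne_one h0
  · have h0 : c * 1 = (1 : L) := congrArg Prod.snd hc
    have h1 : c • (cst y : Fin r → L) = cst x := congrArg Prod.fst hc
    rw [mul_one] at h0
    rw [h0, one_smul] at h1
    exact h (by rw [c2_inj h1])

theorem vecB_base {B : Set (NB r)} (hB : LinearIndepOn L (vecB : NB r → WW L r) B) :
    ∃ B', B ⊆ B' ∧ LinearIndepOn L (vecB : NB r → WW L r) B' ∧ B'.ncard = r + 1 := by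
  obtain ⟨B', h1, -, h2, h3⟩ := lin_extend (F := L) (vecB : NB r → WW L r)
    (Set.subset_univ B) hB
  refine ⟨B', h1, h2, ?_⟩
  have htop : Submodule.span L ((vecB : NB r → WW L r) '' B') = ⊤ := by
    rw [eq_top_iff, ← c2_span, Submodule.span_le, ← Set.image_univ]
    exact h3
  rw [← lin_finrank_span (F := L) (vecB : NB r → WW L r) h2 (Set.toFinite _), htop, finrank_top,
    c2_rank]

end Pool.Agent.MP8f11b1
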