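import Pool.Agent.Lib.MP_8f11b1_co_DU.Rat2
import Pool.Agent.Lib.MP_8f11b1_co_DU.Cnt2

set_option autoImplicit false

namespace Pool.Agent.MP8f11b1

variable {L : Type} [Field L] [Algebra (ZMod 2) L] {r : ℕ}

private theorem cov2_step (E : Set (Fin r → ZMod 2)) (hE : 2 * E.ncard + 8 < 2 ^ r)
    (h s : Fin r → ZMod 2) {n : ℕ} (hn : n ≤ 3) (w : Fin n → (Fin r → ZMod 2))
    (hw : LinearIndependent (ZMod 2) w) :
    ∃ x, LinearIndependent (ZMod 2) (Fin.cons x w : Fin (n + 1) → (Fin r → ZMod 2)) ∧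
      h + x ∉ E ∧ h + x + s ∉ E := by
  set S : Set (Fin r → ZMod 2) :=
    ((Submodule.span (ZMod 2) (Set.range w) : Submodule (ZMod 2) (Fin r → ZMod 2)) :
      Set (Fin r → ZMod 2)) with hS
  have hSc : S.ncard ≤ 8 := by
    have h1 : S = Set.range (Fintype.linearCombination (ZMod 2) w) := by
      rw [hS, ← Fintype.range_linearCombination]
      rfl
    rw [h1, ← Set.image_univ]
    refine (Set.ncard_image_le (Set.toFinite _)).trans ?_
    rw [Set.ncard_univ, Nat.card_eq_fintype_card, Fintype.card_fun, ZMod.card, Fintype.card_fin]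
    calc 2 ^ n ≤ 2 ^ 3 := Nat.pow_le_pow_right (by norm_num) hn
      _ = 8 := by norm_num
  have h2 : ((fun x => h + x) ⁻¹' E).ncard ≤ E.ncard := by
    refine Set.ncard_le_ncard_of_injOn (fun x => h + x) (fun x hx => hx) ?_ (Set.toFinite _)
    exact fun a _ b _ hab => add_left_cancel hab
  have h3 : ((fun x => h + x + s) ⁻¹' E).ncard ≤ E.ncard := by
    refine Set.ncard_le_ncard_of_injOn (fun x => h + x + s) (fun x hx => hx) ?_ (Set.toFinite _)
    exact fun a _ b _ hab => add_left_cancel (add_right_cancel hab)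
  have h4 : (S ∪ ((fun x => h + x) ⁻¹' E) ∪ ((fun x => h + x + s) ⁻¹' E)).ncard <
      (Set.univ : Set (Fin r → ZMod 2)).ncard := by
    refine ((Set.ncard_union_le _ _).trans
      (Nat.add_le_add_right (Set.ncard_union_le _ _) _)).trans_lt ?_
    rw [Set.ncard_univ, Nat.card_eq_fintype_card, Fintype.card_fun, ZMod.card, Fintype.card_fin]
    omega
  obtain ⟨x, -, hx⟩ := Set.exists_mem_notMem_of_ncard_lt_ncard h4 (Set.toFinite _)
  simp only [Set.mem_union, not_or] at hx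
  exact ⟨x, linearIndependent_finCons.2 ⟨hw, hx.1.1⟩, hx.1.2, hx.2⟩

/-- four good directions exist -/
theorem four_dirs (E : Set (Fin r → ZMod 2)) (hE : 2 * E.ncard + 8 < 2 ^ r)
    (h : Fin r → ZMod 2) :
    ∃ u v u' v' : Fin r → ZMod 2, LinearIndependent (ZMod 2) ![u, v, u', v'] ∧
      h + u ∉ E ∧ h + v ∉ E ∧ h + u + v ∉ E ∧ h + u' ∉ E ∧ h + v' ∉ E ∧ h + u' + v' ∉ E := by
  obtain ⟨v', i1, h1, -⟩ := cov2_step E hE h 0 (n := 0) (by omega) ![]
    (linearIndependent_empty_type)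
  obtain ⟨u', i2, h2, h2'⟩ := cov2_step E hE h v' (n := 1) (by omega) _ i1
  obtain ⟨v, i3, h3, -⟩ := cov2_step E hE h 0 (n := 2) (by omega) _ i2
  obtain ⟨u, i4, h4, h4'⟩ := cov2_step E hE h v (n := 3) (by omega) _ i3
  exact ⟨u, v, u', v', i4, h4, h3, h4', h2, h1, h2'⟩

theorem cover2 (hr : 2 ≤ r) (G' : NB r → WW L r)
    (hG : ∀ B : Set (NB r), LinearIndepOn L (vecB : NB r → WW L r) B ↔ LinearIndepOn L G' B)
    (E : Set (Fin r → ZMod 2)) (hE : 2 * E.ncard + 8 < 2 ^ r)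
    (hτ : ∀ h ∉ E, ∃ (t : Fin r → ZMod 2) (c : L), c ≠ 0 ∧ G' (Sum.inr h) = c • (cst t, 1)) :
    ∀ v : Fin r → ZMod 2, ∃ (h : Fin r → ZMod 2) (c : L), c ≠ 0 ∧
      G' (Sum.inr h) = c • (cst v, 1) := by
  have hall : ∀ h : Fin r → ZMod 2, ∃ (t : Fin r → ZMod 2) (c : L), c ≠ 0 ∧
      G' (Sum.inr h) = c • (cst t, 1) := by
    intro h
    obtain ⟨u, v, u', v', hi, h1, h2, h3, h1', h2', h3'⟩ := four_dirs E hE h
    obtain ⟨t1, e1⟩ := hτ _ h1
    obtain ⟨t2, e2⟩ := hτ _ h2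
    obtain ⟨t3, e3⟩ := hτ _ h3
    obtain ⟨t1', e1'⟩ := hτ _ h1'
    obtain ⟨t2', e2'⟩ := hτ _ h2'
    obtain ⟨t3', e3'⟩ := hτ _ h3'
    exact ⟨_, rat2 G' hG h u v u' v' hi t1 t2 t3 t1' t2' t3' e1 e2 e3 e1' e2' e3'⟩
  choose τ c hc hτc using hall
  have hinj : Function.Injective τ := by
    intro h h' he
    by_contra hne
    have hne' : (Sum.inr h : NB r) ≠ Sum.inr h' := fun h0 => hne (Sum.inr_injective h0)
    have h1 := (hG _).1 (vecB_simple (L := L) hr hne')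
    rw [LinearIndepOn.pair_iff G' hne'] at h1
    have h2 := h1 (c h') (-(c h)) (by
      rw [hτc, hτc, he, smul_smul, smul_smul, ← add_smul]
      rw [show c h' * c h + -c h * c h' = 0 by ring, zero_smul])
    exact hc h' h2.1
  intro v
  obtain ⟨h, rfl⟩ := Finite.surjective_of_injective hinj v
  exact ⟨h, c h, hc h, hτc h⟩

end Pool.Agent.MP8f11b1
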