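import Pool.Agent.Lib.MP_8f11b1_co_RX.Defs

/-! Definitions for the dichotomy for uniform matroids: uniform matroids, and the family of
vector configurations over a field of characteristic two used in the proof. -/

set_option autoImplicit false

namespace Pool.Agent.MP8f11b1

/-- `M` is a uniform matroid of rank `a` on `b` elements (`a ≤ b`). -/
def IsU (a b : ℕ) {α : Type} (M : Matroid α) : Prop :=
  M.E.Finite ∧ M.E.ncard = b ∧ ∀ I ⊆ M.E, M.Indep I ↔ I.ncard ≤ a

/-! ### Configurations -/

/-- The elements of the rich part of `N`: points at infinity `b_i` and affine points `a_h`. -/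
abbrev NB (r : ℕ) : Type := Fin r ⊕ (Fin r → ZMod 2)

/-- The elements of the large configuration: path elements `c_i`, `e_j`, the rich part, and
the elements of the small part. -/
abbrev G2 (r m g : ℕ) : Type := ((Fin (2 * m) ⊕ Fin (2 * m)) ⊕ NB r) ⊕ Fin g

/-- The space containing the large configuration. -/
abbrev V2 (L : Type) (r m s : ℕ) : Type := (Fin (2 * m) → L) × (WW L r) × (Fin s → L)

/-- The space containing the small part. -/
abbrev ZZ (L : Type) (s : ℕ) : Type := L × L × (Fin s → L)

section
variable {L : Type} [Field L] [Algebra (ZMod 2) L] {r m g s : ℕ}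

/-- A vector over the field with two elements, as a vector over `L`. -/
def cst {κ : Type} (h : κ → ZMod 2) : κ → L := fun i => algebraMap (ZMod 2) L (h i)

/-- The vectors of the rich part. -/
def vecB : NB r → WW L r
  | .inl i => (Pi.single i 1, 0)
  | .inr h => (cst h, 1)

/-- `(0, 1)` at even places, the first unit vector at odd places. -/
def wk (j : ℕ) : WW L r := if Even j then (fun _ => 0, 1) else w0

/-- The set of the unit vectors. -/
def SS2 : Set (Fin r → ZMod 2) := {h | ∃ i, h = Pi.single i 1}

open scoped Classical in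
/-- The vectors of the large configuration; `gam` gives the coordinates of the small part. -/
noncomputable def f2 (gam : Fin g → ZZ L s) : G2 r m g → V2 L r m s
  | .inl (.inl (.inl i)) => (dl (i.val + 1) + dl i.val, 0, 0)
  | .inl (.inl (.inr j)) => (dl (j.val + 1), wk j.val, 0)
  | .inl (.inr (.inl i)) => (0, (Pi.single i 1, 0), 0)
  | .inl (.inr (.inr h)) => (if h ∈ SS2 then dl (2 * m) else 0, (cst h, 1), 0)
  | .inr c => (fun _ => (gam c).1, (fun _ => (gam c).1, (gam c).2.1), (gam c).2.2)

/-- The set of the path elements. -/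
def PathS : Set (G2 r m g) := Set.range fun c => Sum.inl (Sum.inl c)

/-- The circuit-hyperplane belonging to a set `T` of elements of the small part: all `e_j`,
all `b_i` and the elements of `T`. -/
def KT (T : Set (Fin g)) : Set (G2 r m g) := fun z =>
  match z with
  | .inl (.inl (.inl _)) => False
  | .inl (.inl (.inr _)) => True
  | .inl (.inr (.inl _)) => True
  | .inl (.inr (.inr _)) => False
  | .inr c => c ∈ T

/-- The conditions on `T` that make `KT T` a circuit-hyperplane. -/
structure GoodT (gam : Fin g → ZZ L s) (T : Set (Fin g)) : Prop where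
  card : T.ncard = s + 1
  circ : ∃ α : Fin g → L, (∀ c, α c ≠ 0 ↔ c ∈ T) ∧ ∑ c, α c • gam c = (1, 0, 0)
  ind : LinearIndepOn L gam T
  hyp : ∃ χ : (Fin s → L) →ₗ[L] L, ∀ c, (gam c).2.1 + χ (gam c).2.2 = 0 ↔ c ∈ T

/-- The vectors of `N`. -/
def vecN2 (gam : Fin g → ZZ L s) : NB r ⊕ Fin g → (WW L r) × (Fin s → L)
  | .inl z => (vecB z, 0)
  | .inr c => ((fun _ => (gam c).1, (gam c).2.1), (gam c).2.2)

/-- The vectors `(1,0,0)`, `(0,1,0)` and the small part. -/
def zz (gam : Fin g → ZZ L s) : Bool ⊕ Fin g → ZZ L s
  | .inl true => (1, 0, 0)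
  | .inl false => (0, 1, 0)
  | .inr c => gam c

/-- Vectors over the field with two elements together with a small part attached along a line
spanned by `X` and `P`. -/
def fB {κ β : Type} (v : β → κ → ZMod 2) (X P : κ → ZMod 2) (gam : Fin g → ZZ L s) :
    β ⊕ Fin g → (κ → L) × (Fin s → L)
  | .inl z => (cst (v z), 0)
  | .inr c => ((gam c).1 • cst X + (gam c).2.1 • cst P, (gam c).2.2)

/-- An embedding `ι` of the rich part of `N` with contraction set `X`. -/
structure Emb2 (gam : Fin g → ZZ L s) (ι : NB r → G2 r m g) (X : Set (G2 r m g)) : Prop where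
  inj : Function.Injective ι
  disj : ∀ z, ι z ∉ X
  card : X.ncard = 2 * m
  iff : ∀ B : Set (NB r), LinearIndepOn L (vecB : NB r → WW L r) B ↔
    LinearIndepOn L (f2 gam) (ι '' B ∪ X)

/-- The subspace of the vectors without small coordinates. -/
def BB (L : Type) [Field L] (κ : Type) (s : ℕ) : Submodule L ((κ → L) × (Fin s → L)) :=
  LinearMap.ker (LinearMap.snd L (κ → L) (Fin s → L))

/-- The plane spanned by `X` and `P`. -/
def LL {κ : Type} (s : ℕ) (X P : κ → ZMod 2) : Submodule L ((κ → L) × (Fin s → L)) :=
  Submodule.span L {(cst X, 0), (cst P, 0)}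

/-- The span of the contracted elements. -/
def SC {κ β : Type} (v : β → κ → ZMod 2) (X P : κ → ZMod 2) (gam : Fin g → ZZ L s)
    (C : Set (β ⊕ Fin g)) : Submodule L ((κ → L) × (Fin s → L)) :=
  Submodule.span L (fB v X P gam '' C)

/-- The elements of `E` form a uniform matroid of rank `a` after the contraction of `C`. -/
structure FreeHyp {κ β : Type} [Fintype κ] (v : β → κ → ZMod 2) (X P : κ → ZMod 2)
    (gam : Fin g → ZZ L s) (a : ℕ) (C E : Set (β ⊕ Fin g)) : Prop where
  xne : X ≠ 0
  pne : P ≠ 0
  xp : X ≠ P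
  ind : LinearIndepOn L (fB v X P gam) C
  disj : Disjoint C E
  rk : C.ncard + a = Fintype.card κ + s
  unif : ∀ B ⊆ E, LinearIndepOn L (fB v X P gam) (B ∪ C) ↔ B.ncard ≤ a

end

end Pool.Agent.MP8f11b1
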