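import Pool.Agent.Lib.MP_8f11b1_co_DU.Rat2

set_option autoImplicit false

namespace Pool.Agent.MP8f11b1

variable {L κ ε : Type} [Field L] [Algebra (ZMod 2) L]

namespace Desc

/-- apply a functional to all the coordinates -/
private def FF (f : L →ₗ[ZMod 2] ZMod 2) : (κ → L) →ₗ[ZMod 2] (κ → ZMod 2) where
  toFun w := fun i => f (w i)
  map_add' w w' := by
    funext i
    rw [Pi.add_apply, Pi.add_apply, map_add]
  map_smul' c w := by
    funext i
    rw [Pi.smul_apply, Pi.smul_apply, map_smul, RingHom.id_apply]

private theorem FF_smul (f : L →ₗ[ZMod 2] ZMod 2) (a : L) (x : κ → ZMod 2) :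
    FF f (a • (cst x : κ → L)) = f a • x := by
  funext i
  change f (a * algebraMap (ZMod 2) L (x i)) = f a * x i
  rw [mul_comm, ← Algebra.smul_def, map_smul, smul_eq_mul, mul_comm]

private theorem FF_mem (S : Set (κ → ZMod 2)) {w : κ → L}
    (hw : w ∈ Submodule.span L (cst '' S)) :
    ∀ f : L →ₗ[ZMod 2] ZMod 2, FF f w ∈ Submodule.span (ZMod 2) S := by
  induction hw using Submodule.span_induction with
  | mem w hw =>
    obtain ⟨s, hs, rfl⟩ := hw
    intro f
    have h1 := FF_smul f 1 s
    rw [one_smul] at h1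
    rw [h1]
    exact Submodule.smul_mem _ _ (Submodule.subset_span hs)
  | zero =>
    intro f
    rw [map_zero]
    exact Submodule.zero_mem _
  | add w w' _ _ h h' =>
    intro f
    rw [map_add]
    exact Submodule.add_mem _ (h f) (h' f)
  | smul a w _ h =>
    intro f
    have h1 : FF f (a • w) = FF (f.comp (LinearMap.mulLeft (ZMod 2) a)) w := by
      funext i
      rfl
    rw [h1]
    exact h _

end Desc

theorem cst_add (x y : κ → ZMod 2) : (cst (x + y) : κ → L) = cst x + cst y := by
  funext i
  change algebraMap (ZMod 2) L (x i + y i) = algebraMap (ZMod 2) L (x i) + algebraMap _ _ (y i)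
  rw [map_add]

theorem cst_inj : Function.Injective (cst : (κ → ZMod 2) → κ → L) := by
  intro x y h
  funext i
  exact (algebraMap (ZMod 2) L).injective (congrFun h i)

theorem desc_span (u : κ → ZMod 2) (S : Set (κ → ZMod 2)) :
    (cst u : κ → L) ∈ Submodule.span L (cst '' S) ↔ u ∈ Submodule.span (ZMod 2) S := by
  constructor
  · intro h
    obtain ⟨f, hf, -⟩ := exists_sep (L := L) (x := 1) (y := 0) one_ne_zero one_ne_zero
    have h1 := Desc.FF_mem S h f
    have h2 := Desc.FF_smul f 1 u
    rw [one_smul] at h2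
    rwa [h2, hf, one_smul] at h1
  · intro h
    induction h using Submodule.span_induction with
    | mem w hw => exact Submodule.subset_span ⟨w, hw, rfl⟩
    | zero =>
      have h1 : (cst (0 : κ → ZMod 2) : κ → L) = 0 := by
        funext i
        exact map_zero (algebraMap (ZMod 2) L)
      rw [h1]
      exact Submodule.zero_mem _
    | add w w' _ _ h h' =>
      rw [cst_add]
      exact Submodule.add_mem _ h h'
    | smul a w _ h =>
      have h1 : (cst (a • w) : κ → L) = algebraMap (ZMod 2) L a • cst w := by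
        funext i
        exact map_mul (algebraMap (ZMod 2) L) a (w i)
      rw [h1]
      exact Submodule.smul_mem _ _ h

theorem desc_indep (v : ε → κ → ZMod 2) (I : Set ε) :
    LinearIndepOn L (fun i => (cst (v i) : κ → L)) I ↔ LinearIndepOn (ZMod 2) v I := by
  rw [linearIndepOn_iff_notMem_span, linearIndepOn_iff_notMem_span]
  refine forall₂_congr fun i _ => ?_
  have h1 : (fun i => (cst (v i) : κ → L)) '' (I \ {i}) = cst '' (v '' (I \ {i})) :=
    Set.image_comp cst v _
  rw [h1, desc_span]

/-- a nonrational combination of two rational vectors -/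
theorem desc_pair (x y : κ → ZMod 2) (S : Set (κ → ZMod 2)) (α β : L) (hα : α ≠ 0)
    (hβ : β ≠ 0) (hαβ : α ≠ β)
    (h : α • (cst x : κ → L) + β • cst y ∈ Submodule.span L (cst '' S)) :
    x ∈ Submodule.span (ZMod 2) S ∧ y ∈ Submodule.span (ZMod 2) S := by
  constructor
  · obtain ⟨f, h1, h2⟩ := exists_sep hα hαβ
    have h3 := Desc.FF_mem S h f
    rwa [map_add, Desc.FF_smul, Desc.FF_smul, h1, h2, one_smul, zero_smul, add_zero] at h3
  · obtain ⟨f, h1, h2⟩ := exists_sep hβ hαβ.symm
    have h3 := Desc.FF_mem S h f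
    rwa [map_add, Desc.FF_smul, Desc.FF_smul, h1, h2, one_smul, zero_smul, zero_add] at h3

end Pool.Agent.MP8f11b1
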