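import Pool.Agent.Lib.MP_8f11b1_co_DU.Cnt2

set_option autoImplicit false

namespace Pool.Agent.MP8f11b1

variable {L : Type} [Field L] [Algebra (ZMod 2) L] {r m g s : ℕ}

theorem lin2 (hr : 3 ≤ r) (gam : Fin g → ZZ L s) (𝒯 : Set (Set (Fin g)))
    (hK : ∀ T ∈ 𝒯, CH L (f2 gam : G2 r m g → V2 L r m s) (KT T))
    (ι : NB r → G2 r m g) (X : Set (G2 r m g)) (hinj : Function.Injective ι)
    (hdisj : ∀ z, ι z ∉ X) (hc : X.ncard = 2 * m)
    (hiff : ∀ B : Set (NB r), LinearIndepOn L (vecB : NB r → WW L r) B ↔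
      (LinearIndepOn L (f2 gam : G2 r m g → V2 L r m s) (ι '' B ∪ X) ∨
        ∃ T ∈ 𝒯, ι '' B ∪ X ⊆ KT T)) :
    Emb2 gam ι X := by
  refine ⟨hinj, hdisj, hc, fun B => ⟨fun hB => ?_, fun hB => (hiff B).2 (Or.inl hB)⟩⟩
  obtain ⟨B', h1, h2, h3⟩ := vecB_base hB
  have hmono : LinearIndepOn L (f2 gam : G2 r m g → V2 L r m s) (ι '' B' ∪ X) →
      LinearIndepOn L (f2 gam : G2 r m g → V2 L r m s) (ι '' B ∪ X) := fun h =>
    h.mono (Set.union_subset_union_left _ (Set.image_mono h1))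
  rcases (hiff B').1 h2 with h4 | ⟨T, hT, h4⟩
  · exact hmono h4
  · have hch := hK T hT
    by_cases hKe : ι '' B' ∪ X = KT T
    · exfalso
      obtain ⟨b, hb, z, hz, hn⟩ := exch2 hr B' h2 h3
      refine hn ((hiff _).2 (Or.inl ?_))
      have hzK : ι z ∉ (KT T : Set (G2 r m g)) := by
        rw [← hKe]
        rintro (⟨z', hz', he⟩ | he)
        · exact hz (hinj he ▸ hz')
        · exact hdisj z he
      have hset : ι '' (insert z (B' \ {b})) ∪ X = insert (ι z) (KT T \ {ι b}) := by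
        rw [Set.image_insert_eq, Set.image_sdiff hinj, Set.image_singleton, ← hKe,
          Set.insert_union, Set.union_sdiff_distrib, Set.sdiff_singleton_eq_self (hdisj b)]
      rw [hset]
      refine (hch.ind (ι b) (hKe ▸ Or.inl ⟨b, hb, rfl⟩)).insert fun hmem => ?_
      exact hch.flat (ι z) hzK (Submodule.span_mono (Set.image_mono Set.sdiff_subset) hmem)
    · obtain ⟨e, he, hne⟩ := Set.exists_of_ssubset (h4.ssubset_of_ne hKe)
      exact hmono ((hch.ind e he).mono fun x hx =>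
        ⟨h4 hx, fun hxe => hne ((Set.mem_singleton_iff.1 hxe) ▸ hx)⟩)

end Pool.Agent.MP8f11b1
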