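import Pool.Agent.Lib.MP_8f11b1_co_DU.Defs
import Pool.Agent.Lib.MP_8f11b1_co_RX.Lin

set_option autoImplicit false

namespace Pool.Agent.MP8f11b1

variable {L : Type} [Field L] [Algebra (ZMod 2) L] {r m g s : ℕ}

private theorem nmin2_dl (S : Submodule L (V2 L r m s))
    (h : ∀ i : Fin (2 * m), ((dl (i.val + 1) + dl i.val, 0, 0) : V2 L r m s) ∈ S) :
    ∀ k ≤ 2 * m, ((dl k, 0, 0) : V2 L r m s) ∈ S
  | 0, _ => by
    have h0 : (dl 0 : Fin (2 * m) → L) = 0 := by
      funext i
      simp [dl]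
    rw [h0]
    exact S.zero_mem
  | k + 1, hk => by
    have h1 := nmin2_dl S h k (by omega)
    have h2 := S.sub_mem (h ⟨k, by omega⟩) h1
    have h3 : ((dl (k + 1) + dl k, 0, 0) : V2 L r m s) - (dl k, 0, 0) = (dl (k + 1), 0, 0) := by
      rw [Prod.mk_sub_mk, add_sub_cancel_right, Prod.mk_sub_mk, sub_zero, sub_zero]
    rwa [h3] at h2

private theorem nmin2_ker :
    LinearMap.ker (LinearMap.snd L (Fin (2 * m) → L) ((WW L r) × (Fin s → L))) =
    Submodule.span L (Set.range fun i : Fin (2 * m) =>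
      ((dl (i.val + 1) + dl i.val, 0, 0) : V2 L r m s)) := by
  obtain ⟨S, hS⟩ : ∃ S, S = Submodule.span L (Set.range fun i : Fin (2 * m) =>
      ((dl (i.val + 1) + dl i.val, 0, 0) : V2 L r m s)) := ⟨_, rfl⟩
  have hc : ∀ i : Fin (2 * m), ((dl (i.val + 1) + dl i.val, 0, 0) : V2 L r m s) ∈ S := by
    intro i
    rw [hS]
    exact Submodule.subset_span ⟨i, rfl⟩
  apply le_antisymm
  · rw [← hS]
    rintro ⟨v, w⟩ hv
    have hw : w = 0 := hv
    rw [hw]
    have h1 : ((v, 0) : V2 L r m s) = ∑ j, v j • ((dl (j.val + 1), 0, 0) : V2 L r m s) := by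
      refine Prod.ext ?_ ?_
      · rw [Prod.fst_sum]
        funext t
        rw [Finset.sum_apply, Finset.sum_eq_single t]
        · simp [dl]
        · intro j _ hj
          have h2 : t.val ≠ j.val := fun h => hj (Fin.ext h.symm)
          simp [dl, h2]
        · intro h
          exact absurd (Finset.mem_univ _) h
      · rw [Prod.snd_sum]
        symm
        refine Finset.sum_eq_zero fun j _ => ?_
        show v j • ((0, 0) : (WW L r) × (Fin s → L)) = 0
        rw [Prod.mk_zero_zero, smul_zero]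
    rw [h1]
    refine Submodule.sum_mem _ fun j _ => Submodule.smul_mem _ _ ?_
    exact nmin2_dl S hc (j.val + 1) j.isLt
  · rw [Submodule.span_le]
    rintro _ ⟨i, rfl⟩
    rfl

private theorem nmin2_ind : LinearIndependent L (fun i : Fin (2 * m) =>
    ((dl (i.val + 1) + dl i.val, 0, 0) : V2 L r m s)) := by
  rw [linearIndependent_iff_card_eq_finrank_span, Set.finrank, ← nmin2_ker, LinearMap.ker_snd,
    LinearMap.finrank_range_of_inj LinearMap.inl_injective]
  simp

theorem c2_indep (gam : Fin g → ZZ L s) :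
    LinearIndepOn L (f2 gam : G2 r m g → V2 L r m s)
      (Set.range fun i => Sum.inl (Sum.inl (Sum.inl i))) := by
  rw [← Set.image_univ]
  apply LinearIndepOn.image_of_comp
  rw [linearIndepOn_univ_iff]
  exact nmin2_ind

theorem nmin2 (hm0 : 0 < m) (gam : Fin g → ZZ L s) (B : Set (NB r ⊕ Fin g)) :
    (LinearIndepOn L (vecN2 gam : NB r ⊕ Fin g → (WW L r) × (Fin s → L)) B ↔
      LinearIndepOn L (f2 gam : G2 r m g → V2 L r m s)
        (Sum.map Sum.inr id '' B ∪ Set.range fun i => Sum.inl (Sum.inl (Sum.inl i)))) ∧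
    ∀ T : Set (Fin g), ¬ ((Sum.map Sum.inr id '' B ∪
      Set.range fun i => Sum.inl (Sum.inl (Sum.inl i)) : Set (G2 r m g)) ⊆ KT T) := by
  have hK : ∀ T : Set (Fin g), ¬ ((Sum.map Sum.inr id '' B ∪
      Set.range fun i => Sum.inl (Sum.inl (Sum.inl i)) : Set (G2 r m g)) ⊆ KT T) := by
    intro T h
    exact h (Or.inr ⟨⟨0, by omega⟩, rfl⟩)
  refine ⟨?_, hK⟩
  have hd : Disjoint (Sum.map Sum.inr id '' B : Set (G2 r m g))
      (Set.range fun i => Sum.inl (Sum.inl (Sum.inl i))) := by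
    rw [Set.disjoint_left]
    rintro _ ⟨z | z, _, rfl⟩ ⟨i, hi⟩
    · exact Sum.inl_ne_inr (Sum.inl.inj hi)
    · exact Sum.inl_ne_inr hi
  have hk : LinearMap.ker (LinearMap.snd L (Fin (2 * m) → L) ((WW L r) × (Fin s → L))) =
      Submodule.span L ((f2 gam : G2 r m g → V2 L r m s) ''
        Set.range fun i => Sum.inl (Sum.inl (Sum.inl i))) := by
    rw [nmin2_ker, ← Set.range_comp]
    rfl
  have hv : (vecN2 gam : NB r ⊕ Fin g → (WW L r) × (Fin s → L)) = (fun z : G2 r m g =>
      (LinearMap.snd L (Fin (2 * m) → L) ((WW L r) × (Fin s → L))) (f2 gam z)) ∘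
        Sum.map Sum.inr id := by
    funext z
    rcases z with (z | z) | c
    · rfl
    · rfl
    · rfl
  have key := lin_union_iff (f2 gam : G2 r m g → V2 L r m s) (c2_indep gam) hd
    (LinearMap.snd L (Fin (2 * m) → L) ((WW L r) × (Fin s → L))) hk
  refine Iff.trans ?_ key.symm
  rw [hv]
  constructor
  · exact fun h => h.image_of_comp
  · exact fun h => h.comp_of_image (Sum.map_injective.2
      ⟨Sum.inr_injective, Function.injective_id⟩).injOn

theorem vecN2_inl (gam : Fin g → ZZ L s) (B : Set (NB r)) :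
    LinearIndepOn L (vecN2 gam : NB r ⊕ Fin g → (WW L r) × (Fin s → L)) (Sum.inl '' B) ↔
      LinearIndepOn L (vecB : NB r → WW L r) B := by
  have h1 : (vecN2 gam : NB r ⊕ Fin g → (WW L r) × (Fin s → L)) ∘ Sum.inl =
      fun z => (LinearMap.inl L (WW L r) (Fin s → L)) (vecB z) := rfl
  have h2 : LinearIndepOn L (vecN2 gam : NB r ⊕ Fin g → (WW L r) × (Fin s → L)) (Sum.inl '' B) ↔
      LinearIndepOn L ((vecN2 gam : NB r ⊕ Fin g → (WW L r) × (Fin s → L)) ∘ Sum.inl) B :=
    ⟨fun h => h.comp_of_image Sum.inl_injective.injOn, fun h => h.image_of_comp⟩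
  rw [h2, h1]
  exact LinearMap.linearIndependent_iff (LinearMap.inl L (WW L r) (Fin s → L))
    (v := fun i : B => vecB (L := L) i) (LinearMap.ker_eq_bot.2 LinearMap.inl_injective)

end Pool.Agent.MP8f11b1
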