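import Pool.Agent.Lib.MP_8f11b1_co_DU.Defs
import Pool.Agent.Lib.MP_8f11b1_co_RX.Lin
import Pool.Agent.Lib.MP_8f11b1_co_RX.RepM

set_option autoImplicit false

namespace Pool.Agent.MP8f11b1

variable {L α V : Type} [Field L] [AddCommGroup V] [Module L V]

open Matroid

private theorem rel2_proper (f : α → V) {K : Set α} (h : CH L f K) {J : Set α} (hJ : J ⊆ K)
    (hne : J ≠ K) : LinearIndepOn L f J := by
  obtain ⟨e, heK, heJ⟩ := Set.exists_of_ssubset (hJ.ssubset_of_ne hne)
  exact (h.ind e heK).mono fun x hx => ⟨hJ hx, fun hxe => heJ (by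
    rw [← Set.mem_singleton_iff.1 hxe]
    exact hx)⟩

private theorem rel2_swap (f : α → V) {K : Set α} (h : CH L f K) {g e : α} (hg : g ∉ K)
    (he : e ∈ K) : LinearIndepOn L f (insert g (K \ {e})) := by
  refine (linearIndepOn_insert fun hg' => hg hg'.1).2 ⟨h.ind e he, fun hs => ?_⟩
  exact h.flat g hg (Submodule.span_mono (Set.image_mono Set.sdiff_subset) hs)

theorem rel2_exists [Finite α] [FiniteDimensional L V] (f : α → V) (𝒦 : Set (Set α))
    (h : ∀ K ∈ 𝒦, CH L f K) :
    ∃ M : Matroid α, M.E = Set.univ ∧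
      ∀ I, M.Indep I ↔ LinearIndepOn L f I ∨ ∃ K ∈ 𝒦, I ⊆ K := by
  have hfin : ∀ S : Set α, S.Finite := fun S => Set.toFinite S
  refine ⟨(IndepMatroid.ofFinite (hfin Set.univ)
    (fun I => LinearIndepOn L f I ∨ ∃ K ∈ 𝒦, I ⊆ K)
    ?_ ?_ ?_ ?_).matroid, rfl, fun I => Iff.rfl⟩
  · exact Or.inl (linearIndepOn_empty L f)
  · rintro I J (hJ | ⟨K, hK, hJ⟩) hIJ
    · exact Or.inl (hJ.mono hIJ)
    · exact Or.inr ⟨K, hK, hIJ.trans hJ⟩
  · intro I J hI hJ hlt
    by_cases hIl : LinearIndepOn L f I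
    · by_cases hJl : LinearIndepOn L f J
      · obtain ⟨e, he, heI, h2⟩ := lin_insert f (hfin I) (hfin J) hIl hJl hlt
        exact ⟨e, he, heI, Or.inl h2⟩
      · obtain ⟨K, hK, hJK⟩ := hJ.resolve_left hJl
        have hJeq : J = K := by
          by_contra hne
          exact hJl (rel2_proper f (h K hK) hJK hne)
        subst hJeq
        by_cases hIJ : I ⊆ J
        · obtain ⟨e, he, heI⟩ := Set.exists_mem_notMem_of_ncard_lt_ncard hlt (hfin I)
          exact ⟨e, he, heI, Or.inr ⟨J, hK, Set.insert_subset he hIJ⟩⟩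
        · obtain ⟨g, hgI, hgK⟩ := Set.not_subset.1 hIJ
          have hne : J.Nonempty := by
            rw [Set.nonempty_iff_ne_empty]
            rintro rfl
            simp at hlt
          obtain ⟨e₀, he₀⟩ := hne
          have hg' : g ∉ J \ {e₀} := fun hg => hgK hg.1
          have hL := rel2_swap f (h J hK) hgK he₀
          have hc : (insert g (J \ {e₀})).ncard = J.ncard := by
            rw [Set.ncard_insert_of_notMem hg' (hfin _),
              Set.ncard_sdiff_singleton_add_one he₀ (hfin _)]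
          obtain ⟨e, he, heI, h2⟩ :=
            lin_insert f (hfin I) (hfin _) hIl hL (by rw [hc]; exact hlt)
          rcases he with rfl | he
          · exact absurd hgI heI
          · exact ⟨e, he.1, heI, Or.inl h2⟩
    · exfalso
      obtain ⟨K, hK, hIK⟩ := hI.resolve_left hIl
      have hIeq : I = K := by
        by_contra hne
        exact hIl (rel2_proper f (h K hK) hIK hne)
      have h0 := (h K hK).card
      rw [← hIeq] at h0
      rcases hJ with hJ | ⟨K', hK', hJ⟩
      · have h1 := (lin_ncard_le f hJ).2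
        omega
      · have h1 := Set.ncard_le_ncard hJ (hfin K')
        have h2 := (h K' hK').card
        omega
  · exact fun I _ => Set.subset_univ I

/-- a minor of the relaxed matroid that is not a minor of the vector matroid keeps one of the
relaxed sets -/
theorem rel2_minor [Finite α] [FiniteDimensional L V] (f : α → V) (𝒦 : Set (Set α))
    (h : ∀ K ∈ 𝒦, CH L f K) (M M₀ : Matroid α) (hE : M.E = Set.univ) (hE₀ : M₀.E = Set.univ)
    (hM : ∀ I, M.Indep I ↔ LinearIndepOn L f I ∨ ∃ K ∈ 𝒦, I ⊆ K)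
    (hM₀ : ∀ I, M₀.Indep I ↔ LinearIndepOn L f I)
    {M' : Matroid α} (hM' : M'.IsMinor M) (hn : ¬ M'.IsMinor M₀) :
    ∃ K ∈ 𝒦, ∃ X Y : Set α, X ⊆ K ∧ Disjoint Y K ∧ Disjoint X Y ∧ M' = M ／ X ＼ Y := by
  obtain ⟨X, Y, _, _, hXY, rfl⟩ := hM'.exists_eq_contract_delete_disjoint
  by_contra hcon
  have hno : ∀ K ∈ 𝒦, X ⊆ K → Disjoint Y K → False := fun K hK h1 h2 =>
    hcon ⟨K, hK, X, Y, h1, h2, hXY, rfl⟩
  apply hn
  obtain ⟨J, hJ⟩ := M₀.exists_isBasis' X
  have hJX : J ⊆ X := hJ.subset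
  have hJl : LinearIndepOn L f J := (hM₀ J).1 hJ.indep
  have hmax : ∀ x ∈ X, x ∉ J → ¬ LinearIndepOn L f (insert x J) := by
    intro x hx hxJ hl
    have h1 := hJ.eq_of_subset_indep ((hM₀ _).2 hl) (Set.subset_insert x J)
      (Set.insert_subset hx hJX)
    exact hxJ (h1 ▸ Set.mem_insert x J)
  have hJM : M.IsBasis' J X := by
    refine ⟨⟨(hM J).2 (Or.inl hJl), hJX⟩, ?_⟩
    rintro I ⟨hI, hIX⟩ hJI x hxI
    by_contra hxJ
    have hxX : x ∈ X := hIX hxI
    have h1 : M.Indep (insert x J) := hI.subset (Set.insert_subset hxI hJI)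
    obtain ⟨K, hK, hxK⟩ := ((hM _).1 h1).resolve_left (hmax x hxX hxJ)
    have hKeq : insert x J = K := by
      by_contra hne
      exact hmax x hxX hxJ (rel2_proper f (h K hK) hxK hne)
    have hKX : K ⊆ X := hKeq ▸ Set.insert_subset hxX hJX
    have hYK : Disjoint Y K := (hXY.mono_left hKX).symm
    obtain ⟨g, hgX, hgK⟩ := Set.not_subset.1 fun h2 => hno K hK h2 hYK
    have h3 := rel2_swap f (h K hK) hgK (hKeq ▸ Set.mem_insert x J : x ∈ K)
    have h4 : K \ {x} = J := by
      rw [← hKeq, Set.insert_sdiff_of_mem _ (Set.mem_singleton x),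
        Set.sdiff_singleton_eq_self hxJ]
    rw [h4] at h3
    exact hmax g hgX (fun hg => hgK (hKeq ▸ Set.mem_insert_of_mem x hg)) h3
  have hEq : M ／ X ＼ Y = M₀ ／ X ＼ Y := by
    refine Matroid.ext_indep ?_ ?_
    · rw [delete_ground, delete_ground, contract_ground, contract_ground, hE, hE₀]
    · intro I hI
      rw [delete_ground, contract_ground] at hI
      have hIX : Disjoint I X := Set.disjoint_left.2 fun x hx hxX => (hI hx).1.2 hxX
      have hIY : Disjoint I Y := Set.disjoint_left.2 fun x hx hxY => (hI hx).2 hxY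
      rw [delete_indep_iff, delete_indep_iff, hJM.contract_indep_iff, hJ.contract_indep_iff]
      suffices h1 : M.Indep (I ∪ J) ↔ M₀.Indep (I ∪ J) by rw [h1]
      rw [hM, hM₀]
      refine ⟨fun h1 => ?_, Or.inl⟩
      by_contra hnl
      obtain ⟨K, hK, hIK⟩ := h1.resolve_left hnl
      have hKeq : I ∪ J = K := by
        by_contra hne
        exact hnl (rel2_proper f (h K hK) hIK hne)
      have hYK : Disjoint Y K := by
        rw [← hKeq, Set.disjoint_union_right]
        exact ⟨hIY.symm, (hXY.mono_left hJX).symm⟩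
      obtain ⟨g, hgX, hgK⟩ := Set.not_subset.1 fun h2 => hno K hK h2 hYK
      rcases I.eq_empty_or_nonempty with rfl | ⟨i, hi⟩
      · rw [Set.empty_union] at hnl
        exact hnl hJl
      · have hiK : i ∈ K := hKeq ▸ Or.inl hi
        have h3 := rel2_swap f (h K hK) hgK hiK
        refine hmax g hgX (fun hg => hgK (hKeq ▸ Or.inr hg)) (h3.mono ?_)
        refine Set.insert_subset_insert fun x hx => ⟨hKeq ▸ Or.inr hx, fun hxi => ?_⟩
        rw [Set.mem_singleton_iff] at hxi
        subst hxi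
        exact Set.disjoint_left.1 hIX hi (hJX hx)
  rw [hEq]
  exact ⟨X, Y, rfl⟩

end Pool.Agent.MP8f11b1
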