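import Pool.Agent.Lib.MP_8f11b1_co_DU.Uniq2
import Pool.Agent.Lib.MP_8f11b1_co_DU.Rel2
import Pool.Agent.Lib.MP_8f11b1_co_DU.Cfg2
import Pool.Agent.Lib.MP_8f11b1_co_DU.NMin2
import Pool.Agent.Lib.MP_8f11b1_co_DU.Lin2
import Pool.Agent.Lib.MP_8f11b1_co_RX.Rel
import Pool.Agent.Lib.MP_8f11b1_co_RX.Comb

set_option autoImplicit false

namespace Pool.Agent.MP8f11b1

open Matroid

/-- The construction: if the vector matroids of the configurations lie in `C` and the relaxed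
matroids do not, then the union of `C` with a class `Ex N` has large excluded minors. -/
theorem engine {L : Type} [Field L] [Algebra (ZMod 2) L] {g s : ℕ} (gam : Fin g → ZZ L s)
    (𝒯 : Set (Set (Fin g))) (hne : 𝒯.Nonempty) (hT : ∀ T ∈ 𝒯, GoodT gam T)
    (C : ∀ α : Type, Matroid α → Prop) (hC : IsMinorClosed C)
    (hfree : ∀ r m : ℕ, 1 ≤ r → (m : L) = 0 → ∀ M₀ : Matroid (G2 r m g), M₀.E = Set.univ →
      (∀ I, M₀.Indep I ↔ LinearIndepOn L (f2 gam : G2 r m g → V2 L r m s) I) → C _ M₀)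
    (hZ : ∀ r m : ℕ, 1 ≤ r → (m : L) = 0 → ∀ M : Matroid (G2 r m g), M.E = Set.univ →
      (∀ I, M.Indep I ↔ LinearIndepOn L (f2 gam : G2 r m g → V2 L r m s) I ∨
        ∃ T ∈ 𝒯, I ⊆ KT T) → ¬ C _ M) :
    ∃ (γ : Type) (N : Matroid γ), N.Finite ∧ ∀ k : ℕ, ∃ (δ : Type) (M : Matroid δ),
      IsExcludedMinor (Union C (Ex N)) M ∧ k ≤ M.E.ncard := by
  classical
  set r : ℕ := (g + 6) ^ 2 with hr
  have h36 : 6 ^ 2 ≤ (g + 6) ^ 2 := Nat.pow_le_pow_left (by omega) 2
  have hr3 : 3 ≤ r := by omega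
  obtain ⟨T₀, hT₀⟩ := hne
  obtain ⟨N, hNE, hN⟩ := vecM_exists (F := L)
    (vecN2 gam : NB r ⊕ Fin g → (WW L r) × (Fin s → L))
  have hNfin : N.Finite := ⟨Set.toFinite _⟩
  refine ⟨NB r ⊕ Fin g, N, hNfin, ?_⟩
  intro k
  set m : ℕ := 2 * (k + 1) with hmdef
  have h2 : ((2 : ℕ) : L) = 0 := by
    have := map_natCast (algebraMap (ZMod 2) L) 2
    rw [← this]
    have h0 : ((2 : ℕ) : ZMod 2) = 0 := by decide
    rw [h0, map_zero]
  have hm : (m : L) = 0 := by
    rw [hmdef, Nat.cast_mul, h2, zero_mul]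
  have hm0 : 0 < m := by omega
  have hch : ∀ T ∈ 𝒯, CH L (f2 gam : G2 r m g → V2 L r m s) (KT T) := fun T h =>
    ch2 hm gam T (hT T h)
  have hchK : ∀ K ∈ (KT '' 𝒯 : Set (Set (G2 r m g))),
      CH L (f2 gam : G2 r m g → V2 L r m s) K := by
    rintro _ ⟨T, h, rfl⟩
    exact hch T h
  obtain ⟨M, hME, hM'⟩ := rel2_exists (L := L) (f2 gam : G2 r m g → V2 L r m s)
    (KT '' 𝒯) hchK
  obtain ⟨M₀, hME₀, hM₀⟩ := vecM_exists (F := L) (f2 gam : G2 r m g → V2 L r m s)
  have hM : ∀ I, M.Indep I ↔ LinearIndepOn L (f2 gam : G2 r m g → V2 L r m s) I ∨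
      ∃ T ∈ 𝒯, I ⊆ KT T := by
    intro I
    rw [hM' I]
    constructor
    · rintro (h | ⟨_, ⟨T, hT', rfl⟩, h⟩)
      · exact Or.inl h
      · exact Or.inr ⟨T, hT', h⟩
    · rintro (h | ⟨T, hT', h⟩)
      · exact Or.inl h
      · exact Or.inr ⟨_, ⟨T, hT', rfl⟩, h⟩
  have hfin' : ∀ S : Set (G2 r m g), S.Finite := fun S => Set.toFinite S
  have hMfin : M.Finite := ⟨hfin' _⟩
  have hC₀ : C _ M₀ := hfree r m (by omega) hm M₀ hME₀ hM₀
  have hnC : ¬ C _ M := hZ r m (by omega) hm M hME hM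
  have hrank : Module.finrank L (V2 L r m s) = 2 * m + (r + 1 + s) := by simp
  -- the minor `N`
  have hMN : ∃ M' : Matroid (G2 r m g), M'.IsMinor M ∧ Iso M' N := by
    refine exists_isMinor_iso M N (Set.range fun i => Sum.inl (Sum.inl (Sum.inl i)))
      ((hM _).2 (Or.inl (c2_indep gam))) (Sum.map Sum.inr id) ?_ ?_ ?_
    · exact (Function.Injective.sumMap Sum.inr_injective Function.injective_id).injOn
    · intro b _
      refine ⟨by rw [hME]; trivial, ?_⟩
      rintro ⟨i, hi⟩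
      rcases b with b | b <;> cases hi
    · intro B _
      rw [hN, hM]
      have h3 := nmin2 (L := L) (r := r) hm0 gam B
      rw [h3.1]
      constructor
      · exact Or.inl
      · rintro (h | ⟨T, _, h⟩)
        · exact h
        · exact absurd h (h3.2 T)
  -- a minimal minor
  have hex : ∃ t : ℕ, ∃ M' : Matroid (G2 r m g), M'.IsMinor M ∧ ¬ C _ M' ∧
      (∃ N' : Matroid (G2 r m g), N'.IsMinor M' ∧ Iso N' N) ∧ M'.E.ncard = t :=
    ⟨_, M, Matroid.IsMinor.refl, hnC, hMN, rfl⟩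
  obtain ⟨M', hM'M, hM'C, hM'N, hcard⟩ := Nat.find_spec hex
  have hmin := fun t (ht : t < Nat.find hex) => Nat.find_min hex ht
  refine ⟨G2 r m g, M', ⟨⟨hfin' _⟩, ?_, ?_⟩, ?_⟩
  · rintro (h | h)
    · exact hM'C h
    · exact h.2 hM'N
  · intro M'' hM'' hne'
    have hsub : M''.E ⊂ M'.E := by
      refine hM''.subset.ssubset_of_ne ?_
      intro hE
      exact hne' (hM''.eq_of_ground_subset hE.symm.subset).symm
    have hlt : M''.E.ncard < Nat.find hex := by
      rw [← hcard]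
      exact Set.ncard_lt_ncard hsub (hfin' _)
    by_contra hcon
    unfold Union at hcon
    rw [not_or] at hcon
    refine hmin _ hlt ⟨M'', hM''.trans hM'M, hcon.1, ?_, rfl⟩
    by_contra hc
    exact hcon.2 ⟨⟨hfin' _⟩, hc⟩
  · -- the size
    have hnM₀ : ¬ M'.IsMinor M₀ := fun h => hM'C (hC.minor _ _ _ h hC₀)
    obtain ⟨K, ⟨T, hTT, rfl⟩, X, Y, hXK, hYK, hXY, hMe⟩ := rel2_minor
      (f2 gam : G2 r m g → V2 L r m s) (KT '' 𝒯) hchK M M₀ hME hME₀ hM' hM₀ hM'M hnM₀
    obtain ⟨N', hN', hi⟩ := hM'N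
    have hKi : M.Indep (KT T) := (hM _).2 (Or.inr ⟨T, hTT, subset_rfl⟩)
    have hKB : M.IsBase (KT T) := by
      rw [Matroid.isBase_iff_maximal_indep]
      refine ⟨hKi, ?_⟩
      intro I hI hKI
      rcases (hM _).1 hI with h | ⟨T', hT', h⟩
      · have := (lin_ncard_le _ h).2
        rw [← (hch T hTT).card] at this
        rw [Set.eq_of_subset_of_ncard_le hKI this (hfin' _)]
      · have := Set.ncard_le_ncard h (hfin' _)
        rw [(hch T' hT').card, ← (hch T hTT).card] at this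
        rw [Set.eq_of_subset_of_ncard_le hKI this (hfin' _)]
    rw [hMe] at hN'
    obtain ⟨ι, X', hι, hιX, hXX', hind, hbase⟩ := sub_minor (KT T) M hME hKB X Y hXK hYK hXY
      N' hN' N hNE hi
    obtain ⟨B, hB, hBc⟩ := base2 (r := r) gam T (hT T hTT)
    have hBb : N.IsBase B := by
      rw [Matroid.isBase_iff_maximal_indep]
      refine ⟨(hN B).2 hB, ?_⟩
      intro I hI hBI
      have := (lin_ncard_le _ ((hN _).1 hI)).2
      have h4 : Module.finrank L ((WW L r) × (Fin s → L)) = r + 1 + s := by simp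
      rw [h4, ← hBc] at this
      rw [Set.eq_of_subset_of_ncard_le hBI this (Set.toFinite _)]
    have h5 := (hbase B hBb).ncard_eq_ncard_of_isBase hKB
    have h7 : (ι '' B ∪ X').ncard = B.ncard + X'.ncard := by
      rw [Set.ncard_union_eq ?_ (hfin' _) (hfin' _), Set.ncard_image_of_injective _ hι]
      rw [Set.disjoint_left]
      rintro _ ⟨z, _, rfl⟩
      exact hιX z
    have hc : X'.ncard = 2 * m := by
      rw [h7, (hch T hTT).card, hrank, hBc] at h5
      omega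
    have hE : Emb2 gam (fun z => ι (Sum.inl z)) X' := by
      refine lin2 hr3 gam 𝒯 hch _ X' (hι.comp Sum.inl_injective) (fun z => hιX _) hc ?_
      intro B
      rw [← vecN2_inl (L := L) (r := r) gam B, ← hN, hind, hM]
      rw [Set.image_image]
    have hu := uniq2 le_rfl hE
    have hX0 : X = ∅ := by
      rw [Set.eq_empty_iff_forall_notMem]
      intro x hx
      have hx1 := hXK hx
      have hx2 := hXX' hx
      rw [hu] at hx2
      obtain ⟨i, rfl⟩ := hx2
      exact hx1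
    have hKsub : (KT T : Set (G2 r m g)) ⊆ M'.E := by
      intro x hx
      rw [hMe, Matroid.delete_ground, Matroid.contract_ground, hME, hX0]
      exact ⟨⟨trivial, Set.notMem_empty _⟩, fun hy => Set.disjoint_left.1 hYK hy hx⟩
    have h8 := Set.ncard_le_ncard hKsub (hfin' _)
    rw [(hch T hTT).card, hrank] at h8
    omega

end Pool.Agent.MP8f11b1
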