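import Pool.Agent.Lib.MP_8f11b1_co_DU.IsoU

set_option autoImplicit false

namespace Pool.Agent.MP8f11b1

variable {α β : Type}

theorem circ_iff (M : Matroid α) [M.Finite] {b : ℕ} (hb : 1 ≤ b) (U : Matroid β)
    (hU : IsU (b - 1) b U) :
    (∃ M' : Matroid α, M'.IsMinor M ∧ Iso M' U) ↔ ∃ C, M.IsCircuit C ∧ b ≤ C.ncard := by
  constructor
  · rintro ⟨M', hM', hi⟩
    have hU' := isU_of_iso hi hU
    obtain ⟨X, hX, hd, hind, -⟩ := exists_indep_of_isMinor hM'
    have hsub : M'.E ∪ X ⊆ M.E := Set.union_subset hM'.subset hX.subset_ground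
    have hdep : M.Dep (M'.E ∪ X) := by
      refine ⟨?_, hsub⟩
      rw [← hind _ le_rfl, hU'.2.2 _ le_rfl, hU'.2.1]
      omega
    obtain ⟨C, hCs, hC⟩ := hdep.exists_isCircuit_subset
    refine ⟨C, hC, ?_⟩
    have hMC : M'.E ⊆ C := by
      intro e he
      by_contra heC
      apply hC.not_indep
      have h1 : M'.Indep (M'.E \ {e}) := by
        rw [hU'.2.2 _ Set.sdiff_subset, Set.ncard_sdiff_singleton_of_mem he, hU'.2.1]
      rw [hind _ Set.sdiff_subset] at h1
      refine h1.subset ?_
      intro x hx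
      rcases hCs hx with h | h
      · refine Or.inl ⟨h, ?_⟩
        intro hxe
        rw [Set.mem_singleton_iff] at hxe
        rw [hxe] at hx
        exact heC hx
      · exact Or.inr h
    rw [← hU'.2.1]
    exact Set.ncard_le_ncard hMC (M.ground_finite.subset hC.subset_ground)
  · rintro ⟨C, hC, hCb⟩
    obtain ⟨D, hDC, hDb⟩ := Set.exists_subset_card_eq (s := C) (n := b) hCb
    have hDf : D.Finite := Set.finite_of_ncard_pos (by omega)
    have : Fintype ↥D := hDf.fintype
    have hne : D.Nonempty := by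
      rw [← Set.ncard_pos hDf]
      omega
    have hI : M.Indep (C \ D) := by
      apply hC.ssubset_indep
      obtain ⟨d, hd⟩ := hne
      exact ⟨Set.sdiff_subset, fun h => (h (hDC hd)).2 hd⟩
    have hcard : Fintype.card ↥D = b := by
      rw [← Nat.card_eq_fintype_card, Nat.card_coe_set_eq, hDb]
    refine minor_isU M (a := b - 1) (C \ D) hI (Subtype.val : ↥D → α) Subtype.val_injective
      (fun d => ⟨hC.subset_ground (hDC d.2), fun h => h.2 d.2⟩) ?_ U (by rw [hcard]; exact hU)
    intro B
    by_cases hB : B = Set.univ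
    · subst hB
      have h1 : (Subtype.val '' (Set.univ : Set ↥D) ∪ (C \ D) : Set α) = C := by
        rw [Set.image_univ, Subtype.range_coe, Set.union_sdiff_cancel hDC]
      rw [h1, Set.ncard_univ, Nat.card_eq_fintype_card, hcard]
      exact ⟨fun h => absurd h hC.not_indep, fun h => absurd h (by omega)⟩
    · obtain ⟨d, hd⟩ := (Set.ne_univ_iff_exists_notMem B).1 hB
      constructor
      · intro _
        have h1 : B.ncard < (Set.univ : Set ↥D).ncard :=
          Set.ncard_lt_ncard ⟨Set.subset_univ _, fun h => hd (h trivial)⟩ Set.finite_univ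
        rw [Set.ncard_univ, Nat.card_eq_fintype_card, hcard] at h1
        omega
      · intro _
        apply hC.ssubset_indep
        refine ⟨?_, fun h => ?_⟩
        · rintro x (⟨y, _, rfl⟩ | hx)
          · exact hDC y.2
          · exact hx.1
        · rcases h (hDC d.2) with ⟨y, hy, hyd⟩ | hx
          · rw [Subtype.val_injective hyd] at hy
            exact hd hy
          · exact hx.2 d.2

theorem rank_iff (M : Matroid α) [M.Finite] {b : ℕ} (U : Matroid β) (hU : IsU b b U) :
    (∃ M' : Matroid α, M'.IsMinor M ∧ Iso M' U) ↔ ∃ I, M.Indep I ∧ b ≤ I.ncard := by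
  constructor
  · rintro ⟨M', hM', hi⟩
    have hU' := isU_of_iso hi hU
    refine ⟨M'.E, ?_, by rw [hU'.2.1]⟩
    have h1 : M'.Indep M'.E := by
      rw [hU'.2.2 _ le_rfl, hU'.2.1]
    exact h1.of_isMinor hM'
  · rintro ⟨I, hI, hIb⟩
    obtain ⟨D, hDI, hDb⟩ := Set.exists_subset_card_eq (s := I) (n := b) hIb
    have hDf : D.Finite := (M.ground_finite.subset hI.subset_ground).subset hDI
    have : Fintype ↥D := hDf.fintype
    have hcard : Fintype.card ↥D = b := by
      rw [← Nat.card_eq_fintype_card, Nat.card_coe_set_eq, hDb]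
    refine minor_isU M (a := b) ∅ M.empty_indep (Subtype.val : ↥D → α) Subtype.val_injective
      (fun d => ⟨hI.subset_ground (hDI d.2), fun h => h⟩) ?_ U (by rw [hcard]; exact hU)
    intro B
    refine ⟨fun _ => ?_, fun _ => ?_⟩
    · rw [← hcard, ← Nat.card_eq_fintype_card, ← Set.ncard_univ]
      exact Set.ncard_le_ncard (Set.subset_univ _) Set.finite_univ
    · refine hI.subset ?_
      rintro x (⟨y, _, rfl⟩ | hx)
      · exact hDI y.2
      · exact absurd hx (Set.notMem_empty _)

end Pool.Agent.MP8f11b1
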