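import Pool.Agent.Lib.MP_8f11b1_co_DU.Defs
import Pool.Agent.Lib.MP_8f11b1_co_RX.Lin

set_option autoImplicit false

namespace Pool.Agent.MP8f11b1

variable {L V : Type} [Field L] [AddCommGroup V] [Module L V]

theorem gen_step [Infinite L] (Φ : Submodule L V) (S : Set V) (hS : S.Finite) :
    ∃ v ∈ Φ, ∀ T ⊆ S, ¬ Φ ≤ Submodule.span L T → v ∉ Submodule.span L T := by
  by_contra hcon
  push Not at hcon
  let ι := {T : Set V // T ⊆ S ∧ ¬ Φ ≤ Submodule.span L T}
  have hfin : Finite ι := by
    have h1 : {T : Set V | T ⊆ S ∧ ¬ Φ ≤ Submodule.span L T}.Finite :=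
      hS.finite_subsets.subset fun T hT => hT.1
    exact h1.to_subtype
  have hcov : (⋃ i : ι, (((Submodule.span L i.1).comap Φ.subtype : Submodule L Φ) : Set Φ)) =
      Set.univ := by
    rw [Set.eq_univ_iff_forall]
    intro v
    obtain ⟨T, hTS, hT, hv⟩ := hcon v.1 v.2
    exact Set.mem_iUnion.2 ⟨⟨T, hTS, hT⟩, hv⟩
  obtain ⟨i, hi⟩ := Subspace.exists_eq_top_of_iUnion_eq_univ (k := L) hcov
  refine i.2.2 fun v hv => ?_
  have h2 : (⟨v, hv⟩ : Φ) ∈ ((Submodule.span L i.1).comap Φ.subtype : Submodule L Φ) := by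
    rw [hi]
    exact Submodule.mem_top
  exact h2

/-- vectors any `a` of which are independent -/
theorem vandermonde_family [Infinite L] (a g : ℕ) :
    ∃ M : Fin g → (Fin a → L), ∀ A : Set (Fin g), A.ncard ≤ a → LinearIndepOn L M A := by
  classical
  let x : Fin g → L := fun c => Infinite.natEmbedding L c.val
  have hx : ∀ c c', x c = x c' → c = c' := fun c c' h =>
    Fin.ext ((Infinite.natEmbedding L).injective h)
  refine ⟨fun c i => x c ^ i.val, fun A hA => ?_⟩
  rw [linearIndepOn_iff']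
  intro s G hs hsum c hc
  have hcard : s.card ≤ a := by
    rw [← Set.ncard_coe_finset]
    exact (Set.ncard_le_ncard hs (Set.toFinite A)).trans hA
  set P : Polynomial L := ∏ c' ∈ s.erase c, (Polynomial.X - Polynomial.C (x c')) with hP
  have hdeg : P.natDegree < a := by
    rw [hP, Polynomial.natDegree_prod_of_monic _ _ fun c' _ => Polynomial.monic_X_sub_C _]
    simp only [Polynomial.natDegree_X_sub_C, Finset.sum_const, smul_eq_mul, mul_one]
    rw [Finset.card_erase_of_mem hc]
    have : 0 < s.card := Finset.card_pos.2 ⟨c, hc⟩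
    omega
  have hev : ∀ y : L, P.eval y = ∑ i : Fin a, P.coeff i.val * y ^ i.val := by
    intro y
    rw [Polynomial.eval_eq_sum_range' hdeg, Finset.sum_range]
  have h0 : ∑ c' ∈ s, G c' * P.eval (x c') = 0 := by
    have h1 : ∀ i : Fin a, ∑ c' ∈ s, G c' * x c' ^ i.val = 0 := by
      intro i
      have h2 := congrFun hsum i
      simpa [Finset.sum_apply] using h2
    have h2 : ∀ c' ∈ s, G c' * P.eval (x c') =
        ∑ i : Fin a, P.coeff i.val * (G c' * x c' ^ i.val) := by
      intro c' _
      rw [hev, Finset.mul_sum]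
      exact Finset.sum_congr rfl fun i _ => by ring
    rw [Finset.sum_congr rfl h2, Finset.sum_comm]
    refine Finset.sum_eq_zero fun i _ => ?_
    rw [← Finset.mul_sum, h1, mul_zero]
  rw [Finset.sum_eq_single c (by
    intro c' hc' hne
    have h1 : P.eval (x c') = 0 := by
      rw [hP, Polynomial.eval_prod]
      refine Finset.prod_eq_zero (Finset.mem_erase.2 ⟨hne, hc'⟩) ?_
      simp
    rw [h1, mul_zero]) (fun h => absurd hc h)] at h0
  rcases mul_eq_zero.1 h0 with h1 | h1
  · exact h1
  · exfalso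
    rw [hP, Polynomial.eval_prod, Finset.prod_eq_zero_iff] at h1
    obtain ⟨c', hc', h2⟩ := h1
    have h3 : x c = x c' := by
      simpa [sub_eq_zero] using h2
    exact (Finset.mem_erase.1 hc').1 (hx _ _ h3).symm

end Pool.Agent.MP8f11b1
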