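import Pool.Agent.Lib.MP_8f11b1_co_DU.Gen

set_option autoImplicit false

namespace Pool.Agent.MP8f11b1

variable {L V : Type} [Field L] [AddCommGroup V] [Module L V]

/-- `M` with two further vectors `x`, `p` -/
def withXP {g : ℕ} (x p : V) (M : Fin g → V) : Bool ⊕ Fin g → V
  | .inl true => x
  | .inl false => p
  | .inr c => M c

private theorem notMem_aux {a g : ℕ} (M : Fin g → V)
    (hM : ∀ A : Set (Fin g), A.ncard ≤ a → LinearIndepOn L M A)
    {A : Set (Fin g)} (hA : A.ncard + 1 ≤ a) {c : Fin g} (hc : c ∉ A) :
    M c ∉ Submodule.span L (M '' A) := by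
  have h1 := hM (insert c A) (by rw [Set.ncard_insert_of_notMem hc]; exact hA)
  exact ((linearIndepOn_insert hc).1 h1).2

private theorem not_le_aux {a g : ℕ} (M : Fin g → V)
    (hM : ∀ A : Set (Fin g), A.ncard ≤ a → LinearIndepOn L M A)
    {A A' : Set (Fin g)} (hA : A.ncard + 1 ≤ a) (hA' : A'.ncard + 1 = a) (hne : A ≠ A') :
    ¬ Submodule.span L (M '' A') ≤ Submodule.span L (M '' A) := by
  intro hle
  have h1 : ¬ A' ⊆ A := by
    intro hs
    apply hne
    exact (Set.eq_of_subset_of_ncard_le hs (by omega) (Set.toFinite A)).symm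
  obtain ⟨c, hc, hcA⟩ := Set.not_subset.1 h1
  exact notMem_aux M hM hA hcA (hle (Submodule.subset_span ⟨c, hc, rfl⟩))

theorem genA [Infinite L] [FiniteDimensional L V] {a g : ℕ} (ha : 2 ≤ a)
    (hV : Module.finrank L V = a) (M : Fin g → V)
    (hM : ∀ A : Set (Fin g), A.ncard ≤ a → LinearIndepOn L M A)
    (T₀ T₁ : Set (Fin g)) (hT₀ : T₀.ncard + 1 = a) (hT₁ : T₁.ncard + 1 = a) (hT : T₀ ≠ T₁) :
    ∃ x p : V, x ∈ Submodule.span L (M '' T₀) ∧ x + p ∈ Submodule.span L (M '' T₁) ∧
      ∀ B : Set (Bool ⊕ Fin g), B.ncard ≤ a → B ≠ insert (Sum.inl true) (Sum.inr '' T₀) →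
        LinearIndepOn L (withXP x p M) B := by
  obtain ⟨x, hx, hx'⟩ := gen_step (Submodule.span L (M '' T₀)) (Set.range M) (Set.finite_range M)
  have hxA : ∀ A : Set (Fin g), A.ncard + 1 ≤ a → A ≠ T₀ →
      x ∉ Submodule.span L (M '' A) := fun A h1 h2 =>
    hx' _ (Set.image_subset_range M A) (not_le_aux M hM h1 hT₀ h2)
  obtain ⟨y, hy, hy'⟩ := gen_step (Submodule.span L (M '' T₁)) (insert x (Set.range M))
    ((Set.finite_range M).insert x)
  have hyA : ∀ A : Set (Fin g), A.ncard + 1 ≤ a → A ≠ T₁ →
      y ∉ Submodule.span L (M '' A) := fun A h1 h2 =>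
    hy' _ ((Set.image_subset_range M A).trans (Set.subset_insert _ _))
      (not_le_aux M hM h1 hT₁ h2)
  have himg : ∀ (p : V) (A : Set (Fin g)), withXP x p M '' (Sum.inr '' A) = M '' A := by
    intro p A
    rw [Set.image_image]
    rfl
  have hinr : ∀ (p : V) (A : Set (Fin g)), A.ncard ≤ a →
      LinearIndepOn L (withXP x p M) (Sum.inr '' A) := by
    intro p A hA
    apply LinearIndepOn.image_of_comp
    exact hM A hA
  have hnotr : ∀ (b : Bool) (A : Set (Fin g)),
      (Sum.inl b : Bool ⊕ Fin g) ∉ (Sum.inr '' A : Set (Bool ⊕ Fin g)) := by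
    rintro b A ⟨c, -, h⟩
    exact absurd h (by simp)
  have hxI : ∀ (p : V) (A : Set (Fin g)), A.ncard + 1 ≤ a → A ≠ T₀ →
      LinearIndepOn L (withXP x p M) (insert (Sum.inl true) (Sum.inr '' A)) := by
    intro p A h1 h2
    rw [linearIndepOn_insert (hnotr true A), himg]
    exact ⟨hinr p A (by omega), hxA A h1 h2⟩
  have hyx : ∀ A : Set (Fin g), A.ncard + 2 ≤ a →
      y ∉ Submodule.span L (insert x (M '' A)) := by
    intro A hA
    apply hy' _ (Set.insert_subset_insert (Set.image_subset_range M A))
    intro hle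
    have hAT : A ≠ T₀ := by rintro rfl; omega
    have h1 := lin_finrank_span (F := L) _ (hxI x A (by omega) hAT) (Set.toFinite _)
    rw [Set.image_insert_eq, himg, Set.ncard_insert_of_notMem (hnotr true A),
      Set.ncard_image_of_injective _ Sum.inr_injective] at h1
    have h2 := lin_finrank_span (F := L) _ (hM T₁ (by omega)) (Set.toFinite _)
    have h3 : Submodule.span L (M '' T₁) = Submodule.span L (insert x (M '' A)) := by
      apply Submodule.eq_of_le_of_finrank_le hle
      rw [h2]
      have h4 : withXP x x M (Sum.inl true) = x := rfl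
      rw [h4] at h1
      rw [h1]
      omega
    apply hxA T₁ (by omega) (Ne.symm hT)
    rw [h3]
    exact Submodule.subset_span (Set.mem_insert _ _)
  -- the bad values of `k`
  have hbad : Set.Finite (⋃ A : Set (Fin g),
      {k : L | y ∉ Submodule.span L (M '' A) ∧ k • y - x ∈ Submodule.span L (M '' A)}) := by
    apply Set.finite_iUnion
    intro A
    apply Set.Subsingleton.finite
    rintro k ⟨hk1, hk2⟩ k' ⟨-, hk2'⟩
    by_contra hne
    apply hk1
    have h1 := Submodule.sub_mem _ hk2 hk2'
    have h2 : k • y - x - (k' • y - x) = (k - k') • y := by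
      rw [sub_smul]; abel
    rw [h2] at h1
    exact (Submodule.smul_mem_iff _ (sub_ne_zero.2 hne)).1 h1
  obtain ⟨k, hk⟩ := (hbad.union (Set.finite_singleton (0 : L))).infinite_compl.nonempty
  have hk0 : k ≠ 0 := fun h => hk (Or.inr h)
  have hkA : ∀ A : Set (Fin g), y ∉ Submodule.span L (M '' A) →
      k • y - x ∉ Submodule.span L (M '' A) := by
    intro A h1 h2
    exact hk (Or.inl (Set.mem_iUnion.2 ⟨A, h1, h2⟩))
  refine ⟨x, k • y - x, hx, ?_, ?_⟩
  · rw [add_sub_cancel]
    exact Submodule.smul_mem _ _ hy
  · intro B hB hBne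
    set p := k • y - x with hp
    set A : Set (Fin g) := Sum.inr ⁻¹' B with hA
    by_cases hbt : (Sum.inl true : Bool ⊕ Fin g) ∈ B <;>
      by_cases hbf : (Sum.inl false : Bool ⊕ Fin g) ∈ B
    · have hBe : B = insert (Sum.inl false) (insert (Sum.inl true) (Sum.inr '' A)) := by
        ext z
        rcases z with (_ | _) | c <;> simp [hbt, hbf, hA]
      have hnf : (Sum.inl false : Bool ⊕ Fin g) ∉
          (insert (Sum.inl true) (Sum.inr '' A) : Set (Bool ⊕ Fin g)) := by
        simp
      have hc : A.ncard + 2 ≤ a := by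
        rw [hBe, Set.ncard_insert_of_notMem hnf, Set.ncard_insert_of_notMem (hnotr true A),
          Set.ncard_image_of_injective _ Sum.inr_injective] at hB
        exact hB
      have hAT : A ≠ T₀ := by
        intro h
        rw [h] at hc
        omega
      rw [hBe, linearIndepOn_insert hnf]
      refine ⟨hxI p A (by omega) hAT, ?_⟩
      rw [Set.image_insert_eq, himg]
      intro hmem
      apply hyx A hc
      have h1 : x ∈ Submodule.span L (insert x (M '' A)) :=
        Submodule.subset_span (Set.mem_insert _ _)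
      have h2 : k • y ∈ Submodule.span L (insert x (M '' A)) := by
        have h3 : k • y = p + x := by rw [hp]; abel
        rw [h3]
        exact Submodule.add_mem _ hmem h1
      exact (Submodule.smul_mem_iff _ hk0).1 h2
    · have hBe : B = insert (Sum.inl true) (Sum.inr '' A) := by
        ext z
        rcases z with (_ | _) | c <;> simp [hbt, hbf, hA]
      have hc : A.ncard + 1 ≤ a := by
        rw [hBe, Set.ncard_insert_of_notMem (hnotr true A),
          Set.ncard_image_of_injective _ Sum.inr_injective] at hB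
        exact hB
      rw [hBe]
      apply hxI p A hc
      intro h
      apply hBne
      rw [hBe, h]
    · have hBe : B = insert (Sum.inl false) (Sum.inr '' A) := by
        ext z
        rcases z with (_ | _) | c <;> simp [hbt, hbf, hA]
      have hc : A.ncard + 1 ≤ a := by
        rw [hBe, Set.ncard_insert_of_notMem (hnotr false A),
          Set.ncard_image_of_injective _ Sum.inr_injective] at hB
        exact hB
      rw [hBe, linearIndepOn_insert (hnotr false A), himg]
      refine ⟨hinr p A (by omega), ?_⟩
      intro hmem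
      by_cases hyy : y ∈ Submodule.span L (M '' A)
      · have h1 : A = T₁ := by
          by_contra hne
          exact hyA A hc hne hyy
        have h2 : x ∈ Submodule.span L (M '' A) := by
          have h3 : x = k • y - p := by rw [hp]; abel
          rw [h3]
          exact Submodule.sub_mem _ (Submodule.smul_mem _ _ hyy) hmem
        have h3 : A = T₀ := by
          by_contra hne
          exact hxA A hc hne h2
        exact hT (h3.symm.trans h1)
      · exact hkA A hyy hmem
    · have hBe : B = Sum.inr '' A := by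
        ext z
        rcases z with (_ | _) | c <;> simp [hbt, hbf, hA]
      have hc : A.ncard ≤ a := by
        rw [hBe, Set.ncard_image_of_injective _ Sum.inr_injective] at hB
        exact hB
      rw [hBe]
      exact hinr p A hc

end Pool.Agent.MP8f11b1
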