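import Pool.Agent.Lib.MP_8f11b1_co_DU.Defs
import Pool.Agent.Lib.MP_8f11b1_co_RX.Lin

set_option autoImplicit false

namespace Pool.Agent.MP8f11b1

variable {L : Type} [Field L] [Algebra (ZMod 2) L] {r m g s : ℕ}

namespace Oth2

/-- the elements of the rich part -/
def NX (X : Set (G2 r m g)) : Set (G2 r m g) := {z | z ∈ X ∧ ∃ y : NB r, z = .inl (.inr y)}

/-- the elements of the small part -/
def GX (X : Set (G2 r m g)) : Set (G2 r m g) := {z | z ∈ X ∧ ∃ c : Fin g, z = .inr c}

theorem sub_union (X : Set (G2 r m g)) : X \ PathS ⊆ NX X ∪ GX X := by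
  rintro z ⟨hz, hp⟩
  rcases z with (z | z) | z
  · exact absurd ⟨z, rfl⟩ hp
  · exact Or.inl ⟨hz, z, rfl⟩
  · exact Or.inr ⟨hz, z, rfl⟩

theorem gx_card (X : Set (G2 r m g)) : (GX X).ncard ≤ g := by
  have h1 : GX X ⊆ Set.range (Sum.inr : Fin g → G2 r m g) := by
    rintro z ⟨_, c, rfl⟩
    exact ⟨c, rfl⟩
  refine (Set.ncard_le_ncard h1 (Set.toFinite _)).trans ?_
  rw [← Set.image_univ]
  refine (Set.ncard_image_le (Set.toFinite _)).trans ?_
  rw [Set.ncard_univ, Nat.card_eq_fintype_card, Fintype.card_fin]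

theorem card_le (X : Set (G2 r m g)) {b : ℕ} (h : (NX X).ncard ≤ b) :
    (X \ PathS).ncard ≤ b + g := by
  refine (Set.ncard_le_ncard (sub_union X) (Set.toFinite _)).trans ?_
  exact (Set.ncard_union_le _ _).trans (add_le_add h (gx_card X))

theorem cst_inj {h h' : Fin r → ZMod 2} (he : (cst h : Fin r → L) = cst h') : h = h' := by
  funext i
  exact (algebraMap (ZMod 2) L).injective (congrFun he i)

end Oth2

theorem oth2 (gam : Fin g → ZZ L s) (X : Set (G2 r m g))
    (hX : LinearIndepOn L (f2 gam : G2 r m g → V2 L r m s) X) :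
    (X \ PathS).ncard ≤ r + 2 + g := by
  classical
  refine Oth2.card_le X ?_
  have h1 : LinearIndepOn L (f2 gam : G2 r m g → V2 L r m s) (Oth2.NX X) :=
    hX.mono fun z hz => hz.1
  rw [← lin_finrank_span _ h1 (Set.toFinite _)]
  let ψ : (L × WW L r) →ₗ[L] V2 L r m s :=
    { toFun := fun p => (p.1 • dl (2 * m), p.2, 0)
      map_add' := fun p q => by
        refine Prod.ext ?_ (Prod.ext ?_ ?_)
        · exact add_smul _ _ _
        · rfl
        · exact (add_zero 0).symm
      map_smul' := fun c p => by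
        refine Prod.ext ?_ (Prod.ext ?_ ?_)
        · exact mul_smul _ _ _
        · rfl
        · exact (smul_zero c).symm }
  have hψ : ∀ p, ψ p = (p.1 • dl (2 * m), p.2, 0) := fun p => rfl
  have h2 : Submodule.span L ((f2 gam : G2 r m g → V2 L r m s) '' Oth2.NX X) ≤
      LinearMap.range ψ := by
    rw [Submodule.span_le]
    rintro _ ⟨z, ⟨_, y, rfl⟩, rfl⟩
    rcases y with i | h
    · refine ⟨(0, (Pi.single i 1, 0)), ?_⟩
      rw [hψ, zero_smul]
      rfl
    · by_cases hh : h ∈ SS2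
      · refine ⟨(1, (cst h, 1)), ?_⟩
        rw [hψ, one_smul]
        simp only [f2]
        rw [if_pos hh]
      · refine ⟨(0, (cst h, 1)), ?_⟩
        rw [hψ, zero_smul]
        simp only [f2]
        rw [if_neg hh]
  refine (Submodule.finrank_mono h2).trans ((LinearMap.finrank_range_le ψ).trans ?_)
  rw [Module.finrank_prod, Module.finrank_prod, Module.finrank_self, Module.finrank_fin_fun]
  omega

theorem oth3 (gam : Fin g → ZZ L s) (X : Set (G2 r m g))
    (h : ∀ w : WW L r, ((0, w, 0) : V2 L r m s) ∈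
      Submodule.span L ((f2 gam : G2 r m g → V2 L r m s) '' X) → w = 0) :
    (X \ PathS).ncard ≤ g + 1 := by
  classical
  rw [add_comm]
  refine Oth2.card_le X ?_
  rw [Set.ncard_le_one (Set.toFinite _)]
  have key : ∀ z ∈ Oth2.NX X, ∃ h : Fin r → ZMod 2, h ∈ SS2 ∧ z = .inl (.inr (.inr h)) := by
    rintro z ⟨hz, y, rfl⟩
    have hz' : f2 gam (.inl (.inr y)) ∈ Submodule.span L
      ((f2 gam : G2 r m g → V2 L r m s) '' X) := Submodule.subset_span ⟨_, hz, rfl⟩
    rcases y with i | h'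
    · exfalso
      have h1 := h (Pi.single i 1, 0) hz'
      have h2 := congrFun (congrArg Prod.fst h1) i
      simp at h2
    · refine ⟨h', ?_, rfl⟩
      by_contra hh
      simp only [f2] at hz'
      rw [if_neg hh] at hz'
      have h1 := h (cst h', 1) hz'
      have h2 := congrArg Prod.snd h1
      simp at h2
  intro a ha b hb
  obtain ⟨h1, hh1, rfl⟩ := key a ha
  obtain ⟨h2, hh2, rfl⟩ := key b hb
  have h3 : f2 gam (.inl (.inr (.inr h1))) ∈ Submodule.span L
      ((f2 gam : G2 r m g → V2 L r m s) '' X) := Submodule.subset_span ⟨_, ha.1, rfl⟩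
  have h4 : f2 gam (.inl (.inr (.inr h2))) ∈ Submodule.span L
      ((f2 gam : G2 r m g → V2 L r m s) '' X) := Submodule.subset_span ⟨_, hb.1, rfl⟩
  have h5 := Submodule.sub_mem _ h3 h4
  simp only [f2] at h5
  rw [if_pos hh1, if_pos hh2] at h5
  have h6 : ((dl (2 * m), (cst h1, 1), 0) - (dl (2 * m), (cst h2, 1), 0) : V2 L r m s) =
      (0, (cst h1 - cst h2, 0), 0) := by
    refine Prod.ext ?_ (Prod.ext (Prod.ext ?_ ?_) ?_)
    · exact sub_self _
    · rfl
    · exact sub_self _
    · exact sub_self _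
  rw [h6] at h5
  have h7 := congrArg Prod.fst (h _ h5)
  have h8 : (cst h1 : Fin r → L) = cst h2 := sub_eq_zero.1 h7
  rw [Oth2.cst_inj h8]

end Pool.Agent.MP8f11b1
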