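import Pool.Agent.Lib.MP_8f11b1_co_DU.Defs
import Pool.Agent.Lib.MP_8f11b1_co_RX.Lin

set_option autoImplicit false

namespace Pool.Agent.MP8f11b1

section pot2aux

variable {F Q : Type} [Field F] [AddCommGroup Q] [Module F Q]

open scoped Classical in
private noncomputable def sg2 (F : Type) [Field F] {Vt : Type} : Option Vt → (Vt → F)
  | none => 0
  | some v => Pi.single v 1

open scoped Classical in
private noncomputable def chi2 {Vt R : Type} [Fintype Vt] (q : Option Vt → R) (T : Set R) :
    (Vt → F) →ₗ[F] (T → F) where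
  toFun y := fun t => ∑ v, if q (some v) = t then y v else 0
  map_add' y z := by
    funext t
    simp only [Pi.add_apply]
    rw [← Finset.sum_add_distrib]
    refine Finset.sum_congr rfl fun v _ => ?_
    split_ifs <;> simp
  map_smul' a y := by
    funext t
    simp only [Pi.smul_apply, smul_eq_mul, RingHom.id_apply, Finset.mul_sum]
    refine Finset.sum_congr rfl fun v _ => ?_
    split_ifs <;> simp

open scoped Classical in
private theorem chi2_sg {Vt R : Type} [Fintype Vt] (q : Option Vt → R) (T : Set R)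
    (hT : q none ∉ T) (o : Option Vt) (t : T) :
    chi2 (F := F) q T (sg2 F o) t = if q o = t then 1 else 0 := by
  rcases o with _ | v
  · have : q none ≠ t := fun h => hT (h ▸ t.2)
    simp [sg2, this]
  · simp only [chi2, sg2, LinearMap.coe_mk, AddHom.coe_mk]
    rw [Finset.sum_eq_single v]
    · simp
    · intro b _ hb
      simp [Pi.single_apply, hb]
    · intro h
      exact absurd (Finset.mem_univ v) h

private theorem graph_aux2 {Vt α : Type} [Fintype Vt] (q : Option Vt → Q)
    (hq : q none = 0) (hd tl : α → Option Vt) (I : Set α)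
    (hI : LinearIndepOn F (fun c => sg2 F (hd c) - sg2 F (tl c)) I)
    (h : ∀ c ∈ I, q (hd c) = q (tl c)) :
    I.ncard + (Set.range q \ {0}).ncard ≤ Fintype.card Vt := by
  classical
  set T : Set Q := Set.range q \ {0} with hTdef
  have hTfin : T.Finite := Set.toFinite _
  have hT0 : q none ∉ T := by
    rw [hq]
    exact fun h => h.2 rfl
  have : Fintype T := hTfin.fintype
  have hsurj : Function.Surjective (chi2 (F := F) q T) := by
    intro g
    have hs : ∀ t : T, ∃ v : Vt, q (some v) = t := by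
      rintro ⟨t, ⟨o, rfl⟩, h2⟩
      rcases o with _ | v
      · exact absurd hq h2
      · exact ⟨v, rfl⟩
    choose s hs using hs
    refine ⟨∑ t : T, g t • sg2 F (some (s t)), ?_⟩
    rw [map_sum]
    funext t
    rw [Finset.sum_apply, Finset.sum_eq_single t]
    · rw [map_smul, Pi.smul_apply, chi2_sg q T hT0, if_pos (hs t)]
      simp
    · intro b _ hb
      rw [map_smul, Pi.smul_apply, chi2_sg q T hT0, hs b, if_neg (fun h => hb (Subtype.ext h))]
      simp
    · intro h
      exact absurd (Finset.mem_univ t) h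
  have hle : Submodule.span F ((fun c => sg2 F (hd c) - sg2 F (tl c)) '' I) ≤
      LinearMap.ker (chi2 (F := F) q T) := by
    rw [Submodule.span_le]
    rintro _ ⟨c, hc, rfl⟩
    rw [SetLike.mem_coe, LinearMap.mem_ker]
    funext t
    rw [map_sub, Pi.sub_apply, chi2_sg q T hT0, chi2_sg q T hT0, h c hc]
    simp
  have hfin := (lin_ncard_le _ hI).1
  have h1 := Submodule.finrank_mono hle
  rw [lin_finrank_span _ hI hfin] at h1
  have h2 := LinearMap.finrank_range_add_finrank_ker (chi2 (F := F) q T)
  rw [LinearMap.range_eq_top.2 hsurj, finrank_top, Module.finrank_fintype_fun_eq_card,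
    Module.finrank_fintype_fun_eq_card, ← Nat.card_eq_fintype_card, Nat.card_coe_set_eq] at h2
  omega


end pot2aux

variable {L Q : Type} [Field L] [Algebra (ZMod 2) L] [AddCommGroup Q] [Module L Q] {r m g s : ℕ}

private abbrev Vt2 (m : ℕ) : Type := Fin (2 * m) ⊕ Bool

private noncomputable def PP2 : (Vt2 m → L) →ₗ[L] V2 L r m s where
  toFun y := (fun j => y (.inl j),
    -(y (.inr true) • (w0 : WW L r) + y (.inr false) • ((fun _ => 0, 1) : WW L r)), 0)
  map_add' y z := by
    refine Prod.ext (by funext j; simp) (Prod.ext ?_ (by simp))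
    simp only [Prod.snd_add, Prod.fst_add, Pi.add_apply, add_smul]
    abel
  map_smul' a y := by
    refine Prod.ext (by funext j; simp) (Prod.ext ?_ (by simp))
    simp only [Prod.smul_snd, Prod.smul_fst, Pi.smul_apply, RingHom.id_apply, smul_neg, smul_add,
      smul_smul, smul_eq_mul]

private theorem PP2_inl (j : Fin (2 * m)) :
    PP2 (r := r) (s := s) (sg2 L (some (.inl j : Vt2 m))) = (dl (j.val + 1), 0, 0) := by
  refine Prod.ext ?_ (Prod.ext ?_ rfl)
  · funext i
    simp [PP2, sg2, dl, Pi.single_apply, Fin.ext_iff]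
  · simp [PP2, sg2, Pi.single_apply]

private theorem PP2_true :
    PP2 (r := r) (s := s) (sg2 L (some (.inr true : Vt2 m))) = (0, -w0, 0) := by
  refine Prod.ext ?_ (Prod.ext ?_ rfl)
  · funext i
    simp [PP2, sg2, Pi.single_apply]
  · simp [PP2, sg2, Pi.single_apply]

private theorem PP2_false : PP2 (r := r) (s := s) (sg2 L (some (.inr false : Vt2 m))) =
    (0, -((fun _ => 0, 1) : WW L r), 0) := by
  refine Prod.ext ?_ (Prod.ext ?_ rfl)
  · funext i
    simp [PP2, sg2, Pi.single_apply]
  · simp [PP2, sg2, Pi.single_apply]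

private def hdv2 : Fin (2 * m) ⊕ Fin (2 * m) → Option (Vt2 m)
  | .inl i => some (.inl i)
  | .inr j => some (.inl j)

private def tlv2 : Fin (2 * m) ⊕ Fin (2 * m) → Option (Vt2 m)
  | .inl i => if i.val = 0 then none else some (.inl ⟨i.val - 1, by omega⟩)
  | .inr j => if Even j.val then some (.inr false) else some (.inr true)

private theorem f2_eq (gam : Fin g → ZZ L s) (c : Fin (2 * m) ⊕ Fin (2 * m)) :
    (f2 gam (Sum.inl (Sum.inl c) : G2 r m g) : V2 L r m s) =
      PP2 (sg2 L (hdv2 c) - sg2 L (tlv2 c)) := by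
  have : CharP L 2 := charP_of_injective_algebraMap (algebraMap (ZMod 2) L).injective 2
  rw [map_sub]
  rcases c with i | j
  · simp only [hdv2, tlv2, f2, PP2_inl]
    have hadd : (dl (i.val + 1) + dl i.val : Fin (2 * m) → L) = dl (i.val + 1) - dl i.val := by
      funext k
      rw [Pi.add_apply, Pi.sub_apply, CharTwo.sub_eq_add]
    rw [hadd]
    by_cases h : i.val = 0
    · rw [if_pos h]
      have : (dl i.val : Fin (2 * m) → L) = 0 := by
        funext k
        simp [dl, h]
      rw [this]
      simp [sg2]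
    · rw [if_neg h, PP2_inl]
      have : i.val - 1 + 1 = i.val := by omega
      simp only [this]
      simp
  · simp only [hdv2, tlv2, f2, PP2_inl, wk]
    by_cases h : Even j.val
    · rw [if_pos h, if_pos h, PP2_false]
      simp
    · rw [if_neg h, if_neg h, PP2_true]
      simp

theorem pot2 (hr : 1 ≤ r) (gam : Fin g → ZZ L s) (f : V2 L r m s →ₗ[L] Q)
    (X : Set (G2 r m g))
    (hX : LinearIndepOn L (f2 gam : G2 r m g → V2 L r m s) X)
    (h0 : ∀ x ∈ X, f (f2 gam x) = 0) (hc : X.ncard = 2 * m) :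
    (Set.range fun c : Fin (2 * m) ⊕ Fin (2 * m) => f (f2 gam (Sum.inl (Sum.inl c)))).ncard ≤
      ((X \ PathS).ncard + 3) ^ 2 := by
  classical
  have _ := hr
  have hinj : Function.Injective (fun c : Fin (2 * m) ⊕ Fin (2 * m) =>
      (Sum.inl (Sum.inl c) : G2 r m g)) := fun a b h => Sum.inl_injective (Sum.inl_injective h)
  have hXf : X.Finite := (lin_ncard_le _ hX).1
  set q : Option (Vt2 m) → Q := fun o => f (PP2 (sg2 L o)) with hq
  have hLq : ∀ c : Fin (2 * m) ⊕ Fin (2 * m),
      f (f2 gam (Sum.inl (Sum.inl c) : G2 r m g)) = q (hdv2 c) - q (tlv2 c) := by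
    intro c
    rw [f2_eq, map_sub, map_sub]
  set I : Set (Fin (2 * m) ⊕ Fin (2 * m)) := {c | (Sum.inl (Sum.inl c) : G2 r m g) ∈ X}
    with hIdef
  have hI1 : LinearIndepOn L
      (fun c : Fin (2 * m) ⊕ Fin (2 * m) =>
        (f2 gam (Sum.inl (Sum.inl c) : G2 r m g) : V2 L r m s)) I := by
    have := LinearIndependent.comp hX
      (fun c : I => (⟨(Sum.inl (Sum.inl c.1) : G2 r m g), c.2⟩ : X))
      (by
        intro a b hab
        have h1 := congrArg Subtype.val hab
        exact Subtype.ext (hinj h1))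
    exact this
  have hI : LinearIndepOn L
      (fun c : Fin (2 * m) ⊕ Fin (2 * m) => sg2 L (hdv2 c) - sg2 L (tlv2 c)) I := by
    refine LinearIndependent.of_comp (PP2 (L := L) (r := r) (m := m) (s := s)) ?_
    have h2 : (⇑(PP2 (L := L) (r := r) (m := m) (s := s)) ∘
        fun c : I => sg2 L (hdv2 c.1) - sg2 L (tlv2 c.1)) =
        fun c : I => (f2 gam (Sum.inl (Sum.inl c.1) : G2 r m g) : V2 L r m s) := by
      funext c
      exact (f2_eq gam c.1).symm
    rw [h2]
    exact hI1
  have hg := graph_aux2 (F := L) q (by simp [hq, sg2]) hdv2 tlv2 I hI (by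
    intro c hc
    have := h0 _ hc
    rw [hLq c] at this
    exact sub_eq_zero.1 this)
  have hPath : (PathS : Set (G2 r m g)) = Set.range (fun c : Fin (2 * m) ⊕ Fin (2 * m) =>
      (Sum.inl (Sum.inl c) : G2 r m g)) := rfl
  have hcI : I.ncard = (X ∩ PathS).ncard := by
    rw [hPath, ← Set.image_preimage_eq_inter_range,
      Set.ncard_image_of_injective _ hinj]
    rfl
  have hsum := Set.ncard_inter_add_ncard_diff_eq_ncard X (PathS : Set (G2 r m g)) hXf
  have hVt : Fintype.card (Vt2 m) = 2 * m + 2 := by simp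
  have hT : (Set.range q).ncard ≤ (X \ PathS).ncard + 3 := by
    have h1 : (Set.range q).ncard ≤ (Set.range q \ {0}).ncard + 1 := by
      have := Set.ncard_le_ncard_diff_add_ncard (Set.range q) {0} (Set.toFinite _)
      rw [Set.ncard_singleton] at this
      exact this
    omega
  have hsub : (Set.range fun c : Fin (2 * m) ⊕ Fin (2 * m) =>
      f (f2 gam (Sum.inl (Sum.inl c) : G2 r m g))) ⊆
      (fun z : Q × Q => z.1 - z.2) '' (Set.range q ×ˢ Set.range q) := by
    rintro _ ⟨c, rfl⟩
    exact ⟨(q (hdv2 c), q (tlv2 c)), ⟨⟨_, rfl⟩, ⟨_, rfl⟩⟩, (hLq c).symm⟩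
  have hfinq : (Set.range q).Finite := Set.toFinite _
  calc (Set.range fun c : Fin (2 * m) ⊕ Fin (2 * m) =>
        f (f2 gam (Sum.inl (Sum.inl c) : G2 r m g))).ncard
      ≤ ((fun z : Q × Q => z.1 - z.2) '' (Set.range q ×ˢ Set.range q)).ncard :=
        Set.ncard_le_ncard hsub ((hfinq.prod hfinq).image _)
    _ ≤ (Set.range q ×ˢ Set.range q).ncard := Set.ncard_image_le (hfinq.prod hfinq)
    _ = (Set.range q).ncard ^ 2 := by rw [Set.ncard_prod, sq]
    _ ≤ _ := Nat.pow_le_pow_left hT 2

end Pool.Agent.MP8f11b1
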