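import Pool.Agent.Lib.MP_8f11b1_co_DU.Defs
import Pool.Agent.Lib.MP_8f11b1_co_RX.Lin

set_option autoImplicit false

namespace Pool.Agent.MP8f11b1

variable {L : Type} [Field L] [Algebra (ZMod 2) L] {r : ℕ}

/-- an element of a field extension can be separated from another one by a functional -/
theorem exists_sep {x y : L} (hx : x ≠ 0) (hxy : x ≠ y) :
    ∃ f : L →ₗ[ZMod 2] ZMod 2, f x = 1 ∧ f y = 0 := by
  have hmem : x ∉ Submodule.span (ZMod 2) {y} := by
    rw [Submodule.mem_span_singleton]
    rintro ⟨a, ha⟩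
    have h01 : ∀ a : ZMod 2, a = 0 ∨ a = 1 := by decide
    rcases h01 a with rfl | rfl
    · rw [zero_smul] at ha
      exact hx ha.symm
    · rw [one_smul] at ha
      exact hxy ha.symm
  obtain ⟨f, hf, hf0⟩ := Submodule.exists_dual_map_eq_bot_of_notMem hmem inferInstance
  refine ⟨f, ?_, ?_⟩
  · have h01 : ∀ a : ZMod 2, a ≠ 0 → a = 1 := by decide
    exact h01 _ hf
  · have h1 : f y ∈ Submodule.map f (Submodule.span (ZMod 2) {y}) :=
      ⟨y, Submodule.mem_span_singleton_self y, rfl⟩
    rw [hf0, Submodule.mem_bot] at h1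
    exact h1

private theorem rat2_smul (f : L →ₗ[ZMod 2] ZMod 2) (a : ZMod 2) (x : L) :
    f (x * algebraMap (ZMod 2) L a) = f x * a := by
  rw [mul_comm, ← Algebra.smul_def, map_smul, smul_eq_mul, mul_comm]

/-- applying a functional to a relation between rational vectors -/
private theorem rat2_app {n : ℕ} (f : L →ₗ[ZMod 2] ZMod 2) (x : Fin n → L)
    (t : Fin n → (Fin r → ZMod 2))
    (h : ∑ i, x i • ((cst (t i), 1) : WW L r) = 0) :
    ∑ i, f (x i) • t i = 0 ∧ ∑ i, f (x i) = 0 := by
  have h1 : ∑ i, x i • (cst (t i) : Fin r → L) = 0 := by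
    have := congrArg Prod.fst h
    rw [Prod.fst_sum] at this
    exact this
  have h2 : ∑ i, x i = 0 := by
    have := congrArg Prod.snd h
    rw [Prod.snd_sum] at this
    simpa using this
  constructor
  · funext j
    have h3 := congrFun h1 j
    rw [Finset.sum_apply] at h3 ⊢
    have h4 := congrArg f h3
    rw [map_sum, Pi.zero_apply, map_zero] at h4
    rw [Pi.zero_apply, ← h4]
    refine Finset.sum_congr rfl fun i _ => ?_
    exact (rat2_smul f (t i j) (x i)).symm
  · rw [← map_sum, h2, map_zero]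

/-- affinely independent vectors over the field with two elements -/
private theorem rat2_base {n : ℕ} (q : Fin n → (Fin r → ZMod 2))
    (hq : ∀ α : Fin n → ZMod 2, ∑ i, α i • q i = 0 → ∑ i, α i = 0 → ∀ i, α i = 0) :
    LinearIndependent L (fun i => ((cst (q i), 1) : WW L r)) := by
  rw [Fintype.linearIndependent_iff]
  intro x hx i
  by_contra hne
  obtain ⟨f, hf, -⟩ := exists_sep hne hne
  have h1 := rat2_app f x q hx
  have h2 := hq (fun i => f (x i)) h1.1 h1.2 i
  rw [hf] at h2
  exact one_ne_zero h2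

private theorem rat2_iff (G' : NB r → WW L r)
    (hG : ∀ B : Set (NB r), LinearIndepOn L (vecB : NB r → WW L r) B ↔ LinearIndepOn L G' B)
    {n : ℕ} (q : Fin n → (Fin r → ZMod 2)) (hq : Function.Injective q) :
    LinearIndependent L (fun i => ((cst (q i), 1) : WW L r)) ↔
      LinearIndependent L (fun i => G' (Sum.inr (q i))) := by
  have hinj : Function.Injective (fun i => (Sum.inr (q i) : NB r)) :=
    Sum.inr_injective.comp hq
  have h1 := hG (Set.range fun i => (Sum.inr (q i) : NB r))
  rw [linearIndepOn_range_iff hinj, linearIndepOn_range_iff hinj] at h1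
  exact h1

private theorem rat2_char (a : ZMod 2) : a + a = 0 := by
  revert a; decide

private theorem rat2_charv (a : Fin r → ZMod 2) : a + a = 0 := by
  funext i
  exact rat2_char (a i)

private theorem rat2_ind (G' : NB r → WW L r)
    (hG : ∀ B : Set (NB r), LinearIndepOn L (vecB : NB r → WW L r) B ↔ LinearIndepOn L G' B)
    {n : ℕ} (q : Fin n → (Fin r → ZMod 2))
    (hq : ∀ α : Fin n → ZMod 2, ∑ i, α i • q i = 0 → ∑ i, α i = 0 → ∀ i, α i = 0) :
    LinearIndependent L (fun i => G' (Sum.inr (q i))) := by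
  refine (rat2_iff G' hG q ?_).1 (rat2_base q hq)
  intro i j hij
  by_contra hne
  have h1 := hq (Pi.single i 1 + Pi.single j 1) (by
    simp only [Pi.add_apply, add_smul, Finset.sum_add_distrib, Pi.single_apply, ite_smul,
      one_smul, zero_smul, Finset.sum_ite_eq', Finset.mem_univ, if_true]
    rw [hij]
    exact rat2_charv _) (by
    simp only [Pi.add_apply, Finset.sum_add_distrib, Pi.single_apply, Finset.sum_ite_eq',
      Finset.mem_univ, if_true]
    exact rat2_char 1) i
  rw [Pi.add_apply, Pi.single_eq_same, Pi.single_eq_of_ne hne, add_zero] at h1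
  exact one_ne_zero h1

private theorem rat2_comb (h u v : Fin r → ZMod 2) (a b c d : ZMod 2) :
    a • h + b • (h + u) + c • (h + v) + d • (h + u + v) =
      (a + b + c + d) • h + ((b + d) • u + (c + d) • v) := by
  module

/-- four elements of a plane -/
private theorem rat2_plane (G' : NB r → WW L r)
    (hG : ∀ B : Set (NB r), LinearIndepOn L (vecB : NB r → WW L r) B ↔ LinearIndepOn L G' B)
    (h u v : Fin r → ZMod 2)
    (huv : ∀ a b : ZMod 2, a • u + b • v = 0 → a = 0 ∧ b = 0) :
    ∃ a1 a2 a3 : L, a1 ≠ 0 ∧ G' (Sum.inr h) = a1 • G' (Sum.inr (h + u)) +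
      a2 • G' (Sum.inr (h + v)) + a3 • G' (Sum.inr (h + u + v)) := by
  have hz : ∀ a b c : ZMod 2, a + b + c = 0 → a + c = 0 → b + c = 0 → a = 0 ∧ b = 0 ∧ c = 0 := by
    decide
  have hz' : ∀ a b c : ZMod 2, a + b + c = 0 → c = 0 → b + c = 0 → a = 0 ∧ b = 0 ∧ c = 0 := by
    decide
  have hind3 : LinearIndependent L (fun i => G' (Sum.inr (![h + u, h + v, h + u + v] i))) := by
    refine rat2_ind G' hG _ fun α h1 h2 => ?_
    rw [Fin.sum_univ_three] at h1 h2
    simp only [Matrix.cons_val_zero, Matrix.cons_val_one, Matrix.cons_val] at h1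
    have h3 := rat2_comb h u v 0 (α 0) (α 1) (α 2)
    rw [zero_smul, zero_add, h1, zero_add, h2, zero_smul, zero_add] at h3
    obtain ⟨h4, h5⟩ := huv _ _ h3.symm
    obtain ⟨e0, e1, e2⟩ := hz _ _ _ h2 h4 h5
    intro i
    fin_cases i
    · exact e0
    · exact e1
    · exact e2
  have hind3' : LinearIndependent L (fun i => G' (Sum.inr (![h, h + v, h + u + v] i))) := by
    refine rat2_ind G' hG _ fun α h1 h2 => ?_
    rw [Fin.sum_univ_three] at h1 h2
    simp only [Matrix.cons_val_zero, Matrix.cons_val_one, Matrix.cons_val] at h1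
    have h3 := rat2_comb h u v (α 0) 0 (α 1) (α 2)
    rw [zero_smul, add_zero, h1, add_zero, h2, zero_smul, zero_add, zero_add] at h3
    obtain ⟨h4, h5⟩ := huv _ _ h3.symm
    obtain ⟨e0, e1, e2⟩ := hz' _ _ _ h2 h4 h5
    intro i
    fin_cases i
    · exact e0
    · exact e1
    · exact e2
  have hdep : ¬ LinearIndependent L
      (fun i => G' (Sum.inr (![h, h + u, h + v, h + u + v] i))) := by
    have hu0 : u ≠ 0 := by
      intro hu
      have := (huv 1 0 (by rw [hu, smul_zero, zero_smul, add_zero])).1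
      exact one_ne_zero this
    have hv0 : v ≠ 0 := by
      intro hv
      have := (huv 0 1 (by rw [hv, smul_zero, zero_smul, add_zero])).2
      exact one_ne_zero this
    have huv0 : u ≠ v := by
      intro hv
      have := (huv 1 1 (by rw [hv, one_smul]; exact rat2_charv v)).2
      exact one_ne_zero this
    have huv1 : u + v ≠ 0 := by
      intro hv
      have := (huv 1 1 (by rw [one_smul, one_smul]; exact hv)).2
      exact one_ne_zero this
    have hinj : Function.Injective ![h, h + u, h + v, h + u + v] := by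
      have e1 : h ≠ h + u := fun e => hu0 (by simpa using e)
      have e2 : h ≠ h + v := fun e => hv0 (by simpa using e)
      have e3 : h ≠ h + u + v := fun e => huv1 (by rw [add_assoc] at e; simpa using e)
      have e4 : h + u ≠ h + v := fun e => huv0 (add_left_cancel e)
      have e5 : h + u ≠ h + u + v := fun e => hv0 (by simpa using e)
      have e6 : h + v ≠ h + u + v := fun e => hu0 (by
        rw [add_right_comm] at e; simpa using e)
      intro i j hij
      fin_cases i <;> fin_cases j <;> first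
        | rfl
        | exact absurd hij e1
        | exact absurd hij e2
        | exact absurd hij e3
        | exact absurd hij e4
        | exact absurd hij e5
        | exact absurd hij e6
        | exact absurd hij.symm e1
        | exact absurd hij.symm e2
        | exact absurd hij.symm e3
        | exact absurd hij.symm e4
        | exact absurd hij.symm e5
        | exact absurd hij.symm e6
    rw [← rat2_iff G' hG _ hinj, Fintype.linearIndependent_iff]
    intro hall
    refine one_ne_zero (hall (fun _ => 1) ?_ 0)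
    rw [Fin.sum_univ_four]
    simp only [Matrix.cons_val_zero, Matrix.cons_val_one, Matrix.cons_val, one_smul]
    have hL : (1 : L) + 1 = 0 := by
      have := congrArg (algebraMap (ZMod 2) L) (rat2_char 1)
      simpa using this
    refine Prod.ext ?_ ?_
    · funext i
      change algebraMap (ZMod 2) L (h i) + algebraMap (ZMod 2) L (h i + u i) +
        algebraMap (ZMod 2) L (h i + v i) + algebraMap (ZMod 2) L (h i + u i + v i) = 0
      rw [← map_add, ← map_add, ← map_add]
      have h01 : ∀ a b c : ZMod 2, a + (a + b) + (a + c) + (a + b + c) = 0 := by decide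
      rw [h01, map_zero]
    · change (1 : L) + 1 + 1 + 1 = 0
      rw [hL, zero_add, hL]
  have hmem : G' (Sum.inr h) ∈ Submodule.span L
      (Set.range (fun i => G' (Sum.inr (![h + u, h + v, h + u + v] i)))) := by
    by_contra hcon
    apply hdep
    have h1 := (linearIndependent_finCons
      (v := fun i => G' (Sum.inr (![h + u, h + v, h + u + v] i))) (x := G' (Sum.inr h))).2
      ⟨hind3, hcon⟩
    have e : (fun i => G' (Sum.inr (![h, h + u, h + v, h + u + v] i))) =
        Fin.cons (G' (Sum.inr h))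
          (fun i => G' (Sum.inr (![h + u, h + v, h + u + v] i))) := by
      funext i
      fin_cases i <;> rfl
    rw [e]
    exact h1
  rw [Submodule.mem_span_range_iff_exists_fun] at hmem
  obtain ⟨c, hc⟩ := hmem
  rw [Fin.sum_univ_three] at hc
  simp only [Matrix.cons_val_zero, Matrix.cons_val_one, Matrix.cons_val] at hc
  refine ⟨c 0, c 1, c 2, ?_, hc.symm⟩
  intro hc0
  rw [hc0, zero_smul, zero_add] at hc
  rw [Fintype.linearIndependent_iff] at hind3'
  have h1 := hind3' ![-1, c 1, c 2] (by
    rw [Fin.sum_univ_three]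
    simp only [Matrix.cons_val_zero, Matrix.cons_val_one, Matrix.cons_val]
    rw [neg_one_smul, ← hc]
    abel) 0
  simp at h1

private theorem rat2_five (G' : NB r → WW L r)
    (hG : ∀ B : Set (NB r), LinearIndepOn L (vecB : NB r → WW L r) B ↔ LinearIndepOn L G' B)
    (q : Fin 5 → (Fin r → ZMod 2))
    (hq : ∀ α : Fin 5 → ZMod 2, ∑ i, α i • q i = 0 → ∑ i, α i = 0 → ∀ i, α i = 0)
    (c : Fin 5 → L) (hc : ∀ i, c i ≠ 0) (T : Fin 5 → (Fin r → ZMod 2))
    (hT : ∀ i, G' (Sum.inr (q i)) = c i • ((cst (T i), 1) : WW L r))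
    (φ : Fin 5 → ZMod 2) (h1 : ∑ i, φ i • T i = 0) (h2 : ∑ i, φ i = 0) (i : Fin 5) :
    φ i = 0 := by
  have hind := rat2_ind G' hG q hq
  rw [Fintype.linearIndependent_iff] at hind
  have h3 := hind (fun i => algebraMap (ZMod 2) L (φ i) * (c i)⁻¹) (by
    have e : ∀ i, (algebraMap (ZMod 2) L (φ i) * (c i)⁻¹) • G' (Sum.inr (q i)) =
        algebraMap (ZMod 2) L (φ i) • ((cst (T i), 1) : WW L r) := by
      intro i
      rw [hT i, smul_smul, mul_assoc, inv_mul_cancel₀ (hc i), mul_one]
    rw [Finset.sum_congr rfl fun i _ => e i]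
    refine Prod.ext ?_ ?_
    · rw [Prod.fst_sum]
      funext j
      rw [Finset.sum_apply]
      have h4 := congrArg (algebraMap (ZMod 2) L) (congrFun h1 j)
      rw [Finset.sum_apply, map_sum, Pi.zero_apply, map_zero] at h4
      refine Eq.trans (Finset.sum_congr rfl fun i _ => ?_) h4
      exact (map_mul (algebraMap (ZMod 2) L) (φ i) (T i j)).symm
    · rw [Prod.snd_sum]
      have h4 := congrArg (algebraMap (ZMod 2) L) h2
      rw [map_sum, map_zero] at h4
      refine Eq.trans (Finset.sum_congr rfl fun i _ => ?_) h4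
      exact mul_one _) i
  rcases mul_eq_zero.1 h3 with h4 | h4
  · exact (map_eq_zero (algebraMap (ZMod 2) L)).1 h4
  · exact absurd h4 (inv_ne_zero (hc i))

/-- from a relation between the nearby points to a relation over `ZMod 2` -/
theorem rat2 (G' : NB r → WW L r)
    (hG : ∀ B : Set (NB r), LinearIndepOn L (vecB : NB r → WW L r) B ↔ LinearIndepOn L G' B)
    (h u v u' v' : Fin r → ZMod 2)
    (hind : LinearIndependent (ZMod 2) ![u, v, u', v'])
    (t1 t2 t3 t1' t2' t3' : Fin r → ZMod 2)
    (h1 : ∃ c : L, c ≠ 0 ∧ G' (Sum.inr (h + u)) = c • (cst t1, 1))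
    (h2 : ∃ c : L, c ≠ 0 ∧ G' (Sum.inr (h + v)) = c • (cst t2, 1))
    (h3 : ∃ c : L, c ≠ 0 ∧ G' (Sum.inr (h + u + v)) = c • (cst t3, 1))
    (h1' : ∃ c : L, c ≠ 0 ∧ G' (Sum.inr (h + u')) = c • (cst t1', 1))
    (h2' : ∃ c : L, c ≠ 0 ∧ G' (Sum.inr (h + v')) = c • (cst t2', 1))
    (h3' : ∃ c : L, c ≠ 0 ∧ G' (Sum.inr (h + u' + v')) = c • (cst t3', 1)) :
    ∃ c : L, c ≠ 0 ∧ G' (Sum.inr h) = c • (cst (t1 + t2 + t3), 1) := by
  have ind4 : ∀ a b c d : ZMod 2, a • u + b • v + c • u' + d • v' = 0 →
      a = 0 ∧ b = 0 ∧ c = 0 ∧ d = 0 := by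
    intro a b c d e
    rw [Fintype.linearIndependent_iff] at hind
    have e1 := hind ![a, b, c, d] (by
      rw [Fin.sum_univ_four]
      simpa only [Matrix.cons_val_zero, Matrix.cons_val_one, Matrix.cons_val] using e)
    exact ⟨e1 0, e1 1, e1 2, e1 3⟩
  have huv : ∀ a b : ZMod 2, a • u + b • v = 0 → a = 0 ∧ b = 0 := by
    intro a b e
    have e1 := ind4 a b 0 0 (by rw [zero_smul, zero_smul, add_zero, add_zero]; exact e)
    exact ⟨e1.1, e1.2.1⟩
  have huv' : ∀ a b : ZMod 2, a • u' + b • v' = 0 → a = 0 ∧ b = 0 := by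
    intro a b e
    have e1 := ind4 0 0 a b (by rw [zero_smul, zero_smul, zero_add, zero_add]; exact e)
    exact ⟨e1.2.2.1, e1.2.2.2⟩
  obtain ⟨a1, a2, a3, ha1, hA⟩ := rat2_plane G' hG h u v huv
  obtain ⟨b1, b2, b3, -, hB⟩ := rat2_plane G' hG h u' v' huv'
  obtain ⟨c1, hc1, e1⟩ := h1
  obtain ⟨c2, hc2, e2⟩ := h2
  obtain ⟨c3, hc3, e3⟩ := h3
  obtain ⟨d1, hd1, f1⟩ := h1'
  obtain ⟨d2, hd2, f2⟩ := h2'
  obtain ⟨d3, hd3, f3⟩ := h3'
  rw [e1, e2, e3, smul_smul, smul_smul, smul_smul] at hA
  rw [f1, f2, f3, smul_smul, smul_smul, smul_smul] at hB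
  have hx1 : a1 * c1 ≠ 0 := mul_ne_zero ha1 hc1
  generalize a1 * c1 = x1 at hA hx1
  generalize a2 * c2 = x2 at hA
  generalize a3 * c3 = x3 at hA
  generalize b1 * d1 = y1 at hB
  generalize b2 * d2 = y2 at hB
  generalize b3 * d3 = y3 at hB
  have hrel : ∑ i : Fin 6, (![x1, x2, x3, -y1, -y2, -y3] i) •
      ((cst (![t1, t2, t3, t1', t2', t3'] i), 1) : WW L r) = 0 := by
    rw [Fin.sum_univ_six]
    simp only [Matrix.cons_val_zero, Matrix.cons_val_one, Matrix.cons_val]
    rw [← hA, hB]
    simp only [neg_smul]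
    abel
  have hF : ∀ f : L →ₗ[ZMod 2] ZMod 2,
      (f x1 • t1 + f x2 • t2 + f x3 • t3 + f (-y1) • t1' + f (-y2) • t2' + f (-y3) • t3' = 0) ∧
      f x1 + f x2 + f x3 + f (-y1) + f (-y2) + f (-y3) = 0 := by
    intro f
    have e := rat2_app f _ _ hrel
    rw [Fin.sum_univ_six, Fin.sum_univ_six] at e
    simpa only [Matrix.cons_val_zero, Matrix.cons_val_one, Matrix.cons_val] using e
  have h12 : x1 = x2 := by
    by_contra hne
    obtain ⟨f, hf1, hf2⟩ := exists_sep hx1 hne
    obtain ⟨g1, g2⟩ := hF f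
    rw [hf1, hf2] at g1 g2
    have h5 := rat2_five G' hG ![h + u, h + u + v, h + u', h + v', h + u' + v'] ?_
      ![c1, c3, d1, d2, d3] ?_ ![t1, t3, t1', t2', t3'] ?_
      ![1, f x3, f (-y1), f (-y2), f (-y3)] ?_ ?_ 0
    · exact one_ne_zero h5
    · intro α k1 k2
      rw [Fin.sum_univ_five] at k1 k2
      simp only [Matrix.cons_val_zero, Matrix.cons_val_one, Matrix.cons_val] at k1
      have k3 : α 0 • (h + u) + α 1 • (h + u + v) + α 2 • (h + u') + α 3 • (h + v') +
          α 4 • (h + u' + v') = (α 0 + α 1 + α 2 + α 3 + α 4) • h +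
          ((α 0 + α 1) • u + α 1 • v + (α 2 + α 4) • u' + (α 3 + α 4) • v') := by
        module
      rw [k1, k2, zero_smul, zero_add] at k3
      obtain ⟨m1, m2, m3, m4⟩ := ind4 _ _ _ _ k3.symm
      have hz : ∀ a b c d e : ZMod 2, a + b + c + d + e = 0 → a + b = 0 → b = 0 →
          c + e = 0 → d + e = 0 → a = 0 ∧ b = 0 ∧ c = 0 ∧ d = 0 ∧ e = 0 := by decide
      obtain ⟨z0, z1, z2, z3, z4⟩ := hz _ _ _ _ _ k2 m1 m2 m3 m4
      intro i
      fin_cases i
      · exact z0
      · exact z1
      · exact z2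
      · exact z3
      · exact z4
    · intro i
      fin_cases i
      · exact hc1
      · exact hc3
      · exact hd1
      · exact hd2
      · exact hd3
    · intro i
      fin_cases i
      · exact e1
      · exact e3
      · exact f1
      · exact f2
      · exact f3
    · rw [Fin.sum_univ_five]
      simp only [Matrix.cons_val_zero, Matrix.cons_val_one, Matrix.cons_val]
      rw [zero_smul, add_zero] at g1
      exact g1
    · rw [Fin.sum_univ_five]
      simp only [Matrix.cons_val_zero, Matrix.cons_val_one, Matrix.cons_val]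
      rw [add_zero] at g2
      exact g2
  have h13 : x1 = x3 := by
    by_contra hne
    obtain ⟨f, hf1, hf2⟩ := exists_sep hx1 hne
    obtain ⟨g1, g2⟩ := hF f
    rw [hf1, hf2] at g1 g2
    have h5 := rat2_five G' hG ![h + u, h + v, h + u', h + v', h + u' + v'] ?_
      ![c1, c2, d1, d2, d3] ?_ ![t1, t2, t1', t2', t3'] ?_
      ![1, f x2, f (-y1), f (-y2), f (-y3)] ?_ ?_ 0
    · exact one_ne_zero h5
    · intro α k1 k2
      rw [Fin.sum_univ_five] at k1 k2
      simp only [Matrix.cons_val_zero, Matrix.cons_val_one, Matrix.cons_val] at k1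
      have k3 : α 0 • (h + u) + α 1 • (h + v) + α 2 • (h + u') + α 3 • (h + v') +
          α 4 • (h + u' + v') = (α 0 + α 1 + α 2 + α 3 + α 4) • h +
          (α 0 • u + α 1 • v + (α 2 + α 4) • u' + (α 3 + α 4) • v') := by
        module
      rw [k1, k2, zero_smul, zero_add] at k3
      obtain ⟨m1, m2, m3, m4⟩ := ind4 _ _ _ _ k3.symm
      have hz : ∀ a b c d e : ZMod 2, a + b + c + d + e = 0 → a = 0 → b = 0 →
          c + e = 0 → d + e = 0 → a = 0 ∧ b = 0 ∧ c = 0 ∧ d = 0 ∧ e = 0 := by decide
      obtain ⟨z0, z1, z2, z3, z4⟩ := hz _ _ _ _ _ k2 m1 m2 m3 m4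
      intro i
      fin_cases i
      · exact z0
      · exact z1
      · exact z2
      · exact z3
      · exact z4
    · intro i
      fin_cases i
      · exact hc1
      · exact hc2
      · exact hd1
      · exact hd2
      · exact hd3
    · intro i
      fin_cases i
      · exact e1
      · exact e2
      · exact f1
      · exact f2
      · exact f3
    · rw [Fin.sum_univ_five]
      simp only [Matrix.cons_val_zero, Matrix.cons_val_one, Matrix.cons_val]
      rw [zero_smul, add_zero] at g1
      exact g1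
    · rw [Fin.sum_univ_five]
      simp only [Matrix.cons_val_zero, Matrix.cons_val_one, Matrix.cons_val]
      rw [add_zero] at g2
      exact g2
  refine ⟨x1, hx1, ?_⟩
  rw [hA, ← h12, ← h13, ← smul_add, ← smul_add]
  congr 1
  refine Prod.ext ?_ ?_
  · funext j
    change algebraMap (ZMod 2) L (t1 j) + algebraMap (ZMod 2) L (t2 j) +
      algebraMap (ZMod 2) L (t3 j) = algebraMap (ZMod 2) L (t1 j + t2 j + t3 j)
    rw [map_add, map_add]
  · change (1 : L) + 1 + 1 = 1
    have hL : (1 : L) + 1 = 0 := by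
      have := congrArg (algebraMap (ZMod 2) L) (rat2_char 1)
      simpa using this
    rw [hL, zero_add]

end Pool.Agent.MP8f11b1
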