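import Pool.Agent.Lib.MP_8f11b1_co_DU.Desc
import Pool.Agent.Lib.MP_8f11b1_co_RX.Lin

set_option autoImplicit false

namespace Pool.Agent.MP8f11b1

variable {L κ β : Type} [Field L] [Algebra (ZMod 2) L] [Fintype κ] [Finite β] {g s : ℕ}

private theorem ratq_finrank_span (R : Submodule (ZMod 2) (κ → ZMod 2)) :
    Module.finrank L (Submodule.span L (cst '' (R : Set (κ → ZMod 2)) : Set (κ → L))) =
      Module.finrank (ZMod 2) R := by
  classical
  let b := Module.finBasis (ZMod 2) R
  have h1 : LinearIndependent (ZMod 2) (fun i => (b i : κ → ZMod 2)) :=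
    b.linearIndependent.map' R.subtype (Submodule.ker_subtype R)
  have h2 : LinearIndependent L (fun i => (cst (b i : κ → ZMod 2) : κ → L)) := by
    have h3 := (desc_indep (L := L) (fun i => (b i : κ → ZMod 2)) Set.univ).2
      (linearIndepOn_univ_iff.2 h1)
    exact linearIndepOn_univ_iff.1 h3
  have h4 : Submodule.span L (cst '' (R : Set (κ → ZMod 2)) : Set (κ → L)) =
      Submodule.span L (Set.range fun i => (cst (b i : κ → ZMod 2) : κ → L)) := by
    apply le_antisymm
    · rw [Submodule.span_le]
      rintro _ ⟨r, hr, rfl⟩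
      have h5 : r ∈ Submodule.span (ZMod 2) (Set.range fun i => (b i : κ → ZMod 2)) := by
        have h6 := congrArg (Submodule.map R.subtype) b.span_eq
        rw [Submodule.map_span, Submodule.map_top, Submodule.range_subtype, ← Set.range_comp]
          at h6
        have h7 : (R.subtype ∘ b) = fun i => (b i : κ → ZMod 2) := rfl
        rw [h7] at h6
        rw [h6]
        exact hr
      have h8 := (desc_span (L := L) r _).2 h5
      rw [← Set.range_comp] at h8
      exact h8
    · rw [Submodule.span_le]
      rintro _ ⟨i, rfl⟩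
      exact Submodule.subset_span ⟨_, (b i).2, rfl⟩
  rw [h4, finrank_span_eq_card h2, Fintype.card_fin]

/-- If the contracted span meets the subspace `BB` in the span of the rational subspace `R`,
then the elements of `E` without small coordinates are independent modulo `R`. -/
theorem ratQ {v : β → κ → ZMod 2} {X P : κ → ZMod 2} {gam : Fin g → ZZ L s} {a : ℕ}
    {C E : Set (β ⊕ Fin g)} (H : FreeHyp v X P gam a C E)
    (R : Submodule (ZMod 2) (κ → ZMod 2))
    (hR : ∀ p : κ → L, ((p, 0) : (κ → L) × (Fin s → L)) ∈ SC v X P gam C ↔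
      p ∈ Submodule.span L (cst '' (R : Set (κ → ZMod 2)))) :
    (BB L κ s ⊔ SC v X P gam C = ⊤ →
      Module.finrank (ZMod 2) ((κ → ZMod 2) ⧸ R) = a) ∧
    ∀ I : Finset β, (∀ z ∈ I, Sum.inl z ∈ E) → I.card ≤ a →
      LinearIndepOn (ZMod 2) (fun z => R.mkQ (v z)) (I : Set β) := by
  classical
  constructor
  · intro htop
    have hSC : Module.finrank L (SC v X P gam C) = C.ncard :=
      lin_finrank_span (fB v X P gam) H.ind (Set.toFinite C)
    have hBB : BB L κ s = LinearMap.range (LinearMap.inl L (κ → L) (Fin s → L)) :=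
      LinearMap.ker_snd ..
    have hBBr : Module.finrank L (BB L κ s) = Fintype.card κ := by
      rw [hBB, LinearMap.finrank_range_of_inj LinearMap.inl_injective,
        Module.finrank_fintype_fun_eq_card]
    have hinf : BB L κ s ⊓ SC v X P gam C =
        Submodule.map (LinearMap.inl L (κ → L) (Fin s → L))
          (Submodule.span L (cst '' (R : Set (κ → ZMod 2)))) := by
      ext x
      constructor
      · rintro ⟨h1, h2⟩
        have h3 : x = (x.1, 0) := Prod.ext rfl h1
        refine ⟨x.1, ?_, h3.symm⟩
        rw [SetLike.mem_coe, ← hR, ← h3]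
        exact h2
      · rintro ⟨p, hp, rfl⟩
        exact ⟨rfl, (hR p).2 hp⟩
    have hinfr : Module.finrank L (BB L κ s ⊓ SC v X P gam C : Submodule L _) =
        Module.finrank (ZMod 2) R := by
      rw [hinf, ← ratq_finrank_span (L := L) R]
      exact ((Submodule.equivMapOfInjective _ (LinearMap.inl_injective
        (R := L) (M := κ → L) (M₂ := Fin s → L)) _).finrank_eq).symm
    have h4 := Submodule.finrank_sup_add_finrank_inf_eq (BB L κ s) (SC v X P gam C)
    rw [htop, hinfr, hBBr, hSC, finrank_top, Module.finrank_prod,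
      Module.finrank_fintype_fun_eq_card, Module.finrank_fin_fun] at h4
    have h5 := Submodule.finrank_quotient_add_finrank R
    rw [Module.finrank_fintype_fun_eq_card] at h5
    have h6 := H.rk
    omega
  · intro I hI hcard
    rw [linearIndepOn_finset_iff]
    intro f hf i hi
    by_contra hne
    set J := I.filter fun z => f z ≠ 0 with hJ
    have hJI : J ⊆ I := Finset.filter_subset _ _
    have h2 : ∀ x : ZMod 2, x = 0 ∨ x = 1 := by decide
    have hsum : ∑ z ∈ J, v z ∈ R := by
      rw [← Submodule.ker_mkQ R, LinearMap.mem_ker, map_sum, hJ, Finset.sum_filter]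
      refine Eq.trans (Finset.sum_congr rfl fun z _ => ?_) hf
      rcases h2 (f z) with h3 | h3
      · simp [h3]
      · simp [h3]
    have hcs : ∀ K : Finset β, (cst (∑ z ∈ K, v z) : κ → L) = ∑ z ∈ K, cst (v z) := by
      intro K
      induction K using Finset.induction_on with
      | empty =>
        rw [Finset.sum_empty, Finset.sum_empty]
        funext k
        exact map_zero _
      | insert z K hz ih => rw [Finset.sum_insert hz, Finset.sum_insert hz, cst_add, ih]
    have hmem : (∑ z ∈ J, fB v X P gam (Sum.inl z)) ∈ SC v X P gam C := by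
      have h3 := (hR _).2 (Submodule.subset_span ⟨_, hsum, rfl⟩ :
        (cst (∑ z ∈ J, v z) : κ → L) ∈ Submodule.span L (cst '' (R : Set (κ → ZMod 2))))
      have h4 : (∑ z ∈ J, fB v X P gam (Sum.inl z)) =
          ((cst (∑ z ∈ J, v z), 0) : (κ → L) × (Fin s → L)) := by
        rw [hcs]
        refine Prod.ext ?_ ?_
        · rw [Prod.fst_sum]; rfl
        · rw [Prod.snd_sum]; exact Finset.sum_eq_zero fun z _ => rfl
      rw [h4]
      exact h3
    set B : Finset (β ⊕ Fin g) := J.map ⟨Sum.inl, Sum.inl_injective⟩ with hB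
    have hBE : (B : Set (β ⊕ Fin g)) ⊆ E := by
      intro z hz
      rw [hB, Finset.coe_map] at hz
      obtain ⟨y, hy, rfl⟩ := hz
      exact hI y (hJI hy)
    have hBc : (B : Set (β ⊕ Fin g)).ncard ≤ a := by
      rw [Set.ncard_coe_finset, hB, Finset.card_map]
      exact (Finset.card_le_card hJI).trans hcard
    have h5 := (H.unif _ hBE).2 hBc
    have hdisj : Disjoint (B : Set (β ⊕ Fin g)) C := (H.disj.symm).mono_left hBE
    rw [lin_union_iff (fB v X P gam) H.ind hdisj (SC v X P gam C).mkQ (Submodule.ker_mkQ _),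
      linearIndepOn_finset_iff] at h5
    have h6 := h5 (fun _ => 1) ?_ (Sum.inl i) ?_
    · exact one_ne_zero h6
    · simp only [one_smul]
      rw [hB, Finset.sum_map, ← map_sum, ← LinearMap.mem_ker, Submodule.ker_mkQ]
      exact hmem
    · rw [hB, Finset.mem_map]
      exact ⟨i, Finset.mem_filter.2 ⟨hi, hne⟩, rfl⟩

/-- description of the contracted span inside `BB` -/
theorem sc_bb (v : β → κ → ZMod 2) (X P : κ → ZMod 2) (gam : Fin g → ZZ L s)
    (C : Set (β ⊕ Fin g)) (p : κ → L) :
    ((p, 0) : (κ → L) × (Fin s → L)) ∈ SC v X P gam C ↔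
      ∃ α β' : L, ((α • cst X + β' • cst P, 0) : (κ → L) × (Fin s → L)) ∈ SC v X P gam C ∧
        p - (α • cst X + β' • cst P) ∈
          Submodule.span L (cst '' (v '' {z | Sum.inl z ∈ C})) := by
  set C1 : Set β := {z | Sum.inl z ∈ C} with hC1
  have hle : Submodule.map (LinearMap.inl L (κ → L) (Fin s → L))
      (Submodule.span L (cst '' (v '' C1))) ≤ SC v X P gam C := by
    rw [Submodule.map_span, Submodule.span_le]
    rintro _ ⟨_, ⟨_, ⟨z, hz, rfl⟩, rfl⟩, rfl⟩
    exact Submodule.subset_span ⟨Sum.inl z, hz, rfl⟩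
  constructor
  · intro hp
    -- every element of `SC` is the sum of an element of the rational part and of one of `W`
    let W : Submodule L ((κ → L) × (Fin s → L)) :=
      Submodule.span L {((cst X, 0) : (κ → L) × (Fin s → L)), (cst P, 0)} ⊔
        LinearMap.ker (LinearMap.fst L (κ → L) (Fin s → L))
    have key : ∀ x ∈ SC v X P gam C, ∃ y ∈ Submodule.map (LinearMap.inl L (κ → L) (Fin s → L))
        (Submodule.span L (cst '' (v '' C1))), ∃ α β' : L, (x - y).1 = α • cst X + β' • cst P := by
      intro x hx
      unfold SC at hx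
      induction hx using Submodule.span_induction with
      | mem x hx =>
        obtain ⟨z | c, hz, rfl⟩ := hx
        · refine ⟨fB v X P gam (Sum.inl z), ⟨cst (v z),
            Submodule.subset_span ⟨_, ⟨z, hz, rfl⟩, rfl⟩, rfl⟩, 0, 0, ?_⟩
          rw [sub_self, zero_smul, zero_smul, add_zero]
          rfl
        · refine ⟨0, Submodule.zero_mem _, (gam c).1, (gam c).2.1, ?_⟩
          rw [sub_zero]
          rfl
      | zero =>
        refine ⟨0, Submodule.zero_mem _, 0, 0, ?_⟩
        rw [sub_zero, zero_smul, zero_smul, add_zero]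
        rfl
      | add x x' _ _ h h' =>
        obtain ⟨y, hy, α, β', h⟩ := h
        obtain ⟨y', hy', α', β'', h'⟩ := h'
        refine ⟨y + y', Submodule.add_mem _ hy hy', α + α', β' + β'', ?_⟩
        have : (x + x' - (y + y')).1 = (x - y).1 + (x' - y').1 := by
          rw [← Prod.fst_add]; congr 1; abel
        rw [this, h, h']
        module
      | smul c x _ h =>
        obtain ⟨y, hy, α, β', h⟩ := h
        refine ⟨c • y, Submodule.smul_mem _ _ hy, c * α, c * β', ?_⟩
        rw [← smul_sub, Prod.smul_fst, h]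
        module
    obtain ⟨_, ⟨y, hy, rfl⟩, α, β', h⟩ := key _ hp
    refine ⟨α, β', ?_, ?_⟩
    · have h1 : ((α • cst X + β' • cst P, 0) : (κ → L) × (Fin s → L)) =
          (p, 0) - LinearMap.inl L (κ → L) (Fin s → L) y := by
        refine Prod.ext h.symm ?_
        show (0 : Fin s → L) = 0 - 0
        rw [sub_zero]
      rw [h1]
      exact Submodule.sub_mem _ hp (hle ⟨y, hy, rfl⟩)
    · have h2 : p - y = α • cst X + β' • cst P := h
      rw [← h2, sub_sub_cancel]
      exact hy
  · rintro ⟨α, β', h1, h2⟩
    have h3 := Submodule.add_mem _ h1 (hle ⟨_, h2, rfl⟩)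
    have h4 : ((α • cst X + β' • cst P, 0) : (κ → L) × (Fin s → L)) +
        LinearMap.inl L (κ → L) (Fin s → L) (p - (α • cst X + β' • cst P)) = (p, 0) := by
      refine Prod.ext ?_ ?_
      · show α • cst X + β' • cst P + (p - (α • cst X + β' • cst P)) = p
        abel
      · show (0 : Fin s → L) + 0 = 0
        rw [add_zero]
    rwa [h4] at h3

end Pool.Agent.MP8f11b1
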