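import Pool.Agent.Lib.MP_8f11b1_co_DU.Desc
import Pool.Agent.Lib.MP_8f11b1_co_RX.Lin

set_option autoImplicit false

namespace Pool.Agent.MP8f11b1

variable {L κ β : Type} [Field L] [Algebra (ZMod 2) L] [Fintype κ] [Finite β] {g s : ℕ}

omit [Fintype κ] in
private theorem fin_LL {X P : κ → ZMod 2} (hX : X ≠ 0) (hP : P ≠ 0) (hXP : X ≠ P) :
    Module.finrank L ↥(LL (L := L) s X P) = 2 := by
  have h1 : LinearIndepOn (ZMod 2) (fun i : Bool => if i then X else P) Set.univ := by
    rw [linearIndepOn_univ_iff, Fintype.linearIndependent_iff]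
    intro c hc
    simp only [Fintype.sum_bool, if_true, Bool.false_eq_true, if_false] at hc
    have hz : ∀ x : ZMod 2, x = 0 ∨ x = 1 := by decide
    rcases hz (c true) with h1 | h1 <;> rcases hz (c false) with h2 | h2 <;>
      rw [h1, h2] at hc <;> simp at hc
    · intro i; cases i <;> simp [h1, h2]
    · exact absurd hc hP
    · exact absurd hc hX
    · exfalso
      apply hXP
      funext i
      have h3 := congrFun hc i
      simp only [Pi.add_apply, Pi.zero_apply] at h3
      have h4 : ∀ x y : ZMod 2, x + y = 0 → x = y := by decide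
      exact h4 _ _ h3
  have h2 := (desc_indep (L := L) _ _).2 h1
  have h3 : LinearIndepOn L (fun i : Bool =>
      ((cst (if i then X else P), 0) : (κ → L) × (Fin s → L))) Set.univ := by
    have h4 := LinearIndependent.map' h2 (LinearMap.inl L (κ → L) (Fin s → L))
      (LinearMap.ker_eq_bot.2 LinearMap.inl_injective)
    exact h4
  have h4 := lin_finrank_span _ h3 Set.finite_univ
  have h5 : (fun i : Bool => ((cst (if i then X else P), 0) : (κ → L) × (Fin s → L))) '' Set.univ =
      {(cst X, 0), (cst P, 0)} := by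
    ext x
    simp only [Set.image_univ, Set.mem_range, Bool.exists_bool, Set.mem_insert_iff,
      Set.mem_singleton_iff, Bool.false_eq_true, if_false, if_true]
    constructor
    · rintro (h | h)
      · exact Or.inr h.symm
      · exact Or.inl h.symm
    · rintro (h | h)
      · exact Or.inr h.symm
      · exact Or.inl h.symm
  rw [h5] at h4
  rw [LL, h4]
  simp

omit [Fintype κ] in
private theorem ll_le_bb (X P : κ → ZMod 2) : LL s X P ≤ BB L κ s := by
  rw [LL, Submodule.span_le]
  rintro x (rfl | rfl) <;> simp [BB]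

omit [Finite β] in
/-- the number of elements of `E` inside a subspace -/
private theorem cnt_aux {v : β → κ → ZMod 2} {X P : κ → ZMod 2} {gam : Fin g → ZZ L s} {a : ℕ}
    {C E : Set (β ⊕ Fin g)} (H : FreeHyp v X P gam a C E) (hEf : E.Finite)
    (T : Submodule L ((κ → L) × (Fin s → L)))
    (A : Set (β ⊕ Fin g)) (hAE : A ⊆ E) (hA : ∀ z ∈ A, fB v X P gam z ∈ T)
    (hT : Module.finrank L ↥(T ⊔ SC v X P gam C) < a + C.ncard) :
    A.ncard + C.ncard ≤ Module.finrank L ↥(T ⊔ SC v X P gam C) := by
  have hCf : C.Finite := (lin_ncard_le _ H.ind).1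
  have key : ∀ A' ⊆ A, A'.ncard ≤ a →
      A'.ncard + C.ncard ≤ Module.finrank L ↥(T ⊔ SC v X P gam C) := by
    intro A' hA' hc
    have h1 := (H.unif A' (hA'.trans hAE)).2 hc
    have hd : Disjoint A' C := (H.disj.mono_right (hA'.trans hAE)).symm
    have hfin : A'.Finite := hEf.subset (hA'.trans hAE)
    rw [← Set.ncard_union_eq hd hfin hCf, ← lin_finrank_span _ h1 (hfin.union hCf)]
    apply Submodule.finrank_mono
    rw [Submodule.span_le]
    rintro _ ⟨z, hz, rfl⟩
    rcases hz with hz | hz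
    · exact Submodule.mem_sup_left (hA z (hA' hz))
    · exact Submodule.mem_sup_right (Submodule.subset_span ⟨z, hz, rfl⟩)
  by_cases hc : A.ncard ≤ a
  · exact key A le_rfl hc
  · exfalso
    obtain ⟨A', hA', hc'⟩ := Set.exists_subset_card_eq (s := A) (n := a) (by omega)
    have := key A' hA' (by omega)
    omega

theorem free_split {v : β → κ → ZMod 2} {X P : κ → ZMod 2} {gam : Fin g → ZZ L s} {a b : ℕ}
    {C E : Set (β ⊕ Fin g)} (H : FreeHyp v X P gam a C E) (ha : 3 ≤ a) (hab : a + 3 ≤ b)
    (hE : E.ncard = b) (hg : g + 2 = b) (hs : s + 2 = a) :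
    ((∀ c, Sum.inr c ∈ E) ∧ (E ∩ Set.range Sum.inl).ncard = 2 ∧
      LL s X P ⊓ SC v X P gam C = ⊥ ∧ BB L κ s ≤ LL s X P ⊔ SC v X P gam C) ∨
    (BB L κ s ⊔ SC v X P gam C = ⊤ ∧ (E ∩ Set.range Sum.inr).ncard +
      Module.finrank L ↥(LL s X P ⊓ SC v X P gam C) ≤ 2) := by
  have hEf : E.Finite := Set.finite_of_ncard_pos (by omega)
  have hCf : C.Finite := (lin_ncard_le _ H.ind).1
  set S := SC v X P gam C with hS
  set LLm := LL (L := L) s X P with hLL
  set B := BB L κ s with hB
  set Z : Submodule L ((κ → L) × (Fin s → L)) :=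
    LLm ⊔ LinearMap.range (LinearMap.inr L (κ → L) (Fin s → L)) with hZ
  have hQ : Module.finrank L ((κ → L) × (Fin s → L)) = Fintype.card κ + s := by simp
  have hSr : Module.finrank L ↥S = C.ncard := lin_finrank_span _ H.ind hCf
  have hLLr : Module.finrank L ↥LLm = 2 := fin_LL H.xne H.pne H.xp
  have hLB : LLm ≤ B := ll_le_bb X P
  have hfl : ∀ z, fB v X P gam (Sum.inl z) ∈ B := by
    intro z; simp [fB, hB, BB]
  have hcstLL : ∀ x y : L, ((x • cst X + y • cst P, 0) : (κ → L) × (Fin s → L)) ∈ LLm := by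
    intro x y
    have h1 : ((x • cst X + y • cst P, 0) : (κ → L) × (Fin s → L)) =
        x • (cst X, 0) + y • (cst P, 0) := by
      ext <;> simp
    rw [h1]
    exact Submodule.add_mem _ (Submodule.smul_mem _ _ (Submodule.subset_span (by simp)))
      (Submodule.smul_mem _ _ (Submodule.subset_span (by simp)))
  have hfr : ∀ c, fB v X P gam (Sum.inr c) ∈ Z := by
    intro c
    have h1 : fB v X P gam (Sum.inr c) =
        ((gam c).1 • cst X + (gam c).2.1 • cst P, 0) + (0, (gam c).2.2) := by
      ext <;> simp [fB]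
    rw [h1]
    exact Submodule.add_mem_sup (hcstLL _ _) ⟨(gam c).2.2, by simp⟩
  have hBZi : B ⊓ Z = LLm := by
    apply le_antisymm
    · rintro x ⟨hx1, hx2⟩
      obtain ⟨l, hl, t, ⟨y, rfl⟩, rfl⟩ := Submodule.mem_sup.1 hx2
      have hl2 : l.2 = 0 := by
        have := hLB hl
        simpa [hB, BB] using this
      have hy : y = 0 := by
        have h2 : (l + LinearMap.inr L (κ → L) (Fin s → L) y).2 = 0 := by
          simpa [hB, BB] using hx1
        simpa [hl2] using h2
      rw [hy, map_zero, add_zero]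
      exact hl
    · exact le_inf hLB le_sup_left
  have hBZs : B ⊔ Z = ⊤ := by
    rw [eq_top_iff]
    rintro ⟨x, y⟩ -
    have h1 : ((x, y) : (κ → L) × (Fin s → L)) = (x, 0) + (0, y) := by ext <;> simp
    rw [h1]
    refine Submodule.add_mem_sup ?_ (Submodule.mem_sup_right ⟨y, by simp⟩)
    simp [hB, BB]
  have hSsplit : (B ⊓ S) ⊔ (Z ⊓ S) = S := by
    apply le_antisymm (sup_le inf_le_right inf_le_right)
    rw [hS, SC, Submodule.span_le]
    rintro _ ⟨z, hz, rfl⟩
    have hm : fB v X P gam z ∈ Submodule.span L (fB v X P gam '' C) :=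
      Submodule.subset_span ⟨z, hz, rfl⟩
    cases z with
    | inl z => exact Submodule.mem_sup_left ⟨hfl z, hm⟩
    | inr c => exact Submodule.mem_sup_right ⟨hfr c, hm⟩
  have hdim1 : Module.finrank L ↥B + Module.finrank L ↥Z = Fintype.card κ + s + 2 := by
    have := Submodule.finrank_sup_add_finrank_inf_eq B Z
    rw [hBZi, hBZs, finrank_top, hQ, hLLr] at this
    omega
  have hdim2 : Module.finrank L ↥(B ⊓ S) + Module.finrank L ↥(Z ⊓ S) =
      C.ncard + Module.finrank L ↥(LLm ⊓ S) := by
    have := Submodule.finrank_sup_add_finrank_inf_eq (B ⊓ S) (Z ⊓ S)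
    have h2 : (B ⊓ S) ⊓ (Z ⊓ S) = LLm ⊓ S := by
      rw [← hBZi]
      ext x
      simp only [Submodule.mem_inf]
      tauto
    rw [hSsplit, h2, hSr] at this
    omega
  have hdB := Submodule.finrank_sup_add_finrank_inf_eq B S
  have hdZ := Submodule.finrank_sup_add_finrank_inf_eq Z S
  have hdL := Submodule.finrank_sup_add_finrank_inf_eq LLm S
  rw [hSr] at hdB hdZ hdL
  rw [hLLr] at hdL
  have hrk := H.rk
  have hleB : Module.finrank L ↥(B ⊔ S) ≤ a + C.ncard := by
    have := Submodule.finrank_le (B ⊔ S)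
    omega
  have hleZ : Module.finrank L ↥(Z ⊔ S) ≤ a + C.ncard := by
    have := Submodule.finrank_le (Z ⊔ S)
    omega
  have hLSle : Module.finrank L ↥(LLm ⊓ S) ≤ 2 := by
    have := Submodule.finrank_mono (inf_le_left : LLm ⊓ S ≤ LLm)
    omega
  have hcB : Module.finrank L ↥(B ⊔ S) < a + C.ncard →
      (E ∩ Set.range Sum.inl).ncard + C.ncard ≤ Module.finrank L ↥(B ⊔ S) := fun h =>
    cnt_aux H hEf B _ Set.inter_subset_left (by rintro z ⟨-, c, rfl⟩; exact hfl c) h
  have hcZ : Module.finrank L ↥(Z ⊔ S) < a + C.ncard →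
      (E ∩ Set.range Sum.inr).ncard + C.ncard ≤ Module.finrank L ↥(Z ⊔ S) := fun h =>
    cnt_aux H hEf Z _ Set.inter_subset_left (by rintro z ⟨-, c, rfl⟩; exact hfr c) h
  have hEsplit : (E ∩ Set.range Sum.inl).ncard + (E ∩ Set.range Sum.inr).ncard = b := by
    rw [← hE, ← Set.ncard_union_eq ?_ (hEf.inter_of_left _) (hEf.inter_of_left _),
      ← Set.inter_union_distrib_left]
    · congr 1
      rw [Set.range_inl_union_range_inr, Set.inter_univ]
    · refine Set.disjoint_left.2 ?_
      rintro _ ⟨-, c, rfl⟩ ⟨-, d, h⟩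
      exact absurd h (by simp)
  have hEZ : (E ∩ Set.range Sum.inr).ncard ≤ g := by
    calc (E ∩ Set.range Sum.inr).ncard ≤ (Set.range (Sum.inr : Fin g → β ⊕ Fin g)).ncard :=
          Set.ncard_le_ncard Set.inter_subset_right (Set.finite_range _)
      _ = (Sum.inr '' (Set.univ : Set (Fin g)) : Set (β ⊕ Fin g)).ncard := by rw [Set.image_univ]
      _ = g := by
          rw [Set.ncard_image_of_injective _ Sum.inr_injective, Set.ncard_univ]; simp
  by_cases h1 : Module.finrank L ↥(Z ⊔ S) < a + C.ncard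
  · have h2 := hcZ h1
    by_cases h3 : Module.finrank L ↥(B ⊔ S) < a + C.ncard
    · exfalso
      have h4 := hcB h3
      omega
    · right
      refine ⟨?_, by omega⟩
      apply Submodule.eq_top_of_finrank_eq
      omega
  · left
    have h2 : Module.finrank L ↥(B ⊔ S) < a + C.ncard := by omega
    have h3 := hcB h2
    have h4 : (E ∩ Set.range Sum.inr).ncard = g := by omega
    refine ⟨?_, by omega, ?_, ?_⟩
    · intro c
      have h5 : E ∩ Set.range Sum.inr = Set.range (Sum.inr : Fin g → β ⊕ Fin g) := by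
        apply Set.eq_of_subset_of_ncard_le Set.inter_subset_right _ (Set.finite_range _)
        rw [h4, ← Set.image_univ, Set.ncard_image_of_injective _ Sum.inr_injective,
          Set.ncard_univ]
        simp
      have h6 : (Sum.inr c : β ⊕ Fin g) ∈ E ∩ Set.range Sum.inr := by
        rw [h5]; exact ⟨c, rfl⟩
      exact h6.1
    · apply Submodule.finrank_eq_zero.1
      omega
    · have h5 : LLm ⊔ S = B ⊔ S := by
        apply Submodule.eq_of_le_of_finrank_le (sup_le_sup_right hLB S)
        omega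
      rw [h5]
      exact le_sup_left

end Pool.Agent.MP8f11b1
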