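import Pool.Agent.Lib.MP_8f11b1_co_DU.Cnt2
import Pool.Agent.Lib.MP_8f11b1_co_DU.Pot2
import Pool.Agent.Lib.MP_8f11b1_co_DU.Oth2

set_option autoImplicit false

namespace Pool.Agent.MP8f11b1

variable {L : Type} [Field L] [Algebra (ZMod 2) L] {r m g s : ℕ}

private theorem St1_arith0 {r : ℕ} (hr : 36 ≤ r) : 4 * r ^ 2 + 2 * r < 2 ^ (r - 1) := by
  induction r, hr using Nat.le_induction with
  | base => norm_num
  | succ n hn ih =>
    obtain ⟨k, rfl⟩ : ∃ k, n = k + 1 := ⟨n - 1, by omega⟩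
    simp only [Nat.add_sub_cancel] at ih ⊢
    rw [pow_succ 2 k]
    nlinarith

private theorem St1_arith {r g : ℕ} (hr : (g + 6) ^ 2 ≤ r) :
    (r + g + 5) ^ 2 + r + g < 2 ^ (r - 1) := by
  have h1 : g + 6 ≤ r := by nlinarith
  have h2 : 36 ≤ r := by nlinarith
  have h3 := St1_arith0 h2
  have h4 : (r + g + 5) ^ 2 ≤ (2 * r) ^ 2 := Nat.pow_le_pow_left (by omega) 2
  have h5 : (2 * r) ^ 2 = 4 * r ^ 2 := by ring
  omega

private theorem St1_SS (r : ℕ) : (SS2 : Set (Fin r → ZMod 2)).ncard ≤ r := by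
  have h : (SS2 : Set (Fin r → ZMod 2)) =
      Set.range (fun i : Fin r => (Pi.single i 1 : Fin r → ZMod 2)) := by
    ext h
    constructor
    · rintro ⟨i, hi⟩
      exact ⟨i, hi.symm⟩
    · rintro ⟨i, hi⟩
      exact ⟨i, hi.symm⟩
  rw [h, ← Set.image_univ]
  refine (Set.ncard_image_le (Set.toFinite _)).trans ?_
  rw [Set.ncard_univ, Nat.card_eq_fintype_card, Fintype.card_fin]

private theorem St1_inj {Q : Type} [AddCommGroup Q] [Module L Q] (hr : 2 ≤ r) (gq : NB r → Q)
    (hg : ∀ B : Set (NB r), LinearIndepOn L (vecB : NB r → WW L r) B ↔ LinearIndepOn L gq B) :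
    Function.Injective gq := by
  intro z z' hzz
  by_contra hne
  have h1 := (hg {z, z'}).1 (vecB_simple hr hne)
  exact hne (h1.injOn (by simp) (by simp) hzz)

private def St1_inc : WW L r →ₗ[L] V2 L r m s :=
  (LinearMap.inr L (Fin (2 * m) → L) ((WW L r) × (Fin s → L))) ∘ₗ
    (LinearMap.inl L (WW L r) (Fin s → L))

private theorem St1_inc_apply (w : WW L r) :
    (St1_inc w : V2 L r m s) = (0, w, 0) := rfl

theorem st1 (hr : (g + 6) ^ 2 ≤ r) {gam : Fin g → ZZ L s} {ι : NB r → G2 r m g}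
    {X : Set (G2 r m g)} (h : Emb2 gam ι X) :
    (∀ w : WW L r, ((0, w, 0) : V2 L r m s) ∈
      Submodule.span L ((f2 gam : G2 r m g → V2 L r m s) '' X) → w = 0) ∧
    ∃ G' : NB r → WW L r,
      (∀ z, (f2 gam (ι z) : V2 L r m s) - (0, G' z, 0) ∈
        Submodule.span L ((f2 gam : G2 r m g → V2 L r m s) '' X)) ∧
      ∀ B : Set (NB r), LinearIndepOn L (vecB : NB r → WW L r) B ↔ LinearIndepOn L G' B := by
  classical
  have hr2 : 2 ≤ r := by
    have h1 : 6 ^ 2 ≤ (g + 6) ^ 2 := Nat.pow_le_pow_left (by omega) 2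
    omega
  have hX : LinearIndepOn L (f2 gam : G2 r m g → V2 L r m s) X := by
    have h1 := (h.iff ∅).1 (linearIndepOn_empty L _)
    rwa [Set.image_empty, Set.empty_union] at h1
  set S := Submodule.span L ((f2 gam : G2 r m g → V2 L r m s) '' X) with hS
  set q : V2 L r m s →ₗ[L] (V2 L r m s ⧸ S) := S.mkQ with hq
  have hkq : LinearMap.ker q = S := Submodule.ker_mkQ S
  have hg : ∀ B : Set (NB r), LinearIndepOn L (vecB : NB r → WW L r) B ↔
      LinearIndepOn L (fun z => q (f2 gam (ι z))) B := by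
    intro B
    have hd : Disjoint (ι '' B) X := by
      rw [Set.disjoint_left]
      rintro _ ⟨z, _, rfl⟩ hz
      exact h.disj z hz
    rw [h.iff B, lin_union_iff (f2 gam) hX hd q hkq]
    constructor
    · intro h1
      exact h1.comp_of_image (h.inj.injOn)
    · intro h1
      exact LinearIndepOn.image_of_comp ι (fun z => q (f2 gam z)) h1
  -- the claim
  have hcl : ∀ z, q (f2 gam (ι z)) ∈ LinearMap.range (q ∘ₗ St1_inc) := by
    by_contra hne
    push Not at hne
    obtain ⟨z₀, hz₀⟩ := hne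
    obtain ⟨θ, hθ0, hθ⟩ := Submodule.exists_le_ker_of_notMem hz₀
    have hθ' : ∀ w : WW L r, θ (q (0, w, 0)) = 0 := fun w => hθ ⟨w, rfl⟩
    have hcount := cnt2 (by omega) (fun z => q (f2 gam (ι z))) hg θ z₀ hθ0
    have hsub : {z : NB r | θ (q (f2 gam (ι z))) ≠ 0} ⊆
        ({z | ∃ c, ι z = Sum.inl (Sum.inl c)} ∪
          {z | ∃ k ∈ (SS2 : Set (Fin r → ZMod 2)), ι z = Sum.inl (Sum.inr (Sum.inr k))}) ∪
          {z | ∃ c, ι z = Sum.inr c} := by
      intro z hz
      rcases hι : ι z with (c | (i | k)) | c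
      · exact Or.inl (Or.inl ⟨c, hι⟩)
      · exfalso
        apply hz
        rw [hι]
        exact hθ' _
      · by_cases hk : k ∈ (SS2 : Set (Fin r → ZMod 2))
        · exact Or.inl (Or.inr ⟨k, hk, hι⟩)
        · exfalso
          apply hz
          rw [hι]
          have h1 : (f2 gam (Sum.inl (Sum.inr (Sum.inr k)) : G2 r m g) : V2 L r m s) =
              (0, (cst k, 1), 0) := by
            simp only [f2]
            rw [if_neg hk]
          rw [h1]
          exact hθ' _
      · exact Or.inr ⟨c, hι⟩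
    have hA : {z : NB r | ∃ c, ι z = Sum.inl (Sum.inl c)}.ncard ≤ (r + g + 5) ^ 2 := by
      have h1 : {z : NB r | ∃ c, ι z = Sum.inl (Sum.inl c)}.ncard ≤
          (Set.range fun c : Fin (2 * m) ⊕ Fin (2 * m) =>
            q (f2 gam (Sum.inl (Sum.inl c) : G2 r m g))).ncard := by
        refine Set.ncard_le_ncard_of_injOn (fun z => q (f2 gam (ι z))) ?_ ?_ (Set.toFinite _)
        · rintro z ⟨c, hc⟩
          exact ⟨c, by simp only [hc]⟩
        · intro z _ z' _ hzz
          exact St1_inj hr2 _ hg hzz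
      have h2 := pot2 (by omega) gam q X hX (fun x hx => by
        have : f2 gam x ∈ LinearMap.ker q := by
          rw [hkq]
          exact Submodule.subset_span ⟨x, hx, rfl⟩
        exact this) h.card
      have h3 := oth2 gam X hX
      refine (h1.trans h2).trans ?_
      exact Nat.pow_le_pow_left (by omega) 2
    have hB : {z : NB r | ∃ k ∈ (SS2 : Set (Fin r → ZMod 2)),
        ι z = Sum.inl (Sum.inr (Sum.inr k))}.ncard ≤ r := by
      have h1 : {z : NB r | ∃ k ∈ (SS2 : Set (Fin r → ZMod 2)),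
          ι z = Sum.inl (Sum.inr (Sum.inr k))}.ncard ≤
          ((fun k : Fin r → ZMod 2 => (Sum.inl (Sum.inr (Sum.inr k)) : G2 r m g)) '' SS2).ncard := by
        refine Set.ncard_le_ncard_of_injOn ι ?_ h.inj.injOn (Set.toFinite _)
        rintro z ⟨k, hk, hz⟩
        exact ⟨k, hk, hz.symm⟩
      exact h1.trans ((Set.ncard_image_le (Set.toFinite _)).trans (St1_SS r))
    have hC : {z : NB r | ∃ c, ι z = Sum.inr c}.ncard ≤ g := by
      have h1 : {z : NB r | ∃ c, ι z = Sum.inr c}.ncard ≤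
          ((fun c : Fin g => (Sum.inr c : G2 r m g)) '' Set.univ).ncard := by
        refine Set.ncard_le_ncard_of_injOn ι ?_ h.inj.injOn (Set.toFinite _)
        rintro z ⟨c, hz⟩
        exact ⟨c, Set.mem_univ c, hz.symm⟩
      refine h1.trans ((Set.ncard_image_le (Set.toFinite _)).trans ?_)
      rw [Set.ncard_univ, Nat.card_eq_fintype_card, Fintype.card_fin]
    have hall := (Set.ncard_le_ncard hsub (Set.toFinite _)).trans (Set.ncard_union_le _ _)
    have hAB := Set.ncard_union_le {z : NB r | ∃ c, ι z = Sum.inl (Sum.inl c)}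
      {z : NB r | ∃ k ∈ (SS2 : Set (Fin r → ZMod 2)), ι z = Sum.inl (Sum.inr (Sum.inr k))}
    have hfin := St1_arith hr
    have hcount' : 2 ^ (r - 1) ≤ {z : NB r | θ (q (f2 gam (ι z))) ≠ 0}.ncard := hcount
    omega
  choose G' hG' using hcl
  have hWf : Module.finrank L (WW L r) = r + 1 := by
    rw [Module.finrank_prod, Module.finrank_fin_fun, Module.finrank_self]
  obtain ⟨B, -, hB1, hB2⟩ := vecB_base (linearIndepOn_empty L (vecB : NB r → WW L r))
  have hB3 := (hg B).1 hB1
  have hker : LinearMap.ker (q ∘ₗ (St1_inc : WW L r →ₗ[L] V2 L r m s)) = ⊥ := by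
    have h1 := lin_finrank_span _ hB3 (Set.toFinite B)
    have h2 : Submodule.span L ((fun z => q (f2 gam (ι z))) '' B) ≤
        LinearMap.range (q ∘ₗ (St1_inc : WW L r →ₗ[L] V2 L r m s)) := by
      rw [Submodule.span_le]
      rintro _ ⟨z, _, rfl⟩
      exact ⟨G' z, hG' z⟩
    have h3 := Submodule.finrank_mono h2
    have h4 := LinearMap.finrank_range_add_finrank_ker
      (q ∘ₗ (St1_inc : WW L r →ₗ[L] V2 L r m s))
    rw [hWf] at h4
    exact Submodule.finrank_eq_zero.1 (by omega)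
  refine ⟨fun w hw => ?_, G', fun z => ?_, fun B => ?_⟩
  · have h1 : w ∈ LinearMap.ker (q ∘ₗ (St1_inc : WW L r →ₗ[L] V2 L r m s)) := by
      rw [LinearMap.mem_ker, LinearMap.comp_apply, St1_inc_apply, ← LinearMap.mem_ker, hkq]
      exact hw
    rw [hker] at h1
    exact h1
  · rw [← hkq, LinearMap.mem_ker, map_sub, ← hG' z, LinearMap.comp_apply, St1_inc_apply, sub_self]
  · rw [hg B]
    have h1 : (fun z => q (f2 gam (ι z))) =
        (q ∘ₗ (St1_inc : WW L r →ₗ[L] V2 L r m s)) ∘ G' := by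
      funext z
      exact (hG' z).symm
    rw [h1]
    exact LinearMap.linearIndependent_iff (q ∘ₗ (St1_inc : WW L r →ₗ[L] V2 L r m s))
      (v := fun i : B => G' i) hker

end Pool.Agent.MP8f11b1
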