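import Pool.Agent.Lib.MP_8f11b1_co_DU.Cov2
import Pool.Agent.Lib.MP_8f11b1_co_DU.Pot2
import Pool.Agent.Lib.MP_8f11b1_co_DU.Oth2
import Pool.Agent.Lib.MP_8f11b1_co_RX.S2c

set_option autoImplicit false

namespace Pool.Agent.MP8f11b1

variable {L : Type} [Field L] [Algebra (ZMod 2) L] {r m g s : ℕ}

namespace St2

theorem cst_single (i : Fin r) : (cst (Pi.single i 1) : Fin r → L) = Pi.single i 1 := by
  funext j
  unfold cst
  by_cases h : j = i
  · subst h
    rw [Pi.single_eq_same, Pi.single_eq_same, map_one]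
  · rw [Pi.single_eq_of_ne h, Pi.single_eq_of_ne h, map_zero]

theorem cst_inj {h h' : Fin r → ZMod 2} (he : (cst h : Fin r → L) = cst h') : h = h' := by
  funext i
  exact (algebraMap (ZMod 2) L).injective (congrFun he i)

theorem f2_nSS {gam : Fin g → ZZ L s} {h : Fin r → ZMod 2}
    (hh : h ∉ (SS2 : Set (Fin r → ZMod 2))) :
    (f2 gam (Sum.inl (Sum.inr (Sum.inr h)) : G2 r m g) : V2 L r m s) = (0, (cst h, 1), 0) := by
  simp only [f2]
  rw [if_neg hh]

theorem f2_SS {gam : Fin g → ZZ L s} {h : Fin r → ZMod 2}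
    (hh : h ∈ (SS2 : Set (Fin r → ZMod 2))) :
    (f2 gam (Sum.inl (Sum.inr (Sum.inr h)) : G2 r m g) : V2 L r m s) =
      (dl (2 * m), (cst h, 1), 0) := by
  simp only [f2]
  rw [if_pos hh]

/-- vectors with the same class are equal -/
theorem inj1 {S : Submodule L (V2 L r m s)}
    (h1 : ∀ w : WW L r, ((0, w, 0) : V2 L r m s) ∈ S → w = 0) {w w' : WW L r}
    (h : ((0, w, 0) : V2 L r m s) - (0, w', 0) ∈ S) : w = w' := by
  have h2 : ((0, w, 0) : V2 L r m s) - (0, w', 0) = (0, w - w', 0) := by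
    refine Prod.ext (sub_self _) (Prod.ext rfl (sub_self _))
  rw [h2] at h
  exact sub_eq_zero.1 (h1 _ h)

theorem G_inj (hr : 2 ≤ r) (G' : NB r → WW L r)
    (hG2 : ∀ B : Set (NB r), LinearIndepOn L (vecB : NB r → WW L r) B ↔ LinearIndepOn L G' B)
    {z z' : NB r} (h : G' z = G' z') : z = z' := by
  by_contra hz
  have h1 := (hG2 {z, z'}).1 (vecB_simple hr hz)
  rw [LinearIndepOn.pair_iff _ hz] at h1
  have h2 := (h1 1 (-1) (by rw [h, one_smul, neg_smul, one_smul, add_neg_cancel])).1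
  exact one_ne_zero h2

theorem single_inj {c c' : L} (hc : c ≠ 0) {i k : Fin r}
    (h : c • ((Pi.single i 1, 1) : WW L r) = c' • ((Pi.single k 1, 1) : WW L r)) : i = k := by
  by_contra hne
  have h1 := congrFun (congrArg Prod.fst h) i
  have h3 : c * (Pi.single i 1 : Fin r → L) i = c' * (Pi.single k 1 : Fin r → L) i := by
    simpa using h1
  rw [Pi.single_eq_same, Pi.single_eq_of_ne hne] at h3
  simp at h3
  exact hc h3

theorem arith {r : ℕ} (hr : 6 ≤ r) : 6 * r + 8 < 2 ^ r := by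
  induction r, hr using Nat.le_induction with
  | base => norm_num
  | succ n hn ih =>
    rw [pow_succ]
    omega

theorem ncard_range_le {α β : Type} [Finite β] (n : ℕ) (f : Fin n → β) (ι : α → β)
    (hι : Function.Injective ι) (A : Set α) (hA : ∀ z ∈ A, ∃ c, ι z = f c) : A.ncard ≤ n := by
  have h1 : A.ncard ≤ (Set.range f).ncard := by
    refine Set.ncard_le_ncard_of_injOn ι ?_ hι.injOn (Set.toFinite _)
    intro z hz
    obtain ⟨c, hc⟩ := hA z hz
    exact ⟨c, hc.symm⟩
  refine h1.trans ?_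
  rw [← Set.image_univ]
  refine (Set.ncard_image_le (Set.toFinite _)).trans ?_
  rw [Set.ncard_univ, Nat.card_eq_fintype_card, Fintype.card_fin]

end St2

theorem st2 (hr : (g + 6) ^ 2 ≤ r) {gam : Fin g → ZZ L s} {ι : NB r → G2 r m g}
    {X : Set (G2 r m g)} (h : Emb2 gam ι X)
    (h1 : ∀ w : WW L r, ((0, w, 0) : V2 L r m s) ∈
      Submodule.span L ((f2 gam : G2 r m g → V2 L r m s) '' X) → w = 0)
    (G' : NB r → WW L r)
    (hG1 : ∀ z, (f2 gam (ι z) : V2 L r m s) - (0, G' z, 0) ∈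
        Submodule.span L ((f2 gam : G2 r m g → V2 L r m s) '' X))
    (hG2 : ∀ B : Set (NB r), LinearIndepOn L (vecB : NB r → WW L r) B ↔ LinearIndepOn L G' B) :
    ((dl (2 * m), 0, 0) : V2 L r m s) ∈
      Submodule.span L ((f2 gam : G2 r m g → V2 L r m s) '' X) := by
  classical
  have hX : LinearIndepOn L (f2 gam : G2 r m g → V2 L r m s) X := by
    have h2 := (h.iff ∅).1 (linearIndepOn_empty L _)
    rwa [Set.image_empty, Set.empty_union] at h2
  have hoth := oth3 gam X h1
  obtain ⟨S, hS⟩ : ∃ S : Submodule L (V2 L r m s),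
      S = Submodule.span L ((f2 gam : G2 r m g → V2 L r m s) '' X) := ⟨_, rfl⟩
  rw [← hS] at h1 hG1 ⊢
  have h36 : 36 ≤ r := by nlinarith
  have hsq : (g + 4) ^ 2 + g + 3 ≤ r := by nlinarith
  have hXS : ∀ x ∈ X, S.mkQ (f2 gam x) = 0 := by
    intro x hx
    rw [Submodule.mkQ_apply, Submodule.Quotient.mk_eq_zero, hS]
    exact Submodule.subset_span ⟨x, hx, rfl⟩
  -- the path elements
  have hpath : ∀ A : Set (NB r), (∀ z ∈ A, ∃ c, ι z = Sum.inl (Sum.inl c)) →
      A.ncard ≤ (g + 4) ^ 2 := by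
    intro A hA
    have h2 : A.ncard ≤ (Set.range fun c : Fin (2 * m) ⊕ Fin (2 * m) =>
        S.mkQ (f2 gam (Sum.inl (Sum.inl c) : G2 r m g))).ncard := by
      refine Set.ncard_le_ncard_of_injOn (fun z => S.mkQ (f2 gam (ι z))) ?_ ?_ (Set.toFinite _)
      · intro z hz
        obtain ⟨c, hc⟩ := hA z hz
        exact ⟨c, by simp only [hc]⟩
      · intro z _ z' _ hzz
        refine St2.G_inj (by omega) G' hG2 (St2.inj1 h1 ?_)
        have h3 : (f2 gam (ι z) : V2 L r m s) - f2 gam (ι z') ∈ S := by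
          rw [← Submodule.Quotient.mk_eq_zero, Submodule.Quotient.mk_sub, sub_eq_zero]
          exact hzz
        have h4 := S.add_mem (S.sub_mem h3 (hG1 z)) (hG1 z')
        have h5 : (f2 gam (ι z) : V2 L r m s) - f2 gam (ι z') -
            (f2 gam (ι z) - (0, G' z, 0)) + (f2 gam (ι z') - (0, G' z', 0)) =
            (0, G' z, 0) - (0, G' z', 0) := by abel
        rwa [h5] at h4
    have h3 := pot2 (by omega) gam S.mkQ X hX hXS h.card
    refine h2.trans (h3.trans ?_)
    exact Nat.pow_le_pow_left (by omega) 2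
  -- the good elements
  have hgood : ∀ z h', h' ∉ (SS2 : Set (Fin r → ZMod 2)) → ι z = Sum.inl (Sum.inr (Sum.inr h')) →
      G' z = (cst h', 1) := by
    intro z h' hh' hz
    refine (St2.inj1 h1 ?_).symm
    have h2 := hG1 z
    rwa [hz, St2.f2_nSS hh'] at h2
  set E : Set (Fin r → ZMod 2) :=
    {h | ¬ ∃ h' ∉ (SS2 : Set (Fin r → ZMod 2)), ι (Sum.inr h) = Sum.inl (Sum.inr (Sum.inr h'))}
    with hE
  have hEc : E.ncard ≤ (g + 4) ^ 2 + r + r + g := by
    have h2 : E.ncard ≤ ((({z : NB r | ∃ c, ι z = Sum.inl (Sum.inl c)} ∪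
        {z : NB r | ∃ i, ι z = Sum.inl (Sum.inr (Sum.inl i))}) ∪
        {z : NB r | ∃ i : Fin r, ι z = Sum.inl (Sum.inr (Sum.inr (Pi.single i 1)))}) ∪
        {z : NB r | ∃ c, ι z = Sum.inr c}).ncard := by
      refine Set.ncard_le_ncard_of_injOn (fun h => (Sum.inr h : NB r)) ?_
        (Sum.inr_injective.injOn) (Set.toFinite _)
      intro h0 hh0
      rcases hι : ι (Sum.inr h0) with (c | (i | w)) | c
      · exact Or.inl (Or.inl (Or.inl ⟨c, hι⟩))
      · exact Or.inl (Or.inl (Or.inr ⟨i, hι⟩))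
      · by_cases hw : w ∈ (SS2 : Set (Fin r → ZMod 2))
        · obtain ⟨i, rfl⟩ := hw
          exact Or.inl (Or.inr ⟨i, hι⟩)
        · exact absurd ⟨w, hw, hι⟩ hh0
      · exact Or.inr ⟨c, hι⟩
    have e1 := hpath {z : NB r | ∃ c, ι z = Sum.inl (Sum.inl c)} (fun z hz => hz)
    have e2 := St2.ncard_range_le r (fun i => (Sum.inl (Sum.inr (Sum.inl i)) : G2 r m g)) ι h.inj
      {z : NB r | ∃ i, ι z = Sum.inl (Sum.inr (Sum.inl i))} (fun z hz => hz)
    have e3 := St2.ncard_range_le r
      (fun i => (Sum.inl (Sum.inr (Sum.inr (Pi.single i 1))) : G2 r m g)) ι h.inj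
      {z : NB r | ∃ i : Fin r, ι z = Sum.inl (Sum.inr (Sum.inr (Pi.single i 1)))}
      (fun z hz => hz)
    have e4 := St2.ncard_range_le g (fun i => (Sum.inr i : G2 r m g)) ι h.inj
      {z : NB r | ∃ c, ι z = Sum.inr c} (fun z hz => hz)
    have f1 := Set.ncard_union_le ((({z : NB r | ∃ c, ι z = Sum.inl (Sum.inl c)} ∪
        {z : NB r | ∃ i, ι z = Sum.inl (Sum.inr (Sum.inl i))}) ∪
        {z : NB r | ∃ i : Fin r, ι z = Sum.inl (Sum.inr (Sum.inr (Pi.single i 1)))}))
        {z : NB r | ∃ c, ι z = Sum.inr c}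
    have f2 := Set.ncard_union_le (({z : NB r | ∃ c, ι z = Sum.inl (Sum.inl c)} ∪
        {z : NB r | ∃ i, ι z = Sum.inl (Sum.inr (Sum.inl i))}))
        {z : NB r | ∃ i : Fin r, ι z = Sum.inl (Sum.inr (Sum.inr (Pi.single i 1)))}
    have f3 := Set.ncard_union_le {z : NB r | ∃ c, ι z = Sum.inl (Sum.inl c)}
        {z : NB r | ∃ i, ι z = Sum.inl (Sum.inr (Sum.inl i))}
    omega
  have hE8 : 2 * E.ncard + 8 < 2 ^ r := by
    have h2 := St2.arith (by omega : 6 ≤ r)
    omega
  have hcov := cover2 (by omega) G' hG2 E hE8 (by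
    intro h0 hh0
    rw [hE, Set.mem_setOf_eq, not_not] at hh0
    obtain ⟨h', hh', hz⟩ := hh0
    exact ⟨h', 1, one_ne_zero, by rw [hgood _ _ hh' hz, one_smul]⟩)
  choose v c hc hv using fun i : Fin r => hcov (Pi.single i 1)
  have hv' : ∀ i, G' (Sum.inr (v i)) = c i • ((Pi.single i 1, 1) : WW L r) := by
    intro i
    rw [hv i, St2.cst_single]
  have hvinj : Function.Injective fun i => (Sum.inr (v i) : NB r) := by
    intro i k hik
    have hik' : (Sum.inr (v i) : NB r) = Sum.inr (v k) := hik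
    refine St2.single_inj (hc i) (c' := c k) ?_
    rw [← hv' i, ← hv' k, hik']
  -- the three kinds of indices
  set A : Finset (Fin r) :=
    Finset.univ.filter fun i => ∃ y, ι (Sum.inr (v i)) = Sum.inl (Sum.inl y) with hA
  set B : Finset (Fin r) := Finset.univ.filter fun i => ∃ y, ι (Sum.inr (v i)) = Sum.inr y with hB
  set C : Finset (Fin r) := Finset.univ.filter fun i => ∃ i',
    ι (Sum.inr (v i)) = Sum.inl (Sum.inr (Sum.inr (Pi.single i' 1))) with hC
  have hcovABC : (Finset.univ : Finset (Fin r)) ⊆ A ∪ B ∪ C := by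
    intro i _
    rw [Finset.mem_union, Finset.mem_union, hA, hB, hC, Finset.mem_filter, Finset.mem_filter,
      Finset.mem_filter]
    rcases hcase : ι (Sum.inr (v i)) with (y | (j | w)) | y
    · left; left
      exact ⟨Finset.mem_univ _, y, rfl⟩
    · exfalso
      have e := hG1 (Sum.inr (v i))
      rw [hcase, hv' i] at e
      have e' := St2.inj1 h1 (w := (Pi.single j 1, 0)) e
      have e2 := congrArg Prod.snd e'
      apply hc i
      simpa using e2.symm
    · right
      refine ⟨Finset.mem_univ _, ?_⟩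
      by_cases hw : w ∈ (SS2 : Set (Fin r → ZMod 2))
      · obtain ⟨i', hi'⟩ := hw
        exact ⟨i', by rw [hi']⟩
      · exfalso
        have e := hgood _ _ hw hcase
        rw [hv' i] at e
        have hc1 : c i = 1 := by
          have e2 := congrArg Prod.snd e
          simpa using e2
        apply hw
        refine ⟨i, ?_⟩
        have e3 := congrArg Prod.fst e
        rw [hc1, one_smul] at e3
        refine St2.cst_inj (L := L) ?_
        rw [St2.cst_single]
        exact e3.symm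
    · left; right
      exact ⟨Finset.mem_univ _, y, rfl⟩
  have hAcard : A.card ≤ (g + 4) ^ 2 := by
    have h2 := hpath ((fun i => (Sum.inr (v i) : NB r)) '' (A : Set (Fin r))) (by
      rintro _ ⟨i, hi, rfl⟩
      rw [Finset.mem_coe, hA, Finset.mem_filter] at hi
      exact hi.2)
    rwa [Set.ncard_image_of_injective _ hvinj, Set.ncard_coe_finset] at h2
  have hBcard : B.card ≤ g := by
    have h2 := St2.ncard_range_le g (fun i => (Sum.inr i : G2 r m g))
      (fun i => ι (Sum.inr (v i))) (h.inj.comp hvinj) (B : Set (Fin r)) (by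
      intro i hi
      rw [Finset.mem_coe, hB, Finset.mem_filter] at hi
      exact hi.2)
    rwa [Set.ncard_coe_finset] at h2
  have hCcard : 3 ≤ C.card := by
    have h2 : r ≤ (A ∪ B ∪ C).card := by
      have := Finset.card_le_card hcovABC
      rwa [Finset.card_univ, Fintype.card_fin] at this
    have h3 := Finset.card_union_le (A ∪ B) C
    have h4 := Finset.card_union_le A B
    omega
  have hemb : Nonempty (Fin 3 ↪ C) := by
    apply Function.Embedding.nonempty_of_card_le
    rw [Fintype.card_fin, Fintype.card_coe]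
    exact hCcard
  obtain ⟨em⟩ := hemb
  have hmem : ∀ k : Fin 3, ∃ i', ι (Sum.inr (v (em k : Fin r))) =
      Sum.inl (Sum.inr (Sum.inr (Pi.single i' 1))) := by
    intro k
    exact (Finset.mem_filter.1 (em k).2).2
  choose i' hi' using hmem
  -- the class of `dl (2 m)`
  set Gk : Fin 3 → WW L r := fun k => c (em k : Fin r) •
    ((Pi.single (em k : Fin r) 1, 1) : WW L r) - (Pi.single (i' k) 1, 1) with hGk
  have hcl : ∀ k, ((dl (2 * m), 0, 0) : V2 L r m s) - (0, Gk k, 0) ∈ S := by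
    intro k
    have e := hG1 (Sum.inr (v (em k : Fin r)))
    rw [hi' k, St2.f2_SS ⟨i' k, rfl⟩, hv', St2.cst_single] at e
    have e2 : ((dl (2 * m), (Pi.single (i' k) 1, 1), 0) : V2 L r m s) -
        (0, c (em k : Fin r) • ((Pi.single (em k : Fin r) 1, 1) : WW L r), 0) =
        (dl (2 * m), 0, 0) - (0, Gk k, 0) := by
      refine Prod.ext rfl (Prod.ext ?_ rfl)
      simp only [hGk]
      show (Pi.single (i' k) 1, 1) -
        c (em k : Fin r) • ((Pi.single (em k : Fin r) 1, 1) : WW L r) = 0 - (_ - _)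
      abel
    rwa [e2] at e
  have hGeq : ∀ k, Gk k = Gk 0 := by
    intro k
    apply St2.inj1 h1
    have e := S.sub_mem (hcl 0) (hcl k)
    have e2 : ((dl (2 * m), 0, 0) : V2 L r m s) - (0, Gk 0, 0) -
        ((dl (2 * m), 0, 0) - (0, Gk k, 0)) = (0, Gk k, 0) - (0, Gk 0, 0) := by abel
    rwa [e2] at e
  have hG0 : Gk 0 = 0 := by
    apply three (Gk 0) (fun k => (em k : Fin r)) i' (fun k => c (em k : Fin r))
    · intro k l hkl
      exact em.injective (Subtype.ext hkl)
    · intro k l hkl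
      have e1 : ι (Sum.inr (v (em k : Fin r))) = ι (Sum.inr (v (em l : Fin r))) := by
        rw [hi' k, hi' l, hkl]
      exact em.injective (Subtype.ext (hvinj (h.inj e1)))
    · intro k
      rw [← hGeq k]
      simp only [hGk]
      abel
  have e := hcl 0
  rw [hG0] at e
  have e2 : ((0, 0, 0) : V2 L r m s) = 0 := rfl
  rwa [e2, sub_zero] at e

end Pool.Agent.MP8f11b1
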