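import Pool.Agent.Lib.MP_8f11b1_co_DU.Defs
import Pool.Agent.Lib.MP_8f11b1_co_RX.Lin

set_option autoImplicit false

namespace Pool.Agent.MP8f11b1

variable {L : Type} [Field L] [Algebra (ZMod 2) L] {r m g s : ℕ}

private theorem st3_two : (1 : L) + 1 = 0 := by
  have h : algebraMap (ZMod 2) L (1 + 1) = 0 := by
    have : (1 + 1 : ZMod 2) = 0 := by decide
    rw [this, map_zero]
  rwa [map_add, map_one] at h

private theorem st3_aa (x : L) : x + x = 0 := by
  have h := congrArg (fun y => x * y) (st3_two (L := L))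
  simpa [mul_add] using h

theorem st3 (hr : 2 ≤ r) {gam : Fin g → ZZ L s} {X : Set (G2 r m g)}
    (h1 : ∀ w : WW L r, ((0, w, 0) : V2 L r m s) ∈
      Submodule.span L ((f2 gam : G2 r m g → V2 L r m s) '' X) → w = 0)
    (hG : ((dl (2 * m), 0, 0) : V2 L r m s) ∈
      Submodule.span L ((f2 gam : G2 r m g → V2 L r m s) '' X)) (i : Fin (2 * m)) :
    (Sum.inl (Sum.inl (Sum.inl i)) : G2 r m g) ∈ X := by
  classical
  by_contra hc
  obtain ⟨S, hS⟩ : ∃ S : Submodule L (V2 L r m s),
      S = Submodule.span L ((f2 gam : G2 r m g → V2 L r m s) '' X) := ⟨_, rfl⟩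
  rw [← hS] at h1 hG
  let D : ℕ → L := fun k => if i.val + 1 ≤ k ∧ k ≤ 2 * m ∧
    ((dl k, 0, 0) : V2 L r m s) ∈ S then 1 else 0
  have hDdef : ∀ k, D k = if i.val + 1 ≤ k ∧ k ≤ 2 * m ∧
    ((dl k, 0, 0) : V2 L r m s) ∈ S then 1 else 0 := fun _ => rfl
  have hD : ∀ k, ∑ j : Fin (2 * m), (dl k j : L) * D (j.val + 1) = D k := by
    intro k
    by_cases hk1 : 1 ≤ k ∧ k ≤ 2 * m
    · rw [Finset.sum_eq_single (⟨k - 1, by omega⟩ : Fin (2 * m))]
      · have e : k - 1 + 1 = k := by omega
        unfold dl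
        rw [if_pos e, one_mul]
        show D (k - 1 + 1) = D k
        rw [e]
      · intro j _ hj
        have h1 : ¬ (j.val + 1 = k) := fun h => hj (Fin.ext (by
          show j.val = k - 1
          omega))
        unfold dl
        rw [if_neg h1, zero_mul]
      · intro h
        exact absurd (Finset.mem_univ _) h
    · have h0 : D k = 0 := by
        rw [hDdef, if_neg]
        rintro ⟨h1, h2, -⟩
        exact hk1 ⟨by omega, h2⟩
      rw [h0]
      apply Finset.sum_eq_zero
      intro j _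
      have h1 : ¬ (j.val + 1 = k) := by
        have := j.2
        intro h
        exact hk1 ⟨by omega, by omega⟩
      unfold dl
      rw [if_neg h1, zero_mul]
  obtain ⟨a, ha⟩ : ∃ a : L, a = ∑ j : Fin (2 * m), D (j.val + 1) := ⟨_, rfl⟩
  have h1r : 1 < r := by omega
  let χ : V2 L r m s →ₗ[L] L :=
    { toFun := fun v => ∑ j, v.1 j * D (j.val + 1) + a * v.2.1.1 ⟨1, h1r⟩
      map_add' := by
        intro v w
        simp only [Prod.fst_add, Prod.snd_add, Pi.add_apply, add_mul, mul_add,
          Finset.sum_add_distrib]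
        ring
      map_smul' := by
        intro c v
        simp only [Prod.smul_fst, Prod.smul_snd, Pi.smul_apply, smul_eq_mul, RingHom.id_apply,
          mul_add, Finset.mul_sum]
        congr 1
        · exact Finset.sum_congr rfl fun j _ => by ring
        · ring }
  have hχ : ∀ v : V2 L r m s, χ v = ∑ j, v.1 j * D (j.val + 1) + a * v.2.1.1 ⟨1, h1r⟩ :=
    fun _ => rfl
  have hker : ∀ z ∈ X, f2 gam z ∈ S := by
    intro z hz
    rw [hS]
    exact Submodule.subset_span ⟨z, hz, rfl⟩
  have hadd : ∀ (u : Fin (2 * m) → L) (w : WW L r), ((u, w, 0) : V2 L r m s) ∈ S →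
      ((u, 0, 0) : V2 L r m s) ∈ S → w = 0 := by
    intro u w h2 h3
    apply h1
    have e : ((0, w, 0) : V2 L r m s) = (u, w, 0) - (u, 0, 0) := by
      rw [Prod.mk_sub_mk, Prod.mk_sub_mk, sub_self, sub_zero, sub_self]
    rw [e]
    exact S.sub_mem h2 h3
  have hwj : ∀ j : ℕ, (wk j : WW L r) ≠ 0 := by
    intro j h0
    unfold wk at h0
    split_ifs at h0
    · have h2 := congrArg Prod.snd h0
      simp at h2
    · have h2 := congrFun (congrArg Prod.fst h0) ⟨0, by omega⟩
      unfold w0 at h2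
      simp at h2
  have hwj1 : ∀ j : ℕ, (wk j : WW L r).1 ⟨1, h1r⟩ = 0 := by
    intro j
    unfold wk
    split_ifs
    · rfl
    · unfold w0
      simp
  have hall : ∀ z ∈ X, χ (f2 gam z) = 0 := by
    intro z hz
    have hg0 := hker z hz
    rcases z with (((i' | j) | (i' | h)) | c)
    · have hne : i' ≠ i := fun h => hc (h ▸ hz)
      have hne' : i'.val ≠ i.val := fun h => hne (Fin.ext h)
      have e0 : (f2 gam (Sum.inl (Sum.inl (Sum.inl i')) : G2 r m g) : V2 L r m s) =
          (dl (i'.val + 1), 0, 0) + (dl i'.val, 0, 0) := by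
        unfold f2
        rw [Prod.mk_add_mk, Prod.mk_add_mk, add_zero, add_zero]
      rw [e0] at hg0
      have hiff : ((dl (i'.val + 1), 0, 0) : V2 L r m s) ∈ S ↔
          ((dl i'.val, 0, 0) : V2 L r m s) ∈ S := by
        constructor
        · intro h2
          have := S.sub_mem hg0 h2
          rwa [add_sub_cancel_left] at this
        · intro h2
          have := S.sub_mem hg0 h2
          rwa [add_sub_cancel_right] at this
      have e1 : ∀ k : ℕ, χ ((dl k, (0 : WW L r), 0) : V2 L r m s) = D k := by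
        intro k
        rw [hχ]
        have e2 : a * ((dl k, (0 : WW L r), 0) : V2 L r m s).2.1.1 ⟨1, h1r⟩ = 0 := by
          show a * 0 = 0
          rw [mul_zero]
        rw [e2, add_zero]
        exact hD k
      rw [e0, map_add, e1, e1, hDdef, hDdef]
      have h3 := i'.2
      by_cases h4 : i.val + 1 ≤ i'.val ∧ ((dl i'.val, 0, 0) : V2 L r m s) ∈ S
      · rw [if_pos ⟨by omega, by omega, hiff.2 h4.2⟩, if_pos ⟨h4.1, by omega, h4.2⟩]
        exact st3_two
      · rw [if_neg, if_neg]
        · rw [add_zero]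
        · rintro ⟨h5, -, h6⟩
          exact h4 ⟨h5, h6⟩
        · rintro ⟨h5, -, h6⟩
          exact h4 ⟨by omega, hiff.1 h6⟩
    · have e0 : (f2 gam (Sum.inl (Sum.inl (Sum.inr j)) : G2 r m g) : V2 L r m s) =
          (dl (j.val + 1), wk j.val, 0) := by
        unfold f2
        rfl
      rw [e0] at hg0
      have h5 : ((dl (j.val + 1), 0, 0) : V2 L r m s) ∉ S := fun h6 => hwj _ (hadd _ _ hg0 h6)
      rw [e0, hχ]
      have e1 : ∑ l : Fin (2 * m), ((dl (j.val + 1), (wk j.val : WW L r), 0) :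
          V2 L r m s).1 l * D (l.val + 1) = D (j.val + 1) := hD _
      rw [e1, hDdef, if_neg (fun h => h5 h.2.2)]
      show 0 + a * (wk j.val : WW L r).1 ⟨1, h1r⟩ = 0
      rw [hwj1, mul_zero, add_zero]
    · exfalso
      have e0 : (f2 gam (Sum.inl (Sum.inr (Sum.inl i')) : G2 r m g) : V2 L r m s) =
          (0, (Pi.single i' 1, 0), 0) := by
        unfold f2
        rfl
      rw [e0] at hg0
      have h2 := congrFun (congrArg Prod.fst (h1 _ hg0)) i'
      simp at h2
    · exfalso
      have e0 : (f2 gam (Sum.inl (Sum.inr (Sum.inr h)) : G2 r m g) : V2 L r m s) =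
          (if h ∈ SS2 then dl (2 * m) else 0, (cst h, 1), 0) := by
        unfold f2
        rfl
      rw [e0] at hg0
      have h2 : (((if h ∈ SS2 then dl (2 * m) else 0 : Fin (2 * m) → L), 0, 0) :
          V2 L r m s) ∈ S := by
        split_ifs
        · exact hG
        · exact S.zero_mem
      have h3 := congrArg Prod.snd (hadd _ _ hg0 h2)
      simp at h3
    · have e0 : (f2 gam (Sum.inr c : G2 r m g) : V2 L r m s) =
          (fun _ => (gam c).1, (fun _ => (gam c).1, (gam c).2.1), (gam c).2.2) := by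
        unfold f2
        rfl
      rw [e0, hχ]
      show ∑ j : Fin (2 * m), (gam c).1 * D (j.val + 1) + a * (gam c).1 = 0
      rw [← Finset.mul_sum, ← ha, mul_comm a]
      exact st3_aa _
  have hle : S ≤ LinearMap.ker χ := by
    rw [hS, Submodule.span_le]
    rintro _ ⟨z, hz, rfl⟩
    exact hall z hz
  have hmem : ((dl (2 * m), 0, 0) : V2 L r m s) ∈ LinearMap.ker χ := hle hG
  rw [LinearMap.mem_ker, hχ] at hmem
  have e1 : ∑ l : Fin (2 * m), ((dl (2 * m), (0 : WW L r), 0) : V2 L r m s).1 l *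
      D (l.val + 1) = D (2 * m) := hD _
  have hi := i.2
  rw [e1, hDdef, if_pos ⟨by omega, le_rfl, hG⟩] at hmem
  have h7 : a * ((dl (2 * m), (0 : WW L r), 0) : V2 L r m s).2.1.1 ⟨1, h1r⟩ = 0 := by
    show a * 0 = 0
    ring
  rw [h7, add_zero] at hmem
  exact one_ne_zero hmem

end Pool.Agent.MP8f11b1
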