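import Pool.Agent.Lib.MP_8f11b1_co_DU.Desc

set_option autoImplicit false

namespace Pool.Agent.MP8f11b1

variable {L : Type} [Field L] [Algebra (ZMod 2) L] {r m g s : ℕ}

/-- the change of coordinates -/
private def tr2e (L : Type) [Field L] (r m s : ℕ) :
    V2 L r m s ≃ₗ[L] (((Fin (2 * m) ⊕ (Fin r ⊕ Unit)) → L) × (Fin s → L)) where
  toFun x := (Sum.elim x.1 (Sum.elim x.2.1.1 (fun _ => x.2.1.2)), x.2.2)
  invFun y := (fun i => y.1 (.inl i), (fun i => y.1 (.inr (.inl i)), y.1 (.inr (.inr ()))), y.2)
  map_add' x y := by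
    refine Prod.ext ?_ rfl
    funext z
    rcases z with i | i | i <;> rfl
  map_smul' c x := by
    refine Prod.ext ?_ rfl
    funext z
    rcases z with i | i | i <;> rfl
  left_inv x := rfl
  right_inv y := by
    refine Prod.ext ?_ rfl
    funext z
    rcases z with i | i | i <;> rfl

open scoped Classical in
/-- the vectors over the field with two elements -/
private noncomputable def tr2v (r m : ℕ) :
    ((Fin (2 * m) ⊕ Fin (2 * m)) ⊕ NB r) → (Fin (2 * m) ⊕ (Fin r ⊕ Unit)) → ZMod 2
  | .inl (.inl i) => Sum.elim (fun x => dl (i.val + 1) x + dl i.val x) (fun _ => 0)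
  | .inl (.inr j) => Sum.elim (fun x => dl (j.val + 1) x)
      (if Even j.val then Sum.elim (fun _ => 0) (fun _ => 1)
        else Sum.elim (fun i => if i.val = 0 then 1 else 0) (fun _ => 0))
  | .inr (.inl i) => Sum.elim (fun _ => 0) (Sum.elim (Pi.single i 1 : Fin r → ZMod 2)
      (fun _ => 0))
  | .inr (.inr h) => Sum.elim (fun x => if h ∈ SS2 then dl (2 * m) x else 0)
      (Sum.elim (fun x => h x) (fun _ => 1))

private theorem tr2_dl (k : ℕ) (x : Fin (2 * m)) :
    algebraMap (ZMod 2) L (dl k x) = dl k x := by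
  unfold dl
  split_ifs
  · exact map_one _
  · exact map_zero _

/-- the large configuration is one of the configurations `fB` -/
theorem tr2 (hr : 1 ≤ r) (gam : Fin g → ZZ L s) :
    ∃ (e : V2 L r m s ≃ₗ[L] (((Fin (2 * m) ⊕ (Fin r ⊕ Unit)) → L) × (Fin s → L)))
      (v : ((Fin (2 * m) ⊕ Fin (2 * m)) ⊕ NB r) → (Fin (2 * m) ⊕ (Fin r ⊕ Unit)) → ZMod 2)
      (X P : (Fin (2 * m) ⊕ (Fin r ⊕ Unit)) → ZMod 2),
      X ≠ 0 ∧ P ≠ 0 ∧ X ≠ P ∧ ∀ z : G2 r m g, e (f2 gam z) = fB v X P gam z := by
  classical
  refine ⟨tr2e L r m s, tr2v r m, Sum.elim (fun _ => 1) (Sum.elim (fun _ => 1) (fun _ => 0)),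
    Sum.elim (fun _ => 0) (Sum.elim (fun _ => 0) (fun _ => 1)), ?_, ?_, ?_, ?_⟩
  · intro h
    have h1 := congrFun h (.inr (.inl ⟨0, hr⟩))
    exact one_ne_zero (α := ZMod 2) h1
  · intro h
    have h1 := congrFun h (.inr (.inr ()))
    exact one_ne_zero (α := ZMod 2) h1
  · intro h
    have h1 := congrFun h (.inr (.inl ⟨0, hr⟩))
    exact one_ne_zero (α := ZMod 2) h1
  · rintro (((i | j) | (i | h)) | c)
    · refine Prod.ext ?_ rfl
      funext x
      rcases x with x | x | x
      · change (dl (i.val + 1) x + dl i.val x : L) =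
          algebraMap (ZMod 2) L (dl (i.val + 1) x + dl i.val x)
        rw [map_add, tr2_dl, tr2_dl]
      · exact (map_zero (algebraMap (ZMod 2) L)).symm
      · exact (map_zero (algebraMap (ZMod 2) L)).symm
    · refine Prod.ext ?_ rfl
      funext x
      rcases x with x | x | x
      · change (dl (j.val + 1) x : L) = algebraMap (ZMod 2) L (dl (j.val + 1) x)
        rw [tr2_dl]
      · change (wk j.val : WW L r).1 x = algebraMap (ZMod 2) L (tr2v r m (.inl (.inr j))
          (.inr (.inl x)))
        unfold tr2v wk w0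
        simp only [Sum.elim_inr]
        by_cases hj : Even j.val
        · rw [if_pos hj, if_pos hj]
          exact (map_zero (algebraMap (ZMod 2) L)).symm
        · rw [if_neg hj, if_neg hj]
          change (if x.val = 0 then 1 else 0 : L) =
            algebraMap (ZMod 2) L (if x.val = 0 then 1 else 0)
          split_ifs
          · exact (map_one (algebraMap (ZMod 2) L)).symm
          · exact (map_zero (algebraMap (ZMod 2) L)).symm
      · change (wk j.val : WW L r).2 = algebraMap (ZMod 2) L (tr2v r m (.inl (.inr j))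
          (.inr (.inr x)))
        unfold tr2v wk w0
        simp only [Sum.elim_inr]
        by_cases hj : Even j.val
        · rw [if_pos hj, if_pos hj]
          exact (map_one (algebraMap (ZMod 2) L)).symm
        · rw [if_neg hj, if_neg hj]
          exact (map_zero (algebraMap (ZMod 2) L)).symm
    · refine Prod.ext ?_ rfl
      funext x
      rcases x with x | x | x
      · exact (map_zero (algebraMap (ZMod 2) L)).symm
      · change (Pi.single i 1 : Fin r → L) x =
          algebraMap (ZMod 2) L ((Pi.single i 1 : Fin r → ZMod 2) x)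
        by_cases hx : x = i
        · subst hx
          rw [Pi.single_eq_same, Pi.single_eq_same, map_one]
        · rw [Pi.single_eq_of_ne hx, Pi.single_eq_of_ne hx, map_zero]
      · exact (map_zero (algebraMap (ZMod 2) L)).symm
    · refine Prod.ext ?_ rfl
      funext x
      rcases x with x | x | x
      · change (if h ∈ SS2 then dl (2 * m) else 0 : Fin (2 * m) → L) x =
          algebraMap (ZMod 2) L (if h ∈ SS2 then dl (2 * m) x else 0)
        by_cases hh : h ∈ SS2
        · rw [if_pos hh, if_pos hh, tr2_dl]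
        · rw [if_neg hh, if_neg hh]
          exact (map_zero (algebraMap (ZMod 2) L)).symm
      · rfl
      · exact (map_one (algebraMap (ZMod 2) L)).symm
    · refine Prod.ext ?_ rfl
      funext x
      rcases x with x | x | x
      · change (gam c).1 = (gam c).1 * algebraMap (ZMod 2) L 1 +
          (gam c).2.1 * algebraMap (ZMod 2) L 0
        rw [map_one, map_zero, mul_one, mul_zero, add_zero]
      · change (gam c).1 = (gam c).1 * algebraMap (ZMod 2) L 1 +
          (gam c).2.1 * algebraMap (ZMod 2) L 0
        rw [map_one, map_zero, mul_one, mul_zero, add_zero]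
      · change (gam c).2.1 = (gam c).1 * algebraMap (ZMod 2) L 0 +
          (gam c).2.1 * algebraMap (ZMod 2) L 1
        rw [map_one, map_zero, mul_one, mul_zero, zero_add]

end Pool.Agent.MP8f11b1
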