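import Pool.Agent.Lib.MP_8f11b1_co_DU.St1
import Pool.Agent.Lib.MP_8f11b1_co_DU.St2
import Pool.Agent.Lib.MP_8f11b1_co_DU.St3

set_option autoImplicit false

namespace Pool.Agent.MP8f11b1

variable {L : Type} [Field L] [Algebra (ZMod 2) L] {r m g s : ℕ}

theorem uniq2 (hr : (g + 6) ^ 2 ≤ r) {gam : Fin g → ZZ L s} {ι : NB r → G2 r m g}
    {X : Set (G2 r m g)} (h : Emb2 gam ι X) :
    X = Set.range fun i => Sum.inl (Sum.inl (Sum.inl i)) := by
  obtain ⟨h1, G', hG1, hG2⟩ := st1 hr h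
  have hG := st2 hr h h1 G' hG1 hG2
  have h36 : 6 ^ 2 ≤ (g + 6) ^ 2 := Nat.pow_le_pow_left (by omega) 2
  have hr2 : 2 ≤ r := by omega
  have hs : (Set.range fun i : Fin (2 * m) =>
      (Sum.inl (Sum.inl (Sum.inl i)) : G2 r m g)) ⊆ X := by
    rintro _ ⟨i, rfl⟩
    exact st3 hr2 h1 hG i
  have hX : X.Finite := Set.toFinite X
  refine (Set.eq_of_subset_of_ncard_le hs ?_ hX).symm
  rw [h.card, Set.ncard_range_of_injective, Nat.card_eq_fintype_card, Fintype.card_fin]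
  intro a b hab
  simpa using hab

end Pool.Agent.MP8f11b1
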